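import Pool.Agent.Lib.MP_299528_co.W.Defs

-- part Pool.Agent.Lib.MP_299528_co.W.Lines
section

/-! Depth, residues, arcs and lines. -/

set_option autoImplicit false

namespace Pool.Agent.Lib.MP_299528_co.Bd

open Finset

private theorem step_aux {m : ℕ} (x : ℕ) {z : ℕ} (hz : z ≤ m) (hm : 0 < m) :
    (x % m + z < m ∧ (x + z) / m = x / m ∧ (x + z) % m = x % m + z) ∨
      (m ≤ x % m + z ∧ (x + z) / m = x / m + 1 ∧ (x + z) % m + m = x % m + z) := by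
  have h1 := Nat.div_add_mod x m
  have h2 := Nat.mod_lt x hm
  rcases lt_or_ge (x % m + z) m with h | h
  · exact Or.inl ⟨h, (Nat.div_mod_unique hm).2 ⟨by omega, h⟩⟩
  · have k : (x + z) / m = x / m + 1 ∧ (x + z) % m = x % m + z - m :=
      (Nat.div_mod_unique hm).2 ⟨by rw [mul_add, mul_one]; omega, by omega⟩
    exact Or.inr ⟨h, k.1, by omega⟩

theorem div_step {m : ℕ} (x : ℕ) {z : ℕ} (hz : z ≤ m) (hm : 0 < m) :
    (x + z) / m = x / m + if (x + z) % m < z then 1 else 0 := by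
  have h2 := Nat.mod_lt x hm
  rcases step_aux x hz hm with ⟨-, h, k⟩ | ⟨-, h, k⟩
  · rw [if_neg (by omega), h, add_zero]
  · rw [if_pos (by omega), h]

theorem arc_mono {m x z z' : ℕ} (hz : z ≤ z') (hz' : z' ≤ m) (h : (x + z) % m < z) :
    (x + z') % m < z' := by
  have hm : 0 < m := by omega
  have h2 := Nat.mod_lt x hm
  rcases step_aux x (hz.trans hz') hm with ⟨a, -, k⟩ | ⟨a, -, k⟩
  · omega
  · rcases step_aux x hz' hm with ⟨a', -, k'⟩ | ⟨a', -, k'⟩ <;> omega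

theorem arc_shift {m : ℕ} (hm : 0 < m) {x y z u : ℕ} (h1 : x ≤ y + z) (h2 : y ≤ x + z)
    (h : x % m < u) : (y + z) % m < u + 2 * z := by
  have _ := hm
  obtain ⟨j, hj⟩ := Nat.exists_eq_add_of_le h1
  have h3 : (x % m + j) % m ≤ x % m + j := Nat.mod_le _ _
  rw [Nat.mod_add_mod] at h3
  rw [hj]
  omega

private theorem bot_add0 (g : ℕ) (a : Multiset ℕ) :
    bot g a + Multiset.replicate (a.count g) g = a := by
  ext x
  rw [bot, Multiset.count_add, Multiset.count_filter, Multiset.count_replicate]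
  by_cases h : x = g
  · subst h; simp
  · have h' : ¬ g = x := fun e => h e.symm
    simp [h, h']

theorem eq_of_bot {g : ℕ} {a b : Multiset ℕ} (h : bot g a = bot g b)
    (h' : a.count g = b.count g) : a = b := by
  rw [← bot_add0 g a, ← bot_add0 g b, h, h']

theorem bot_add (g : ℕ) (a : Multiset ℕ) : bot g a + Multiset.replicate (a.count g) g = a := bot_add0 g a

theorem bot_rep (g : ℕ) (a : Multiset ℕ) (i : ℕ) :
    bot g (a + Multiset.replicate i g) = bot g a := by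
  ext x
  rw [bot, bot, Multiset.count_filter, Multiset.count_add, Multiset.count_filter,
    Multiset.count_replicate]
  by_cases h : x = g
  · subst h; simp
  · have h' : ¬ g = x := fun e => h e.symm
    simp [h, h']

theorem bot_bot (g : ℕ) (a : Multiset ℕ) : bot g (bot g a) = bot g a ∧ g ∉ bot g a := by
  refine ⟨?_, fun h => (Multiset.mem_filter.1 h).2 rfl⟩
  ext x
  rw [bot, bot, Multiset.count_filter, Multiset.count_filter]
  by_cases h : x = g <;> simp [h]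

namespace Ap

variable (Y : Ap)

private theorem bot_line (g : ℕ) (a : Multiset ℕ) (i : ℕ) :
    bot g (bot g a + Multiset.replicate i g) = bot g a := by
  rw [bot_rep, (bot_bot g a).1]

private theorem count_line (g : ℕ) (a : Multiset ℕ) (i : ℕ) :
    (bot g a + Multiset.replicate i g).count g = i := by
  rw [Multiset.count_add, Multiset.count_eq_zero.2 (bot_bot g a).2, Multiset.count_replicate_self,
    zero_add]

private theorem add_rep (g : ℕ) (a : Multiset ℕ) (i : ℕ) :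
    a + Multiset.replicate i g = bot g a + Multiset.replicate (a.count g + i) g := by
  rw [Multiset.replicate_add, ← add_assoc, bot_add]

theorem δ_eq (a : Multiset ℕ) : Y.δ a = Y.η a / Y.m := rfl

theorem η_add {a : Multiset ℕ} (ha : a ∈ Y.D) : Y.η a + a.sum = Y.T := by
  have := Y.lt a ha
  unfold η T
  omega

theorem of_cons {g : ℕ} {a : Multiset ℕ} (h : g ::ₘ a ∈ Y.D) :
    a ∈ Y.D ∧ g ∈ Y.G ∧ Y.η a = Y.η (g ::ₘ a) + g := by
  have ha := Y.down _ h a (Multiset.le_cons_self a g)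
  refine ⟨ha, Y.memG _ h g (Multiset.mem_cons_self g a), ?_⟩
  have h1 := Y.η_add ha
  have h2 := Y.η_add h
  rw [Multiset.sum_cons] at h2
  omega

theorem of_add {a s : Multiset ℕ} (h : a + s ∈ Y.D) :
    a ∈ Y.D ∧ Y.η a = Y.η (a + s) + s.sum := by
  have ha := Y.down _ h a (Multiset.le_add_right a s)
  refine ⟨ha, ?_⟩
  have h1 := Y.η_add ha
  have h2 := Y.η_add h
  rw [Multiset.sum_add] at h2
  omega

theorem of_erase {g : ℕ} {b : Multiset ℕ} (hb : b ∈ Y.D) (hg : g ∈ b) :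
    b.erase g ∈ Y.Us g ∧ b.erase g ∈ Y.low ∧ Y.η (b.erase g) = Y.η b + g := by
  have e := Multiset.cons_erase hg
  obtain ⟨h1, h2, h3⟩ := Y.of_cons (g := g) (a := b.erase g) (by rwa [e])
  rw [e] at h3
  refine ⟨mem_filter.2 ⟨h1, by rwa [e]⟩, mem_filter.2 ⟨h1, ?_⟩, h3⟩
  have h4 := Y.η_add h1
  have h5 := Y.hG g h2
  have h6 := Y.hm
  unfold T at h4
  omega

private theorem rot_inj (p : ℕ) : Set.InjOn (fun a => (Y.η a + p) % Y.m) Y.D := by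
  intro t ht s hs hts
  refine Y.inj t ht s hs ?_
  have h1 : Y.η t ≡ Y.η s [MOD Y.m] := Nat.ModEq.add_right_cancel' p hts
  have h2 : Y.η t + t.sum ≡ Y.η s + s.sum [MOD Y.m] := by
    rw [Y.η_add ht, Y.η_add hs]
  exact Nat.ModEq.add_left_cancel h1 h2

private theorem sum_rot {M : Type*} [AddCommMonoid M] (p : ℕ) (f : ℕ → M) :
    ∑ a ∈ Y.D, f ((Y.η a + p) % Y.m) = ∑ r ∈ range Y.m, f r := by
  have himg : Y.D.image (fun a => (Y.η a + p) % Y.m) = range Y.m := by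
    refine eq_of_subset_of_card_le ?_ ?_
    · intro x hx
      obtain ⟨t, -, rfl⟩ := mem_image.mp hx
      exact mem_range.mpr (Nat.mod_lt _ Y.hm)
    · rw [card_range, card_image_of_injOn (Y.rot_inj p), Y.cardD]
  rw [← himg, sum_image (Y.rot_inj p)]

private theorem card_rot (p u : ℕ) :
    (Y.D.filter (fun b => (Y.η b + p) % Y.m < u)).card = min Y.m u := by
  rw [card_filter, Y.sum_rot p (fun r => if r < u then 1 else 0), ← card_filter, ← card_range (min _ _)]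
  congr 1
  ext x
  simp

theorem res_inj : Set.InjOn Y.res Y.D := Y.rot_inj 0

theorem η_inj : Set.InjOn Y.η Y.D := fun _ ha _ hb h =>
  Y.res_inj ha hb (by unfold res; rw [h])

theorem sum_res {M : Type*} [AddCommMonoid M] (f : ℕ → M) :
    ∑ a ∈ Y.D, f (Y.res a) = ∑ r ∈ range Y.m, f r := Y.sum_rot 0 f

theorem mem_low {a : Multiset ℕ} : a ∈ Y.low ↔ a ∈ Y.D ∧ Y.m ≤ Y.η a := by
  unfold low
  rw [mem_filter]
  refine and_congr_right fun ha => ?_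
  have h1 := Y.η_add ha
  have h2 := Y.hm
  unfold T at h1
  omega

theorem Us_sub {g : ℕ} : Y.Us g ⊆ Y.low := fun a ha => by
  obtain ⟨h1, h2, h3⟩ := Y.of_cons (mem_filter.1 ha).2
  have := Y.hG g h2
  exact Y.mem_low.2 ⟨h1, by omega⟩

theorem Pu_sub (N : Finset ℕ) : Y.Pu N ⊆ Y.low := fun a ha => by
  obtain ⟨h1, g, -, h2⟩ := mem_filter.1 ha
  exact Y.Us_sub (mem_filter.2 ⟨h1, h2⟩)

theorem mem_Un_of_lt {g : ℕ} {a : Multiset ℕ} (ha : a ∈ Y.D) (h : Y.η a < g) : a ∈ Y.Un g := by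
  refine mem_filter.2 ⟨ha, fun k => ?_⟩
  have := (Y.of_cons k).2.2
  omega

theorem wt_G {a : Multiset ℕ} (ha : a ∈ Y.D) : wt Y.G a = a.sum := Y.apb_count ha

theorem card_arc_le (p u : ℕ) :
    (Y.D.filter (fun b => (Y.η b + p) % Y.m < u)).card ≤ u := by
  rw [Y.card_rot]
  exact min_le_right _ _

theorem card_arc_eq (p : ℕ) {u : ℕ} (hu : u ≤ Y.m) :
    (Y.D.filter (fun b => (Y.η b + p) % Y.m < u)).card = u := by
  rw [Y.card_rot, min_eq_right hu]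

theorem card_cd_le (p : ℕ) {r : ℝ} (hr : 0 ≤ r) :
    ((Y.D.filter (fun b => (cd Y.m (Y.η b + p) : ℝ) ≤ r)).card : ℝ) ≤ 2 * r + 1 := by
  have h1 : (Y.D.filter (fun b => (cd Y.m (Y.η b + p) : ℝ) ≤ r)).card ≤ 2 * ⌊r⌋₊ + 1 := by
    refine le_trans (card_le_card fun b hb => ?_) (Y.card_arc_le (p + ⌊r⌋₊) _)
    obtain ⟨h1, h2⟩ := mem_filter.1 hb
    refine mem_filter.2 ⟨h1, ?_⟩
    have h3 : cd Y.m (Y.η b + p) ≤ ⌊r⌋₊ := Nat.le_floor h2
    have h4 := Nat.mod_lt (Y.η b + p) Y.hm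
    rw [← add_assoc, ← Nat.mod_add_mod]
    rcases min_le_iff.1 h3 with h | h
    · have := Nat.mod_le ((Y.η b + p) % Y.m + ⌊r⌋₊) Y.m
      omega
    · rw [Nat.mod_eq_sub_mod (by omega)]
      have := Nat.mod_le ((Y.η b + p) % Y.m + ⌊r⌋₊ - Y.m) Y.m
      omega
  have h2 := Nat.floor_le hr
  have h3 : ((Y.D.filter (fun b => (cd Y.m (Y.η b + p) : ℝ) ≤ r)).card : ℝ) ≤
      2 * (⌊r⌋₊ : ℝ) + 1 := by exact_mod_cast h1
  linarith

theorem card_abs_le (y : ℝ) {r : ℝ} (hr : 0 ≤ r) :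
    ((Y.D.filter (fun b => |(Y.η b : ℝ) - y| ≤ r)).card : ℝ) ≤ 2 * r + 1 := by
  have h1 : (Y.D.filter (fun b => |(Y.η b : ℝ) - y| ≤ r)).card ≤ (Icc ⌈y - r⌉ ⌊y + r⌋).card := by
    refine card_le_card_of_injOn (fun b => (Y.η b : ℤ)) (fun b hb => ?_) (fun a ha b hb h => ?_)
    · obtain ⟨h1, h2⟩ := abs_le.1 (mem_filter.1 hb).2
      refine mem_coe.2 (mem_Icc.2 ⟨Int.ceil_le.2 ?_, Int.le_floor.2 ?_⟩)
      · push_cast
        linarith
      · push_cast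
        linarith
    · exact Y.η_inj (mem_filter.1 ha).1 (mem_filter.1 hb).1 (Nat.cast_injective (R := ℤ) h)
  rw [Int.card_Icc] at h1
  refine le_trans (Nat.cast_le.2 h1) ?_
  rcases le_total (⌊y + r⌋ + 1 - ⌈y - r⌉) 0 with h | h
  · rw [Int.toNat_eq_zero.2 h, Nat.cast_zero]
    linarith
  · have h2 : (((⌊y + r⌋ + 1 - ⌈y - r⌉).toNat : ℤ) : ℝ) = ((⌊y + r⌋ + 1 - ⌈y - r⌉ : ℤ) : ℝ) := by
      rw [Int.toNat_of_nonneg h]
    have h3 := Int.floor_le (y + r)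
    have h4 := Int.le_ceil (y - r)
    push_cast at h2
    linarith

private theorem rep_bd {g i : ℕ} {b : Multiset ℕ} (h : b + Multiset.replicate i g ∈ Y.D) :
    i ≤ Y.c + Y.m := by
  rcases Nat.eq_zero_or_pos i with h0 | h0
  · omega
  · have hg : g ∈ b + Multiset.replicate i g :=
      Multiset.mem_add.mpr (Or.inr (Multiset.mem_replicate.mpr ⟨by omega, rfl⟩))
    have h1 := Y.hG g (Y.memG _ h g hg)
    have h2 := Y.lt _ h
    rw [Multiset.sum_add, Multiset.sum_replicate, smul_eq_mul] at h2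
    have h3 : i * 1 ≤ i * g := Nat.mul_le_mul_left i (by omega)
    omega

private theorem tp_D (g : ℕ) {a : Multiset ℕ} (ha : a ∈ Y.D) : Y.tp g a ∈ Y.D := by
  have h : bot g a + Multiset.replicate (a.count g) g ∈ Y.D := by rwa [bot_add]
  exact Nat.findGreatest_spec (P := fun i => bot g a + Multiset.replicate i g ∈ Y.D)
    (Y.rep_bd h) h

private theorem line_iff {g : ℕ} {a : Multiset ℕ} (ha : a ∈ Y.D) (i : ℕ) :
    bot g a + Multiset.replicate i g ∈ Y.D ↔ i ≤ Y.len g a :=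
  ⟨fun h => Nat.le_findGreatest (P := fun i => bot g a + Multiset.replicate i g ∈ Y.D)
    (Y.rep_bd h) h, fun h => Y.down _ (Y.tp_D g ha) _
    (add_le_add le_rfl ((Multiset.replicate_le_replicate g).mpr h))⟩

theorem add_rep_iff {g : ℕ} {a : Multiset ℕ} (ha : a ∈ Y.D) (i : ℕ) :
    a + Multiset.replicate i g ∈ Y.D ↔ a.count g + i ≤ Y.len g a := by
  rw [add_rep, Y.line_iff ha]

theorem count_le_len (g : ℕ) {a : Multiset ℕ} (ha : a ∈ Y.D) : a.count g ≤ Y.len g a :=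
  (Y.line_iff ha _).1 (by rwa [bot_add])

theorem bot_mem (g : ℕ) {a : Multiset ℕ} (ha : a ∈ Y.D) :
    bot g a ∈ Y.D ∧ Y.η (bot g a) = Y.η a + uu g a := by
  have h := Y.of_add (a := bot g a) (s := Multiset.replicate (a.count g) g) (by rwa [bot_add])
  rwa [bot_add, Multiset.sum_replicate, smul_eq_mul] at h

theorem line_mem {g : ℕ} {a : Multiset ℕ} (ha : a ∈ Y.D) {i : ℕ} (hi : i ≤ Y.len g a) :
    bot g a + Multiset.replicate i g ∈ Y.D ∧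
      Y.η (bot g a + Multiset.replicate i g) = Y.η (Y.tp g a) + (Y.len g a - i) * g := by
  refine ⟨(Y.line_iff ha i).2 hi, ?_⟩
  have e : bot g a + Multiset.replicate i g + Multiset.replicate (Y.len g a - i) g = Y.tp g a := by
    rw [add_assoc, ← Multiset.replicate_add, Nat.add_sub_cancel' hi, tp]
  have h := (Y.of_add (a := bot g a + Multiset.replicate i g)
    (s := Multiset.replicate (Y.len g a - i) g) (by rw [e]; exact Y.tp_D g ha)).2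
  rwa [e, Multiset.sum_replicate, smul_eq_mul] at h

theorem len_congr {g : ℕ} {a b : Multiset ℕ} (h : bot g a = bot g b) :
    Y.len g a = Y.len g b ∧ Y.tp g a = Y.tp g b := by
  have e : Y.len g a = Y.len g b := by unfold len; rw [h]
  exact ⟨e, by unfold tp; rw [e, h]⟩

theorem tp_eq (g : ℕ) {a : Multiset ℕ} (ha : a ∈ Y.D) :
    Y.tp g a = a + Multiset.replicate (Y.len g a - a.count g) g := by
  rw [add_rep, Nat.add_sub_cancel' (Y.count_le_len g ha), tp]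

theorem tp_mem (g : ℕ) {a : Multiset ℕ} (ha : a ∈ Y.D) : Y.tp g a ∈ Y.Un g := by
  refine mem_filter.2 ⟨Y.tp_D g ha, fun h => ?_⟩
  rw [tp, ← Multiset.add_cons, ← Multiset.replicate_succ, Y.line_iff ha] at h
  omega

theorem tp_of_Un {g : ℕ} {a : Multiset ℕ} (ha : a ∈ Y.Un g) : Y.tp g a = a := by
  obtain ⟨h1, h2⟩ := mem_filter.1 ha
  have h3 : ¬ a.count g + 1 ≤ Y.len g a := fun k => h2 (by
    have := (Y.add_rep_iff h1 1).2 k
    rwa [Multiset.replicate_one, add_comm, Multiset.singleton_add] at this)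
  rw [Y.tp_eq g h1, Nat.sub_eq_zero_of_le (by omega), Multiset.replicate_zero, add_zero]

theorem bot_tp (g : ℕ) (a : Multiset ℕ) :
    bot g (Y.tp g a) = bot g a ∧ (Y.tp g a).count g = Y.len g a :=
  ⟨bot_line g a _, count_line g a _⟩

theorem η_tp (g : ℕ) {a : Multiset ℕ} (ha : a ∈ Y.D) :
    Y.η a = Y.η (Y.tp g a) + (Y.len g a - a.count g) * g := by
  have h := (Y.line_mem ha (Y.count_le_len g ha)).2
  rwa [bot_add] at h

/-- If `q` copies of `g` cannot be added then the top is close. -/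
theorem η_tp_of_not {g q : ℕ} {a : Multiset ℕ} (ha : a ∈ Y.D)
    (h : a + Multiset.replicate q g ∉ Y.D) : Y.η a + g ≤ Y.η (Y.tp g a) + q * g := by
  rw [Y.add_rep_iff ha] at h
  have h1 := Y.η_tp g ha
  have h3 := Y.count_le_len g ha
  have h2 : (Y.len g a - a.count g + 1) * g ≤ q * g := Nat.mul_le_mul_right g (by omega)
  rw [add_mul, one_mul] at h2
  omega

theorem rf_mem (g : ℕ) {a : Multiset ℕ} (ha : a ∈ Y.D) : Y.rf g a ∈ Y.D :=
  (Y.line_iff ha _).2 (Nat.sub_le _ _)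

theorem bot_rf (g : ℕ) (a : Multiset ℕ) :
    bot g (Y.rf g a) = bot g a ∧ (Y.rf g a).count g = Y.len g a - a.count g :=
  ⟨bot_line g a _, count_line g a _⟩

theorem rf_rf (g : ℕ) {a : Multiset ℕ} (ha : a ∈ Y.D) : Y.rf g (Y.rf g a) = a := by
  obtain ⟨h1, h2⟩ := Y.bot_rf g a
  rw [rf, h1, h2, (Y.len_congr h1).1, Nat.sub_sub_self (Y.count_le_len g ha), bot_add]

theorem tp_rf (g : ℕ) (a : Multiset ℕ) : Y.tp g (Y.rf g a) = Y.tp g a :=
  (Y.len_congr (Y.bot_rf g a).1).2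

theorem η_rf (g : ℕ) {a : Multiset ℕ} (ha : a ∈ Y.D) :
    Y.η (Y.rf g a) = Y.η (Y.tp g a) + uu g a := by
  have h := (Y.line_mem ha (Nat.sub_le (Y.len g a) (a.count g))).2
  rwa [Nat.sub_sub_self (Y.count_le_len g ha)] at h

theorem uu_rf (g : ℕ) {a : Multiset ℕ} (ha : a ∈ Y.D) :
    uu g (Y.rf g a) + Y.η (Y.tp g a) = Y.η a := by
  rw [uu, (Y.bot_rf g a).2, Y.η_tp g ha, add_comm]

theorem sum_rf {M : Type*} [AddCommMonoid M] (g : ℕ) (F : Multiset ℕ → M) :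
    ∑ a ∈ Y.D, F (Y.rf g a) = ∑ a ∈ Y.D, F a :=
  sum_nbij' (Y.rf g) (Y.rf g) (fun _ ha => Y.rf_mem g ha) (fun _ ha => Y.rf_mem g ha)
    (fun _ ha => Y.rf_rf g ha) (fun _ ha => Y.rf_rf g ha) (fun _ _ => rfl)

theorem sum_uu {M : Type*} [AddCommMonoid M] (g : ℕ) (f : ℕ → M) :
    ∑ a ∈ Y.D, f (uu g a) = ∑ a ∈ Y.D, f (Y.η a - Y.η (Y.tp g a)) := by
  rw [← Y.sum_rf g (fun a => f (uu g a))]
  refine sum_congr rfl fun a ha => ?_
  rw [← Y.uu_rf g ha, Nat.add_sub_cancel]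

theorem sum_tp {M : Type*} [AddCommMonoid M] (g : ℕ) (F : Multiset ℕ → M) :
    ∑ a ∈ Y.D, F (Y.tp g a) = ∑ a ∈ Y.Un g, (a.count g + 1) • F a := by
  rw [← sum_fiberwise_of_maps_to (g := Y.tp g) (fun a ha => Y.tp_mem g ha)]
  refine sum_congr rfl fun t ht => ?_
  have ht1 := (mem_filter.1 ht).1
  have e : Y.len g t = t.count g := by
    rw [← (Y.bot_tp g t).2, Y.tp_of_Un ht]
  rw [sum_congr rfl (g := fun _ => F t) (fun a ha => by rw [(mem_filter.1 ha).2]), sum_const,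
    ← card_range (t.count g + 1)]
  congr 1
  refine card_nbij' (fun a => a.count g) (fun i => bot g t + Multiset.replicate i g)
    (fun a ha => ?_) (fun i hi => ?_) (fun a ha => ?_) (fun i _ => count_line g t i)
  · obtain ⟨h1, h2⟩ := mem_filter.1 ha
    have h3 := Y.count_le_len g h1
    rw [← (Y.bot_tp g a).2, h2] at h3
    exact mem_coe.2 (mem_range.2 (Nat.lt_succ_of_le h3))
  · have h1 : i ≤ Y.len g t := e ▸ Nat.le_of_lt_succ (mem_range.1 hi)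
    exact mem_coe.2 (mem_filter.2 ⟨(Y.line_iff ht1 i).2 h1,
      (Y.len_congr (bot_line g t i)).2.trans (Y.tp_of_Un ht)⟩)
  · show bot g t + Multiset.replicate (a.count g) g = a
    rw [← (mem_filter.1 ha).2, (Y.bot_tp g a).1, bot_add]

theorem sum_pair {M : Type*} [AddCommMonoid M] (g : ℕ) (F : Multiset ℕ → M) :
    ∑ b ∈ Y.D.filter (fun b => g ∈ b), F b = ∑ a ∈ Y.Us g, F (g ::ₘ a) :=
  sum_nbij' (fun b => b.erase g) (fun a => g ::ₘ a)
    (fun _ hb => (Y.of_erase (mem_filter.1 hb).1 (mem_filter.1 hb).2).1)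
    (fun a ha => mem_filter.2 ⟨(mem_filter.1 ha).2, Multiset.mem_cons_self g a⟩)
    (fun _ hb => Multiset.cons_erase (mem_filter.1 hb).2)
    (fun a _ => Multiset.erase_cons_head g a)
    (fun _ hb => by rw [Multiset.cons_erase (mem_filter.1 hb).2])

theorem sum_count {M : Type*} [AddCommMonoid M] (g : ℕ) (F : Multiset ℕ → M) :
    ∑ b ∈ Y.D, b.count g • F b = ∑ a ∈ Y.Us g, (a.count g + 1) • F (g ::ₘ a) := by
  rw [← sum_filter_of_ne (p := fun b => g ∈ b) (fun b _ h => by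
    by_contra k
    exact h (by rw [Multiset.count_eq_zero.2 k, zero_nsmul])),
    Y.sum_pair g (fun b => b.count g • F b)]
  refine sum_congr rfl fun a _ => ?_
  rw [Multiset.count_cons_self]

end Ap

end Pool.Agent.Lib.MP_299528_co.Bd
end

-- part Pool.Agent.Lib.MP_299528_co.W.Ident
section

/-! Global identities and first consequences of a violation. -/

set_option autoImplicit false

namespace Pool.Agent.Lib.MP_299528_co.Bd

open Finset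

namespace Ap

variable (Y : Ap)

theorem η_lt (a : Multiset ℕ) : Y.η a < Y.m * (Y.δ a + 1) ∧ Y.m * Y.δ a ≤ Y.η a := by
  exact ⟨Nat.lt_mul_div_succ _ Y.hm, Nat.mul_div_le _ _⟩

theorem η_low {a : Multiset ℕ} (ha : a ∈ Y.low) : 1 ≤ Y.δ a ∧ Y.η a ≤ 2 * (Y.m * Y.δ a) := by
  have h1 : 1 ≤ Y.δ a := (Nat.one_le_div_iff Y.hm).2 (Y.mem_low.1 ha).2
  have h2 := (Y.η_lt a).1
  have h3 := Nat.mul_le_mul_left Y.m h1
  rw [mul_add] at h2
  exact ⟨h1, by omega⟩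

theorem sum_η : 2 * ∑ a ∈ Y.D, Y.η a + Y.m = 2 * (Y.m * Y.n) + Y.m * Y.m := by
  have h1 : ∑ a ∈ Y.D, Y.η a = Y.m * Y.n + ∑ r ∈ range Y.m, r := by
    rw [← Y.sum_res fun r => r, n, mul_sum, ← sum_add_distrib]
    exact sum_congr rfl fun a _ => (Nat.div_add_mod _ _).symm
  have h2 := sum_range_id_mul_two Y.m
  have h3 : Y.m * (Y.m - 1) + Y.m = Y.m * Y.m := by
    rw [← Nat.mul_succ, Nat.succ_eq_add_one, Nat.sub_add_cancel Y.hm]
  omega

theorem sum_η_low : ∑ a ∈ Y.low, Y.η a ≤ 2 * (Y.m * Y.n) := by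
  calc ∑ a ∈ Y.low, Y.η a ≤ ∑ a ∈ Y.low, 2 * (Y.m * Y.δ a) := sum_le_sum fun a ha => (Y.η_low ha).2
    _ ≤ ∑ a ∈ Y.D, 2 * (Y.m * Y.δ a) := sum_le_sum_of_subset (filter_subset _ _)
    _ = _ := by rw [n, mul_sum, mul_sum]

theorem GG_eq (g : ℕ) : Y.GG g = ∑ a ∈ Y.D, Y.δ (Y.tp g a) := by
  rw [Y.sum_tp g Y.δ]
  rfl

theorem GG_le_YT (g : ℕ) : Y.m * Y.GG g ≤ Y.YT g := by
  rw [GG_eq, mul_sum]
  exact sum_le_sum fun a _ => (Y.η_lt _).2

theorem GS_mono {H H' : Finset ℕ} (h : H ⊆ H') : Y.GS H ≤ Y.GS H' := by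
  exact sum_le_sum_of_subset h

theorem n_eq (h : ℕ) :
    Y.n = Y.GG h + ∑ b ∈ Y.D, b.count h * ((Y.res b + h) / Y.m) := by
  have h1 := sum_filter_add_sum_filter_not Y.D (fun a => h ::ₘ a ∈ Y.D)
    fun a => (a.count h + 1) * Y.δ a
  have h2 := Y.sum_count h fun b => Y.δ b + (Y.res b + h) / Y.m
  have h3 : ∑ a ∈ Y.Us h, (a.count h + 1) • (Y.δ (h ::ₘ a) + (Y.res (h ::ₘ a) + h) / Y.m) =
      ∑ a ∈ Y.D.filter (fun a => h ::ₘ a ∈ Y.D), (a.count h + 1) * Y.δ a := by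
    refine sum_congr rfl fun a ha => ?_
    rw [smul_eq_mul, Y.δ_eq a, (Y.of_cons (mem_filter.1 ha).2).2.2,
      ← Nat.div_add_mod (Y.η (h ::ₘ a)) Y.m, add_assoc, Nat.mul_add_div Y.hm]
    rfl
  have h4 : Y.GG h = ∑ a ∈ Y.D.filter (fun a => ¬ h ::ₘ a ∈ Y.D), (a.count h + 1) * Y.δ a := rfl
  rw [h3] at h2
  rw [← h4, ← h2] at h1
  simp only [smul_eq_mul, mul_add, add_mul, one_mul, sum_add_distrib] at h1
  rw [n]
  omega

theorem ident_AA (g : ℕ) : g * Y.AA g = ∑ a ∈ Y.D, uu g a := by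
  rw [AA, mul_sum]
  exact sum_congr rfl fun a _ => mul_comm _ _

theorem sum_AA : ∑ g ∈ Y.G, g * Y.AA g + ∑ a ∈ Y.D, Y.η a = Y.m * Y.T := by
  simp only [ident_AA]
  rw [sum_comm, ← sum_add_distrib, ← Y.cardD, ← smul_eq_mul, ← sum_const]
  refine sum_congr rfl fun a ha => ?_
  rw [← Y.η_add ha, ← Y.wt_G ha, add_comm]
  rfl

theorem AA_YT (g : ℕ) : g * Y.AA g + Y.YT g = ∑ a ∈ Y.D, Y.η a := by
  rw [ident_AA, ← Y.sum_rf g (uu g), YT, ← sum_add_distrib]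
  exact sum_congr rfl fun a ha => Y.uu_rf g ha

theorem sum_YT : (Y.k + 1) * ∑ a ∈ Y.D, Y.η a = Y.m * Y.T + ∑ g ∈ Y.G, Y.YT g := by
  have h1 : ∑ g ∈ Y.G, (g * Y.AA g + Y.YT g) = Y.k * ∑ a ∈ Y.D, Y.η a := by
    rw [sum_congr rfl fun g _ => Y.AA_YT g, sum_const, smul_eq_mul, k]
  have h2 := Y.sum_AA
  rw [sum_add_distrib] at h1
  rw [add_mul, one_mul]
  omega

theorem AA_le (g : ℕ) : g * Y.AA g ≤ 2 * (Y.m * Y.n) := by
  refine le_trans ?_ Y.sum_η_low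
  rw [ident_AA, ← Y.sum_rf g (uu g)]
  refine (sum_le_sum_of_ne_zero (t := Y.low) fun a ha h => Y.mem_low.2 ⟨ha, ?_⟩).trans
    (sum_le_sum fun a ha => ?_)
  · have h1 : (Y.rf g a).count g ≠ 0 := left_ne_zero_of_mul h
    have h2 := Y.hG g (Y.memG _ (Y.rf_mem g ha) g (Multiset.count_ne_zero.1 h1))
    have h3 := Y.uu_rf g ha
    have h4 : g ≤ uu g (Y.rf g a) := Nat.le_mul_of_pos_left g (Nat.pos_of_ne_zero h1)
    omega
  · have := Y.uu_rf g (Y.mem_low.1 ha).1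
    omega

theorem PP_le (g : ℕ) : Y.PP g ≤ Y.low.card ∧ Y.PP g ≤ Y.m := by
  refine ⟨?_, Y.cardD ▸ card_filter_le _ _⟩
  have h := Y.sum_pair g fun _ => 1
  rw [← card_eq_sum_ones, ← card_eq_sum_ones] at h
  rw [PP, h]
  exact card_le_card Y.Us_sub

theorem ident_ct {H : Finset ℕ} {x : ℕ} (hH : ∀ g ∈ H, x ≤ g) {b : Multiset ℕ} (hb : b ∈ Y.D) :
    ct H b * x ≤ Y.T := by
  have h1 : ct H b * x ≤ wt H b := by
    rw [ct, sum_mul]
    exact sum_le_sum fun g hg => Nat.mul_le_mul_left _ (hH g hg)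
  have h2 : wt H b ≤ wt Y.G b := sum_le_sum_of_ne_zero fun g _ h =>
    Y.memG b hb g (Multiset.count_ne_zero.1 (left_ne_zero_of_mul h))
  have h3 := Y.wt_G hb
  have h4 := Y.η_add hb
  omega

/-- The number of distinct letters of size at least `x` in one element. -/
theorem sum_PP_le {H : Finset ℕ} {x : ℕ} (hH : ∀ g ∈ H, x ≤ g) :
    (∑ g ∈ H, Y.PP g) * x ≤ Y.T * Y.m := by
  have h1 : ∑ g ∈ H, Y.PP g ≤ ∑ b ∈ Y.D, ct H b := by
    simp only [PP, ct, card_filter]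
    rw [sum_comm]
    refine sum_le_sum fun b _ => sum_le_sum fun g _ => ?_
    split_ifs with h
    · exact Multiset.one_le_count_iff_mem.2 h
    · exact Nat.zero_le _
  refine (Nat.mul_le_mul_right x h1).trans ?_
  rw [sum_mul, mul_comm, ← Y.cardD, ← smul_eq_mul]
  exact sum_le_card_nsmul _ _ _ fun b hb => Y.ident_ct hH hb

theorem ct_mul_le {H : Finset ℕ} {x : ℕ} (hH : ∀ g ∈ H, x ≤ g) {b : Multiset ℕ} (hb : b ∈ Y.D) :
    ct H b * x ≤ Y.T := by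
  exact Y.ident_ct hH hb

theorem T_le : Y.T ≤ (2 * Y.k + 1) * Y.n + Y.m := by
  have h1 := sum_le_card_nsmul Y.G _ _ fun g _ => Y.AA_le g
  have h2 := Y.sum_AA
  have h3 := Y.sum_η
  refine Nat.le_of_mul_le_mul_left ?_ Y.hm
  have e : Y.m * ((2 * Y.k + 1) * Y.n + Y.m) =
      Y.G.card • (2 * (Y.m * Y.n)) + Y.m * Y.n + Y.m * Y.m := by
    rw [smul_eq_mul, k]; ring
  omega

theorem T_le' : 2 * Y.T ≤ 2 * ((Y.k + 1) * Y.n) + (Y.k + 1) * Y.m := by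
  have h1 := Y.sum_YT
  have h2 := congrArg ((Y.k + 1) * ·) Y.sum_η
  refine Nat.le_of_mul_le_mul_left ?_ Y.hm
  have e1 : Y.m * (2 * ((Y.k + 1) * Y.n) + (Y.k + 1) * Y.m) =
      (Y.k + 1) * (2 * (Y.m * Y.n) + Y.m * Y.m) := by ring
  have e2 : (Y.k + 1) * (2 * ∑ a ∈ Y.D, Y.η a + Y.m) =
      2 * ((Y.k + 1) * ∑ a ∈ Y.D, Y.η a) + (Y.k + 1) * Y.m := by ring
  have e3 : Y.m * (2 * Y.T) = 2 * (Y.m * Y.T) := by ring
  omega

theorem Viol.n_le {Y : Ap} (h : Y.Viol) : (Y.k + 1) * Y.n + Y.m ≤ Y.T := by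
  have h1 : (Y.k + 1) * Y.n < Y.c := h
  rw [T]
  omega

theorem Viol.YT_le {Y : Ap} (h : Y.Viol) : 2 * ∑ g ∈ Y.G, Y.YT g ≤ Y.k * (Y.m * Y.m) := by
  have h1 := Y.sum_YT
  have h2 := congrArg ((Y.k + 1) * ·) Y.sum_η
  have h3 := Nat.mul_le_mul_left Y.m h.n_le
  have e1 : (Y.k + 1) * (2 * (Y.m * Y.n) + Y.m * Y.m) =
      2 * (Y.m * ((Y.k + 1) * Y.n)) + Y.k * (Y.m * Y.m) + Y.m * Y.m := by ring
  have e2 : (Y.k + 1) * (2 * ∑ a ∈ Y.D, Y.η a + Y.m) =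
      2 * ((Y.k + 1) * ∑ a ∈ Y.D, Y.η a) + (Y.k + 1) * Y.m := by ring
  rw [mul_add] at h3
  omega

theorem Viol.GS_le {Y : Ap} (h : Y.Viol) : 2 * Y.GS Y.G ≤ Y.k * Y.m := by
  have h1 := h.YT_le
  have h2 : Y.m * Y.GS Y.G ≤ ∑ g ∈ Y.G, Y.YT g := by
    rw [GS, mul_sum]
    exact sum_le_sum fun g _ => Y.GG_le_YT g
  refine Nat.le_of_mul_le_mul_left ?_ Y.hm
  rw [mul_left_comm, mul_left_comm Y.m]
  omega

theorem Viol.GS_le_PP {Y : Ap} (h : Y.Viol) : Y.GS Y.G ≤ ∑ g ∈ Y.G, Y.PP g := by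
  have h1 : ∀ g, Y.m * Y.GG g + g * Y.AA g ≤ Y.m * Y.n + Y.m * Y.PP g := fun g => by
    rw [GG_eq, ident_AA, n, ← Y.sum_rf g Y.δ, PP, card_filter, mul_sum, mul_sum, mul_sum,
      ← sum_add_distrib, ← sum_add_distrib]
    refine sum_le_sum fun a ha => ?_
    have h2 := Y.η_rf g ha
    split_ifs with hg
    · have h3 := (Y.η_lt (Y.rf g a)).1
      have h4 := (Y.η_lt (Y.tp g a)).2
      rw [mul_add] at h3
      omega
    · have h3 : uu g a = 0 := by rw [uu, Multiset.count_eq_zero.2 hg, zero_mul]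
      rw [h3, Y.δ_eq (Y.rf g a), h2, h3]
      exact le_rfl
  have h2 := sum_le_sum fun g (_ : g ∈ Y.G) => h1 g
  rw [sum_add_distrib, sum_add_distrib, ← mul_sum, ← mul_sum Y.G Y.PP, sum_const, smul_eq_mul] at h2
  have h3 := Y.sum_AA
  have h4 := Y.sum_η
  have h5 := Nat.mul_le_mul_left Y.m h.n_le
  have e : Y.m * ((Y.k + 1) * Y.n + Y.m) = Y.G.card * (Y.m * Y.n) + Y.m * Y.n + Y.m * Y.m := by
    rw [k]; ring
  refine Nat.le_of_mul_le_mul_left ?_ Y.hm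
  rw [GS]
  omega

/-- Markov inequality for the tops. -/
theorem card_tp_le (g : ℕ) {x : ℝ} (hx : 0 < x) :
    ((Y.D.filter (fun a => x ≤ (Y.η (Y.tp g a) : ℝ))).card : ℝ) ≤ Y.YT g / x := by
  rw [le_div_iff₀ hx, ← nsmul_eq_mul, YT, Nat.cast_sum]
  exact (card_nsmul_le_sum _ _ _ fun a ha => (mem_filter.1 ha).2).trans
    (sum_le_sum_of_subset_of_nonneg (filter_subset _ _) fun a _ _ => Nat.cast_nonneg _)

/-- Counting pairs of an element of `P` and a letter of `H`. -/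
theorem card_pairs (H : Finset ℕ) {P : Finset (Multiset ℕ)} (hP : P ⊆ Y.D)
    (ψ : Multiset ℕ → ℝ) :
    (H.card : ℝ) * ∑ a ∈ P, ψ a =
      ∑ h ∈ H, ∑ a ∈ P ∩ Y.Un h, ψ a + ∑ h ∈ H, ∑ a ∈ P ∩ Y.Us h, ψ a := by
  rw [← sum_add_distrib, ← nsmul_eq_mul, ← sum_const]
  refine sum_congr rfl fun h _ => ?_
  rw [Un, Us, inter_filter, inter_filter, inter_eq_left.2 hP, add_comm,
    sum_filter_add_sum_filter_not]

/-- Unused pairs over low elements are paid by the surplus. -/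
theorem un_le_GG (g : ℕ) {P : Finset (Multiset ℕ)} (x : ℕ) (hP : ∀ a ∈ P, x ≤ Y.δ a) :
    x * ∑ a ∈ P ∩ Y.Un g, (a.count g + 1) ≤ Y.GG g := by
  rw [mul_sum]
  refine (sum_le_sum fun a ha => ?_).trans (sum_le_sum_of_subset (s := P ∩ Y.Un g) inter_subset_right)
  rw [mul_comm]
  exact Nat.mul_le_mul_left _ (hP a (mem_inter.1 ha).1)

end Ap

end Pool.Agent.Lib.MP_299528_co.Bd
end

-- part Pool.Agent.Lib.MP_299528_co.W.Rep
section

/-! Representatives of residue classes, the tournament bound and the corner lemma. -/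

set_option autoImplicit false

namespace Pool.Agent.Lib.MP_299528_co.Bd

open Finset

namespace Ap

variable (Y : Ap)

theorem rep_spec (x : ℕ) : Y.rep x ∈ Y.D ∧ (Y.rep x).sum % Y.m = x % Y.m := by
  have h : ∃ t ∈ Y.D, t.sum % Y.m = x % Y.m := by
    have e : Y.D.image (fun t => t.sum % Y.m) = range Y.m := by
      refine eq_of_subset_of_card_le (fun y hy => ?_) ?_
      · obtain ⟨t, -, rfl⟩ := mem_image.1 hy
        exact mem_range.2 (Nat.mod_lt _ Y.hm)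
      · rw [card_range, card_image_of_injOn (fun t ht s hs => Y.inj t ht s hs), Y.cardD]
    exact mem_image.1 (e ▸ mem_range.2 (Nat.mod_lt x Y.hm))
  rw [rep, dif_pos h]
  exact h.choose_spec

theorem rep_eq {t : Multiset ℕ} {x : ℕ} (ht : t ∈ Y.D) (h : t.sum % Y.m = x % Y.m) :
    Y.rep x = t :=
  Y.inj _ (Y.rep_spec x).1 _ ht ((Y.rep_spec x).2.trans h.symm)

theorem rep_bij (z : ℕ) : Set.BijOn (fun a : Multiset ℕ => Y.rep (a.sum + z)) Y.D Y.D := by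
  refine (Set.Finite.injOn_iff_bijOn_of_mapsTo Y.D.finite_toSet
    fun a _ => (Y.rep_spec _).1).1 fun a ha b hb e => Y.inj a ha b hb ?_
  have h : a.sum + z ≡ b.sum + z [MOD Y.m] :=
    (Y.rep_spec _).2.symm.trans ((congrArg (fun t => t.sum % Y.m) e).trans (Y.rep_spec _).2)
  exact Nat.ModEq.add_right_cancel' z h

theorem rep_card (z : ℕ) {S : Finset (Multiset ℕ)} (hS : S ⊆ Y.D) :
    (Y.D.filter fun t => Y.rep (t.sum + z) ∈ S).card = S.card := by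
  refine card_nbij (fun t => Y.rep (t.sum + z)) (fun t ht => (mem_filter.1 ht).2)
    ((Y.rep_bij z).injOn.mono (coe_subset.2 (filter_subset _ _))) fun b hb => ?_
  obtain ⟨t, ht, e⟩ := (Y.rep_bij z).surjOn (hS hb)
  exact ⟨t, mem_filter.2 ⟨ht, (show Y.rep (t.sum + z) = b from e) ▸ hb⟩, e⟩

theorem Un_iff {i : ℕ} {t : Multiset ℕ} (ht : t ∈ Y.D) :
    t ∈ Y.Un i ↔ i ∉ Y.rep (t.sum + i) := by
  simp only [Un, mem_filter, ht, true_and]
  refine not_congr ⟨fun h => ?_, fun h => ?_⟩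
  · rw [Y.rep_eq h (by rw [Multiset.sum_cons, add_comm])]
    exact Multiset.mem_cons_self _ _
  · obtain ⟨s, hs⟩ := Multiset.exists_cons_of_mem h
    obtain ⟨h1, h2⟩ := Y.rep_spec (t.sum + i)
    rw [hs] at h1 h2
    rw [Multiset.sum_cons, add_comm] at h2
    rwa [← Y.inj s (Y.of_cons h1).1 t ht (Nat.ModEq.add_right_cancel' i h2)]

/-- The tournament bound. -/
theorem tour (H : Finset ℕ) {B : Finset (Multiset ℕ)} (hB : B ⊆ Y.D) :
    (∑ i ∈ H, (B.filter (fun b => i ∉ b)).card) ^ 2 ≤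
      Y.m * (∑ i ∈ H, (B.filter (fun b => i ∉ b)).card +
        2 * H.card * ∑ j ∈ H, (B ∩ Y.Un j).card) := by
  let N : Multiset ℕ → Finset ℕ := fun t =>
    H.filter fun i => Y.rep (t.sum + i) ∈ B.filter (fun b => i ∉ b)
  let P : Multiset ℕ → Finset (ℕ × ℕ) := fun t =>
    (H ×ˢ H).filter fun p => Y.rep (t.sum + p.1) ∈ B ∩ Y.Un p.2
  have h1 : ∑ i ∈ H, (B.filter (fun b => i ∉ b)).card = ∑ t ∈ Y.D, (N t).card := by
    rw [sum_congr rfl fun i _ => (Y.rep_card i ((filter_subset _ _).trans hB)).symm]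
    simp only [N, card_filter]
    exact sum_comm
  have h2 : ∑ t ∈ Y.D, (P t).card = H.card * ∑ j ∈ H, (B ∩ Y.Un j).card := by
    have e : ∑ t ∈ Y.D, (P t).card = ∑ p ∈ H ×ˢ H, (B ∩ Y.Un p.2).card := by
      rw [sum_congr rfl fun (p : ℕ × ℕ) _ =>
        (Y.rep_card p.1 ((inter_subset_left (s₂ := Y.Un p.2)).trans hB)).symm]
      simp only [P, card_filter]
      exact sum_comm
    rw [e, sum_product]
    simp only [sum_const, smul_eq_mul]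
  have h3 : ∀ t, (N t).card ^ 2 ≤ (N t).card + 2 * (P t).card := fun t => by
    have k : (N t).offDiag ⊆ P t ∪ (P t).image Prod.swap := by
      rintro ⟨i, j⟩ hp
      simp only [N, mem_offDiag, mem_filter] at hp
      obtain ⟨⟨i1, i2, i3⟩, ⟨j1, j2, j3⟩, hij⟩ := hp
      by_cases e1 : Y.rep (t.sum + i) ∈ Y.Un j
      · exact mem_union_left _ (mem_filter.2 ⟨mem_product.2 ⟨i1, j1⟩, mem_inter.2 ⟨i2, e1⟩⟩)
      by_cases e2 : Y.rep (t.sum + j) ∈ Y.Un i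
      · exact mem_union_right _ (mem_image.2 ⟨(j, i),
          mem_filter.2 ⟨mem_product.2 ⟨j1, i1⟩, mem_inter.2 ⟨j2, e2⟩⟩, rfl⟩)
      simp only [Un, mem_filter, hB i2, hB j2, true_and, not_not] at e1 e2
      have e3 : j + (Y.rep (t.sum + i)).sum ≡ i + (Y.rep (t.sum + j)).sum [MOD Y.m] :=
        (Nat.ModEq.add_left j (Y.rep_spec _).2).trans (Nat.ModEq.trans
          (by rw [add_left_comm, add_comm j, ← add_left_comm, add_left_comm])
          (Nat.ModEq.add_left i (Y.rep_spec (t.sum + j)).2).symm)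
      have e4 := Y.inj _ e1 _ e2 (by rw [Multiset.sum_cons, Multiset.sum_cons]; exact e3)
      exact ((Multiset.mem_cons.1 (e4 ▸ Multiset.mem_cons_self i _)).elim hij i3).elim
    have k1 := (card_le_card k).trans ((card_union_le _ _).trans
      (Nat.add_le_add_left card_image_le _))
    rw [offDiag_card] at k1
    rw [sq]
    omega
  rw [mul_assoc, ← h2, h1, ← Y.cardD, mul_sum, ← sum_add_distrib]
  exact sq_sum_le_card_mul_sum_sq.trans (Nat.mul_le_mul_left _ (sum_le_sum fun t _ => h3 t))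

theorem rep_count_lt {a : Multiset ℕ} (ha : a ∈ Y.D) {i r : ℕ} (hr : Y.η a < r * i) :
    (Y.rep (a.sum + r * i)).count i < r := by
  by_contra! h
  obtain ⟨s, hs⟩ := Multiset.le_iff_exists_add.1 (Multiset.le_count_iff_replicate_le.1 h)
  obtain ⟨h1, h2⟩ := Y.rep_spec (a.sum + r * i)
  rw [hs, add_comm] at h1 h2
  rw [Multiset.sum_add, Multiset.sum_replicate, smul_eq_mul] at h2
  obtain ⟨h3, h4⟩ := Y.of_add h1
  rw [Y.inj s h3 a ha (Nat.ModEq.add_right_cancel' _ h2), Multiset.sum_replicate, smul_eq_mul] at h4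
  omega

/-- The corner lemma. -/
theorem corner {a : Multiset ℕ} (ha : a ∈ Y.D) {i j r s : ℕ} (hij : j ≠ i) (hr : Y.η a < r * i)
    (h1 : s ≤ a.count j) (h2 : s ≤ (Y.rep (a.sum + r * i)).count j) :
    s * j + i ≤ Y.η (Y.tp i (a - Multiset.replicate s j)) + r * i := by
  have h3 := Y.rep_count_lt ha hr
  obtain ⟨h4, h5⟩ := Y.rep_spec (a.sum + r * i)
  generalize Y.rep (a.sum + r * i) = b at h2 h3 h4 h5
  obtain ⟨a', rfl⟩ := Multiset.le_iff_exists_add.1 (Multiset.le_count_iff_replicate_le.1 h1)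
  have h6 : s ≤ (bot i b).count j := by rwa [bot, Multiset.count_filter, if_pos hij]
  obtain ⟨b', hb⟩ := Multiset.le_iff_exists_add.1 (Multiset.le_count_iff_replicate_le.1 h6)
  have h7 := bot_add i b
  have h8 : i ∉ b' := fun h => (bot_bot i b).2 (hb ▸ Multiset.mem_add.2 (Or.inr h))
  generalize b.count i = β at h3 h7
  obtain ⟨q, rfl⟩ := Nat.exists_eq_add_of_lt h3
  rw [hb] at h7
  subst h7
  rw [add_tsub_cancel_left]
  rw [add_comm] at ha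
  obtain ⟨k1, k2⟩ := Y.of_add ha
  have k3 : b' ∈ Y.D := Y.down _ h4 _ ((Multiset.le_add_left _ _).trans (Multiset.le_add_right _ _))
  have k4 := Y.η_tp_of_not (g := i) (q := q + 1) k1 fun h => h8 (by
    rw [Y.inj b' k3 _ h (Nat.ModEq.add_right_cancel' (s * j + β * i) ?_)]
    · simp
    · simp only [Multiset.sum_add, Multiset.sum_replicate, smul_eq_mul] at h5 ⊢
      rw [show b'.sum + (s * j + β * i) = s * j + b'.sum + β * i by ring,
        show a'.sum + (q + 1) * i + (s * j + β * i) = s * j + a'.sum + (β + q + 1) * i by ring]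
      exact h5)
  rw [Multiset.sum_replicate, smul_eq_mul] at k2
  have k5 : (q + 1) * i ≤ (β + q + 1) * i := Nat.mul_le_mul_right _ (by omega)
  omega

end Ap

end Pool.Agent.Lib.MP_299528_co.Bd
end

-- part Pool.Agent.Lib.MP_299528_co.W.ClA
section

/-! Clusters: basic estimates. -/

set_option autoImplicit false

namespace Pool.Agent.Lib.MP_299528_co.Bd

open Finset

namespace Cl

variable (Y : Cl)

theorem C_sub : Y.C ⊆ Y.G := filter_subset _ _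

theorem mem_C {h : ℕ} (hh : h ∈ Y.C) :
    Y.m < h ∧ Y.gm ≤ h + Y.w ∧ h ≤ Y.gm + Y.w ∧ |(h : ℝ) - Y.gm| ≤ Y.w := by
  obtain ⟨h1, h2, h3⟩ := mem_filter.1 hh
  refine ⟨Y.hG h h1, h2, h3, abs_le.2 ⟨?_, ?_⟩⟩
  · have : (Y.gm : ℝ) ≤ h + Y.w := by exact_mod_cast h2
    linarith
  · have : (h : ℝ) ≤ Y.gm + Y.w := by exact_mod_cast h3
    linarith

theorem pos : (0 : ℝ) < Y.m ∧ 0 < Y.kc ∧ (Y.m : ℝ) < Y.gm ∧ 100 ≤ Y.l ∧ 0 < Y.lam ∧ 0 < Y.Dw ∧
    Y.Dw ≤ 1 / 1000 ∧ 0 ≤ Y.eB ∧ Y.eB ≤ 1 / 1000 ∧ 0 ≤ Y.s ∧ Y.s ≤ Y.w ∧ 0 ≤ Y.Gc := by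
  have h1 : (0 : ℝ) < Y.m := by exact_mod_cast Y.hm
  have h2 : 0 < Y.kc := Nat.cast_pos.2 Y.hC
  have h3 : (Y.m : ℝ) < Y.gm := by exact_mod_cast Y.hgm
  have h4 : 100 ≤ Y.l := (le_div_iff₀ (h1.trans h3)).2 (by exact_mod_cast Y.hl)
  have h5 : (1 : ℝ) ≤ Y.w := by exact_mod_cast Y.hw1
  have h6 : (1000 : ℝ) * Y.w ≤ Y.m := by exact_mod_cast Y.hw
  have h7 : (1000 : ℝ) * (Y.G \ Y.C).card ≤ Y.kc := by
    unfold kc C
    exact_mod_cast Y.hfar
  refine ⟨h1, h2, h3, h4, div_pos (by linarith) h2, div_pos (by linarith) h1,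
    (div_le_iff₀ h1).2 (by linarith), div_nonneg (Nat.cast_nonneg _) h2.le,
    (div_le_iff₀ h2).2 (by linarith), div_nonneg (sum_nonneg fun _ _ => abs_nonneg _) h2.le,
    (div_le_iff₀ h2).2 ?_, Nat.cast_nonneg _⟩
  refine (sum_le_card_nsmul _ _ _ fun h hh => (Y.mem_C hh).2.2.2).trans_eq ?_
  rw [nsmul_eq_mul, mul_comm, kc]

theorem eqs : Y.l * Y.gm = Y.T ∧ Y.lam * Y.kc = Y.l ∧ Y.Dw * Y.m = Y.w ∧
    Y.eB * Y.kc = (Y.G \ Y.C).card ∧ Y.s * Y.kc = ∑ h ∈ Y.C, |(h : ℝ) - Y.gm| ∧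
    (Y.k : ℝ) = Y.kc + Y.eB * Y.kc ∧ Y.kc ≤ Y.m := by
  obtain ⟨h1, h2, h3, -⟩ := Y.pos
  have h4 : Y.eB * Y.kc = (Y.G \ Y.C).card := div_mul_cancel₀ _ h2.ne'
  refine ⟨div_mul_cancel₀ _ (h1.trans h3).ne', div_mul_cancel₀ _ h2.ne', div_mul_cancel₀ _ h1.ne',
    h4, div_mul_cancel₀ _ h2.ne', ?_, Nat.cast_le.2 ((card_le_card Y.C_sub).trans Y.hk)⟩
  rw [h4, kc, ← Nat.cast_add, add_comm, card_sdiff_add_card_eq_card Y.C_sub, Ap.k]

theorem E_ge : (Y.m : ℝ) ≤ Y.E ∧ Y.Gc ≤ Y.E ∧ Y.s * Y.l ≤ Y.E ∧ Y.l ≤ Y.lam * Y.E ∧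
    (Y.w : ℝ) ≤ Y.Dw * Y.E ∧ Y.lam * Y.E ≤ Y.Es ∧ Y.Dw * Y.E ≤ Y.Es ∧ Y.eB * Y.E ≤ Y.Es ∧
    Y.E ≤ Y.Err := by
  obtain ⟨h1, h2, h3, h4, h5, h6, -, h7, -, h8, -, h9⟩ := Y.pos
  obtain ⟨-, e2, e3, -, -, -, e4⟩ := Y.eqs
  have a1 : 0 ≤ Y.s * Y.l := mul_nonneg h8 (by linarith)
  have a2 : (Y.m : ℝ) ≤ Y.E := by unfold E; linarith
  have a3 : 0 ≤ Y.E := h1.le.trans a2
  have a4 := mul_nonneg h5.le a3
  have a5 := mul_nonneg h6.le a3
  have a6 := mul_nonneg h7 a3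
  have a7 : 0 ≤ Y.eB * Y.l * Y.m := mul_nonneg (mul_nonneg h7 (by linarith)) h1.le
  refine ⟨a2, by unfold E; linarith, by unfold E; linarith, ?_, ?_, by unfold Es; linarith,
    by unfold Es; linarith, by unfold Es; linarith, by unfold Err; linarith⟩
  · rw [← e2]
    exact mul_le_mul_of_nonneg_left (e4.trans a2) h5.le
  · rw [← e3]
    exact mul_le_mul_of_nonneg_left a2 h6.le

theorem gb_near : |Y.gb - Y.gm| ≤ Y.s ∧ (Y.m : ℝ) < Y.gb ∧ ∑ h ∈ Y.C, ((h : ℝ) - Y.gb) = 0 := by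
  obtain ⟨-, h2, -⟩ := Y.pos
  have e : Y.gb * Y.kc = ∑ h ∈ Y.C, (h : ℝ) := div_mul_cancel₀ _ h2.ne'
  refine ⟨?_, ?_, ?_⟩
  · rw [← mul_le_mul_iff_left₀ h2, Y.eqs.2.2.2.2.1, ← abs_of_pos h2, ← abs_mul, sub_mul, e]
    refine le_trans (le_of_eq ?_) (abs_sum_le_sum_abs _ _)
    rw [sum_sub_distrib, sum_const, nsmul_eq_mul, mul_comm, kc]
  · rw [← mul_lt_mul_iff_left₀ h2, e, kc, mul_comm, ← nsmul_eq_mul, ← sum_const]
    exact sum_lt_sum_of_nonempty (card_pos.1 Y.hC) fun h hh => Nat.cast_lt.2 (Y.mem_C hh).1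
  · rw [sum_sub_distrib, sum_const, nsmul_eq_mul, ← e, kc, mul_comm, sub_self]

theorem Sm.lam_le {Y : Cl} (h : Y.Sm) : Y.lam ≤ 1 / 1000 ∧ Y.l ≤ Y.E ∧ 1000 * Y.l ≤ Y.kc := by
  obtain ⟨h1, h2, h3, h4, -⟩ := Y.pos
  have a1 : (1000 : ℝ) * Y.T ≤ Y.gm * Y.kc := by
    unfold kc
    exact_mod_cast h
  have a2 : 1000 * Y.l ≤ Y.kc := by
    rw [← mul_le_mul_iff_left₀ (h1.trans h3), mul_assoc, Y.eqs.1, mul_comm Y.kc]
    exact a1
  refine ⟨(div_le_iff₀ h2).2 (by linarith), ?_, a2⟩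
  linarith [Y.E_ge.1, Y.eqs.2.2.2.2.2.2]

theorem cla_w : 1000 * (Y.w : ℝ) ≤ Y.m := by exact_mod_cast Y.hw

theorem ct_le {H : Finset ℕ} (hH : H ⊆ Y.C) {b : Multiset ℕ} (hb : b ∈ Y.D) :
    (ct H b : ℝ) ≤ 2 * Y.l := by
  obtain ⟨h1, -, h3, -⟩ := Y.pos
  have h4 := Y.hw
  have h5 := Y.hgm
  have a1 := Y.ct_mul_le (H := H) (x := Y.gm - Y.w) (fun g hg => by
    have := (Y.mem_C (hH hg)).2.1
    omega) hb
  have a2 : ct H b * Y.gm ≤ 2 * Y.T :=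
    (Nat.mul_le_mul_left _ (by omega : Y.gm ≤ 2 * (Y.gm - Y.w))).trans (by
      rw [mul_left_comm]
      omega)
  rw [← mul_le_mul_iff_left₀ (h1.trans h3), mul_assoc, Y.eqs.1]
  exact_mod_cast a2

theorem n_le : (Y.n : ℝ) ≤ Y.lam * Y.gm := by
  obtain ⟨-, h2, -⟩ := Y.pos
  have a1 := Y.hV.n_le
  have a2 : Y.n * Y.C.card ≤ Y.T :=
    (Nat.mul_le_mul_left _ ((card_le_card Y.C_sub).trans (Nat.le_add_right Y.k 1))).trans (by
      rw [mul_comm]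
      omega)
  rw [← mul_le_mul_iff_left₀ h2, mul_right_comm, Y.eqs.2.1, Y.eqs.1, kc]
  exact_mod_cast a2

theorem cla_gAA (g : ℕ) : (g : ℝ) * Y.AA g ≤ 2 * (Y.m * (Y.lam * Y.gm)) := by
  have a1 : (g : ℝ) * Y.AA g ≤ 2 * (Y.m * Y.n) := by exact_mod_cast Y.AA_le g
  exact a1.trans (by have := Y.n_le; gcongr)

theorem cla_AA {h : ℕ} (hh : h ∈ Y.C) : (Y.AA h : ℝ) ≤ 4 * Y.lam * Y.m := by
  obtain ⟨h1, -, h3, -⟩ := Y.pos
  have a1 := Y.cla_gAA h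
  have a2 := (abs_le.1 (Y.mem_C hh).2.2.2).1
  have a3 : (Y.AA h : ℝ) * Y.gm ≤ Y.AA h * (2 * h) :=
    mul_le_mul_of_nonneg_left (by linarith [Y.cla_w]) (Nat.cast_nonneg _)
  rw [← mul_le_mul_iff_left₀ (h1.trans h3)]
  linarith

theorem dev_le : ∑ h ∈ Y.C, |(h : ℝ) - Y.gm| * Y.AA h ≤ 4 * (Y.s * Y.l) * Y.m := by
  refine (sum_le_sum fun h hh =>
    mul_le_mul_of_nonneg_left (Y.cla_AA hh) (abs_nonneg _)).trans_eq ?_
  rw [← sum_mul, ← Y.eqs.2.2.2.2.1, ← Y.eqs.2.1]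
  ring

theorem far_le : ∑ b ∈ Y.D, (wt (Y.G \ Y.C) b : ℝ) ≤ 2 * Y.eB * Y.l * Y.m * Y.gm := by
  have e : ∑ b ∈ Y.D, (wt (Y.G \ Y.C) b : ℝ) = ∑ g ∈ Y.G \ Y.C, (g : ℝ) * Y.AA g := by
    simp only [wt, Ap.AA, Nat.cast_sum, Nat.cast_mul, mul_sum]
    rw [sum_comm]
    exact sum_congr rfl fun _ _ => sum_congr rfl fun _ _ => mul_comm _ _
  rw [e]
  refine (sum_le_card_nsmul _ _ _ fun g _ => Y.cla_gAA g).trans_eq ?_
  rw [nsmul_eq_mul, ← Y.eqs.2.2.2.1, ← Y.eqs.2.1]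
  ring

/-- Weight decomposition. -/
theorem wt_eq {b : Multiset ℕ} (hb : b ∈ Y.D) :
    (Y.T : ℝ) = Y.η b + wt (Y.G \ Y.C) b + ct Y.C b * Y.gm +
      ∑ h ∈ Y.C, (b.count h : ℝ) * ((h : ℝ) - Y.gm) := by
  rw [← Y.η_add hb, ← Y.wt_G hb, wt, ← sum_sdiff Y.C_sub]
  simp only [wt, ct, Nat.cast_add, Nat.cast_sum, Nat.cast_mul, mul_sub, sum_sub_distrib, sum_mul]
  ring

theorem UP_mono {P P' : Finset (Multiset ℕ)} (h : P ⊆ P') : 0 ≤ Y.UP P ∧ Y.UP P ≤ Y.UP P' :=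
  ⟨sum_nonneg fun _ _ => sum_nonneg fun _ _ => by positivity,
    sum_le_sum fun _ _ => sum_le_sum_of_subset_of_nonneg (inter_subset_inter_right h)
      fun _ _ _ => by positivity⟩

theorem UP_low : Y.UP Y.low ≤ Y.Gc := by
  rw [UP, Gc, Ap.GS, Nat.cast_sum]
  refine sum_le_sum fun h _ => ?_
  have := Y.un_le_GG h 1 fun a ha => (Y.η_low ha).1
  rw [one_mul] at this
  exact_mod_cast this

theorem charge_le : Y.Chs + Y.Ufree ≤ Y.Gc := by
  rw [Chs, Ufree, UP, UP, Gc, Ap.GS, Nat.cast_sum, ← sum_add_distrib]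
  refine sum_le_sum fun h _ => ?_
  rw [inter_comm, ← sum_ite_mem, inter_comm, ← sum_ite_mem, ← sum_add_distrib, Ap.GG,
    Nat.cast_sum]
  refine sum_le_sum fun a _ => ?_
  have h0 : (0 : ℝ) ≤ (a.count h : ℝ) + 1 := by positivity
  have h1 : ∀ j : ℕ, j ≤ Y.δ a → ((a.count h : ℝ) + 1) * j ≤ ((a.count h + 1) * Y.δ a : ℕ) :=
    fun j hj => by exact_mod_cast Nat.mul_le_mul_left _ hj
  split_ifs with c1 c2 c2
  · have c3 := (mem_filter.1 c1).2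
    have c4 := (mem_filter.1 c2).2
    have := h1 2 (by rw [Y.δ_eq, Nat.le_div_iff_mul_le Y.hm]; omega)
    push_cast at this ⊢
    linarith
  · simpa using h1 1 (Y.η_low (mem_filter.1 c1).1).1
  · simpa using h1 1 (Y.η_low (mem_filter.1 c2).1).1
  · simpa using h1 0 (Nat.zero_le _)

theorem cla_low : Y.low ⊆ Y.D := filter_subset _ _

theorem cla_ct (H : Finset ℕ) (B : Finset (Multiset ℕ)) (ψ : Multiset ℕ → ℝ) :
    ∑ h ∈ H, ∑ b ∈ B, (b.count h : ℝ) * ψ b = ∑ b ∈ B, (ct H b : ℝ) * ψ b := by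
  rw [sum_comm]
  simp only [ct, Nat.cast_sum, sum_mul]

/-- Used pairs. -/
theorem cla_used {H : Finset ℕ} (hH : H ⊆ Y.C) (P : Finset (Multiset ℕ)) (ψ ψ' : Multiset ℕ → ℝ)
    (h0 : ∀ b ∈ Y.D, 0 ≤ ψ' b) (h : ∀ g ∈ H, ∀ a ∈ P, g ::ₘ a ∈ Y.D → ψ a ≤ ψ' (g ::ₘ a)) :
    ∑ g ∈ H, ∑ a ∈ P ∩ Y.Us g, ψ a ≤ 2 * Y.l * ∑ b ∈ Y.D, ψ' b := by
  refine (sum_le_sum (g := fun g => ∑ b ∈ Y.D, (b.count g : ℝ) * ψ' b) fun g hg => ?_).trans ?_
  · refine (sum_le_sum fun a ha => h g hg a (mem_inter.1 ha).1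
      (mem_filter.1 (mem_inter.1 ha).2).2).trans ((sum_le_sum_of_subset_of_nonneg (t := Y.Us g)
        inter_subset_right fun a ha _ => h0 _ (mem_filter.1 ha).2).trans ?_)
    rw [← Y.sum_pair g ψ', sum_filter]
    refine sum_le_sum fun b hb => ?_
    split_ifs with c
    · exact le_mul_of_one_le_left (h0 b hb) (Nat.one_le_cast.2 (Multiset.one_le_count_iff_mem.2 c))
    · exact mul_nonneg (Nat.cast_nonneg _) (h0 b hb)
  · rw [cla_ct, mul_sum]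
    exact sum_le_sum fun b hb => mul_le_mul_of_nonneg_right (Y.ct_le hH hb) (h0 b hb)

theorem cla_un (P : Finset (Multiset ℕ)) : ∑ g ∈ Y.C, ((P ∩ Y.Un g).card : ℝ) ≤ Y.UP P :=
  sum_le_sum fun g _ => by
    rw [cast_card]
    exact sum_le_sum fun a _ => le_add_of_nonneg_left (Nat.cast_nonneg _)

theorem low_le : Y.kc * Y.low.card ≤ 2 * Y.l * Y.m + Y.Gc := by
  have h1 := Y.card_pairs Y.C Y.cla_low fun _ => 1
  have h2 := Y.cla_used Subset.rfl Y.low (fun _ => 1) (fun _ => 1) (fun _ _ => zero_le_one)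
    fun _ _ _ _ _ => le_rfl
  have h3 := Y.cla_un Y.low
  simp only [← cast_card, Y.cardD] at h1 h2
  rw [kc, h1]
  linarith [Y.UP_low]

theorem T0 (hS : Y.Sm) : Y.lam * Y.l * Y.m ≤ 5 * Y.Gc := by
  obtain ⟨h1, h2, h3, h4, h5, -, -, h6, h7, -, -, h9⟩ := Y.pos
  obtain ⟨e1, e2, -⟩ := Y.eqs
  obtain ⟨s1, -, s2⟩ := hS.lam_le
  have hw := Y.cla_w
  have hL : (0 : ℝ) ≤ Y.low.card := Nat.cast_nonneg _
  have hg : (0 : ℝ) < Y.gm := h1.trans h3
  have hmg := mul_pos h1 hg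
  obtain ⟨X, hX⟩ : ∃ X, X = ∑ b ∈ Y.D, (ct Y.C b : ℝ) := ⟨_, rfl⟩
  have hX0 : 0 ≤ X := hX ▸ sum_nonneg fun _ _ => Nat.cast_nonneg _
  have a1 : Y.m * (Y.l * Y.gm) ≤ ∑ b ∈ Y.D, (Y.η b : ℝ) + ∑ b ∈ Y.D, (wt (Y.G \ Y.C) b : ℝ) +
      X * (Y.gm + Y.w) := by
    rw [e1, hX, sum_mul, ← sum_add_distrib, ← sum_add_distrib, ← Y.cardD, ← nsmul_eq_mul,
      ← sum_const]
    refine sum_le_sum fun b hb => ?_
    have : ∑ h ∈ Y.C, (b.count h : ℝ) * ((h : ℝ) - Y.gm) ≤ ct Y.C b * Y.w := by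
      rw [ct, Nat.cast_sum, sum_mul]
      exact sum_le_sum fun h hh => mul_le_mul_of_nonneg_left
        (abs_le.1 (Y.mem_C hh).2.2.2).2 (Nat.cast_nonneg _)
    linarith [Y.wt_eq hb]
  have a2 : 2 * ∑ b ∈ Y.D, (Y.η b : ℝ) + Y.m = 2 * (Y.m * Y.n) + Y.m * Y.m := by
    exact_mod_cast Y.sum_η
  have a3 : (Y.m : ℝ) * Y.n ≤ Y.m * (1 / 1000 * Y.gm) :=
    mul_le_mul_of_nonneg_left (Y.n_le.trans (mul_le_mul_of_nonneg_right s1 hg.le)) h1.le
  have a4 : (Y.m : ℝ) * Y.m ≤ Y.m * Y.gm := mul_le_mul_of_nonneg_left h3.le h1.le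
  have a5 : 100 * ((Y.m : ℝ) * Y.gm) ≤ Y.l * (Y.m * Y.gm) := mul_le_mul_of_nonneg_right h4 hmg.le
  have a6 : Y.eB * (Y.l * (Y.m * Y.gm)) ≤ 1 / 1000 * (Y.l * (Y.m * Y.gm)) :=
    mul_le_mul_of_nonneg_right h7 (by linarith)
  have a7 : X * Y.w ≤ X * (1 / 1000 * Y.gm) := mul_le_mul_of_nonneg_left (by linarith) hX0
  have a8 : 99 / 100 * (Y.l * Y.m) ≤ X := by
    rw [← mul_le_mul_iff_left₀ hg]
    linarith [Y.far_le]
  have b0 : ∑ b ∈ Y.low, (ct Y.C b : ℝ) ≤ Y.low.card * (2 * Y.l) :=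
    (sum_le_card_nsmul _ _ _ fun b hb => Y.ct_le Subset.rfl (Y.cla_low hb)).trans_eq
      (nsmul_eq_mul _ _)
  have b1 : ∀ B : Finset (Multiset ℕ),
      ∑ b ∈ B, (ct Y.C b : ℝ) = ∑ h ∈ Y.C, ∑ b ∈ B, (b.count h : ℝ) := fun B => by
    simpa only [mul_one] using (cla_ct Y.C B fun _ => 1).symm
  have b2 : X ≤ Y.kc * Y.low.card + ∑ b ∈ Y.low, (ct Y.C b : ℝ) := by
    rw [hX, b1, b1, kc, ← nsmul_eq_mul, ← sum_const, ← sum_add_distrib]
    refine sum_le_sum fun h _ => ?_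
    have e := Y.sum_count h fun _ => (1 : ℝ)
    simp only [nsmul_eq_mul, mul_one, Nat.cast_add, Nat.cast_one] at e
    rw [e, cast_card, add_comm, ← sum_add_distrib]
    exact sum_le_sum_of_subset_of_nonneg Y.Us_sub fun _ _ _ => by positivity
  obtain ⟨A, hA⟩ : ∃ A, A = ∑ i ∈ Y.C, ((Y.low.filter (fun b => i ∉ b)).card : ℝ) := ⟨_, rfl⟩
  have b3 : Y.kc * Y.low.card ≤ A + ∑ b ∈ Y.low, (ct Y.C b : ℝ) := by
    rw [hA, b1, kc, ← nsmul_eq_mul, ← sum_const, ← sum_add_distrib]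
    refine sum_le_sum fun h _ => ?_
    rw [cast_card, cast_card, sum_filter, ← sum_add_distrib]
    refine sum_le_sum fun b _ => ?_
    split_ifs with c
    · simpa using Multiset.one_le_count_iff_mem.2 c
    · exact le_add_of_nonneg_right (Nat.cast_nonneg _)
  have b4 : A ^ 2 ≤ Y.m * (A + 2 * Y.kc * ∑ j ∈ Y.C, ((Y.low ∩ Y.Un j).card : ℝ)) := by
    rw [hA, kc]
    exact_mod_cast Y.tour Y.C Y.cla_low
  have b5 : Y.m * (Y.kc * ∑ j ∈ Y.C, ((Y.low ∩ Y.Un j).card : ℝ)) ≤ Y.m * (Y.kc * Y.Gc) :=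
    mul_le_mul_of_nonneg_left (mul_le_mul_of_nonneg_left ((Y.cla_un _).trans Y.UP_low) h2.le) h1.le
  have b6 : 1000 * Y.l * Y.low.card ≤ Y.kc * Y.low.card := mul_le_mul_of_nonneg_right s2 hL
  have b7 : 100 * (Y.m : ℝ) ≤ Y.l * Y.m := mul_le_mul_of_nonneg_right h4 h1.le
  have b8 : 98 / 100 * (Y.l * Y.m) ≤ A := by linarith
  have b9 : 98 / 100 * (Y.l * Y.m) * (97 / 100 * (Y.l * Y.m)) ≤ A * (A - Y.m) :=
    mul_le_mul b8 (by linarith) (by linarith) (by linarith)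
  have c1 : 0 ≤ Y.m * (Y.kc * Y.Gc) := by positivity
  have c2 : Y.lam * Y.l * Y.m * (Y.kc * Y.m) = Y.l * Y.m * (Y.l * Y.m) := by
    linear_combination Y.l * Y.m * Y.m * e2
  rw [← mul_le_mul_iff_left₀ (mul_pos h2 h1), c2]
  linarith

theorem l_low (hS : Y.Sm) : Y.l * Y.low.card ≤ 11 * Y.Gc := by
  obtain ⟨-, -, -, -, h5, -, -, -, -, -, -, h9⟩ := Y.pos
  have a1 := mul_le_mul_of_nonneg_left Y.low_le h5.le
  have a2 := mul_le_mul_of_nonneg_right hS.lam_le.1 h9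
  rw [← mul_assoc, Y.eqs.2.1] at a1
  linarith [Y.T0 hS]

/-- Weighted density bound. -/
theorem CDw (ψ ψ' : Multiset ℕ → ℝ) (h0 : ∀ a ∈ Y.D, 0 ≤ ψ a) (h0' : ∀ b ∈ Y.D, 0 ≤ ψ' b)
    (h : ∀ g ∈ Y.C, |(g : ℝ) - Y.gm| ≤ 2 * Y.s → ∀ a, g ::ₘ a ∈ Y.D → ψ a ≤ ψ' (g ::ₘ a)) :
    Y.kc * ∑ a ∈ Y.low, ψ a ≤
      2 * ∑ g ∈ Y.C, ∑ a ∈ Y.low ∩ Y.Un g, ψ a + 4 * Y.l * ∑ b ∈ Y.D, ψ' b := by
  obtain ⟨-, h2, -, -, -, -, -, -, -, h8, -⟩ := Y.pos
  have hH : Y.C.filter (fun g : ℕ => |(g : ℝ) - Y.gm| ≤ 2 * Y.s) ⊆ Y.C := filter_subset _ _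
  generalize hd : Y.C.filter (fun g : ℕ => |(g : ℝ) - Y.gm| ≤ 2 * Y.s) = H at hH
  have a1 : Y.kc ≤ 2 * H.card := by
    by_contra! c
    have e : ((Y.C \ H).card : ℝ) + H.card = Y.kc := by
      rw [kc, ← card_sdiff_add_card_eq_card hH, Nat.cast_add]
    have c1 : (0 : ℝ) < (Y.C \ H).card := by linarith
    have c2 := sum_lt_sum_of_nonempty (f := fun _ => 2 * Y.s) (g := fun g : ℕ => |(g : ℝ) - Y.gm|)
      (card_pos.1 (Nat.cast_pos.1 c1)) fun g hg => not_le.1 fun k =>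
        (mem_sdiff.1 hg).2 (hd ▸ mem_filter.2 ⟨(mem_sdiff.1 hg).1, k⟩)
    have c3 := sum_le_sum_of_subset_of_nonneg (f := fun g : ℕ => |(g : ℝ) - Y.gm|)
      (sdiff_subset : Y.C \ H ⊆ Y.C) fun _ _ _ => abs_nonneg _
    have c4 : Y.s * Y.kc ≤ Y.s * (2 * (Y.C \ H).card) := mul_le_mul_of_nonneg_left (by linarith) h8
    rw [sum_const, nsmul_eq_mul] at c2
    rw [← Y.eqs.2.2.2.2.1] at c3
    linarith
  have a2 := Y.card_pairs H Y.cla_low ψ
  have a3 := Y.cla_used hH Y.low ψ ψ' h0' fun g hg a _ =>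
    h g (hH hg) (mem_filter.1 (hd ▸ hg :)).2 a
  have a4 := sum_le_sum_of_subset_of_nonneg (f := fun g => ∑ a ∈ Y.low ∩ Y.Un g, ψ a) hH
    fun g _ _ => sum_nonneg fun a ha => h0 a (Y.cla_low (mem_inter.1 ha).1)
  have a5 := mul_le_mul_of_nonneg_right a1 (sum_nonneg fun a ha => h0 a (Y.cla_low ha))
  linarith

/-- Density bound on arcs. -/
theorem CD {P : Finset (Multiset ℕ)} (hP : P ⊆ Y.low) (p u : ℕ) :
    Y.kc * (Y.arc P p u).card ≤ 2 * Y.UP P + 4 * Y.l * (u + 4 * Y.s) := by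
  obtain ⟨-, -, -, h4, -, -, -, -, -, h8, -⟩ := Y.pos
  have hz := Nat.floor_le (mul_nonneg zero_le_two h8)
  have a1 := Y.CDw (fun a => if a ∈ Y.arc P p u then 1 else 0) (fun b =>
    if (Y.η b + (Y.gm + p + ⌊2 * Y.s⌋₊)) % Y.m < u + 2 * ⌊2 * Y.s⌋₊ then 1 else 0)
    (fun _ _ => by positivity) (fun _ _ => by positivity) fun g _ hg a ha => by
      split_ifs with c1 c2
      · exact le_rfl
      · have c3 := Y.of_cons ha
        have c4 : g ≤ Y.gm + ⌊2 * Y.s⌋₊ := tsub_le_iff_left.1 (Nat.le_floor (by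
          rcases le_total g Y.gm with k | k
          · rw [Nat.sub_eq_zero_of_le k, Nat.cast_zero]; positivity
          · rw [Nat.cast_sub k]; exact (abs_le.1 hg).2))
        have c5 : Y.gm ≤ g + ⌊2 * Y.s⌋₊ := tsub_le_iff_left.1 (Nat.le_floor (by
          rcases le_total Y.gm g with k | k
          · rw [Nat.sub_eq_zero_of_le k, Nat.cast_zero]; positivity
          · rw [Nat.cast_sub k]; linarith [(abs_le.1 hg).1]))
        refine absurd ?_ c2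
        rw [← add_assoc]
        exact arc_shift Y.hm (by omega) (by omega) (mem_filter.1 c1).2
      · exact zero_le_one
      · exact le_rfl
  have a2 : ∑ g ∈ Y.C, ∑ a ∈ Y.low ∩ Y.Un g, (if a ∈ Y.arc P p u then (1 : ℝ) else 0) ≤
      Y.UP P := by
    refine le_trans (sum_le_sum fun g _ => ?_) (Y.cla_un P)
    rw [sum_ite_mem, ← cast_card, Nat.cast_le]
    exact card_le_card fun a ha => mem_inter.2
      ⟨(mem_filter.1 (mem_inter.1 ha).2).1, (mem_inter.1 (mem_inter.1 ha).1).2⟩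
  have a3 : (((Y.D.filter fun b => (Y.η b + (Y.gm + p + ⌊2 * Y.s⌋₊)) % Y.m <
      u + 2 * ⌊2 * Y.s⌋₊).card : ℕ) : ℝ) ≤ u + 2 * ⌊2 * Y.s⌋₊ := by
    exact_mod_cast Y.card_arc_le _ _
  rw [sum_ite_mem, inter_eq_right.2 (show Y.arc P p u ⊆ Y.low from (filter_subset _ _).trans hP),
    ← cast_card, sum_boole] at a1
  have a4 := mul_le_mul_of_nonneg_left (a3.trans (by linarith : _ ≤ u + 4 * Y.s))
    (by linarith : 0 ≤ 4 * Y.l)
  linarith

/-- Low elements on a short arc. -/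
theorem MU (hS : Y.Sm) (p : ℕ) {u : ℕ} (hu : u ≤ 10 * Y.w) :
    Y.l * (Y.arc Y.low p u).card ≤ 200 * Y.Es := by
  obtain ⟨-, -, -, h4, h5, h6, -, h7, -⟩ := Y.pos
  obtain ⟨g1, g2, g3, -, -, -, -, g4, -⟩ := Y.E_ge
  have g0 : 0 ≤ Y.E := (Nat.cast_nonneg _).trans g1
  have a0 : (u : ℝ) ≤ 10 * Y.w := by exact_mod_cast hu
  have a1 : Y.l * u ≤ Y.l * (10 * Y.w) := mul_le_mul_of_nonneg_left a0 (by linarith)
  have a2 : Y.kc * (Y.arc Y.low p u).card ≤ 18 * Y.E + 40 * (Y.l * Y.w) := by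
    linarith [Y.CD Subset.rfl p u, Y.UP_low]
  have a3 := mul_le_mul_of_nonneg_left a2 h5.le
  have a4 := mul_le_mul_of_nonneg_left ((Y.T0 hS).trans (by linarith : _ ≤ 5 * Y.E)) h6.le
  rw [← mul_assoc, Y.eqs.2.1, ← Y.eqs.2.2.1] at a3
  have a5 := mul_nonneg h5.le g0
  have a6 := mul_nonneg h7 g0
  unfold Es
  linarith

/-- Deeper elements. -/
theorem deeper (hS : Y.Sm) :
    Y.kc * ∑ a ∈ Y.D.filter (fun a => Y.gm + Y.m + Y.w ≤ Y.η a), (Y.η a : ℝ) ≤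
      300 * Y.gm * Y.E := by
  obtain ⟨h1, h2, h3, h4, -, -, -, -, -, -, -, h9⟩ := Y.pos
  have hw := Y.hw
  have hgm := Y.hgm
  have hP : Y.D.filter (fun a => Y.gm + Y.m + Y.w ≤ Y.η a) ⊆ Y.D := filter_subset _ _
  have hP' : ∀ a ∈ Y.D, a ∈ Y.D.filter (fun a => Y.gm + Y.m + Y.w ≤ Y.η a) ↔
    Y.gm + Y.m + Y.w ≤ Y.η a := fun a ha => by rw [mem_filter, and_iff_right ha]
  generalize Y.D.filter (fun a => Y.gm + Y.m + Y.w ≤ Y.η a) = P at hP hP' ⊢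
  have a1 := Y.card_pairs Y.C hP fun a => Y.η a
  have a2 := Y.cla_used Subset.rfl P (fun a => Y.η a)
    (fun b => if b ∈ Y.low then Y.η b + 2 * Y.gm else 0) (fun _ _ => by positivity)
    fun g hg a ha c => by
      have c1 := (Y.of_cons c).2.2
      have c2 := (hP' a (hP ha)).1 ha
      have c3 := (Y.mem_C hg).2.2.1
      rw [if_pos (Y.mem_low.2 ⟨c, by omega⟩)]
      exact_mod_cast (by omega : Y.η a ≤ Y.η (g ::ₘ a) + 2 * Y.gm)
  have a3 : ∑ h ∈ Y.C, ∑ a ∈ P ∩ Y.Un h, (Y.η a : ℝ) ≤ 2 * (Y.m * Y.Gc) := by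
    have : ∑ h ∈ Y.C, ∑ a ∈ P ∩ Y.Un h, Y.η a ≤ 2 * (Y.m * Y.GS Y.C) := by
      rw [Ap.GS, mul_sum, mul_sum]
      refine sum_le_sum fun h _ => ?_
      rw [Ap.GG, mul_sum, mul_sum]
      refine le_trans (sum_le_sum fun a ha => ?_) (sum_le_sum_of_subset inter_subset_right)
      have c1 := (mem_inter.1 ha).1
      have c2 := (hP' a (hP c1)).1 c1
      exact (Y.η_low (Y.mem_low.2 ⟨hP c1, by omega⟩)).2.trans (Nat.mul_le_mul_left _
        (Nat.mul_le_mul_left _ (Nat.le_mul_of_pos_left _ (Nat.succ_pos _))))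
    unfold Gc
    exact_mod_cast this
  have a4 : ∑ b ∈ Y.low, ((Y.η b : ℝ) + 2 * Y.gm) ≤
      ∑ a ∈ P, (Y.η a : ℝ) + Y.low.card * (5 * Y.gm) := by
    have c1 : ∑ a ∈ Y.low ∩ P, (Y.η a : ℝ) ≤ ∑ a ∈ P, (Y.η a : ℝ) :=
      sum_le_sum_of_subset_of_nonneg inter_subset_right fun _ _ _ => Nat.cast_nonneg _
    refine le_trans ?_ (add_le_add_left c1 _)
    rw [← sum_ite_mem, ← nsmul_eq_mul, ← sum_const, ← sum_add_distrib]
    refine sum_le_sum fun b hb => ?_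
    split_ifs with c
    · linarith
    · have c2 := mt (hP' b (Y.cla_low hb)).2 c
      have c3 : (Y.η b : ℝ) ≤ 3 * Y.gm := by exact_mod_cast (by omega : Y.η b ≤ 3 * Y.gm)
      linarith
  rw [sum_ite_mem, inter_eq_right.2 Y.cla_low] at a2
  have hX : 0 ≤ ∑ a ∈ P, (Y.η a : ℝ) := sum_nonneg fun _ _ => Nat.cast_nonneg _
  have a5 := mul_le_mul_of_nonneg_left a4 (by linarith : 0 ≤ 2 * Y.l)
  have a6 := mul_le_mul_of_nonneg_right hS.lam_le.2.2 hX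
  have a7 := mul_le_mul_of_nonneg_left (Y.l_low hS) (h1.trans h3).le
  have a8 := mul_le_mul_of_nonneg_right h3.le h9
  have a9 := mul_le_mul_of_nonneg_left Y.E_ge.2.1 (h1.trans h3).le
  have b1 := mul_nonneg (h1.trans h3).le h9
  unfold kc at a6 ⊢
  linarith

/-- Occurrences of a letter on a set of elements. -/
theorem count_le (g : ℕ) {B P : Finset (Multiset ℕ)} (hB : B ⊆ Y.D)
    (hP : ∀ a, g ::ₘ a ∈ B → a ∈ P) :
    ∑ b ∈ B, (b.count g : ℝ) ≤ P.card + ∑ a ∈ P, (a.count g : ℝ) := by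
  have e := Y.sum_count g fun b => if b ∈ B then (1 : ℝ) else 0
  simp only [nsmul_eq_mul, mul_ite, mul_one, mul_zero, Nat.cast_add, Nat.cast_one] at e
  rw [sum_ite_mem, inter_eq_right.2 hB, ← sum_filter] at e
  rw [e, cast_card, add_comm, ← sum_add_distrib]
  exact sum_le_sum_of_subset_of_nonneg (fun a ha => hP a (mem_filter.1 ha).2)
    fun _ _ _ => by positivity

end Cl

end Pool.Agent.Lib.MP_299528_co.Bd
end
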