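import Pool.Agent.Lib.MP_299528_co.W.ClA
import Pool.Agent.Lib.MP_299528_co.Bd.Main

-- part Pool.Agent.Lib.MP_299528_co.W.AlphaB
section

/-! Large depth, light letters: the two bounds for shallow typical elements. -/

set_option autoImplicit false

namespace Pool.Agent.Lib.MP_299528_co.Bd

open Finset

theorem alb_count {i j : ℕ} (hij : j ≠ i) (a : Multiset ℕ) (t : ℕ) :
    (bot i a + Multiset.replicate t i).count j = a.count j := by
  rw [Multiset.count_add, bot, Multiset.count_filter, if_pos hij, Multiset.count_replicate,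
    if_neg (Ne.symm hij), add_zero]

theorem alb_count_self (i : ℕ) (a : Multiset ℕ) (t : ℕ) :
    (bot i a + Multiset.replicate t i).count i = t := by
  rw [Multiset.count_add, Multiset.count_eq_zero.2 (bot_bot i a).2, Multiset.count_replicate_self,
    zero_add]

namespace Ap

variable (Y : Ap)

theorem alb_pos {i : ℕ} (hi : i ∈ Y.G) : (0 : ℝ) < i :=
  Nat.cast_pos.2 (Y.hm.trans (Y.hG i hi))

theorem alb_sm (i : ℕ) (x : ℝ) (a : Multiset ℕ) (t : ℕ) :
    Y.sm i x (bot i a + Multiset.replicate t i) = Y.sm i x a := by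
  unfold sm
  congr 1
  refine filter_congr fun j hj => ?_
  rw [uu, uu, alb_count (ne_of_mem_erase hj)]

theorem Ash_ge {i : ℕ} (hi : i ∈ Y.G) {x e z : ℝ} (hx : 0 < x) (hz : (i : ℝ) ≤ z) :
    ((Y.D.filter (fun a => (Y.sm i x a : ℝ) ≤ e * Y.k ∧ 2 * x ≤ (uu i a : ℝ) ∧
      (uu i a : ℝ) < z ∧ (Y.η (Y.tp i a) : ℝ) < x / 2)).card : ℝ) * x ≤
      4 * z * (Y.Ash i x e).card := by
  have hi0 := Y.alb_pos hi
  set A := Y.D.filter (fun a => (Y.sm i x a : ℝ) ≤ e * Y.k ∧ 2 * x ≤ (uu i a : ℝ) ∧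
      (uu i a : ℝ) < z ∧ (Y.η (Y.tp i a) : ℝ) < x / 2) with hA
  set S := ⌊x / (2 * i)⌋₊ with hS
  set W := ⌈z / i⌉₊ with hW
  have hs : ∀ a ∈ A, ∀ s ∈ range (S + 1), (s : ℝ) * i ≤ x / 2 ∧ s ≤ Y.len i a := by
    intro a ha s hs
    obtain ⟨haD, -, h2, -, -⟩ := mem_filter.1 ha
    have h1 : (s : ℝ) ≤ x / (2 * i) :=
      (Nat.le_floor_iff (by positivity)).1 (Nat.lt_succ_iff.1 (mem_range.1 hs))
    rw [le_div_iff₀ (by positivity)] at h1
    have h3 : (s : ℝ) * i ≤ x / 2 := by linarith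
    refine ⟨h3, le_trans ?_ (Y.count_le_len i haD)⟩
    rw [uu, Nat.cast_mul] at h2
    have h4 : (s : ℝ) * i ≤ (a.count i : ℝ) * i := by linarith
    exact Nat.cast_le.1 (le_of_mul_le_mul_right h4 hi0)
  have key : (A ×ˢ range (S + 1)).card ≤ (Y.Ash i x e ×ˢ range W).card := by
    refine card_le_card_of_injOn
      (fun p => (bot i p.1 + Multiset.replicate (Y.len i p.1 - p.2) i, p.1.count i)) ?_ ?_
    · rintro ⟨a, s⟩ hp
      obtain ⟨ha, hs'⟩ := mem_product.1 (mem_coe.1 hp)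
      obtain ⟨h1, h2⟩ := hs a ha s hs'
      obtain ⟨haD, h3, -, h4, h5⟩ := mem_filter.1 ha
      obtain ⟨h6, h7⟩ := Y.line_mem (g := i) haD (Nat.sub_le (Y.len i a) s)
      refine mem_coe.2 (mem_product.2 ⟨mem_filter.2 ⟨h6, ?_, ?_⟩, mem_range.2 ?_⟩)
      · rw [h7, Nat.sub_sub_self h2]
        push_cast
        linarith
      · rw [alb_sm]
        exact h3
      · rw [uu, Nat.cast_mul] at h4
        exact Nat.lt_ceil.2 ((lt_div_iff₀ hi0).2 h4)
    · rintro ⟨a, s⟩ hp ⟨b, t⟩ hq hpq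
      obtain ⟨ha, hs'⟩ := mem_product.1 (mem_coe.1 hp)
      obtain ⟨hb, ht'⟩ := mem_product.1 (mem_coe.1 hq)
      obtain ⟨e1, e2⟩ := Prod.mk.inj hpq
      have e3 : bot i a = bot i b := by
        have := congrArg (bot i) e1
        rwa [bot_rep, bot_rep, (bot_bot i a).1, (bot_bot i b).1] at this
      obtain rfl : a = b := eq_of_bot e3 e2
      have e4 := congrArg (Multiset.count i) e1
      rw [alb_count_self, alb_count_self] at e4
      have h1 := (hs a ha s hs').2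
      have h2 := (hs a ha t ht').2
      dsimp only at e4
      obtain rfl : s = t := by omega
      rfl
  rw [card_product, card_product, card_range, card_range] at key
  have k1 : (A.card : ℝ) * (S + 1) ≤ (Y.Ash i x e).card * W := by exact_mod_cast key
  have k2 : x / (2 * i) < S + 1 := Nat.lt_floor_add_one _
  have k3 : (W : ℝ) < z / i + 1 := Nat.ceil_lt_add_one (div_nonneg (hi0.le.trans hz) hi0.le)
  rw [div_lt_iff₀ (by positivity)] at k2
  have k4 : (W : ℝ) * i ≤ 2 * z := by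
    have := mul_lt_mul_of_pos_right k3 hi0
    rw [add_mul, div_mul_cancel₀ _ hi0.ne'] at this
    linarith
  have a0 : (0 : ℝ) ≤ A.card := Nat.cast_nonneg _
  have a1 : (0 : ℝ) ≤ (Y.Ash i x e).card := Nat.cast_nonneg _
  calc (A.card : ℝ) * x ≤ A.card * ((S + 1) * (2 * i)) := mul_le_mul_of_nonneg_left k2.le a0
    _ = (A.card * (S + 1)) * (2 * i) := by ring
    _ ≤ ((Y.Ash i x e).card * W) * (2 * i) := mul_le_mul_of_nonneg_right k1 (by positivity)
    _ = 2 * (Y.Ash i x e).card * (W * i) := by ring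
    _ ≤ 2 * (Y.Ash i x e).card * (2 * z) := mul_le_mul_of_nonneg_left k4 (by positivity)
    _ = _ := by ring

/-- One column of the overlap count. -/
theorem alb_col {i j : ℕ} (hi : i ∈ Y.G) (hj : j ∈ Y.G.erase i) {x : ℝ} (hx : 0 < x)
    {A : Finset (Multiset ℕ)} (hA : ∀ a ∈ A, a ∈ Y.D ∧ (Y.η a : ℝ) < x) :
    ((A.filter (fun a => 2 * x ≤ (uu j a : ℝ) ∧
      2 * x ≤ (uu j (Y.rep (a.sum + ⌈x / i⌉₊ * i)) : ℝ))).card : ℝ) ≤ Y.YT i / x := by
  have hi0 := Y.alb_pos hi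
  have hj0 := Y.alb_pos (mem_of_mem_erase hj)
  refine le_trans (Nat.cast_le.2 ?_) (Y.card_tp_le i hx)
  have hc : ∀ a : Multiset ℕ, 2 * x ≤ (uu j a : ℝ) → ⌈2 * x / j⌉₊ ≤ a.count j := fun a h => by
    rw [uu, Nat.cast_mul] at h
    exact Nat.ceil_le.2 ((div_le_iff₀ hj0).2 h)
  have r1 : x ≤ (⌈x / i⌉₊ : ℝ) * i := (div_le_iff₀ hi0).1 (Nat.le_ceil _)
  have r2 : (⌈x / i⌉₊ : ℝ) * i < x + i := by
    have := mul_lt_mul_of_pos_right (Nat.ceil_lt_add_one (div_nonneg hx.le hi0.le)) hi0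
    rwa [add_mul, div_mul_cancel₀ _ hi0.ne', one_mul] at this
  have r3 : 2 * x ≤ (⌈2 * x / j⌉₊ : ℝ) * j := (div_le_iff₀ hj0).1 (Nat.le_ceil _)
  refine card_le_card_of_injOn (fun a => a - Multiset.replicate ⌈2 * x / j⌉₊ j) ?_ ?_
  · intro a ha
    obtain ⟨ha, h1, h2⟩ := mem_filter.1 (mem_coe.1 ha)
    obtain ⟨haD, h3⟩ := hA a ha
    refine mem_coe.2 (mem_filter.2 ⟨Y.down a haD _ tsub_le_self, ?_⟩)
    have h4 : Y.η a < ⌈x / i⌉₊ * i := by
      have : (Y.η a : ℝ) < ((⌈x / i⌉₊ * i : ℕ) : ℝ) := by push_cast; linarith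
      exact_mod_cast this
    have h5 := Y.corner haD (ne_of_mem_erase hj) h4 (hc _ h1) (hc _ h2)
    have h6 : ((⌈2 * x / j⌉₊ * j + i : ℕ) : ℝ) ≤
        ((Y.η (Y.tp i (a - Multiset.replicate ⌈2 * x / j⌉₊ j)) + ⌈x / i⌉₊ * i : ℕ) : ℝ) :=
      Nat.cast_le.2 h5
    push_cast at h6
    linarith
  · intro a ha b hb e
    have h1 := Multiset.le_count_iff_replicate_le.1 (hc _ (mem_filter.1 (mem_coe.1 ha)).2.1)
    have h2 := Multiset.le_count_iff_replicate_le.1 (hc _ (mem_filter.1 (mem_coe.1 hb)).2.1)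
    exact (tsub_left_inj h1 h2).1 e

/-- An element with few big coordinates is deep or heavy. -/
theorem alb_pt {i : ℕ} (hi : i ∈ Y.G) {x e M : ℝ} (hx : 0 < x) (hM : 0 ≤ M)
    (h16 : 16 * x ≤ Y.Φ) (heM : 8 * e * M ≤ 1) {b : Multiset ℕ} (hb : b ∈ Y.D)
    (h1 : (uu i b : ℝ) < x)
    (h2 : (((Y.G.erase i).filter (fun j => 2 * x ≤ (uu j b : ℝ))).card : ℝ) ≤ 2 * (e * Y.k)) :
    b ∈ Y.EE M ∪ Y.D.filter (fun a => Y.T ≤ 4 * Y.η a) := by
  have hk : (0 : ℝ) < Y.k := Nat.cast_pos.2 (card_pos.2 ⟨i, hi⟩)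
  have hΦ : Y.Φ * Y.k = Y.T := div_mul_cancel₀ _ hk.ne'
  have hΦ0 : 0 ≤ Y.Φ := by linarith
  have hMΦ : 0 ≤ M * Y.Φ := mul_nonneg hM hΦ0
  by_cases hE : b ∈ Y.EE M
  · exact mem_union_left _ hE
  refine mem_union_right _ (mem_filter.2 ⟨hb, ?_⟩)
  have h3 : 4 * ∑ j ∈ Y.G.filter (fun j => M * Y.Φ ≤ (uu j b : ℝ)), (uu j b : ℝ) < Y.T :=
    not_le.1 fun h => hE (mem_filter.2 ⟨hb, h⟩)
  have h4 : (b.sum : ℝ) = ∑ j ∈ Y.G, (uu j b : ℝ) := by
    rw [← Y.wt_G hb, wt, Nat.cast_sum]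
    rfl
  have h5 : ∑ j ∈ Y.G, (uu j b : ℝ) ≤ ∑ j ∈ Y.G, (2 * x +
      (if j ≠ i ∧ 2 * x ≤ (uu j b : ℝ) then M * Y.Φ else 0) +
      if M * Y.Φ ≤ (uu j b : ℝ) then (uu j b : ℝ) else 0) := by
    refine sum_le_sum fun j _ => ?_
    have u0 : (0 : ℝ) ≤ uu j b := Nat.cast_nonneg _
    split_ifs with c1 c2 c2
    · linarith
    · linarith [not_le.1 c2]
    · linarith
    · by_cases c3 : j = i
      · rw [c3]
        linarith
      · linarith [not_le.1 fun h => c1 ⟨c3, h⟩]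
  have h6 : Y.G.filter (fun j => j ≠ i ∧ 2 * x ≤ (uu j b : ℝ)) =
      (Y.G.erase i).filter (fun j => 2 * x ≤ (uu j b : ℝ)) := by
    ext j
    simp only [mem_filter, mem_erase]
    tauto
  rw [sum_add_distrib, sum_add_distrib, ← sum_filter, ← sum_filter, sum_const, sum_const, h6,
    nsmul_eq_mul, nsmul_eq_mul] at h5
  have h7 := mul_le_mul_of_nonneg_right h2 hMΦ
  have h8 : 2 * (e * Y.k) * (M * Y.Φ) = (8 * e * M) * (Y.Φ * Y.k) / 4 := by ring
  have h9 : (8 * e * M) * (Y.Φ * Y.k) ≤ 1 * (Y.Φ * Y.k) :=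
    mul_le_mul_of_nonneg_right heM (mul_nonneg hΦ0 hk.le)
  have h10 := mul_le_mul_of_nonneg_right h16 hk.le
  have h11 : (Y.η b : ℝ) + b.sum = Y.T := by exact_mod_cast Y.η_add hb
  have h12 : (Y.G.card : ℝ) = Y.k := rfl
  have h13 : (0 : ℝ) ≤ Y.T := Nat.cast_nonneg _
  rw [h12] at h5
  have h14 : (Y.T : ℝ) ≤ 4 * Y.η b := by nlinarith
  exact_mod_cast h14

theorem Ash_le {i : ℕ} (hi : i ∈ Y.G) {x e M : ℝ} (hx : (i : ℝ) ≤ x) (he : 0 < e) (hM : 0 ≤ M)
    (h16 : 16 * x ≤ Y.Φ) (heM : 8 * e * M ≤ 1) :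
    ((Y.Ash i x e).card : ℝ) ≤ Y.YT i / (e * x) + (Y.EE M).card +
      (Y.D.filter (fun a => Y.T ≤ 4 * Y.η a)).card := by
  have hi0 := Y.alb_pos hi
  have hx0 : 0 < x := hi0.trans_le hx
  have hk : (0 : ℝ) < Y.k := Nat.cast_pos.2 (card_pos.2 ⟨i, hi⟩)
  have hA : ∀ a ∈ Y.Ash i x e, a ∈ Y.D ∧ (Y.η a : ℝ) < x := fun a ha =>
    ⟨(mem_filter.1 ha).1, (mem_filter.1 ha).2.1⟩
  let b : Multiset ℕ → Multiset ℕ := fun a => Y.rep (a.sum + ⌈x / i⌉₊ * i)
  let ov : Multiset ℕ → ℕ := fun a =>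
    ((Y.G.erase i).filter (fun j => 2 * x ≤ (uu j a : ℝ) ∧ 2 * x ≤ (uu j (b a) : ℝ))).card
  have s1 : ∑ a ∈ Y.Ash i x e, (ov a : ℝ) ≤ Y.k * (Y.YT i / x) := by
    have e1 : ∑ a ∈ Y.Ash i x e, ov a = ∑ j ∈ Y.G.erase i, ((Y.Ash i x e).filter
        (fun a => 2 * x ≤ (uu j a : ℝ) ∧ 2 * x ≤ (uu j (b a) : ℝ))).card := by
      simp only [ov, card_filter]
      exact sum_comm
    rw [← Nat.cast_sum, e1, Nat.cast_sum]
    refine (sum_le_card_nsmul _ _ _ fun j hj => Y.alb_col hi hj hx0 hA).trans ?_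
    rw [nsmul_eq_mul]
    exact mul_le_mul_of_nonneg_right (Nat.cast_le.2 card_erase_le) (by positivity)
  have s2 : (((Y.Ash i x e).filter (fun a => ¬ (ov a : ℝ) ≤ e * Y.k)).card : ℝ) ≤
      Y.YT i / (e * x) := by
    have e1 := card_nsmul_le_sum ((Y.Ash i x e).filter (fun a => ¬ (ov a : ℝ) ≤ e * Y.k))
      (fun a => (ov a : ℝ)) (e * Y.k) fun a ha => (not_le.1 (mem_filter.1 ha).2).le
    have e2 := e1.trans ((sum_le_sum_of_subset_of_nonneg (filter_subset _ _)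
      fun a _ _ => Nat.cast_nonneg _).trans s1)
    rw [nsmul_eq_mul, ← mul_assoc, mul_comm (Y.k : ℝ)] at e2
    have e3 := le_of_mul_le_mul_right e2 hk
    rw [mul_comm e x, ← div_div, le_div_iff₀ he]
    exact e3
  have s3 : ((Y.Ash i x e).filter (fun a => (ov a : ℝ) ≤ e * Y.k)).card ≤
      (Y.EE M ∪ Y.D.filter (fun a => Y.T ≤ 4 * Y.η a)).card := by
    refine card_le_card_of_injOn b (fun a ha => ?_) ((Y.rep_bij (⌈x / i⌉₊ * i)).injOn.mono
      fun a ha => (hA a (mem_filter.1 (mem_coe.1 ha)).1).1)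
    obtain ⟨ha, h1⟩ := mem_filter.1 (mem_coe.1 ha)
    obtain ⟨haD, h2, h3⟩ := mem_filter.1 ha
    have r1 : x ≤ (⌈x / i⌉₊ : ℝ) * i := (div_le_iff₀ hi0).1 (Nat.le_ceil _)
    have h4 : Y.η a < ⌈x / i⌉₊ * i := by
      have : (Y.η a : ℝ) < ((⌈x / i⌉₊ * i : ℕ) : ℝ) := by push_cast; linarith
      exact_mod_cast this
    refine mem_coe.2 (Y.alb_pt hi hx0 hM h16 heM (Y.rep_spec _).1 ?_ ?_)
    · rw [uu, Nat.cast_mul]
      exact (lt_div_iff₀ hi0).1 (Nat.lt_ceil.1 (Y.rep_count_lt haD h4))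
    · have h5 : ((Y.G.erase i).filter (fun j => 2 * x ≤ (uu j (b a) : ℝ))).card ≤
          Y.sm i x a + ov a := by
        refine le_trans (card_le_card fun j hj => ?_) (card_union_le _ _)
        obtain ⟨j1, j2⟩ := mem_filter.1 hj
        rcases lt_or_ge (uu j a : ℝ) (2 * x) with c | c
        · exact mem_union_left _ (mem_filter.2 ⟨j1, c⟩)
        · exact mem_union_right _ (mem_filter.2 ⟨j1, c, j2⟩)
      have h6 : (((Y.G.erase i).filter (fun j => 2 * x ≤ (uu j (b a) : ℝ))).card : ℝ) ≤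
          Y.sm i x a + ov a := by exact_mod_cast h5
      linarith
  have s4 := card_filter_add_card_filter_not (s := Y.Ash i x e) (fun a => (ov a : ℝ) ≤ e * Y.k)
  have s5 := s3.trans (card_union_le _ _)
  have s6 : (((Y.Ash i x e).filter (fun a => (ov a : ℝ) ≤ e * Y.k)).card : ℝ) ≤
      (Y.EE M).card + (Y.D.filter (fun a => Y.T ≤ 4 * Y.η a)).card := by exact_mod_cast s5
  rw [← s4, Nat.cast_add]
  linarith

end Ap

end Pool.Agent.Lib.MP_299528_co.Bd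
end

-- part Pool.Agent.Lib.MP_299528_co.W.R1
section

/-! Heavy letters and short elements. -/

set_option autoImplicit false

namespace Pool.Agent.Lib.MP_299528_co.Bd

open Finset

/-- The letters in the window. -/
def r1N (Y : Ap) (glo : ℕ) : Finset ℕ := Y.G.filter (fun g => glo ≤ g ∧ g ≤ glo + Y.m)

/-- Squarefree elements above the conductor with letters in the window. -/
def r1T (Y : Ap) (glo : ℕ) : Finset (Multiset ℕ) :=
  Y.D.filter (fun b => Y.c ≤ b.sum ∧ b.Nodup ∧ ∀ g ∈ b, g ∈ r1N Y glo)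

/-- Elements of given length with letters in the window. -/
def r1A (Y : Ap) (glo j : ℕ) : Finset (Multiset ℕ) :=
  Y.D.filter (fun a => Multiset.card a = j ∧ ∀ g ∈ a, g ∈ r1N Y glo)

theorem r1_sum (Y : Ap) {glo : ℕ} {b : Multiset ℕ} (h : ∀ g ∈ b, g ∈ r1N Y glo) :
    Multiset.card b * glo ≤ b.sum ∧ b.sum ≤ Multiset.card b * (glo + Y.m) :=
  ⟨by simpa using Multiset.card_nsmul_le_sum fun g hg => (mem_filter.mp (h g hg)).2.1,
    by simpa using Multiset.sum_le_card_nsmul b _ fun g hg => (mem_filter.mp (h g hg)).2.2⟩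

theorem r1_le_T (Y : Ap) {b : Multiset ℕ} (h : b ∈ Y.D) : b.sum ≤ Y.T := by
  have := Y.η_add h
  omega

theorem r1_mem_le (N : Finset ℕ) (a : Multiset ℕ) : (N.filter (fun g => g ∈ a)).card ≤ ct N a := by
  rw [card_filter, ct]
  refine sum_le_sum fun g _ => ?_
  split_ifs with h
  · exact Multiset.one_le_count_iff_mem.mpr h
  · exact Nat.zero_le _

theorem r1_cover (Y : Ap) {glo l₀ : ℕ} (hg : 0 < glo) (hT : Y.T ≤ l₀ * glo) :
    Y.m ≤ (r1T Y glo).card + Y.low.card +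
      (Y.G.filter (fun g => g < glo ∨ glo + Y.m < g)).card * Y.low.card + l₀ * Y.low.card := by
  have h1 : Y.D ⊆ r1T Y glo ∪ Y.low ∪
      (Y.G.filter (fun g => g < glo ∨ glo + Y.m < g)).biUnion
        (fun g => Y.D.filter (fun b => g ∈ b)) ∪
      Y.low.biUnion (fun a => ((r1N Y glo).filter (fun g => g ∈ a)).image (fun g => g ::ₘ a)) := by
    intro b hb
    simp only [mem_union]
    by_cases h1 : b.sum < Y.c
    · exact .inl (.inl (.inr (mem_filter.mpr ⟨hb, h1⟩)))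
    by_cases h2 : ∀ g ∈ b, g ∈ r1N Y glo
    swap
    · push Not at h2
      obtain ⟨g, h3, h4⟩ := h2
      have h5 := Y.memG b hb g h3
      refine .inl (.inr (mem_biUnion.mpr ⟨g, mem_filter.mpr ⟨h5, ?_⟩, mem_filter.mpr ⟨hb, h3⟩⟩))
      by_contra h6
      exact h4 (mem_filter.mpr ⟨h5, by omega⟩)
    by_cases h3 : b.Nodup
    · exact .inl (.inl (.inl (mem_filter.mpr ⟨hb, not_lt.mp h1, h3, h2⟩)))
    rw [Multiset.nodup_iff_count_le_one] at h3
    push Not at h3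
    obtain ⟨g, h4⟩ := h3
    have h5 : g ∈ b := Multiset.one_le_count_iff_mem.mp h4.le
    refine .inr (mem_biUnion.mpr ⟨b.erase g, (Y.of_erase hb h5).2.1,
      mem_image.mpr ⟨g, mem_filter.mpr ⟨h2 g h5, ?_⟩, Multiset.cons_erase h5⟩⟩)
    rw [← Multiset.one_le_count_iff_mem, Multiset.count_erase_self]
    omega
  have h2 := card_le_card h1
  rw [Y.cardD] at h2
  refine h2.trans ((card_union_le _ _).trans (add_le_add ((card_union_le _ _).trans
    (add_le_add (card_union_le _ _) ?_)) ?_))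
  · exact card_biUnion_le_card_mul _ _ _ fun g _ => (Y.PP_le g).1
  · rw [mul_comm]
    refine card_biUnion_le_card_mul _ _ _ fun a ha => card_image_le.trans ((r1_mem_le _ a).trans ?_)
    exact Nat.le_of_mul_le_mul_right ((Y.ct_mul_le (fun g hg => (mem_filter.mp hg).2.1)
      (mem_filter.mp ha).1).trans hT) hg

theorem r1_same (Y : Ap) {glo l₀ : ℕ} (hg : 0 < glo) (hT : Y.T ≤ l₀ * glo) (hl : l₀ * Y.m ≤ glo)
    {b b' : Multiset ℕ} (hb : b ∈ r1T Y glo) (hb' : b' ∈ r1T Y glo) :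
    Multiset.card b ≤ Multiset.card b' := by
  by_contra h
  obtain ⟨h1, -, -, h2⟩ := mem_filter.mp hb
  obtain ⟨-, h3, -, h4⟩ := mem_filter.mp hb'
  have h5 := (r1_sum Y h2).1.trans (r1_le_T Y h1)
  have h6 := h3.trans (r1_sum Y h4).2
  have h7 : (Multiset.card b' + 1) * glo ≤ Multiset.card b * glo :=
    Nat.mul_le_mul_right _ (by omega)
  have h8 : Multiset.card b' + 1 ≤ l₀ := Nat.le_of_mul_le_mul_right (h7.trans (h5.trans hT)) hg
  have h9 : (Multiset.card b' + 1) * Y.m ≤ l₀ * Y.m := Nat.mul_le_mul_right _ h8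
  have h10 := Y.hm
  rw [Ap.T] at h5
  rw [add_mul, one_mul] at h7 h9
  rw [mul_add] at h6
  omega

theorem r1_short (Y : Ap) {glo : ℕ} (hk : 1 ≤ Y.k) {j : ℕ} (hj : j ≤ 1)
    (h : ∀ b ∈ r1T Y glo, Multiset.card b = j) : (r1T Y glo).card ≤ Y.k := by
  have h1 : r1T Y glo ⊆ Y.lev j := fun b hb => mem_filter.mpr ⟨(mem_filter.mp hb).1, h b hb⟩
  refine (card_le_card h1).trans ((Y.card_lev_le j).trans ?_)
  exact (Nat.pow_le_pow_right hk hj).trans_eq (pow_one _)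

theorem r1_used (Y : Ap) (glo j : ℕ) :
    ∑ h ∈ r1N Y glo, (r1A Y glo j ∩ Y.Us h).card ≤ (j + 1) * Y.m := by
  have h1 : ∀ h ∈ r1N Y glo, (r1A Y glo j ∩ Y.Us h).card ≤
      ∑ b ∈ Y.D, if h ∈ b ∧ Multiset.card b = j + 1 then 1 else 0 := fun h _ => by
    have h2 := Y.sum_pair h (fun b => if Multiset.card b = j + 1 then (1 : ℕ) else 0)
    rw [sum_filter] at h2
    simp only [← ite_and] at h2
    rw [h2, ← card_filter]
    refine card_le_card fun a ha => mem_filter.mpr ⟨(mem_inter.mp ha).2, ?_⟩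
    rw [Multiset.card_cons, (mem_filter.mp (mem_inter.mp ha).1).2.1]
  refine (sum_le_sum h1).trans ?_
  rw [sum_comm, ← Y.cardD, mul_comm, ← smul_eq_mul]
  refine sum_le_card_nsmul _ _ _ fun b _ => ?_
  rw [← card_filter]
  by_cases h : Multiset.card b = j + 1
  · rw [← h]
    refine (card_le_card fun g hg => ?_).trans (Multiset.toFinset_card_le b)
    exact Multiset.mem_toFinset.mpr (mem_filter.mp hg).2.1
  · simp [h]

theorem r1_unused (Y : Ap) {glo j x : ℕ} (hx : (j + x) * Y.m ≤ glo) (hT : (j + 1) * glo ≤ Y.T) :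
    x * ∑ h ∈ r1N Y glo, (r1A Y glo j ∩ Y.Un h).card ≤ Y.GS Y.G := by
  refine le_trans ?_ (Y.GS_mono (filter_subset _ _ : r1N Y glo ⊆ Y.G))
  rw [mul_sum, Ap.GS]
  refine sum_le_sum fun h _ => le_trans (Nat.mul_le_mul_left _ ?_)
    (Y.un_le_GG h (P := r1A Y glo j) x fun a ha => ?_)
  · rw [card_eq_sum_ones]
    exact sum_le_sum fun a _ => Nat.le_add_left _ _
  · obtain ⟨h1, h2, h3⟩ := mem_filter.mp ha
    have h4 := (r1_sum Y h3).2
    have h5 := Y.η_add h1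
    rw [h2, mul_add] at h4
    rw [add_mul] at hx hT
    rw [Ap.δ_eq, Nat.le_div_iff_mul_le Y.hm]
    omega

theorem heavy_short (l₀ : ℕ) : ∃ P Γ k₀ : ℕ, ∀ (Y : Ap) (glo : ℕ), Y.Viol → Y.Win P glo →
    Γ * Y.m ≤ glo → Y.T ≤ l₀ * glo → k₀ ≤ Y.k → Y.k ≤ Y.m → False := by
  obtain ⟨σ, σ0, σ1, hσ⟩ := surplus_unif l₀
  obtain ⟨K, hK⟩ := exists_nat_ge σ⁻¹
  have hK' : 1 ≤ σ * K := by rwa [inv_le_iff_one_le_mul₀' σ0] at hK
  obtain ⟨E, hE⟩ : ∃ E : ℕ, E = 2 * K * (l₀ + 2) := ⟨_, rfl⟩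
  refine ⟨3 * l₀ * (2 * E), l₀ + (4 * l₀ * K + 1),
    3 * l₀ * (2 * E * (1 + l₀)) + 4 * (6 * l₀) ^ 2 + 2, fun Y glo hV ⟨w1, w2, w3⟩ hΓ hT hk hm => ?_⟩
  have m0 := Y.hm
  have hl : l₀ * Y.m ≤ glo := (Nat.mul_le_mul_right _ (Nat.le_add_right _ _)).trans hΓ
  have hg : 0 < glo := (Nat.mul_pos (by omega) m0).trans_le hΓ
  have l0 : 0 < l₀ := by
    have := hV.n_le
    rcases Nat.eq_zero_or_pos l₀ with h | h
    · rw [h, zero_mul] at hT
      omega
    · exact h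
  have hTm : Y.T * Y.m ≤ l₀ * Y.m * glo := by
    rw [mul_right_comm]; exact Nat.mul_le_mul_right _ hT
  have w2' : Y.k * Y.low.card ≤ 3 * l₀ * Y.m := Nat.le_of_mul_le_mul_right
    (w2.trans ((Nat.mul_le_mul_left 3 hTm).trans_eq (by ring))) hg
  have w3' : Y.GS Y.G ≤ 2 * l₀ * Y.m := Nat.le_of_mul_le_mul_right
    (w3.trans ((Nat.mul_le_mul_left 2 hTm).trans_eq (by ring))) hg
  have c0 := r1_cover Y hg hT
  generalize (Y.G.filter (fun g => g < glo ∨ glo + Y.m < g)).card = F at w1 c0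
  have c1 : 2 * E * F * Y.low.card ≤ Y.m := Nat.le_of_mul_le_mul_left
    (le_trans (le_of_eq (by ring)) ((Nat.mul_le_mul_right Y.low.card w1).trans w2'))
    (by omega : 0 < 3 * l₀)
  have c2 : 2 * E * (1 + l₀) * Y.low.card ≤ Y.m := Nat.le_of_mul_le_mul_left
    (le_trans (le_of_eq (by ring)) ((Nat.mul_le_mul_right Y.low.card
      (show 3 * l₀ * (2 * E * (1 + l₀)) ≤ Y.k by omega)).trans w2')) (by omega : 0 < 3 * l₀)
  have c3 : E * Y.m ≤ E * (r1T Y glo).card + Y.m := by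
    have := Nat.mul_le_mul_left E c0
    nlinarith
  have c4 : (r1T Y glo).card ≤ Y.m := (card_le_card (filter_subset _ _)).trans_eq Y.cardD
  obtain ⟨d, hd⟩ : ∃ d : ℝ, d = Y.m - (r1T Y glo).card := ⟨_, rfl⟩
  have d0 : 0 ≤ d := by rw [hd, sub_nonneg]; exact_mod_cast c4
  have d1 : 2 * (l₀ + 2) * d ≤ σ * Y.m := by
    have h1 : (E : ℝ) * Y.m ≤ E * (r1T Y glo).card + Y.m := by exact_mod_cast c3
    have h2 : (E : ℝ) * d ≤ Y.m := by rw [hd]; linarith
    have h3 : (E : ℝ) = 2 * K * (l₀ + 2) := by rw [hE]; push_cast; ring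
    have h4 : (0 : ℝ) ≤ 2 * (l₀ + 2) * d := by positivity
    calc 2 * (l₀ + 2) * d ≤ σ * K * (2 * (l₀ + 2) * d) := le_mul_of_one_le_left h4 hK'
      _ = σ * (E * d) := by rw [h3]; ring
      _ ≤ σ * Y.m := mul_le_mul_of_nonneg_left h2 σ0.le
  have mR : (0 : ℝ) < Y.m := by exact_mod_cast m0
  have lR : (0 : ℝ) ≤ l₀ * d := by positivity
  have d2 : σ * d ≤ d := mul_le_of_le_one_left d0 σ1
  have d3 : σ * Y.m ≤ Y.m := mul_le_of_le_one_left mR.le σ1
  have c5 : Y.m ≤ 2 * (r1T Y glo).card := by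
    have : (Y.m : ℝ) ≤ 2 * (r1T Y glo).card := by linarith
    exact_mod_cast this
  obtain ⟨b, hb⟩ : (r1T Y glo).Nonempty := card_pos.mp (by omega)
  have hs : ∀ b' ∈ r1T Y glo, Multiset.card b' = Multiset.card b := fun b' hb' =>
    le_antisymm (r1_same Y hg hT hl hb' hb) (r1_same Y hg hT hl hb hb')
  by_cases h1 : Multiset.card b ≤ 1
  · have h2 := r1_short Y (by omega) h1 hs
    have h3 : Y.low.card ≤ 6 * l₀ := Nat.le_of_mul_le_mul_left (c := Y.k)
      (w2'.trans ((Nat.mul_le_mul_left _ (show Y.m ≤ 2 * Y.k by omega)).trans_eq (by ring)))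
      (by omega)
    exact absurd (Y.one_level _ h3 (by omega)) (not_le.mpr hV)
  obtain ⟨j, hj⟩ : ∃ j, Multiset.card b = j + 1 := ⟨Multiset.card b - 1, by omega⟩
  obtain ⟨b1, -, -, b2⟩ := mem_filter.mp hb
  have h2 : (j + 1) * glo ≤ Y.T := hj ▸ (r1_sum Y b2).1.trans (r1_le_T Y b1)
  have h3 : j + 1 ≤ l₀ := Nat.le_of_mul_le_mul_right (h2.trans hT) hg
  obtain ⟨g, hg'⟩ := Multiset.card_pos_iff_exists_mem.mp (by omega : 0 < Multiset.card b)
  have h4 := hσ j (by omega) (by omega) Y.m Y.c (r1N Y glo) (r1T Y glo) (r1A Y glo j) (by omega)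
    ⟨g, b2 g hg'⟩
    (fun t ht => by
      obtain ⟨t1, t2, t3, t4⟩ := mem_filter.mp ht
      exact ⟨(hs t ht).trans hj, t3, t4, t2, Y.lt t t1⟩)
    (fun t ht s hs' e => Y.inj t (mem_filter.mp ht).1 s (mem_filter.mp hs').1
      (congr_arg (· % Y.m) e))
    (fun t ht g hg => by
      obtain ⟨t1, -, -, t4⟩ := mem_filter.mp ht
      refine mem_filter.mpr ⟨Y.down t t1 _ (Multiset.erase_le g t), ?_,
        fun i hi => t4 i (Multiset.mem_of_mem_erase hi)⟩
      rw [Multiset.card_erase_of_mem hg, hs t ht, hj]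
      rfl)
    (by nlinarith)
  have h5 := Y.card_pairs (r1N Y glo) (P := r1A Y glo j) (filter_subset _ _) (fun _ => 1)
  simp only [sum_const, nsmul_eq_mul, mul_one] at h5
  have h6 : (∑ h ∈ r1N Y glo, ((r1A Y glo j ∩ Y.Us h).card : ℝ)) ≤ (j + 1) * Y.m := by
    exact_mod_cast r1_used Y glo j
  have h7 : (4 * l₀ * K + 1) * (∑ h ∈ r1N Y glo, ((r1A Y glo j ∩ Y.Un h).card : ℝ)) ≤
      2 * l₀ * Y.m := by
    exact_mod_cast (r1_unused Y (x := 4 * l₀ * K + 1)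
      ((Nat.mul_le_mul_right _ (by omega)).trans hΓ) h2).trans w3'
  generalize (∑ h ∈ r1N Y glo, ((r1A Y glo j ∩ Y.Un h).card : ℝ)) = U at h5 h7
  have h8 : σ * Y.m ≤ 2 * U := by
    have h9 : ((j : ℝ) + 1) * d ≤ l₀ * d :=
      mul_le_mul_of_nonneg_right (by exact_mod_cast h3) d0
    have h10 : ((r1T Y glo).card : ℝ) = Y.m - d := by rw [hd]; ring
    rw [h10] at h4
    nlinarith
  have h9 : (4 * l₀ * K + 1) * (σ * Y.m) ≤ (4 * l₀ * K + 1) * (2 * U) :=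
    mul_le_mul_of_nonneg_left h8 (by positivity)
  have h10 : (l₀ : ℝ) * Y.m ≤ σ * K * (l₀ * Y.m) := le_mul_of_one_le_left (by positivity) hK'
  have h11 : 0 < σ * Y.m := mul_pos σ0 mR
  nlinarith

end Pool.Agent.Lib.MP_299528_co.Bd
end

-- part Pool.Agent.Lib.MP_299528_co.W.HW
section

/-! Heavy letters lie in a window of length the multiplicity. -/

set_option autoImplicit false

namespace Pool.Agent.Lib.MP_299528_co.Bd

open Finset

namespace Ap

variable (Y : Ap)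

theorem Win.mono {Y : Ap} {P P' glo : ℕ} (h : Y.Win P glo) (hP : P' ≤ P) : Y.Win P' glo :=
  ⟨(Nat.mul_le_mul_right _ hP).trans h.1, h.2.1, h.2.2⟩

theorem hw_Us_card (g : ℕ) : (Y.Us g).card = Y.PP g := by
  have h := Y.sum_pair (M := ℕ) g (fun _ => 1)
  simp only [sum_const, smul_eq_mul, mul_one] at h
  exact h.symm

theorem hw_split (g : ℕ) {Q : Finset (Multiset ℕ)} (hQ : Q ⊆ Y.D) (f : Multiset ℕ → ℕ) :
    ∑ a ∈ Q, f a ≤ ∑ a ∈ Q ∩ Y.Un g, f a + ∑ a ∈ Q ∩ Y.Us g, f a := by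
  have hsub : Q ⊆ (Q ∩ Y.Un g) ∪ (Q ∩ Y.Us g) := by
    intro a ha
    have haD := hQ ha
    by_cases h : g ::ₘ a ∈ Y.D
    · exact mem_union_right _ (mem_inter.2 ⟨ha, mem_filter.2 ⟨haD, h⟩⟩)
    · exact mem_union_left _ (mem_inter.2 ⟨ha, mem_filter.2 ⟨haD, h⟩⟩)
  refine (sum_le_sum_of_subset hsub).trans ?_
  have := sum_union_inter (s₁ := Q ∩ Y.Un g) (s₂ := Q ∩ Y.Us g) (f := f)
  omega

theorem hw_low_sub : Y.low ⊆ Y.D := filter_subset _ _

theorem hw_low_le (g : ℕ) : Y.low.card ≤ Y.GG g + Y.PP g := by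
  have h1 := Y.hw_split g Y.hw_low_sub (fun _ => 1)
  have h2 := Y.un_le_GG g (P := Y.low) 1 (fun a ha => (Y.η_low ha).1)
  have h3 : ∑ a ∈ Y.low ∩ Y.Un g, 1 ≤ ∑ a ∈ Y.low ∩ Y.Un g, (a.count g + 1) :=
    sum_le_sum fun a _ => by omega
  have h4 : (Y.low ∩ Y.Us g).card ≤ (Y.Us g).card := card_le_card inter_subset_right
  rw [Y.hw_Us_card] at h4
  simp only [sum_const, smul_eq_mul, mul_one] at h1 h3
  omega

theorem hw_un (g : ℕ) {Q : Finset (Multiset ℕ)} (hQ : Q ⊆ Y.low) :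
    ∑ a ∈ Q ∩ Y.Un g, Y.η a ≤ 2 * (Y.m * Y.GG g) := by
  have h1 : ∑ a ∈ Q ∩ Y.Un g, Y.η a ≤
      ∑ a ∈ Q ∩ Y.Un g, 2 * (Y.m * ((a.count g + 1) * Y.δ a)) := by
    refine sum_le_sum fun a ha => ?_
    refine (Y.η_low (hQ (mem_inter.1 ha).1)).2.trans ?_
    refine Nat.mul_le_mul_left _ (Nat.mul_le_mul_left _ ?_)
    exact Nat.le_mul_of_pos_left _ (Nat.succ_pos _)
  refine h1.trans ?_
  rw [← mul_sum, ← mul_sum]
  refine Nat.mul_le_mul_left _ (Nat.mul_le_mul_left _ ?_)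
  exact sum_le_sum_of_subset inter_subset_right

theorem hw_heavy {H : Finset ℕ} {x K : ℕ} (hH : ∀ g ∈ H, x ≤ g)
    (hK : ∀ a ∈ Y.D, ct H a + H.card ≤ K) :
    ∑ g ∈ H, g * Y.AA g ≤ K * ∑ a ∈ Y.D.filter (fun a => x ≤ Y.η a), Y.η a := by
  have h1 : ∀ g ∈ H, g * Y.AA g ≤
      ∑ a ∈ Y.D.filter (fun a => x ≤ Y.η a), (a.count g + 1) * Y.η a := by
    intro g hg
    have h := Y.sum_count (M := ℕ) g (fun _ => 1)
    simp only [smul_eq_mul, mul_one] at h
    unfold AA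
    rw [h, mul_sum]
    have hsub : Y.Us g ⊆ Y.D.filter (fun a => x ≤ Y.η a) := by
      intro a ha
      obtain ⟨haD, ha2⟩ := mem_filter.1 ha
      have := (Y.of_cons ha2).2.2
      have := hH g hg
      exact mem_filter.2 ⟨haD, by omega⟩
    refine le_trans (sum_le_sum fun a ha => ?_) (sum_le_sum_of_subset hsub)
    have := (Y.of_cons (mem_filter.1 ha).2).2.2
    rw [mul_comm]
    exact Nat.mul_le_mul_left _ (by omega)
  refine (sum_le_sum h1).trans ?_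
  rw [sum_comm, mul_sum]
  refine sum_le_sum fun a ha => ?_
  rw [← sum_mul, sum_add_distrib]
  simp only [sum_const, smul_eq_mul, mul_one]
  exact Nat.mul_le_mul_right _ (hK a (mem_filter.1 ha).1)

theorem hw_used {M : Finset ℕ} {x : ℕ} (hM : ∀ g ∈ M, g ≤ x) :
    ∑ g ∈ M, ∑ a ∈ Y.D.filter (fun a => x + Y.m < Y.η a) ∩ Y.Us g, Y.η a ≤
      ∑ b ∈ Y.low, ct M b * (Y.η b + x) := by
  classical
  have h1 : ∀ g ∈ M, ∑ a ∈ Y.D.filter (fun a => x + Y.m < Y.η a) ∩ Y.Us g, Y.η a ≤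
      ∑ b ∈ Y.low, b.count g * (Y.η b + x) := by
    intro g hg
    have h := Y.sum_count (M := ℕ) g (fun b => if b ∈ Y.low then Y.η b + x else 0)
    simp only [smul_eq_mul] at h
    have e1 : ∑ b ∈ Y.low, b.count g * (Y.η b + x) =
        ∑ b ∈ Y.D, b.count g * (if b ∈ Y.low then Y.η b + x else 0) := by
      rw [← sum_subset Y.hw_low_sub (fun b _ hb => by simp [hb])]
      exact sum_congr rfl fun b hb => by simp [hb]
    rw [e1, h]
    refine le_trans (sum_le_sum fun a ha => ?_) (sum_le_sum_of_subset inter_subset_right)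
    obtain ⟨ha1, ha2⟩ := mem_inter.1 ha
    have hD := (mem_filter.1 ha2).2
    have e2 := (Y.of_cons hD).2.2
    have e3 := (mem_filter.1 ha1).2
    have e4 := hM g hg
    have hlow : g ::ₘ a ∈ Y.low := Y.mem_low.2 ⟨hD, by omega⟩
    rw [if_pos hlow]
    refine le_trans ?_ (Nat.le_mul_of_pos_left _ (Nat.succ_pos _))
    omega
  refine (sum_le_sum h1).trans ?_
  rw [sum_comm]
  refine le_of_eq (sum_congr rfl fun b _ => ?_)
  rw [← sum_mul]
  rfl

theorem hw_first (hV : Y.Viol) {glo : ℕ}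
    (hL : 100 * (Y.G.filter (fun g => g < glo)).card ≤ Y.k) :
    Y.k * Y.low.card * glo ≤ 3 * (Y.T * Y.m) ∧ Y.GS Y.G * glo ≤ 2 * (Y.T * Y.m) := by
  set L := (Y.G.filter (fun g => g < glo)).card with hLdef
  set H := Y.G.filter (fun g => ¬ g < glo) with hH
  set S := ∑ g ∈ H, Y.PP g with hS
  have hSle : S * glo ≤ Y.T * Y.m :=
    Y.sum_PP_le (fun g hg => not_lt.1 (mem_filter.1 hg).2)
  have hcard : L + H.card = Y.k := card_filter_add_card_filter_not (s := Y.G) _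
  have h1 : Y.GS Y.G ≤ L * Y.low.card + S := by
    refine hV.GS_le_PP.trans ?_
    rw [← sum_filter_add_sum_filter_not Y.G (fun g => g < glo)]
    refine Nat.add_le_add_right ?_ _
    have := sum_le_card_nsmul (Y.G.filter (fun g => g < glo)) Y.PP Y.low.card
      (fun g _ => (Y.PP_le g).1)
    simpa using this
  have h2 : H.card * Y.low.card ≤ Y.GS Y.G + S := by
    have h3 : ∑ _g ∈ H, Y.low.card ≤ ∑ g ∈ H, (Y.GG g + Y.PP g) :=
      sum_le_sum fun g _ => Y.hw_low_le g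
    rw [sum_add_distrib] at h3
    have h4 : Y.GS H ≤ Y.GS Y.G := Y.GS_mono (filter_subset _ _)
    simp only [sum_const, smul_eq_mul] at h3
    unfold GS at h4 ⊢
    omega
  have h5 : Y.k * Y.low.card = L * Y.low.card + H.card * Y.low.card := by
    rw [← hcard, add_mul]
  have h6 : 100 * (L * Y.low.card) ≤ Y.k * Y.low.card := by
    rw [← mul_assoc]
    exact Nat.mul_le_mul_right _ hL
  have h7 : Y.k * Y.low.card ≤ 3 * S := by omega
  have h8 : Y.GS Y.G ≤ 2 * S := by omega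
  constructor
  · calc Y.k * Y.low.card * glo ≤ 3 * S * glo := Nat.mul_le_mul_right _ h7
      _ = 3 * (S * glo) := mul_assoc _ _ _
      _ ≤ _ := Nat.mul_le_mul_left _ hSle
  · calc Y.GS Y.G * glo ≤ 2 * S * glo := Nat.mul_le_mul_right _ h8
      _ = 2 * (S * glo) := mul_assoc _ _ _
      _ ≤ _ := Nat.mul_le_mul_left _ hSle

theorem hw_ct {P x : ℕ} {H : Finset ℕ} (hx : 0 < x) (hH : ∀ g ∈ H, x ≤ g)
    (hTk : 200 * P * Y.T ≤ x * Y.k) {b : Multiset ℕ} (hb : b ∈ Y.D) :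
    200 * P * ct H b ≤ Y.k := by
  have h1 := Y.ct_mul_le hH hb
  refine Nat.le_of_mul_le_mul_left ?_ hx
  calc x * (200 * P * ct H b) = 200 * P * (ct H b * x) := by ring
    _ ≤ 200 * P * Y.T := Nat.mul_le_mul_left _ h1
    _ ≤ _ := hTk

theorem heavy_window (hV : Y.Viol) {P Γ : ℕ} (hP : 50 ≤ P) (hΓ : 200 * P ≤ Γ) (hk : 10 ≤ Y.k)
    (hT : 10 * Y.m ≤ Y.T) (hl : 4 * P * (Y.G.filter (fun g => g < Γ * Y.m)).card ≤ Y.k)
    (hTk : 200 * P * Y.T ≤ Γ * Y.m * Y.k) : ∃ glo, Γ * Y.m ≤ glo ∧ Y.Win P glo := by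
  classical
  have hm := Y.hm
  have hex : ∃ x, Y.k < 2 * P * (Y.G.filter (fun g => g ≤ x)).card := by
    refine ⟨Y.G.sup id, ?_⟩
    have h0 : Y.G.filter (fun g => g ≤ Y.G.sup id) = Y.G :=
      filter_true_of_mem (fun g hg => le_sup (f := id) hg)
    rw [h0]
    change Y.k < 2 * P * Y.k
    nlinarith
  set glo := Nat.find hex with hglo
  have hspec : Y.k < 2 * P * (Y.G.filter (fun g => g ≤ glo)).card := Nat.find_spec hex
  set L := (Y.G.filter (fun g => g < glo)).card with hLdef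
  have hL : 2 * P * L ≤ Y.k := by
    rcases Nat.eq_zero_or_pos glo with h0 | h0
    · have : L = 0 := by
        rw [hLdef, h0]
        simp
      rw [this]
      simp
    · have h1 := Nat.find_min hex (m := glo - 1) (by omega)
      have h2 : Y.G.filter (fun g => g < glo) = Y.G.filter (fun g => g ≤ glo - 1) :=
        filter_congr fun g _ => by omega
      rw [hLdef, h2]
      exact not_lt.1 h1
  set l0 := (Y.G.filter (fun g => g < Γ * Y.m)).card with hl0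
  have hge : Γ * Y.m ≤ glo := by
    by_contra hlt
    have h1 : (Y.G.filter (fun g => g ≤ glo)).card ≤ l0 :=
      card_le_card fun g hg => mem_filter.2 ⟨(mem_filter.1 hg).1, by
        have := (mem_filter.1 hg).2
        omega⟩
    have h2 := Nat.mul_le_mul_left (2 * P) h1
    have h3 : 4 * P * l0 = 2 * (2 * P * l0) := by ring
    omega
  have hL100 : 100 * L ≤ Y.k := le_trans (Nat.mul_le_mul_right _ (by omega)) hL
  obtain ⟨hw2, hw3⟩ := Y.hw_first hV hL100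
  refine ⟨glo, hge, ?_, hw2, hw3⟩
  set U := Y.G.filter (fun g => glo + Y.m < g) with hU
  have hLU : (Y.G.filter (fun g => g < glo ∨ glo + Y.m < g)).card ≤ L + U.card := by
    rw [filter_or]
    exact card_union_le _ _
  by_contra hcon
  have hUbig : Y.k ≤ 2 * P * U.card := by
    have h1 := Nat.mul_le_mul_left P hLU
    have h2 : 2 * (P * (L + U.card)) = 2 * P * L + 2 * P * U.card := by ring
    omega
  set M := Y.G.filter (fun g => Γ * Y.m ≤ g ∧ g ≤ glo) with hM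
  have hMbig : Y.k ≤ 4 * P * M.card := by
    have h1 : (Y.G.filter (fun g => g ≤ glo)).card ≤ l0 + M.card := by
      refine le_trans (card_le_card ?_) (card_union_le _ _)
      intro g hg
      obtain ⟨hg1, hg2⟩ := mem_filter.1 hg
      by_cases h : g < Γ * Y.m
      · exact mem_union_left _ (mem_filter.2 ⟨hg1, h⟩)
      · exact mem_union_right _ (mem_filter.2 ⟨hg1, not_lt.1 h, hg2⟩)
    have h2 := Nat.mul_le_mul_left (2 * P) h1
    have h3 : 2 * (2 * P * (l0 + M.card)) = 4 * P * l0 + 4 * P * M.card := by ring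
    omega
  have hΓm : Y.m ≤ Γ * Y.m := Nat.le_mul_of_pos_left _ (by omega)
  have hΓpos : 0 < Γ * Y.m := by omega
  set H := Y.G.filter (fun g => ¬ g < glo) with hH
  set Q1 := Y.D.filter (fun a => glo ≤ Y.η a ∧ Y.η a ≤ glo + Y.m) with hQ1
  set Q2 := Y.D.filter (fun a => glo + Y.m < Y.η a) with hQ2
  set X1 := ∑ a ∈ Q1, Y.η a with hX1
  set X2 := ∑ a ∈ Q2, Y.η a with hX2
  have hQ1low : Q1 ⊆ Y.low := fun a ha => Y.mem_low.2 ⟨(mem_filter.1 ha).1, by
    have := (mem_filter.1 ha).2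
    omega⟩
  have hQ2low : Q2 ⊆ Y.low := fun a ha => Y.mem_low.2 ⟨(mem_filter.1 ha).1, by
    have := (mem_filter.1 ha).2
    omega⟩
  -- the surplus is small
  have hGS : 100 * (P * (Y.m * Y.GS Y.G)) ≤ Y.T * Y.m := by
    have h1 : 200 * P * Y.m ≤ glo := le_trans (Nat.mul_le_mul_right _ hΓ) hge
    have h2 := Nat.mul_le_mul_left (Y.GS Y.G) h1
    have h3 : Y.GS Y.G * (200 * P * Y.m) = 2 * (100 * (P * (Y.m * Y.GS Y.G))) := by ring
    omega
  have hn := hV.n_le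
  have hkn : Y.k * (Y.m * Y.n) ≤ Y.T * Y.m := by
    have h1 : Y.k * Y.n ≤ Y.T := by
      have : (Y.k + 1) * Y.n = Y.k * Y.n + Y.n := by ring
      omega
    calc Y.k * (Y.m * Y.n) = Y.k * Y.n * Y.m := by ring
      _ ≤ _ := Nat.mul_le_mul_right _ h1
  -- light letters
  have hA1 : 50 * ∑ g ∈ Y.G.filter (fun g => g < glo), g * Y.AA g ≤ Y.T * Y.m := by
    have h1 := sum_le_card_nsmul (Y.G.filter (fun g => g < glo)) (fun g => g * Y.AA g)
      (2 * (Y.m * Y.n)) (fun g _ => Y.AA_le g)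
    rw [smul_eq_mul, ← hLdef] at h1
    have h2 := Nat.mul_le_mul_right (Y.m * Y.n) hL100
    have h3 : 50 * (L * (2 * (Y.m * Y.n))) = 100 * L * (Y.m * Y.n) := by ring
    omega
  -- heavy letters
  have hA2 : ∑ g ∈ H, g * Y.AA g ≤ 2 * (Y.k * X1) + 2 * (Y.k * X2) := by
    have hHge : ∀ g ∈ H, glo ≤ g := fun g hg => not_lt.1 (mem_filter.1 hg).2
    have h1 := Y.hw_heavy (K := 2 * Y.k) hHge (fun a ha => by
      have h2 := Y.hw_ct (P := P) hΓpos (fun g hg => hge.trans (hHge g hg)) hTk ha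
      have h3 : H.card ≤ Y.k := card_le_card (filter_subset _ _)
      have h4 : ct H a ≤ 200 * P * ct H a := Nat.le_mul_of_pos_left _ (by omega)
      omega)
    have h5 : ∑ a ∈ Y.D.filter (fun a => glo ≤ Y.η a), Y.η a ≤ X1 + X2 := by
      have hsub : Y.D.filter (fun a => glo ≤ Y.η a) ⊆ Q1 ∪ Q2 := by
        intro a ha
        obtain ⟨ha1, ha2⟩ := mem_filter.1 ha
        by_cases h : Y.η a ≤ glo + Y.m
        · exact mem_union_left _ (mem_filter.2 ⟨ha1, ha2, h⟩)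
        · exact mem_union_right _ (mem_filter.2 ⟨ha1, not_le.1 h⟩)
      refine (sum_le_sum_of_subset hsub).trans ?_
      have := sum_union_inter (s₁ := Q1) (s₂ := Q2) (f := Y.η)
      omega
    have h6 := Nat.mul_le_mul_left (2 * Y.k) h5
    have h7 : 2 * Y.k * (X1 + X2) = 2 * (Y.k * X1) + 2 * (Y.k * X2) := by ring
    omega
  have hsumGG : ∀ W : Finset ℕ, W ⊆ Y.G →
      ∑ g ∈ W, 2 * (Y.m * Y.GG g) ≤ 2 * (Y.m * Y.GS Y.G) := by
    intro W hW
    rw [← mul_sum, ← mul_sum]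
    exact Nat.mul_le_mul_left _ (Nat.mul_le_mul_left _ (Y.GS_mono hW))
  have hB1 : 25 * (Y.k * X1) ≤ Y.T * Y.m := by
    have h1 : ∑ _g ∈ U, X1 ≤ ∑ g ∈ U, 2 * (Y.m * Y.GG g) := by
      refine sum_le_sum fun g hg => ?_
      have h2 := Y.hw_un g hQ1low
      have h3 : Q1 ∩ Y.Un g = Q1 := by
        refine inter_eq_left.2 fun a ha => Y.mem_Un_of_lt (mem_filter.1 ha).1 ?_
        have := (mem_filter.1 ha).2
        have := (mem_filter.1 hg).2
        omega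
      rwa [h3] at h2
    have h4 := hsumGG U (filter_subset _ _)
    simp only [sum_const, smul_eq_mul] at h1
    have h5 := Nat.mul_le_mul_right X1 hUbig
    have h6 := Nat.mul_le_mul_left (2 * P) (h1.trans h4)
    have h7 : 2 * P * (U.card * X1) = 2 * P * U.card * X1 := by ring
    have h8 : 2 * P * (2 * (Y.m * Y.GS Y.G)) = 4 * (P * (Y.m * Y.GS Y.G)) := by ring
    omega
  have hB2 : 50 * (Y.k * X2) ≤ 9 * (Y.T * Y.m) := by
    have h1 : ∑ _g ∈ M, X2 ≤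
        ∑ g ∈ M, (2 * (Y.m * Y.GG g) + ∑ a ∈ Q2 ∩ Y.Us g, Y.η a) := by
      refine sum_le_sum fun g _ => ?_
      have h2 := Y.hw_un g hQ2low
      have h3 := Y.hw_split g (Q := Q2) (filter_subset _ _) Y.η
      omega
    rw [sum_add_distrib] at h1
    have h4 := hsumGG M (filter_subset _ _)
    have h5 := Y.hw_used (M := M) (x := glo) (fun g hg => (mem_filter.1 hg).2.2)
    rw [← hQ2] at h5
    set V := ∑ b ∈ Y.low, ct M b * (Y.η b + glo) with hVdef
    have h6 : 200 * P * V ≤ 5 * (Y.T * Y.m) := by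
      have h7 : 200 * P * V ≤ ∑ b ∈ Y.low, Y.k * (Y.η b + glo) := by
        rw [hVdef, mul_sum]
        refine sum_le_sum fun b hb => ?_
        rw [← mul_assoc]
        exact Nat.mul_le_mul_right _ (Y.hw_ct (P := P) hΓpos
          (fun g hg => (mem_filter.1 hg).2.1) hTk (Y.hw_low_sub hb))
      rw [← mul_sum, sum_add_distrib] at h7
      simp only [sum_const, smul_eq_mul] at h7
      have h8 := Nat.mul_le_mul_left Y.k Y.sum_η_low
      have h9 : Y.k * (∑ b ∈ Y.low, Y.η b + Y.low.card * glo) =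
          Y.k * ∑ b ∈ Y.low, Y.η b + Y.k * Y.low.card * glo := by ring
      have h10 : Y.k * (2 * (Y.m * Y.n)) = 2 * (Y.k * (Y.m * Y.n)) := by ring
      omega
    simp only [sum_const, smul_eq_mul] at h1
    have h11 : M.card * X2 ≤ 2 * (Y.m * Y.GS Y.G) + V := by omega
    have h12 := Nat.mul_le_mul_right X2 hMbig
    have h13 := Nat.mul_le_mul_left (4 * P) h11
    have h14 : 4 * P * (M.card * X2) = 4 * P * M.card * X2 := by ring
    have h15 : 4 * P * (2 * (Y.m * Y.GS Y.G) + V) =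
        8 * (P * (Y.m * Y.GS Y.G)) + 4 * (P * V) := by ring
    have h16 : 200 * P * V = 200 * (P * V) := by ring
    omega
  have hC1 := Y.sum_AA
  rw [← sum_filter_add_sum_filter_not Y.G (fun g => g < glo), ← hH] at hC1
  have hC2 := Y.sum_η
  have hC3 : 10 * (Y.m * Y.n) ≤ Y.T * Y.m := le_trans (Nat.mul_le_mul_right _ hk) hkn
  have hC4 : 10 * (Y.m * Y.m) ≤ Y.T * Y.m := by
    rw [← mul_assoc]
    exact Nat.mul_le_mul_right _ hT
  have hC5 : Y.m * Y.T = Y.T * Y.m := mul_comm _ _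
  have hC6 : 0 < Y.m * Y.m := Nat.mul_pos hm hm
  omega

end Ap

end Pool.Agent.Lib.MP_299528_co.Bd
end
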