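import Pool.Agent.Lib.MP_299528_co.W.ClA
import Pool.Agent.Lib.MP_299528_co.W.HW

-- part Pool.Agent.Lib.MP_299528_co.W.Edge
section

/-! The edges of the window. -/

set_option autoImplicit false

namespace Pool.Agent.Lib.MP_299528_co.Bd

open Finset

namespace Cl

variable (Y : Cl)

theorem z_cons {σ : ℤ} {e h : ℕ} {a : Multiset ℕ} (ha : h ::ₘ a ∈ Y.D) :
    Y.za σ e a = Y.zb σ e (h ::ₘ a) + Y.vv σ h := by
  have h1 := Y.lt _ ha
  rw [Multiset.sum_cons] at h1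
  have h2 : (Y.η a : ℤ) = Y.η (h ::ₘ a) + h := by
    simp only [Ap.η, Ap.T, Multiset.sum_cons]
    omega
  simp only [za, zb, vv, h2]
  ring

theorem Edge.zb_nonneg {Y : Cl} {σ : ℤ} {e : ℕ} (hE : Y.Edge σ e) {b : Multiset ℕ}
    (hb : b ∈ Y.Z) : 0 ≤ Y.zb σ e b := by
  have h1 := (mem_filter.1 hb).2
  rcases hE with ⟨rfl, rfl⟩ | ⟨rfl, h⟩ <;> simp only [zb] <;> omega

theorem Edge.vv_abs {Y : Cl} {σ : ℤ} {e : ℕ} (hE : Y.Edge σ e) (h : ℕ) :
    |((Y.vv σ h : ℤ) : ℝ)| = |(h : ℝ) - Y.gm| := by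
  rcases hE with ⟨rfl, -⟩ | ⟨rfl, -⟩ <;> simp [vv, abs_sub_comm]

theorem Edge.s_eq {Y : Cl} {σ : ℤ} {e : ℕ} (hE : Y.Edge σ e) : Y.sp σ + Y.sp (-σ) = Y.s := by
  rw [sp, sp, s, ← add_div, ← sum_add_distrib]
  congr 1
  refine sum_congr rfl fun h _ => ?_
  have h1 : ((Y.vv (-σ) h : ℤ) : ℝ) = -((Y.vv σ h : ℤ) : ℝ) := by simp [vv]
  rw [h1, ← hE.vv_abs h]
  exact max_zero_add_max_neg_zero_eq_abs_self _

theorem Edge.sides {Y : Cl} {σ : ℤ} {e : ℕ} (hE : Y.Edge σ e) :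
    Y.C.card ≤ 3 * (Y.C.filter (fun h => Y.vv σ h ≤ 0)).card ∧
      Y.C.card ≤ 3 * (Y.C.filter (fun h => 0 ≤ Y.vv σ h)).card := by
  have h1 := Y.hlo
  have h2 := Y.hhi
  rcases hE with ⟨rfl, -⟩ | ⟨rfl, -⟩
  · exact ⟨h1.trans_eq (congrArg (3 * card ·) (filter_congr fun h _ => by simp [vv])),
      h2.trans_eq (congrArg (3 * card ·) (filter_congr fun h _ => by simp [vv]))⟩
  · exact ⟨h2.trans_eq (congrArg (3 * card ·) (filter_congr fun h _ => by simp [vv])),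
      h1.trans_eq (congrArg (3 * card ·) (filter_congr fun h _ => by simp [vv]))⟩

/-- Upper elements near the edge form an arc. -/
theorem Edge.arc_Z {Y : Cl} {σ : ℤ} {e : ℕ} (hE : Y.Edge σ e) {u : ℕ} (hu : u ≤ Y.m) :
    ∃ p, Y.Z.filter (fun b => Y.zb σ e b < u) = Y.arc Y.Z p u := by
  rcases hE with ⟨rfl, rfl⟩ | ⟨rfl, h⟩
  · refine ⟨0, filter_congr fun b hb => ?_⟩
    have h1 := (mem_filter.1 hb).2
    rw [add_zero, Nat.mod_eq_of_lt h1, zb]
    omega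
  · refine ⟨u, filter_congr fun b hb => ?_⟩
    have h1 := (mem_filter.1 hb).2
    rw [zb]
    rcases lt_or_ge (Y.η b + u) Y.m with h2 | h2
    · rw [Nat.mod_eq_of_lt h2]
      omega
    · rw [Nat.mod_eq_sub_mod h2, Nat.mod_eq_of_lt (by omega)]
      omega

theorem edge_arc {m : ℕ} (hm : 0 < m) (y : ℤ) (u : ℕ) :
    ∃ p : ℕ, ∀ x : ℕ, y ≤ x → (x : ℤ) < y + u → (x + p) % m < u := by
  refine ⟨(-y % m).toNat, fun x h1 h2 => ?_⟩
  have h3 : (0 : ℤ) < m := by exact_mod_cast hm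
  have h4 : (((x + (-y % m).toNat) % m : ℕ) : ℤ) = (((x - y).toNat % m : ℕ) : ℤ) := by
    push_cast
    rw [Int.toNat_of_nonneg (Int.emod_nonneg _ h3.ne'), Int.toNat_of_nonneg (by omega),
      Int.add_emod_emod, sub_eq_add_neg]
  have h5 := Nat.mod_le (x - y).toNat m
  omega

/-- An interval of signed distances lies on an arc. -/
theorem Edge.arc_za {Y : Cl} {σ : ℤ} {e : ℕ} (hE : Y.Edge σ e) (y : ℤ) (u : ℕ) :
    ∃ p, ∀ a, y ≤ Y.za σ e a → Y.za σ e a < y + u → (Y.η a + p) % Y.m < u := by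
  rcases hE with ⟨rfl, -⟩ | ⟨rfl, -⟩
  · obtain ⟨p, hp⟩ := edge_arc Y.hm (y + Y.gm + e) u
    exact ⟨p, fun a h1 h2 => hp _ (by rw [za] at h1; omega) (by rw [za] at h2; omega)⟩
  · obtain ⟨p, hp⟩ := edge_arc Y.hm (Y.gm + e - y - u + 1) u
    exact ⟨p, fun a h1 h2 => hp _ (by rw [za] at h2; omega) (by rw [za] at h1; omega)⟩

theorem Edge.abs_za {Y : Cl} {σ : ℤ} {e : ℕ} (hE : Y.Edge σ e) (a : Multiset ℕ) :
    |Y.za σ e a| = |(Y.η a : ℤ) - Y.gm - e| := by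
  rcases hE with ⟨rfl, -⟩ | ⟨rfl, -⟩
  · rw [za, one_mul]
  · rw [za, neg_one_mul, abs_neg]

/-- Forced pairs are unused, up to a small error. -/
theorem forced (hS : Y.Sm) {σ : ℤ} {e : ℕ} (hE : Y.Edge σ e) :
    ∑ h ∈ Y.C, ((Y.low.filter
      (fun a => -(Y.w : ℤ) ≤ Y.za σ e a ∧ Y.za σ e a < Y.vv σ h)).card : ℝ) ≤
      Y.Ue e + 400 * Y.Es := by
  classical
  obtain ⟨p, hp⟩ := hE.arc_za (-(2 * Y.w : ℕ) - σ * Y.gm) (2 * Y.w)
  set B := Y.arc Y.low p (2 * Y.w) with hB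
  set P := Y.low.filter (fun a => 8 * |(Y.η a : ℤ) - Y.gm - e| ≤ Y.m) with hP
  have hBD : ∀ b ∈ B, b ∈ Y.D := fun b hb => (mem_filter.1 (mem_filter.1 hb).1).1
  have key : ∀ h ∈ Y.C, ((Y.low.filter
      (fun a => -(Y.w : ℤ) ≤ Y.za σ e a ∧ Y.za σ e a < Y.vv σ h)).card : ℝ) ≤
      ∑ a ∈ P ∩ Y.Un h, ((a.count h : ℝ) + 1) + ∑ b ∈ B, (b.count h : ℝ) := by
    intro h hh
    set A := Y.low.filter (fun a => -(Y.w : ℤ) ≤ Y.za σ e a ∧ Y.za σ e a < Y.vv σ h) with hA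
    have hv : |Y.vv σ h| ≤ Y.w := by
      have h1 := (hE.vv_abs h).trans_le (Y.mem_C hh).2.2.2
      exact_mod_cast h1
    rw [abs_le] at hv
    have a1 : (A.filter (fun a => h ::ₘ a ∉ Y.D)).card ≤ (P ∩ Y.Un h).card := by
      refine card_le_card fun a ha => ?_
      obtain ⟨ha, h2⟩ := mem_filter.1 ha
      obtain ⟨h3, h4, h5⟩ := mem_filter.1 ha
      refine mem_inter.2 ⟨mem_filter.2 ⟨h3, ?_⟩, mem_filter.2 ⟨(mem_filter.1 h3).1, h2⟩⟩
      have h6 : |Y.za σ e a| ≤ Y.w := abs_le.2 ⟨h4, by omega⟩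
      rw [hE.abs_za] at h6
      have := Y.hw
      omega
    have a2 : (A.filter (fun a => h ::ₘ a ∈ Y.D)).card ≤ (B.filter (fun b => h ∈ b)).card := by
      refine card_le_card_of_injOn (fun a => h ::ₘ a) (fun a ha => ?_)
        (fun a _ a' _ h1 => (Multiset.cons_inj_right _).1 h1)
      obtain ⟨ha, h2⟩ := mem_filter.1 (mem_coe.1 ha)
      obtain ⟨-, h4, h5⟩ := mem_filter.1 ha
      have h6 := Y.z_cons (σ := σ) (e := e) h2
      have h7 : Y.za σ e (h ::ₘ a) = Y.zb σ e (h ::ₘ a) - σ * Y.gm := by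
        rw [za, zb]; ring
      refine mem_coe.2 (mem_filter.2 ⟨mem_filter.2 ⟨mem_filter.2 ⟨h2, ?_⟩,
        hp (h ::ₘ a) (by omega) (by omega)⟩, Multiset.mem_cons_self _ _⟩)
      by_contra h8
      change ¬(h ::ₘ a).sum < Y.c at h8
      have h9 := hE.zb_nonneg (b := h ::ₘ a) (mem_filter.2 ⟨h2, by
        have := Y.hm
        simp only [Ap.η, Ap.T]
        omega⟩)
      omega
    have a3 : ((P ∩ Y.Un h).card : ℝ) ≤ ∑ a ∈ P ∩ Y.Un h, ((a.count h : ℝ) + 1) := by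
      rw [card_eq_sum_ones]
      push_cast
      exact sum_le_sum fun a _ => le_add_of_nonneg_left (by positivity)
    have a4 : ((B.filter (fun b => h ∈ b)).card : ℝ) ≤ ∑ b ∈ B, (b.count h : ℝ) := by
      rw [card_filter]
      push_cast
      refine sum_le_sum fun b _ => ?_
      split_ifs with h1
      · exact_mod_cast Multiset.one_le_count_iff_mem.2 h1
      · positivity
    have a5 := card_filter_add_card_filter_not (s := A) (fun a => h ::ₘ a ∈ Y.D)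
    have a6 : (A.card : ℝ) ≤ (P ∩ Y.Un h).card + (B.filter (fun b => h ∈ b)).card := by
      exact_mod_cast (by omega : A.card ≤ _)
    linarith
  refine (sum_le_sum key).trans ?_
  rw [sum_add_distrib, sum_comm (s := Y.C) (t := B)]
  refine add_le_add le_rfl ?_
  have h1 : ∑ b ∈ B, ∑ h ∈ Y.C, (b.count h : ℝ) ≤ B.card • (2 * Y.l) :=
    sum_le_card_nsmul _ _ _ fun b hb => by
      have := Y.ct_le subset_rfl (hBD b hb)
      rwa [ct, Nat.cast_sum] at this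
  have h2 := Y.MU hS p (u := 2 * Y.w) (by omega)
  rw [nsmul_eq_mul] at h1
  linarith

theorem exists_edge : ∃ (σ : ℤ) (e : ℕ), Y.Edge σ e ∧ Y.Ue e ≤ Y.Ufree := by
  have h1 := Y.hw
  have h2 := Y.hw1
  rcases lt_or_ge (2 * Y.gm) (3 * Y.m) with h | h
  · refine ⟨1, 0, Or.inl ⟨rfl, rfl⟩, (Y.UP_mono fun a ha => ?_).2⟩
    obtain ⟨h3, h4⟩ := mem_filter.1 ha
    have := le_abs_self ((Y.η a : ℤ) - Y.gm - (0 : ℕ))
    exact mem_filter.2 ⟨h3, Or.inl (by omega)⟩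
  · refine ⟨-1, Y.m - 1, Or.inr ⟨rfl, by omega⟩, (Y.UP_mono fun a ha => ?_).2⟩
    obtain ⟨h3, h4⟩ := mem_filter.1 ha
    have := neg_abs_le ((Y.η a : ℤ) - Y.gm - (Y.m - 1 : ℕ))
    exact mem_filter.2 ⟨h3, Or.inr (by omega)⟩

end Cl

end Pool.Agent.Lib.MP_299528_co.Bd
end

-- part Pool.Agent.Lib.MP_299528_co.W.Decay
section

/-! Decay of the depth distribution and the lower bound for the surplus. -/

set_option autoImplicit false

namespace Pool.Agent.Lib.MP_299528_co.Bd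

open Finset

namespace Ap

variable (Y : Ap)

theorem II_zero : Y.II 0 = Y.n := by
  simp [II, n]

theorem dec_δ_le {a b : Multiset ℕ} {S : ℕ} (h : Y.η a ≤ Y.η b + S * Y.m) :
    Y.δ a ≤ Y.δ b + S := by
  rw [δ_eq, δ_eq, ← Nat.add_mul_div_right _ _ Y.hm]
  exact Nat.div_le_div_right h

theorem dec_δ_ge {a b : Multiset ℕ} {S : ℕ} (h : Y.η b + S * Y.m ≤ Y.η a) :
    Y.δ b + S ≤ Y.δ a := by
  rw [δ_eq, δ_eq, ← Nat.add_mul_div_right _ _ Y.hm]
  exact Nat.div_le_div_right h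

theorem dec_one {g : ℕ} (hg : g ∈ Y.G) {s S : ℕ} (hS : s + g ≤ S * Y.m) (x : ℕ) :
    Y.II (x + S) ≤ ∑ b ∈ Y.D.filter (fun b => s ≤ uu g b), (Y.δ b - x) + Y.GG g := by
  classical
  have hg0 : 0 < g := lt_trans Y.hm (Y.hG g hg)
  set q := (s + g - 1) / g with hq
  have hq1 : s ≤ q * g := by
    have h1 := Nat.div_add_mod (s + g - 1) g
    have h2 := Nat.mod_lt (s + g - 1) hg0
    rw [← hq, mul_comm] at h1
    omega
  have hq2 : q * g ≤ S * Y.m := by
    have h1 := Nat.div_mul_le_self (s + g - 1) g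
    rw [← hq] at h1
    omega
  rw [II, ← Finset.sum_filter_add_sum_filter_not Y.D
    (fun a => a + Multiset.replicate q g ∈ Y.D)]
  apply Nat.add_le_add
  · calc ∑ a ∈ Y.D.filter (fun a => a + Multiset.replicate q g ∈ Y.D), (Y.δ a - (x + S))
        ≤ ∑ a ∈ Y.D.filter (fun a => a + Multiset.replicate q g ∈ Y.D),
            (Y.δ (a + Multiset.replicate q g) - x) := by
          apply Finset.sum_le_sum
          intro a ha
          have h2 := (Y.of_add (Finset.mem_filter.1 ha).2).2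
          rw [Multiset.sum_replicate, smul_eq_mul] at h2
          have h3 : Y.δ a ≤ Y.δ (a + Multiset.replicate q g) + S := Y.dec_δ_le (by omega)
          omega
      _ = ∑ b ∈ (Y.D.filter (fun a => a + Multiset.replicate q g ∈ Y.D)).image
            (fun a => a + Multiset.replicate q g), (Y.δ b - x) := by
          rw [Finset.sum_image]
          intro a _ b _ h
          exact add_right_cancel h
      _ ≤ _ := by
          apply Finset.sum_le_sum_of_subset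
          intro b hb
          obtain ⟨a, ha, rfl⟩ := Finset.mem_image.1 hb
          refine Finset.mem_filter.2 ⟨(Finset.mem_filter.1 ha).2, ?_⟩
          rw [uu, Multiset.count_add, Multiset.count_replicate_self, add_mul]
          omega
  · rw [GG_eq]
    calc ∑ a ∈ Y.D.filter (fun a => ¬ a + Multiset.replicate q g ∈ Y.D), (Y.δ a - (x + S))
        ≤ ∑ a ∈ Y.D.filter (fun a => ¬ a + Multiset.replicate q g ∈ Y.D), Y.δ (Y.tp g a) := by
          apply Finset.sum_le_sum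
          intro a ha
          have h2 := Y.η_tp_of_not (Finset.mem_filter.1 ha).1 (Finset.mem_filter.1 ha).2
          have h3 : Y.δ a ≤ Y.δ (Y.tp g a) + S := Y.dec_δ_le (by omega)
          omega
      _ ≤ _ := Finset.sum_le_sum_of_subset (Finset.filter_subset _ _)

theorem dec_half {R : Finset ℕ} (hR : R ⊆ Y.G) {s : ℕ} (hs : 0 < s)
    (hT : 2 * Y.T ≤ R.card * s) {b : Multiset ℕ} (hb : b ∈ Y.D) :
    2 * (R.filter (fun g => s ≤ uu g b)).card ≤ R.card := by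
  have h1 : (R.filter (fun g => s ≤ uu g b)).card * s ≤ b.sum := by
    calc (R.filter (fun g => s ≤ uu g b)).card * s
        = ∑ _g ∈ R.filter (fun g => s ≤ uu g b), s := by
          rw [Finset.sum_const, smul_eq_mul]
      _ ≤ ∑ g ∈ R.filter (fun g => s ≤ uu g b), uu g b :=
          Finset.sum_le_sum (fun g hg => (Finset.mem_filter.1 hg).2)
      _ ≤ ∑ g ∈ Y.G, uu g b :=
          Finset.sum_le_sum_of_subset ((Finset.filter_subset _ _).trans hR)
      _ = b.sum := Y.wt_G hb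
  have h2 := Y.η_add hb
  have h3 : (2 * (R.filter (fun g => s ≤ uu g b)).card) * s ≤ R.card * s := by
    rw [mul_assoc]
    omega
  exact Nat.le_of_mul_le_mul_right h3 hs

theorem decay {R : Finset ℕ} (hR : R ⊆ Y.G) {s S : ℕ} (hS : ∀ g ∈ R, s + g ≤ S * Y.m)
    (hT : 2 * Y.T ≤ R.card * s) (x : ℕ) :
    2 * (R.card * Y.II (x + S)) ≤ R.card * Y.II x + 2 * Y.GS R := by
  classical
  rcases Nat.eq_zero_or_pos s with hs | hs
  · have hT0 : Y.T = 0 := by
      rw [hs] at hT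
      omega
    have h0 : Y.II (x + S) = 0 := by
      apply Finset.sum_eq_zero
      intro a _
      rw [δ_eq, η, hT0]
      simp
    rw [h0]
    simp
  have h1 : R.card * Y.II (x + S) ≤
      ∑ g ∈ R, ∑ b ∈ Y.D.filter (fun b => s ≤ uu g b), (Y.δ b - x) + Y.GS R := by
    rw [GS, ← Finset.sum_add_distrib, ← smul_eq_mul, ← Finset.sum_const]
    exact Finset.sum_le_sum (fun g hg => Y.dec_one (hR hg) (hS g hg) x)
  have h2 : ∑ g ∈ R, ∑ b ∈ Y.D.filter (fun b => s ≤ uu g b), (Y.δ b - x) =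
      ∑ b ∈ Y.D, (R.filter (fun g => s ≤ uu g b)).card * (Y.δ b - x) := by
    simp_rw [Finset.sum_filter]
    rw [Finset.sum_comm]
    apply Finset.sum_congr rfl
    intro b _
    rw [← Finset.sum_filter, Finset.sum_const, smul_eq_mul]
  have h3 : 2 * ∑ b ∈ Y.D, (R.filter (fun g => s ≤ uu g b)).card * (Y.δ b - x) ≤
      R.card * Y.II x := by
    rw [II, Finset.mul_sum, Finset.mul_sum]
    apply Finset.sum_le_sum
    intro b hb
    rw [← mul_assoc]
    exact Nat.mul_le_mul_right _ (Y.dec_half hR hs hT hb)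
  omega

theorem decay_iter {R : Finset ℕ} (hR : R ⊆ Y.G) (hne : R.Nonempty) {s S : ℕ}
    (hS : ∀ g ∈ R, s + g ≤ S * Y.m) (hT : 2 * Y.T ≤ R.card * s) (p : ℕ) :
    (Y.II (p * S) : ℝ) ≤ Y.n / 2 ^ p + (2 - 2 / 2 ^ p) * (Y.GS R / R.card) := by
  have hr : (0 : ℝ) < R.card := by exact_mod_cast hne.card_pos
  induction p with
  | zero => simp [II_zero]
  | succ p ih =>
    have h1 := Y.decay hR hS hT (p * S)
    have h2 : (2 : ℝ) * (R.card * Y.II (p * S + S)) ≤ R.card * Y.II (p * S) + 2 * Y.GS R := by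
      exact_mod_cast h1
    have h3 : (Y.II (p * S + S) : ℝ) ≤ Y.II (p * S) / 2 + Y.GS R / R.card := by
      rw [div_add_div _ _ (by norm_num) hr.ne', le_div_iff₀ (by positivity)]
      linarith
    have h4 : (Y.n : ℝ) / 2 ^ (p + 1) + (2 - 2 / 2 ^ (p + 1)) * (Y.GS R / R.card) =
        (Y.n / 2 ^ p + (2 - 2 / 2 ^ p) * (Y.GS R / R.card)) / 2 + Y.GS R / R.card := by
      rw [pow_succ]
      field_simp
      ring
    rw [h4, add_mul, one_mul]
    linarith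

theorem lcnt {j : ℕ} (hj : j ∈ Y.G) {s s' : ℝ} (hs : 0 ≤ s) (hs' : 0 ≤ s') :
    ((Y.D.filter (fun a => (Y.η a : ℝ) < s ∧ s' ≤ (uu j a : ℝ))).card : ℝ) * s' ≤
      (s + j) * Y.m := by
  classical
  have _h0 := hs'
  have hj0 : 0 < j := lt_trans Y.hm (Y.hG j hj)
  have hjr : (0 : ℝ) < j := by exact_mod_cast hj0
  set A := Y.D.filter (fun a => (Y.η a : ℝ) < s ∧ s' ≤ (uu j a : ℝ)) with hA
  set L := ⌈s' / j⌉₊ with hL
  set F := ⌊s / j⌋₊ with hF
  have hcount : ∀ a ∈ A, ∀ i ∈ range (L + 1), Multiset.replicate i j ≤ a := by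
    intro a ha i hi
    have h1 := (Finset.mem_filter.1 ha).2.2
    rw [uu] at h1
    push_cast at h1
    have h2 : L ≤ a.count j := by
      rw [hL, Nat.ceil_le, div_le_iff₀ hjr]
      exact h1
    rw [← Multiset.le_count_iff_replicate_le]
    have := Finset.mem_range.1 hi
    omega
  have hη : ∀ a ∈ A, ∀ i ∈ range (L + 1), a - Multiset.replicate i j ∈ Y.D ∧
      Y.η (a - Multiset.replicate i j) = Y.η a + i * j := by
    intro a ha i hi
    have h1 : a - Multiset.replicate i j + Multiset.replicate i j = a :=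
      tsub_add_cancel_of_le (hcount a ha i hi)
    have h2 := Y.of_add (a := a - Multiset.replicate i j) (s := Multiset.replicate i j)
      (by rw [h1]; exact (Finset.mem_filter.1 ha).1)
    rw [h1, Multiset.sum_replicate, smul_eq_mul] at h2
    exact h2
  have hcard : (A ×ˢ range (L + 1)).card ≤ (Y.D ×ˢ range (F + 1)).card := by
    apply Finset.card_le_card_of_injOn
      (fun p => (p.1 - Multiset.replicate p.2 j, Y.η p.1 / j))
    · intro p hp
      have hp' := Finset.mem_product.1 (Finset.mem_coe.1 hp)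
      refine Finset.mem_coe.2 (Finset.mem_product.2 ⟨(hη _ hp'.1 _ hp'.2).1, ?_⟩)
      rw [Finset.mem_range, Nat.lt_succ_iff, hF]
      apply Nat.le_floor
      calc ((Y.η p.1 / j : ℕ) : ℝ) ≤ (Y.η p.1 : ℝ) / j := Nat.cast_div_le
        _ ≤ s / j := by
          apply div_le_div_of_nonneg_right _ hjr.le
          exact (Finset.mem_filter.1 hp'.1).2.1.le
    · intro p hp p' hp' h
      have h1 := Finset.mem_product.1 (Finset.mem_coe.1 hp)
      have h2 := Finset.mem_product.1 (Finset.mem_coe.1 hp')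
      have e1 : p.1 - Multiset.replicate p.2 j = p'.1 - Multiset.replicate p'.2 j :=
        congrArg Prod.fst h
      have e2 : Y.η p.1 / j = Y.η p'.1 / j := congrArg Prod.snd h
      have a1 := (hη _ h1.1 _ h1.2).2
      have a2 := (hη _ h2.1 _ h2.2).2
      have e3 : (Y.η p.1 + p.2 * j) / j = (Y.η p'.1 + p'.2 * j) / j := by
        rw [← a1, ← a2, e1]
      rw [Nat.add_mul_div_right _ _ hj0, Nat.add_mul_div_right _ _ hj0] at e3
      have e4 : p.2 = p'.2 := by omega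
      have e5 : p.1 = p'.1 := by
        rw [← tsub_add_cancel_of_le (hcount _ h1.1 _ h1.2), e1, e4,
          tsub_add_cancel_of_le (hcount _ h2.1 _ h2.2)]
      exact Prod.ext e5 e4
  rw [Finset.card_product, Finset.card_product, Finset.card_range, Finset.card_range,
    Y.cardD] at hcard
  have hc : (A.card : ℝ) * (L + 1) ≤ Y.m * (F + 1) := by exact_mod_cast hcard
  have hL1 : s' ≤ L * j := by
    rw [← div_le_iff₀ hjr]
    exact Nat.le_ceil _
  have hF1 : (F : ℝ) * j ≤ s := by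
    rw [← le_div_iff₀ hjr]
    exact Nat.floor_le (by positivity)
  have hA0 : (0 : ℝ) ≤ A.card := by positivity
  have hm0 : (0 : ℝ) ≤ Y.m := by positivity
  calc (A.card : ℝ) * s' ≤ A.card * ((L + 1) * j) := by
        apply mul_le_mul_of_nonneg_left _ hA0
        linarith
    _ = (A.card * (L + 1)) * j := by ring
    _ ≤ (Y.m * (F + 1)) * j := mul_le_mul_of_nonneg_right hc hjr.le
    _ = (F * j + j) * Y.m := by ring
    _ ≤ (s + j) * Y.m := by
        apply mul_le_mul_of_nonneg_right _ hm0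
        linarith

/-- The elements of depth above `x`. -/
def decB (x : ℕ) : Finset (Multiset ℕ) := Y.D.filter (fun a => x < Y.δ a)

theorem dec_split {i S Q : ℕ} (hQ : S * Y.m ≤ Q * i) (x : ℕ) :
    (Y.decB x).card ≤ (Y.decB (x + S)).card + Q * ((Y.decB x).filter (fun b => i ∉ b)).card := by
  classical
  rw [← Finset.card_filter_add_card_filter_not (s := Y.decB x) (fun b => Q ≤ b.count i)]
  apply Nat.add_le_add
  · apply Finset.card_le_card_of_injOn (fun b => b - Multiset.replicate Q i)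
    · intro b hb
      have hb' := Finset.mem_filter.1 (Finset.mem_coe.1 hb)
      have hb2 := Finset.mem_filter.1 hb'.1
      have h1 : b - Multiset.replicate Q i + Multiset.replicate Q i = b :=
        tsub_add_cancel_of_le (Multiset.le_count_iff_replicate_le.1 hb'.2)
      have h2 := Y.of_add (a := b - Multiset.replicate Q i) (s := Multiset.replicate Q i)
        (by rw [h1]; exact hb2.1)
      rw [h1, Multiset.sum_replicate, smul_eq_mul] at h2
      refine Finset.mem_coe.2 (Finset.mem_filter.2 ⟨h2.1, ?_⟩)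
      have h3 : Y.δ b + S ≤ Y.δ (b - Multiset.replicate Q i) := Y.dec_δ_ge (by omega)
      have h4 := hb2.2
      show x + S < Y.δ (b - Multiset.replicate Q i)
      omega
    · intro b hb b' hb' h
      have h1 := (Finset.mem_filter.1 (Finset.mem_coe.1 hb)).2
      have h2 := (Finset.mem_filter.1 (Finset.mem_coe.1 hb')).2
      have e : b - Multiset.replicate Q i = b' - Multiset.replicate Q i := h
      rw [← tsub_add_cancel_of_le (Multiset.le_count_iff_replicate_le.1 h1), e,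
        tsub_add_cancel_of_le (Multiset.le_count_iff_replicate_le.1 h2)]
  · have e0 : Q * ((Y.decB x).filter (fun b => i ∉ b)).card =
        (((Y.decB x).filter (fun b => i ∉ b)) ×ˢ range Q).card := by
      rw [Finset.card_product, Finset.card_range, mul_comm]
    rw [e0]
    apply Finset.card_le_card_of_injOn (fun b => (bot i b, b.count i))
    · intro b hb
      have hb' := Finset.mem_filter.1 (Finset.mem_coe.1 hb)
      have hb2 := Finset.mem_filter.1 hb'.1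
      have h1 := Y.bot_mem i hb2.1
      have h3 : Y.δ b + 0 ≤ Y.δ (bot i b) := Y.dec_δ_ge (by omega)
      have h4 := hb2.2
      have h5 := hb'.2
      refine Finset.mem_coe.2 (Finset.mem_product.2 ⟨Finset.mem_filter.2
        ⟨Finset.mem_filter.2 ⟨h1.1, ?_⟩, (bot_bot i b).2⟩, Finset.mem_range.2 ?_⟩)
      · show x < Y.δ (bot i b)
        omega
      · show b.count i < Q
        omega
    · intro b _ b' _ h
      exact eq_of_bot (congrArg Prod.fst h) (congrArg Prod.snd h)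

theorem dec_swap (P : Finset (Multiset ℕ)) (S y : ℕ) :
    ∑ x ∈ range S, (P.filter (fun a => x + y < Y.δ a)).card =
      ∑ a ∈ P, min S (Y.δ a - y) := by
  simp_rw [Finset.card_filter]
  rw [Finset.sum_comm]
  apply Finset.sum_congr rfl
  intro a _
  rw [← Finset.card_filter]
  have : (range S).filter (fun x => x + y < Y.δ a) = range (min S (Y.δ a - y)) := by
    ext x
    simp only [Finset.mem_filter, Finset.mem_range]
    omega
  rw [this, Finset.card_range]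

theorem dec_sum0 (S : ℕ) : ∑ x ∈ range S, (Y.decB x).card + Y.II S = Y.n := by
  have h := Y.dec_swap Y.D S 0
  simp only [add_zero, tsub_zero] at h
  rw [show (∑ x ∈ range S, (Y.decB x).card) = ∑ a ∈ Y.D, min S (Y.δ a) from h, II, n,
    ← Finset.sum_add_distrib]
  apply Finset.sum_congr rfl
  intro a _
  omega

theorem dec_sum1 (S : ℕ) : ∑ x ∈ range S, (Y.decB (x + S)).card ≤ Y.II S := by
  have h := Y.dec_swap Y.D S S
  rw [show (∑ x ∈ range S, (Y.decB (x + S)).card) = ∑ a ∈ Y.D, min S (Y.δ a - S) from h, II]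
  exact Finset.sum_le_sum (fun a _ => min_le_right _ _)

theorem dec_sum2 (S j : ℕ) : ∑ x ∈ range S, (Y.decB x ∩ Y.Un j).card ≤ Y.GG j := by
  classical
  have h := Y.dec_swap (Y.Un j) S 0
  have e : ∀ x, Y.decB x ∩ Y.Un j = (Y.Un j).filter (fun a => x + 0 < Y.δ a) := by
    intro x
    ext a
    simp only [decB, Un, Finset.mem_inter, Finset.mem_filter, add_zero]
    tauto
  simp_rw [e]
  rw [h, GG]
  apply Finset.sum_le_sum
  intro a _
  calc min S (Y.δ a - 0) ≤ Y.δ a := min_le_right _ _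
    _ ≤ (a.count j + 1) * Y.δ a := Nat.le_mul_of_pos_left _ (Nat.succ_pos _)

theorem tlem (H : Finset ℕ) {S Q : ℕ} (hQ : ∀ j ∈ H, S * Y.m ≤ Q * j)
    (hI : 10 * Y.II S ≤ 3 * Y.n) (h5 : 5 * Q * S * Y.m ≤ H.card * Y.n) :
    H.card * Y.n ^ 2 ≤ 25 * Q ^ 2 * S * Y.m * Y.GS H := by
  classical
  set a : ℕ → ℕ := fun x => ∑ i ∈ H, ((Y.decB x).filter (fun b => i ∉ b)).card with ha
  set A := ∑ x ∈ range S, a x with hA
  have h1 : ∀ i ∈ H, 2 * Y.n ≤
      5 * (Q * ∑ x ∈ range S, ((Y.decB x).filter (fun b => i ∉ b)).card) := by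
    intro i hi
    have e1 : ∑ x ∈ range S, (Y.decB x).card ≤ ∑ x ∈ range S, (Y.decB (x + S)).card +
        Q * ∑ x ∈ range S, ((Y.decB x).filter (fun b => i ∉ b)).card := by
      rw [Finset.mul_sum, ← Finset.sum_add_distrib]
      exact Finset.sum_le_sum (fun x _ => Y.dec_split (hQ i hi) x)
    have e2 := Y.dec_sum0 S
    have e3 := Y.dec_sum1 S
    omega
  have h2 : 2 * (H.card * Y.n) ≤ 5 * (Q * A) := by
    calc 2 * (H.card * Y.n) = ∑ _i ∈ H, 2 * Y.n := by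
          rw [Finset.sum_const, smul_eq_mul]
          ring
      _ ≤ ∑ i ∈ H, 5 * (Q * ∑ x ∈ range S, ((Y.decB x).filter (fun b => i ∉ b)).card) :=
          Finset.sum_le_sum h1
      _ = 5 * (Q * A) := by
          rw [← Finset.mul_sum, ← Finset.mul_sum, Finset.sum_comm]
  have h3 : ∑ x ∈ range S, a x ^ 2 ≤ Y.m * (A + 2 * H.card * Y.GS H) := by
    calc ∑ x ∈ range S, a x ^ 2
        ≤ ∑ x ∈ range S, Y.m * (a x + 2 * H.card * ∑ j ∈ H, (Y.decB x ∩ Y.Un j).card) :=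
          Finset.sum_le_sum (fun x _ => Y.tour H (Finset.filter_subset _ _))
      _ = Y.m * (A + 2 * H.card * ∑ j ∈ H, ∑ x ∈ range S, (Y.decB x ∩ Y.Un j).card) := by
          rw [← Finset.mul_sum, Finset.sum_add_distrib, ← Finset.mul_sum,
            Finset.sum_comm (s := H)]
      _ ≤ _ := by
          apply Nat.mul_le_mul_left
          apply Nat.add_le_add_left
          apply Nat.mul_le_mul_left
          exact Finset.sum_le_sum (fun j _ => Y.dec_sum2 S j)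
  have h4 : A ^ 2 ≤ S * ∑ x ∈ range S, a x ^ 2 := by
    have := sq_sum_le_card_mul_sum_sq (s := range S) (f := a)
    rwa [Finset.card_range] at this
  have h6 : A ^ 2 ≤ S * Y.m * A + 2 * (S * Y.m * (H.card * Y.GS H)) := by
    calc A ^ 2 ≤ S * (Y.m * (A + 2 * H.card * Y.GS H)) :=
          h4.trans (Nat.mul_le_mul_left _ h3)
      _ = _ := by ring
  rcases Nat.eq_zero_or_pos Q with hQ0 | hQ0
  · have : H.card * Y.n = 0 := by
      rw [hQ0] at h2
      omega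
    rw [pow_two, ← mul_assoc, this]
    simp
  rcases Nat.eq_zero_or_pos H.card with hH | hH
  · rw [hH]
    simp
  have h7 : 2 * (S * Y.m) ≤ A := by
    apply Nat.le_of_mul_le_mul_left _ hQ0
    have : 5 * (Q * (2 * (S * Y.m))) = 2 * (5 * Q * S * Y.m) := by ring
    omega
  have h8 : A ^ 2 ≤ 4 * (S * Y.m * (H.card * Y.GS H)) := by
    have : 2 * (S * Y.m * A) ≤ A ^ 2 := by
      rw [← mul_assoc, pow_two]
      exact Nat.mul_le_mul_right _ h7
    omega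
  have h9 : (2 * (H.card * Y.n)) ^ 2 ≤ (5 * (Q * A)) ^ 2 := Nat.pow_le_pow_left h2 2
  apply Nat.le_of_mul_le_mul_left _ (Nat.mul_pos (by norm_num : 0 < 4) hH)
  calc 4 * H.card * (H.card * Y.n ^ 2) = (2 * (H.card * Y.n)) ^ 2 := by ring
    _ ≤ (5 * (Q * A)) ^ 2 := h9
    _ = 25 * Q ^ 2 * A ^ 2 := by ring
    _ ≤ 25 * Q ^ 2 * (4 * (S * Y.m * (H.card * Y.GS H))) := Nat.mul_le_mul_left _ h8
    _ = _ := by ring

end Ap

end Pool.Agent.Lib.MP_299528_co.Bd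
end

-- part Pool.Agent.Lib.MP_299528_co.W.DeepT
section

/-! Large depth: many heavy letters. -/

set_option autoImplicit false

namespace Pool.Agent.Lib.MP_299528_co.Bd

open Finset

theorem deepT_n (Y : Ap) {Θ : ℕ} (hΘ : Θ * ((Y.k + 1) * Y.m) ≤ Y.T) :
    2 * (Θ * Y.m) ≤ 2 * Y.n + Y.m := by
  have h := Y.T_le'
  refine Nat.le_of_mul_le_mul_left (c := Y.k + 1) ?_ (Nat.succ_pos _)
  calc (Y.k + 1) * (2 * (Θ * Y.m)) = 2 * (Θ * ((Y.k + 1) * Y.m)) := by ring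
    _ ≤ 2 * ((Y.k + 1) * Y.n) + (Y.k + 1) * Y.m := by omega
    _ = (Y.k + 1) * (2 * Y.n + Y.m) := by ring

theorem deepT_T (Y : Ap) (hk : 3 ≤ Y.k) (hn : Y.m ≤ Y.n) : Y.T ≤ 2 * (Y.k * Y.n) := by
  have h := Y.T_le'
  have h1 : (Y.k + 1) * Y.m ≤ (Y.k + 1) * Y.n := Nat.mul_le_mul_left _ hn
  have h2 : 3 * Y.n ≤ Y.k * Y.n := Nat.mul_le_mul_right _ hk
  have h3 : (Y.k + 1) * Y.n = Y.k * Y.n + Y.n := by ring
  omega

theorem deepT_II (Y : Ap) {R : Finset ℕ} (hR : R ⊆ Y.G) (hne : 0 < R.card) {s S : ℕ}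
    (hS : ∀ g ∈ R, s + g ≤ S * Y.m) (hT : 2 * Y.T ≤ R.card * s)
    (hG : Y.GS R ≤ 3 * (R.card * Y.m)) (hn : 100 * Y.m ≤ Y.n) : 10 * Y.II (2 * S) ≤ 3 * Y.n := by
  have h := Y.decay_iter hR (card_pos.1 hne) hS hT 2
  have h0 : (0 : ℝ) < R.card := by exact_mod_cast hne
  have h1 : (Y.GS R : ℝ) / R.card ≤ 3 * Y.m := by
    rw [div_le_iff₀ h0]
    have : (Y.GS R : ℝ) ≤ 3 * (R.card * Y.m) := by exact_mod_cast hG
    linarith
  have h2 : (100 : ℝ) * Y.m ≤ Y.n := by exact_mod_cast hn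
  have h3 : (0 : ℝ) ≤ Y.m := Nat.cast_nonneg _
  have : (10 : ℝ) * Y.II (2 * S) ≤ 3 * Y.n := by
    norm_num at h
    linarith
  exact_mod_cast this

theorem deepT_S {m x : ℕ} (hm : 0 < m) : x ≤ (x / m + 1) * m ∧ (x / m + 1) * m ≤ x + m := by
  have h1 := Nat.div_add_mod x m
  have h2 := Nat.mod_lt x hm
  have h3 : (x / m + 1) * m = m * (x / m) + m := by ring
  omega

theorem deep_T1 (Y : Ap) (hV : Y.Viol) (hΘ : 1000000 * ((Y.k + 1) * Y.m) ≤ Y.T) {r : ℕ}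
    (hr : 2560 ≤ r) (hrk : 2 * r ≤ Y.k) (h1 : r ≤ (Y.G.filter (fun g => g * r ≤ Y.T)).card)
    (h2 : (Y.G.filter (fun g => g * (r + 1) ≤ Y.T)).card ≤ r) : False := by
  have hm := Y.hm
  have hr0 : 0 < r := by omega
  have n1 := deepT_n Y hΘ
  have n2 := deepT_T Y (by omega) (by omega)
  set R := Y.G.filter (fun g => g * r ≤ Y.T) with hR
  set H := Y.G.filter (fun g => ¬ g * (r + 1) ≤ Y.T) with hH
  have hHc : Y.k ≤ 2 * H.card := by
    have := card_filter_add_card_filter_not (s := Y.G) (fun g => g * (r + 1) ≤ Y.T)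
    have e : Y.k = Y.G.card := rfl
    rw [← hH] at this
    omega
  obtain ⟨s, hs⟩ : ∃ s, s = 2 * Y.T / r + 1 := ⟨_, rfl⟩
  obtain ⟨S, hS⟩ : ∃ S, S = (s + Y.T / r) / Y.m + 1 := ⟨_, rfl⟩
  have s1 := deepT_S (x := 2 * Y.T) hr0
  have s2 := deepT_S (x := s + Y.T / r) hm
  rw [← hs] at s1
  rw [← hS] at s2
  have s3 : Y.T / r * r ≤ Y.T := Nat.div_mul_le_self _ _
  have s4 : S * Y.m * r ≤ 4 * Y.T := by
    have a1 : S * Y.m * r ≤ (s + Y.T / r + Y.m) * r := Nat.mul_le_mul_right _ s2.2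
    have a2 : (s + Y.T / r + Y.m) * r = s * r + Y.T / r * r + r * Y.m := by ring
    have a3 : r * 1 ≤ r * Y.m := Nat.mul_le_mul_left _ hm
    have a4 : 2 * r * Y.m ≤ (Y.k + 1) * Y.m := Nat.mul_le_mul_right _ (by omega)
    have a5 : 2 * r * Y.m = 2 * (r * Y.m) := by ring
    omega
  have g1 : Y.GS Y.G ≤ 3 * (r * Y.m) := by
    have a1 := hV.GS_le_PP
    rw [← sum_filter_add_sum_filter_not Y.G (fun g => g * (r + 1) ≤ Y.T), ← hH] at a1
    have a2 : ∑ g ∈ Y.G.filter (fun g => g * (r + 1) ≤ Y.T), Y.PP g ≤ r * Y.m :=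
      (sum_le_card_nsmul _ _ Y.m fun g _ => (Y.PP_le g).2).trans (Nat.mul_le_mul_right _ h2)
    have a3 := Y.sum_PP_le (H := H) (x := Y.T / (r + 1) + 1) fun g hg => by
      exact (Nat.div_lt_iff_lt_mul (Nat.succ_pos r)).2 (not_le.1 (mem_filter.1 hg).2)
    have a4 := (deepT_S (x := Y.T) (Nat.succ_pos r)).1
    have a5 : ∑ g ∈ H, Y.PP g ≤ (r + 1) * Y.m := by
      refine Nat.le_of_mul_le_mul_right (a3.trans ?_) (Nat.succ_pos (Y.T / (r + 1)))
      calc Y.T * Y.m ≤ (Y.T / (r + 1) + 1) * (r + 1) * Y.m := Nat.mul_le_mul_right _ a4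
        _ = (r + 1) * Y.m * (Y.T / (r + 1) + 1) := by ring
    have a6 : 1 * Y.m ≤ r * Y.m := Nat.mul_le_mul_right _ hr0
    have a7 : (r + 1) * Y.m = r * Y.m + Y.m := by ring
    omega
  have hI := deepT_II Y (R := R) (filter_subset _ _) (by omega) (s := s) (S := S)
    (fun g hg => by
      have := (Nat.le_div_iff_mul_le hr0).2 (mem_filter.1 hg).2
      omega)
    (by
      have : r * s ≤ R.card * s := Nat.mul_le_mul_right _ h1
      rw [mul_comm r s] at this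
      omega)
    (by
      have a1 := Y.GS_mono (filter_subset (fun g => g * r ≤ Y.T) Y.G)
      have a2 : r * Y.m ≤ R.card * Y.m := Nat.mul_le_mul_right _ h1
      rw [← hR] at a1
      omega)
    (by omega)
  have b1 : Y.k * Y.n ≤ 2 * (H.card * Y.n) := by
    rw [← mul_assoc]
    exact Nat.mul_le_mul_right _ hHc
  have ht := Y.tlem H (S := 2 * S) (Q := 16)
    (fun j hj => by
      have a1 := (mem_filter.1 hj).2
      refine Nat.le_of_mul_le_mul_right ?_ hr0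
      have a2 : j * 1 ≤ j * r := Nat.mul_le_mul_left _ hr0
      have a3 : j * (r + 1) = j * r + j := by ring
      have a4 : 2 * S * Y.m * r = 2 * (S * Y.m * r) := by ring
      have a5 : 16 * j * r = 16 * (j * r) := by ring
      omega)
    hI
    (by
      have a1 : S * Y.m * 2560 ≤ S * Y.m * r := Nat.mul_le_mul_left _ hr
      have a2 : 5 * 16 * (2 * S) * Y.m = 160 * (S * Y.m) := by ring
      omega)
  have g2 : Y.GS H ≤ 3 * (r * Y.m) := (Y.GS_mono (filter_subset _ _)).trans g1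
  have kn : 0 < Y.k * Y.n := Nat.mul_pos (by omega) (by omega)
  have fin : Y.k * Y.n * Y.n ≤ Y.k * Y.n * (614400 * Y.m) :=
    calc Y.k * Y.n * Y.n ≤ 2 * (H.card * Y.n) * Y.n := Nat.mul_le_mul_right _ b1
      _ = 2 * (H.card * Y.n ^ 2) := by ring
      _ ≤ 2 * (25 * 16 ^ 2 * (2 * S) * Y.m * Y.GS H) := Nat.mul_le_mul_left _ ht
      _ ≤ 2 * (25 * 16 ^ 2 * (2 * S) * Y.m * (3 * (r * Y.m))) := by gcongr
      _ = 76800 * Y.m * (S * Y.m * r) := by ring
      _ ≤ 76800 * Y.m * (4 * Y.T) := Nat.mul_le_mul_left _ s4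
      _ ≤ 76800 * Y.m * (4 * (2 * (Y.k * Y.n))) := by gcongr
      _ = Y.k * Y.n * (614400 * Y.m) := by ring
  have := Nat.le_of_mul_le_mul_left fin kn
  omega

theorem deep_T2 (P : ℕ) (hP : 1 ≤ P) : ∃ Θ₀ k₀ : ℕ, ∀ Y : Ap, Y.Viol →
    Θ₀ * ((Y.k + 1) * Y.m) ≤ Y.T → k₀ ≤ Y.k →
    Y.k ≤ 2 * (Y.G.filter (fun g => g * Y.k ≤ 2 * Y.T)).card →
    Y.k ≤ P * (Y.G.filter (fun g => Y.T < P * g * Y.k)).card → False := by
  refine ⟨68600 * P ^ 3 + 101, 1960 * P ^ 2 + 3, fun Y hV hΘ hk h1 h2 => ?_⟩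
  have hm := Y.hm
  have hk0 : 0 < Y.k := by omega
  have n1 := deepT_n Y hΘ
  have n0 : (68600 * P ^ 3 + 101) * Y.m = 68600 * P ^ 3 * Y.m + 101 * Y.m := by ring
  have n2 := deepT_T Y (by omega) (by omega)
  set R := Y.G.filter (fun g => g * Y.k ≤ 2 * Y.T) with hR
  set H := Y.G.filter (fun g => Y.T < P * g * Y.k) with hH
  obtain ⟨s, hs⟩ : ∃ s, s = 4 * Y.T / Y.k + 1 := ⟨_, rfl⟩
  obtain ⟨S, hS⟩ : ∃ S, S = (s + 2 * Y.T / Y.k) / Y.m + 1 := ⟨_, rfl⟩
  have s1 := deepT_S (x := 4 * Y.T) hk0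
  have s2 := deepT_S (x := s + 2 * Y.T / Y.k) hm
  rw [← hs] at s1
  rw [← hS] at s2
  have s3 : 2 * Y.T / Y.k * Y.k ≤ 2 * Y.T := Nat.div_mul_le_self _ _
  have s4 : S * Y.m * Y.k ≤ 7 * Y.T := by
    have a1 : S * Y.m * Y.k ≤ (s + 2 * Y.T / Y.k + Y.m) * Y.k := Nat.mul_le_mul_right _ s2.2
    have a2 : (s + 2 * Y.T / Y.k + Y.m) * Y.k = s * Y.k + 2 * Y.T / Y.k * Y.k + Y.k * Y.m := by
      ring
    have a3 : Y.k * 1 ≤ Y.k * Y.m := Nat.mul_le_mul_left _ hm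
    have a4 : 2 * (Y.k * Y.m) ≤ (68600 * P ^ 3 + 101) * ((Y.k + 1) * Y.m) :=
      Nat.mul_le_mul (by omega) (Nat.mul_le_mul_right _ (by omega))
    omega
  have g1 := hV.GS_le
  have hI := deepT_II Y (R := R) (filter_subset _ _) (by omega) (s := s) (S := S)
    (fun g hg => by
      have := (Nat.le_div_iff_mul_le hk0).2 (mem_filter.1 hg).2
      omega)
    (by
      have a1 : Y.k * s ≤ 2 * R.card * s := Nat.mul_le_mul_right _ h1
      rw [mul_comm Y.k s, mul_assoc] at a1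
      omega)
    (by
      have a1 := Y.GS_mono (filter_subset (fun g => g * Y.k ≤ 2 * Y.T) Y.G)
      have a2 : Y.k * Y.m ≤ 2 * R.card * Y.m := Nat.mul_le_mul_right _ h1
      rw [mul_assoc] at a2
      rw [← hR] at a1
      omega)
    (by omega)
  have ht := Y.tlem H (S := 2 * S) (Q := 14 * P)
    (fun j hj => by
      have a1 := (mem_filter.1 hj).2
      refine Nat.le_of_mul_le_mul_right ?_ hk0
      have a4 : 2 * S * Y.m * Y.k = 2 * (S * Y.m * Y.k) := by ring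
      have a5 : 14 * P * j * Y.k = 14 * (P * j * Y.k) := by ring
      omega)
    hI
    (by
      refine Nat.le_of_mul_le_mul_left (c := Y.k * P) ?_ (Nat.mul_pos hk0 hP)
      calc Y.k * P * (5 * (14 * P) * (2 * S) * Y.m) = 140 * P ^ 2 * (S * Y.m * Y.k) := by ring
        _ ≤ 140 * P ^ 2 * (7 * Y.T) := Nat.mul_le_mul_left _ s4
        _ ≤ 140 * P ^ 2 * (7 * (2 * (Y.k * Y.n))) := by gcongr
        _ = 1960 * P ^ 2 * (Y.k * Y.n) := by ring
        _ ≤ Y.k * (Y.k * Y.n) := Nat.mul_le_mul_right _ (by omega)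
        _ ≤ P * H.card * (Y.k * Y.n) := Nat.mul_le_mul_right _ h2
        _ = Y.k * P * (H.card * Y.n) := by ring)
  have g2 : 2 * Y.GS H ≤ Y.k * Y.m :=
    (Nat.mul_le_mul_left 2 (Y.GS_mono (filter_subset _ _))).trans g1
  have kn : 0 < Y.k * Y.n := Nat.mul_pos hk0 (by omega)
  have fin : Y.k * Y.n * Y.n ≤ Y.k * Y.n * (68600 * P ^ 3 * Y.m) :=
    calc Y.k * Y.n * Y.n = Y.k * Y.n ^ 2 := by ring
      _ ≤ P * H.card * Y.n ^ 2 := Nat.mul_le_mul_right _ h2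
      _ = P * (H.card * Y.n ^ 2) := by ring
      _ ≤ P * (25 * (14 * P) ^ 2 * (2 * S) * Y.m * Y.GS H) := Nat.mul_le_mul_left _ ht
      _ = 4900 * P ^ 3 * (S * Y.m) * (2 * Y.GS H) := by ring
      _ ≤ 4900 * P ^ 3 * (S * Y.m) * (Y.k * Y.m) := Nat.mul_le_mul_left _ g2
      _ = 4900 * P ^ 3 * Y.m * (S * Y.m * Y.k) := by ring
      _ ≤ 4900 * P ^ 3 * Y.m * (7 * Y.T) := Nat.mul_le_mul_left _ s4
      _ ≤ 4900 * P ^ 3 * Y.m * (7 * (2 * (Y.k * Y.n))) := by gcongr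
      _ = Y.k * Y.n * (68600 * P ^ 3 * Y.m) := by ring
  have := Nat.le_of_mul_le_mul_left fin kn
  omega

end Pool.Agent.Lib.MP_299528_co.Bd
end

-- part Pool.Agent.Lib.MP_299528_co.W.AlphaA
section

/-! Large depth, light letters: tails and shallow elements. -/

set_option autoImplicit false

namespace Pool.Agent.Lib.MP_299528_co.Bd

open Finset

namespace Ap

variable (Y : Ap)

private theorem kΦ (hk : 1 ≤ Y.k) : (Y.k : ℝ) * Y.Φ = Y.T := by
  have : (Y.k : ℝ) ≠ 0 := by exact_mod_cast (by omega : Y.k ≠ 0)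
  rw [Φ, mul_div_cancel₀ _ this]

private theorem sum_G {a : Multiset ℕ} (ha : a ∈ Y.D) :
    ∑ j ∈ Y.G, (uu j a : ℝ) + Y.η a = Y.T := by
  have h1 := Y.wt_G ha
  have h2 := Y.η_add ha
  have h3 : ∑ j ∈ Y.G, uu j a + Y.η a = Y.T := by
    change wt Y.G a + _ = _
    omega
  exact_mod_cast h3

theorem tail (hV : Y.Viol) (hk : 1 ≤ Y.k) (hΦ : 2 * (Y.m : ℝ) ≤ Y.Φ)
    (hR : Y.k ≤ 2 * (Y.G.filter (fun g => g * Y.k ≤ 2 * Y.T)).card) (p : ℕ) :
    ∑ a ∈ Y.D.filter (fun a => 16 * p * Y.Φ ≤ (Y.η a : ℝ)), (Y.η a : ℝ) ≤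
      2 * Y.m * (Y.Φ / 2 ^ p + 2 * Y.m) := by
  have hkΦ := Y.kΦ hk
  have hk' : (0 : ℝ) < Y.k := by exact_mod_cast hk
  have hm : (1 : ℝ) ≤ Y.m := by exact_mod_cast Y.hm
  have hn : (Y.n : ℝ) ≤ Y.Φ := by
    have h1 : ((Y.k : ℝ) + 1) * Y.n + Y.m ≤ Y.T := by exact_mod_cast hV.n_le
    have h2 : (0 : ℝ) ≤ Y.n := Nat.cast_nonneg _
    exact le_of_mul_le_mul_left (by linarith) hk'
  rcases Nat.eq_zero_or_pos p with rfl | hp
  · have h1 : 2 * ∑ a ∈ Y.D, (Y.η a : ℝ) + Y.m = 2 * (Y.m * Y.n) + Y.m * Y.m := by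
      exact_mod_cast Y.sum_η
    have h2 := sum_le_sum_of_subset_of_nonneg (f := fun a => (Y.η a : ℝ))
      (filter_subset (fun a => 16 * ((0 : ℕ) : ℝ) * Y.Φ ≤ (Y.η a : ℝ)) Y.D)
      fun _ _ _ => Nat.cast_nonneg _
    have h3 := mul_le_mul_of_nonneg_left hn (by linarith : (0 : ℝ) ≤ Y.m)
    rw [pow_zero, div_one]
    nlinarith
  set R := Y.G.filter (fun g => g * Y.k ≤ 2 * Y.T) with hRd
  set s := 4 * Y.T / Y.k + 1 with hs
  set S := (s + 2 * Y.T / Y.k) / Y.m + 1 with hS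
  have h1 : 2 * Y.T ≤ R.card * s := by
    have h2 : 4 * Y.T < Y.k * s := Nat.lt_mul_div_succ _ hk
    have h3 := Nat.mul_le_mul_right s hR
    nlinarith
  have h2 : ∀ g ∈ R, s + g ≤ S * Y.m := fun g hg => by
    have h3 : g ≤ 2 * Y.T / Y.k := (Nat.le_div_iff_mul_le hk).2 (mem_filter.1 hg).2
    have h4 : s + 2 * Y.T / Y.k < Y.m * S := Nat.lt_mul_div_succ _ Y.hm
    rw [mul_comm]
    omega
  have hR0 : 0 < R.card := by omega
  have hRG : R ⊆ Y.G := filter_subset _ _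
  have h3 := Y.decay_iter hRG (card_pos.1 hR0) h2 h1 p
  have h4 : (S : ℝ) * Y.m ≤ 7 * Y.Φ := by
    have h5 : S * Y.m ≤ 4 * Y.T / Y.k + 1 + 2 * Y.T / Y.k + Y.m := by
      have := Nat.div_mul_le_self (s + 2 * Y.T / Y.k) Y.m
      rw [hS, add_mul, one_mul]
      omega
    have h6 : ((4 * Y.T / Y.k : ℕ) : ℝ) ≤ 4 * Y.Φ := by
      refine Nat.cast_div_le.trans_eq ?_
      rw [Φ]; push_cast; ring
    have h7 : ((2 * Y.T / Y.k : ℕ) : ℝ) ≤ 2 * Y.Φ := by
      refine Nat.cast_div_le.trans_eq ?_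
      rw [Φ]; push_cast; ring
    have h8 : (S : ℝ) * Y.m ≤ (4 * Y.T / Y.k : ℕ) + 1 + (2 * Y.T / Y.k : ℕ) + Y.m := by
      exact_mod_cast h5
    linarith
  have h5 : (Y.GS R : ℝ) / R.card ≤ Y.m := by
    rw [div_le_iff₀ (by exact_mod_cast hR0)]
    have h6 : Y.GS R ≤ Y.GS Y.G := Y.GS_mono (filter_subset _ _)
    have h7 := hV.GS_le
    have h8 := Nat.mul_le_mul_right Y.m hR
    have h9 : Y.GS R ≤ Y.m * R.card := by nlinarith
    exact_mod_cast h9
  have h6 : (Y.II (p * S) : ℝ) ≤ Y.Φ / 2 ^ p + 2 * Y.m := by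
    have h7 : (Y.n : ℝ) / 2 ^ p ≤ Y.Φ / 2 ^ p := div_le_div_of_nonneg_right hn (by positivity)
    have h8 : (0 : ℝ) ≤ 2 / 2 ^ p * (Y.GS R / R.card) := by positivity
    rw [sub_mul] at h3
    linarith
  refine le_trans ?_ (mul_le_mul_of_nonneg_left h6 (by positivity))
  rw [II, Nat.cast_sum, mul_sum]
  refine le_trans (sum_le_sum fun a ha => ?_) (sum_le_sum_of_subset_of_nonneg
    (filter_subset (fun a => 16 * (p : ℝ) * Y.Φ ≤ (Y.η a : ℝ)) Y.D) fun _ _ _ => by positivity)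
  have h7 := (mem_filter.1 ha).2
  have h8 : (Y.η a : ℝ) ≤ Y.m * (Y.δ a + 1) := by exact_mod_cast (Y.η_lt a).1.le
  have h9 : (Y.δ a : ℝ) ≤ (Y.δ a - p * S : ℕ) + p * S := by
    exact_mod_cast (by omega : Y.δ a ≤ (Y.δ a - p * S) + p * S)
  have hp' : (1 : ℝ) ≤ p := by exact_mod_cast hp
  have h10 := mul_le_mul_of_nonneg_left h9 (by linarith : (0 : ℝ) ≤ Y.m)
  have h11 := mul_le_mul_of_nonneg_left h4 (by linarith : (0 : ℝ) ≤ p)
  have h12 := mul_le_mul_of_nonneg_right hp' (by linarith : (0 : ℝ) ≤ Y.Φ)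
  nlinarith

theorem card_uu_ge (j : ℕ) (z : ℝ) :
    (Y.D.filter (fun a => z ≤ (uu j a : ℝ))).card ≤
      (Y.D.filter (fun a => z ≤ (Y.η a : ℝ))).card := by
  rw [card_filter, card_filter, Y.sum_uu j fun u => if z ≤ (u : ℝ) then 1 else 0]
  refine sum_le_sum fun a _ => ?_
  split_ifs with h1 h2
  · rfl
  · exact absurd (h1.trans (by exact_mod_cast Nat.sub_le _ _)) h2
  · omega
  · rfl

theorem card_EE (hk : 1 ≤ Y.k) (hT : 0 < Y.T) {M κ : ℝ}
    (hJ : ∑ a ∈ Y.D.filter (fun a => M * Y.Φ ≤ (Y.η a : ℝ)), (Y.η a : ℝ) ≤ κ * Y.m * Y.Φ) :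
    ((Y.EE M).card : ℝ) ≤ 4 * κ * Y.m := by
  have hkΦ := Y.kΦ hk
  have hT' : (0 : ℝ) < Y.T := by exact_mod_cast hT
  have h1 : ∀ j, ∑ b ∈ Y.D, (if M * Y.Φ ≤ (uu j b : ℝ) then (uu j b : ℝ) else 0) ≤
      κ * Y.m * Y.Φ := fun j => by
    rw [Y.sum_uu j fun u => if M * Y.Φ ≤ (u : ℝ) then (u : ℝ) else 0]
    refine le_trans ?_ hJ
    rw [sum_filter]
    refine sum_le_sum fun a _ => ?_
    have h2 : ((Y.η a - Y.η (Y.tp j a) : ℕ) : ℝ) ≤ Y.η a := by exact_mod_cast Nat.sub_le _ _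
    split_ifs with h3 h4
    · exact h2
    · exact absurd (h3.trans h2) h4
    · positivity
    · rfl
  have h2 : ((Y.EE M).card : ℝ) * Y.T ≤
      ∑ b ∈ Y.D, 4 * ∑ j ∈ Y.G.filter (fun j => M * Y.Φ ≤ (uu j b : ℝ)), (uu j b : ℝ) := by
    rw [← nsmul_eq_mul, ← sum_const]
    exact (sum_le_sum fun b hb => (mem_filter.1 hb).2).trans
      (sum_le_sum_of_subset_of_nonneg (filter_subset _ _) fun _ _ _ => by positivity)
  simp only [sum_filter] at h2
  rw [← mul_sum, sum_comm] at h2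
  have h3 := sum_le_sum (s := Y.G) fun j _ => h1 j
  rw [sum_const, nsmul_eq_mul] at h3
  change _ ≤ (Y.k : ℝ) * _ at h3
  refine le_of_mul_le_mul_right (h2.trans ?_) hT'
  rw [← hkΦ]
  linarith

theorem card_shallow (hk : 1 ≤ Y.k) (hT : 0 < Y.T) {M θ s : ℝ} (hM : 1 ≤ M) (hθ : 0 ≤ θ)
    (hs : 0 ≤ s) (hsT : 4 * s ≤ Y.T)
    (hh : 8 * M * ((Y.G.filter (fun g : ℕ => θ * Y.Φ < (g : ℝ))).card : ℝ) ≤ Y.k) :
    ((Y.D.filter (fun a => (Y.η a : ℝ) < s)).card : ℝ) ≤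
      (Y.EE M).card + 32 * M * (s / Y.Φ + θ) * Y.m := by
  have hkΦ := Y.kΦ hk
  have hk' : (0 : ℝ) < Y.k := by exact_mod_cast hk
  have hT' : (0 : ℝ) < Y.T := by exact_mod_cast hT
  have hΦ : 0 < Y.Φ := div_pos hT' hk'
  set A := Y.D.filter (fun a => (Y.η a : ℝ) < s) with hA
  set L := Y.G.filter (fun g : ℕ => ¬ θ * Y.Φ < (g : ℝ)) with hL
  have h1 : ∀ a ∈ A \ Y.EE M,
      (Y.k : ℝ) ≤ 8 * M * (L.filter (fun j => Y.Φ / 4 ≤ (uu j a : ℝ))).card := by
    intro a ha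
    obtain ⟨ha, h2⟩ := mem_sdiff.1 ha
    obtain ⟨ha, h3⟩ := mem_filter.1 ha
    have h4 := not_le.1 fun h => h2 (mem_filter.2 ⟨ha, h⟩)
    have h5 := Y.sum_G ha
    have h6 : ∑ j ∈ Y.G, (uu j a : ℝ) ≤
        ∑ j ∈ Y.G, ((if M * Y.Φ ≤ (uu j a : ℝ) then (uu j a : ℝ) else 0) + Y.Φ / 4 +
          M * Y.Φ * (if Y.Φ / 4 ≤ (uu j a : ℝ) then 1 else 0)) := by
      refine sum_le_sum fun j _ => ?_
      have : 0 ≤ M * Y.Φ := by positivity
      split_ifs <;> linarith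
    rw [sum_add_distrib, sum_add_distrib, ← sum_filter, sum_const, nsmul_eq_mul, ← mul_sum,
      sum_boole] at h6
    change _ ≤ _ + (Y.k : ℝ) * _ + _ at h6
    have h7 : (Y.k : ℝ) ≤ 4 * M * (Y.G.filter (fun j => Y.Φ / 4 ≤ (uu j a : ℝ))).card :=
      le_of_mul_le_mul_right (by linarith) hΦ
    have h8 : ((Y.G.filter (fun j => Y.Φ / 4 ≤ (uu j a : ℝ))).card : ℝ) ≤
        (L.filter (fun j => Y.Φ / 4 ≤ (uu j a : ℝ))).card +
          (Y.G.filter (fun g : ℕ => θ * Y.Φ < (g : ℝ))).card := by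
      norm_cast
      refine le_trans (card_le_card fun j hj => ?_) (card_union_le _ _)
      obtain ⟨h9, h10⟩ := mem_filter.1 hj
      by_cases h11 : θ * Y.Φ < (j : ℝ)
      · exact mem_union_right _ (mem_filter.2 ⟨h9, h11⟩)
      · exact mem_union_left _ (mem_filter.2 ⟨mem_filter.2 ⟨h9, h11⟩, h10⟩)
    have h9 := mul_le_mul_of_nonneg_left h8 (by linarith : 0 ≤ 8 * M)
    linarith
  have h2 : ∀ j ∈ L, (((A \ Y.EE M).filter (fun a => Y.Φ / 4 ≤ (uu j a : ℝ))).card : ℝ) ≤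
      4 * (s / Y.Φ + θ) * Y.m := by
    intro j hj
    obtain ⟨hj, h3⟩ := mem_filter.1 hj
    have h4 := Y.lcnt hj hs (s' := Y.Φ / 4) (by positivity)
    have h5 : (((A \ Y.EE M).filter (fun a => Y.Φ / 4 ≤ (uu j a : ℝ))).card : ℝ) ≤
        (Y.D.filter (fun a => (Y.η a : ℝ) < s ∧ Y.Φ / 4 ≤ (uu j a : ℝ))).card := by
      norm_cast
      refine card_le_card fun a ha => ?_
      obtain ⟨h6, h7⟩ := mem_filter.1 ha
      obtain ⟨h8, h9⟩ := mem_filter.1 (mem_sdiff.1 h6).1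
      exact mem_filter.2 ⟨h8, h9, h7⟩
    refine h5.trans (le_of_mul_le_mul_right (h4.trans ?_) (by positivity : 0 < Y.Φ / 4))
    have h6 := mul_le_mul_of_nonneg_right (not_lt.1 h3) (Nat.cast_nonneg (α := ℝ) Y.m)
    have h7 : 4 * (s / Y.Φ + θ) * Y.m * (Y.Φ / 4) = (s + θ * Y.Φ) * Y.m := by field_simp
    rw [h7]
    linarith
  have h3 : ∑ a ∈ A \ Y.EE M, ((L.filter (fun j => Y.Φ / 4 ≤ (uu j a : ℝ))).card : ℝ) =
      ∑ j ∈ L, (((A \ Y.EE M).filter (fun a => Y.Φ / 4 ≤ (uu j a : ℝ))).card : ℝ) := by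
    simp only [← sum_boole]
    exact sum_comm
  have h4 := sum_le_sum h1
  rw [sum_const, nsmul_eq_mul, ← mul_sum, h3] at h4
  have h5 := sum_le_sum h2
  rw [sum_const, nsmul_eq_mul] at h5
  have h6 : (L.card : ℝ) ≤ Y.k := by exact_mod_cast card_le_card (filter_subset _ _)
  have h7 := mul_le_mul_of_nonneg_right h6 (by positivity : 0 ≤ 4 * (s / Y.Φ + θ) * Y.m)
  have h8 := mul_le_mul_of_nonneg_left (h5.trans h7) (by linarith : 0 ≤ 8 * M)
  have h9 : ((A \ Y.EE M).card : ℝ) ≤ 32 * M * (s / Y.Φ + θ) * Y.m :=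
    le_of_mul_le_mul_right (by linarith) hk'
  have h10 : (A.card : ℝ) ≤ (A \ Y.EE M).card + (Y.EE M).card := by
    exact_mod_cast card_le_card_sdiff_add_card
  linarith

theorem card_uu_lt (j : ℕ) {x : ℝ} (hx : 0 < x) :
    ((Y.D.filter (fun a => (uu j a : ℝ) < 2 * x)).card : ℝ) ≤
      (Y.D.filter (fun a => (Y.η a : ℝ) < 3 * x)).card + Y.YT j / x := by
  refine le_trans ?_ (add_le_add_right (Y.card_tp_le j hx) _)
  norm_cast
  rw [card_filter, Y.sum_uu j fun u => if (u : ℝ) < 2 * x then 1 else 0, ← card_filter]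
  refine le_trans (card_le_card fun a ha => ?_) (card_union_le _ _)
  obtain ⟨ha, h1⟩ := mem_filter.1 ha
  by_cases h2 : x ≤ (Y.η (Y.tp j a) : ℝ)
  · exact mem_union_right _ (mem_filter.2 ⟨ha, h2⟩)
  · refine mem_union_left _ (mem_filter.2 ⟨ha, ?_⟩)
    have h3 : (Y.η a : ℝ) ≤ (Y.η a - Y.η (Y.tp j a) : ℕ) + Y.η (Y.tp j a) := by
      exact_mod_cast (by omega : Y.η a ≤ (Y.η a - Y.η (Y.tp j a)) + Y.η (Y.tp j a))
    linarith [not_le.1 h2]

theorem card_sm (hV : Y.Viol) (hk : 1 ≤ Y.k) (i : ℕ) {x e : ℝ} (hx : 0 < x) (he : 0 < e) :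
    ((Y.D.filter (fun a => e * Y.k < (Y.sm i x a : ℝ))).card : ℝ) ≤
      ((Y.D.filter (fun a => (Y.η a : ℝ) < 3 * x)).card + Y.m * Y.m / (2 * x)) / e := by
  have hk' : (0 : ℝ) < Y.k := by exact_mod_cast hk
  have h1 : ((Y.D.filter (fun a => e * Y.k < (Y.sm i x a : ℝ))).card : ℝ) * (e * Y.k) ≤
      ∑ a ∈ Y.D, ((Y.G.filter (fun j => (uu j a : ℝ) < 2 * x)).card : ℝ) := by
    rw [← nsmul_eq_mul, ← sum_const]
    refine (sum_le_sum fun a ha => (mem_filter.1 ha).2.le.trans ?_).trans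
      (sum_le_sum_of_subset_of_nonneg (filter_subset _ _) fun _ _ _ => by positivity)
    exact_mod_cast card_le_card (filter_subset_filter _ (erase_subset _ _))
  have h2 : ∑ a ∈ Y.D, ((Y.G.filter (fun j => (uu j a : ℝ) < 2 * x)).card : ℝ) =
      ∑ j ∈ Y.G, ((Y.D.filter (fun a => (uu j a : ℝ) < 2 * x)).card : ℝ) := by
    simp only [← sum_boole]
    exact sum_comm
  have h3 := sum_le_sum (s := Y.G) fun j _ => Y.card_uu_lt j hx
  rw [sum_add_distrib, sum_const, nsmul_eq_mul, ← sum_div] at h3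
  change _ ≤ (Y.k : ℝ) * _ + _ at h3
  have h4 : 2 * ∑ g ∈ Y.G, (Y.YT g : ℝ) ≤ Y.k * (Y.m * Y.m) := by exact_mod_cast hV.YT_le
  have h5 : (∑ g ∈ Y.G, (Y.YT g : ℝ)) / x ≤ Y.k * (Y.m * Y.m / (2 * x)) := by
    rw [div_le_iff₀ hx, show Y.k * ((Y.m : ℝ) * Y.m / (2 * x)) * x = Y.k * (Y.m * Y.m) / 2 by
      field_simp]
    linarith
  rw [le_div_iff₀ he]
  exact le_of_mul_le_mul_right (by linarith) hk'

end Ap

end Pool.Agent.Lib.MP_299528_co.Bd
end

-- part Pool.Agent.Lib.MP_299528_co.W.Deep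
section

/-! Large depth: only boundedly many letters are light. -/

set_option autoImplicit false

namespace Pool.Agent.Lib.MP_299528_co.Bd

open Finset

theorem deep_light (Y : Ap) (hV : Y.Viol) (hk : 1 ≤ Y.k) {L : Finset ℕ} (hL : L ⊆ Y.G)
    (h : Y.k ≤ 2 * L.card) : ∃ i ∈ L, Y.YT i ≤ Y.m * Y.m := by
  by_contra hc
  push Not at hc
  have h1 : L.card • (Y.m * Y.m + 1) ≤ ∑ g ∈ L, Y.YT g := card_nsmul_le_sum _ _ _ fun i hi => hc i hi
  have h2 : ∑ g ∈ L, Y.YT g ≤ ∑ g ∈ Y.G, Y.YT g := sum_le_sum_of_subset hL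
  have h3 := hV.YT_le
  have h4 := Nat.mul_le_mul_right (Y.m * Y.m + 1) h
  rw [smul_eq_mul] at h1
  have e1 : 2 * L.card * (Y.m * Y.m + 1) = 2 * (L.card * (Y.m * Y.m + 1)) := by ring
  have e2 : Y.k * (Y.m * Y.m + 1) = Y.k * (Y.m * Y.m) + Y.k := by ring
  omega

theorem deep_four {α : Type*} (D : Finset α) (p q r s : α → Prop) [DecidablePred p]
    [DecidablePred q] [DecidablePred r] [DecidablePred s] (p' q' r' s' : α → Prop)
    [DecidablePred p'] [DecidablePred q'] [DecidablePred r'] [DecidablePred s']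
    (hp : ∀ a, ¬ p a → p' a) (hq : ∀ a, ¬ q a → q' a) (hr : ∀ a, ¬ r a → r' a)
    (hs : ∀ a, ¬ s a → s' a) :
    D.card ≤ (D.filter (fun a => p a ∧ q a ∧ r a ∧ s a)).card + (D.filter p').card +
      (D.filter q').card + (D.filter r').card + (D.filter s').card := by
  simp only [card_filter]
  rw [card_eq_sum_ones, ← sum_add_distrib, ← sum_add_distrib, ← sum_add_distrib,
    ← sum_add_distrib]
  refine sum_le_sum fun a _ => ?_
  by_cases h1 : p a
  · by_cases h2 : q a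
    · by_cases h3 : r a
      · by_cases h4 : s a
        · rw [if_pos ⟨h1, h2, h3, h4⟩]; omega
        · rw [if_pos (hs a h4)]; omega
      · rw [if_pos (hr a h3)]; omega
    · rw [if_pos (hq a h2)]; omega
  · rw [if_pos (hp a h1)]; omega

theorem deep_alpha : ∃ P Θ₀ k₀ : ℕ, 1 ≤ P ∧ ∀ Y : Ap, Y.Viol →
    Θ₀ * ((Y.k + 1) * Y.m) ≤ Y.T → k₀ ≤ Y.k →
    P * (Y.G.filter (fun g => Y.T < P * g * Y.k)).card ≤ Y.k → False := by
  refine ⟨15099494400, 10 ^ 30, 3840, by norm_num, fun Y hV hΘ hk hP => ?_⟩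
  have hk1 : 1 ≤ Y.k := by omega
  have hm := Y.hm
  have hT : 0 < Y.T := lt_of_lt_of_le (by positivity) hΘ
  have hkR : (3840 : ℝ) ≤ Y.k := by exact_mod_cast hk
  have hkp : (0 : ℝ) < Y.k := by linarith
  have hmR : (0 : ℝ) < Y.m := by exact_mod_cast hm
  have hTΦ : (Y.T : ℝ) = Y.k * Y.Φ := by rw [Ap.Φ]; field_simp
  have hΦm : 10 ^ 30 * (Y.m : ℝ) ≤ Y.Φ := by
    rw [Ap.Φ, le_div_iff₀ hkp]
    have h : ((10 ^ 30 * ((Y.k + 1) * Y.m) : ℕ) : ℝ) ≤ Y.T := by exact_mod_cast hΘ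
    push_cast at h
    nlinarith
  have hΦ : 0 < Y.Φ := by linarith
  have hLt : Y.k ≤ 2 * (Y.G.filter (fun g => ¬ Y.T < 15099494400 * g * Y.k)).card := by
    have h := card_filter_add_card_filter_not (s := Y.G) (fun g => Y.T < 15099494400 * g * Y.k)
    have hk' : Y.G.card = Y.k := rfl
    omega
  obtain ⟨i, hi, hYT⟩ := deep_light Y hV hk1 (filter_subset _ _) hLt
  obtain ⟨hiG, hil⟩ := mem_filter.1 hi
  have hR : Y.k ≤ 2 * (Y.G.filter (fun g => g * Y.k ≤ 2 * Y.T)).card := by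
    refine hLt.trans (Nat.mul_le_mul_left 2 (card_le_card fun g hg => ?_))
    obtain ⟨h1, h2⟩ := mem_filter.1 hg
    refine mem_filter.2 ⟨h1, ?_⟩
    rw [mul_assoc] at h2
    omega
  obtain ⟨ν, hν⟩ : ∃ ν : ℝ, ν = Y.m * Y.m / Y.Φ := ⟨_, rfl⟩
  have hν0 : 0 ≤ ν := by rw [hν]; positivity
  have hν1 : 10 ^ 30 * ν ≤ Y.m := by
    rw [hν, ← mul_div_assoc, div_le_iff₀ hΦ]
    nlinarith
  obtain ⟨x, hx⟩ : ∃ x : ℝ, x = Y.Φ / 15099494400 := ⟨_, rfl⟩
  have hx0 : 0 < x := by rw [hx]; positivity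
  have hix : (i : ℝ) ≤ x := by
    have h : ((15099494400 * i * Y.k : ℕ) : ℝ) ≤ Y.T := by exact_mod_cast not_lt.1 hil
    push_cast at h
    rw [hTΦ] at h
    rw [hx, le_div_iff₀ (by norm_num)]
    nlinarith
  have hJ : ∑ a ∈ Y.D.filter (fun a => 960 * Y.Φ ≤ (Y.η a : ℝ)), (Y.η a : ℝ) ≤
      (2 / 2 ^ 60 + 4 * Y.m / Y.Φ) * Y.m * Y.Φ := by
    have h := Y.tail hV hk1 (by linarith) hR 60
    have e1 : (16 : ℝ) * ((60 : ℕ) : ℝ) = 960 := by norm_num
    rw [e1] at h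
    refine h.trans (le_of_eq ?_)
    field_simp
    ring
  obtain ⟨κ, hκ⟩ : ∃ κ : ℝ, κ = (2 / 2 ^ 60 + 4 * Y.m / Y.Φ) * Y.m := ⟨_, rfl⟩
  have hκ' : κ = 2 / 2 ^ 60 * Y.m + 4 * ν := by rw [hκ, hν]; ring
  have hEE : ((Y.EE 960).card : ℝ) ≤ 4 * κ := by
    have h := Y.card_EE hk1 hT hJ
    rw [hκ]; linarith
  have hdeep : ((Y.D.filter (fun a => 960 * Y.Φ ≤ (Y.η a : ℝ))).card : ℝ) ≤ κ := by
    have h1 : (Y.D.filter (fun a => 960 * Y.Φ ≤ (Y.η a : ℝ))).card • Y.Φ ≤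
        ∑ a ∈ Y.D.filter (fun a => 960 * Y.Φ ≤ (Y.η a : ℝ)), (Y.η a : ℝ) :=
      card_nsmul_le_sum _ _ _ fun a ha => le_trans (by linarith) (mem_filter.1 ha).2
    rw [nsmul_eq_mul] at h1
    rw [← hκ] at hJ
    exact le_of_mul_le_mul_right (h1.trans hJ) hΦ
  have hsh : ((Y.D.filter (fun a => (Y.η a : ℝ) < 3 * x)).card : ℝ) ≤ 4 * κ + Y.m / 122880 := by
    have h := Y.card_shallow hk1 hT (M := 960) (θ := 1 / 15099494400) (s := 3 * x) (by norm_num)
      (by norm_num) (by linarith) (by rw [hTΦ, hx]; nlinarith) (by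
        have h1 : Y.G.filter (fun g : ℕ => 1 / 15099494400 * Y.Φ < (g : ℝ)) ⊆
            Y.G.filter (fun g => Y.T < 15099494400 * g * Y.k) := fun g hg => by
          obtain ⟨h1, h2⟩ := mem_filter.1 hg
          refine mem_filter.2 ⟨h1, ?_⟩
          have h3 : (Y.T : ℝ) < 15099494400 * g * Y.k := by rw [hTΦ]; nlinarith
          exact_mod_cast h3
        have h2 := (Nat.mul_le_mul_left 15099494400 (card_le_card h1)).trans hP
        have h3 : (15099494400 : ℝ) *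
            ((Y.G.filter (fun g : ℕ => 1 / 15099494400 * Y.Φ < (g : ℝ))).card : ℝ) ≤ Y.k := by
          exact_mod_cast h2
        have h4 : (0 : ℝ) ≤
            ((Y.G.filter (fun g : ℕ => 1 / 15099494400 * Y.Φ < (g : ℝ))).card : ℝ) :=
          Nat.cast_nonneg _
        linarith)
    have e1 : 3 * x / Y.Φ = 3 / 15099494400 := by rw [hx]; field_simp
    rw [e1] at h
    linarith
  have hYx : (Y.YT i : ℝ) / x ≤ 15099494400 * ν := by
    have h : (Y.YT i : ℝ) ≤ Y.m * Y.m := by exact_mod_cast hYT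
    refine (div_le_div_of_nonneg_right h hx0.le).trans (le_of_eq ?_)
    rw [hx, hν]; field_simp
  have h1 := Y.card_sm hV hk1 i hx0 (e := 1 / 7680) (by norm_num)
  have e1 : (Y.m : ℝ) * Y.m / (2 * x) = 7549747200 * ν := by rw [hx, hν]; field_simp; norm_num
  rw [e1, le_div_iff₀ (by norm_num)] at h1
  have h2 := Y.card_uu_lt i hx0
  have h3 : ((Y.D.filter (fun a => 960 * Y.Φ ≤ (uu i a : ℝ))).card : ℝ) ≤ κ :=
    le_trans (by exact_mod_cast Y.card_uu_ge i _) hdeep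
  have h4 := Y.card_tp_le i (x := x / 2) (by linarith)
  have e2 : (Y.YT i : ℝ) / (x / 2) = 2 * (Y.YT i / x) := by field_simp
  rw [e2] at h4
  have h5 := deep_four Y.D (fun a => (Y.sm i x a : ℝ) ≤ 1 / 7680 * Y.k)
    (fun a => 2 * x ≤ (uu i a : ℝ)) (fun a => (uu i a : ℝ) < 960 * Y.Φ)
    (fun a => (Y.η (Y.tp i a) : ℝ) < x / 2) (fun a => 1 / 7680 * Y.k < (Y.sm i x a : ℝ))
    (fun a => (uu i a : ℝ) < 2 * x) (fun a => 960 * Y.Φ ≤ (uu i a : ℝ))
    (fun a => x / 2 ≤ (Y.η (Y.tp i a) : ℝ)) (fun _ h => not_le.1 h) (fun _ h => not_le.1 h)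
    (fun _ h => not_lt.1 h) (fun _ h => not_lt.1 h)
  rw [Y.cardD] at h5
  have h5' := (Nat.cast_le (α := ℝ)).2 h5
  push_cast at h5'
  have h6 := Y.Ash_ge hiG (x := x) (e := 1 / 7680) (z := 960 * Y.Φ) hx0
    (by rw [hx] at hix; linarith)
  have h7 := Y.Ash_le hiG (x := x) (e := 1 / 7680) (M := 960) hix (by norm_num) (by norm_num)
    (by rw [hx]; linarith) (by norm_num)
  have e3 : (Y.YT i : ℝ) / (1 / 7680 * x) = 7680 * (Y.YT i / x) := by field_simp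
  rw [e3] at h7
  have h8 : ((Y.D.filter (fun a => Y.T ≤ 4 * Y.η a)).card : ℝ) ≤ κ := by
    refine le_trans (Nat.cast_le.2 (card_le_card fun a ha => ?_)) hdeep
    obtain ⟨ha1, ha2⟩ := mem_filter.1 ha
    refine mem_filter.2 ⟨ha1, ?_⟩
    have h : (Y.T : ℝ) ≤ 4 * Y.η a := by exact_mod_cast ha2
    rw [hTΦ] at h
    nlinarith
  have e4 : 4 * (960 * Y.Φ) * ((Y.Ash i x (1 / 7680)).card : ℝ) =
      3840 * 15099494400 * (Y.Ash i x (1 / 7680)).card * x := by rw [hx]; ring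
  rw [e4] at h6
  have h9 := le_of_mul_le_mul_right h6 hx0
  linarith

theorem deep : ∃ r₀ Θ₀ k₀ : ℕ, 1 ≤ r₀ ∧ 1 ≤ Θ₀ ∧ ∀ Y : Ap, Y.Viol →
    Θ₀ * ((Y.k + 1) * Y.m) ≤ Y.T → k₀ ≤ Y.k →
    (Y.G.filter (fun g => g * r₀ ≤ Y.T)).card < r₀ := by
  obtain ⟨P, Θ₁, k₁, hP, hα⟩ := deep_alpha
  obtain ⟨Θ₂, k₂, hT2⟩ := deep_T2 P hP
  refine ⟨2560, Θ₁ + Θ₂ + 1000000, k₁ + k₂, by norm_num, by omega, fun Y hV hΘ hk => ?_⟩
  by_contra hc
  rw [not_lt] at hc
  have hmono : ∀ Θ : ℕ, Θ ≤ Θ₁ + Θ₂ + 1000000 → Θ * ((Y.k + 1) * Y.m) ≤ Y.T := fun Θ h =>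
    (Nat.mul_le_mul_right _ h).trans hΘ
  have hk0 : 2560 ≤ Y.k := hc.trans (card_filter_le _ _)
  obtain ⟨r, hr⟩ : ∃ r, r = Nat.findGreatest
    (fun r => r ≤ (Y.G.filter (fun g => g * r ≤ Y.T)).card) Y.k := ⟨_, rfl⟩
  have h1 : 2560 ≤ r := by
    rw [hr]
    exact Nat.le_findGreatest (P := fun r => r ≤ (Y.G.filter (fun g => g * r ≤ Y.T)).card) hk0 hc
  have h2 : r ≤ (Y.G.filter (fun g => g * r ≤ Y.T)).card := by
    have h := Nat.findGreatest_spec
      (P := fun r => r ≤ (Y.G.filter (fun g => g * r ≤ Y.T)).card) hk0 hc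
    rw [← hr] at h
    exact h
  by_cases h3 : 2 * r ≤ Y.k
  · have h4 := Nat.findGreatest_is_greatest
      (P := fun r => r ≤ (Y.G.filter (fun g => g * r ≤ Y.T)).card) (k := r + 1) (n := Y.k)
      (by rw [← hr]; omega) (by omega)
    exact deep_T1 Y hV (hmono _ (by omega)) h1 h3 h2 (by omega)
  · have hR : Y.k ≤ 2 * (Y.G.filter (fun g => g * Y.k ≤ 2 * Y.T)).card := by
      have h4 : (Y.G.filter (fun g => g * r ≤ Y.T)).card ≤
          (Y.G.filter (fun g => g * Y.k ≤ 2 * Y.T)).card := card_le_card fun g hg => by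
        obtain ⟨h5, h6⟩ := mem_filter.1 hg
        refine mem_filter.2 ⟨h5, ?_⟩
        have h7 := Nat.mul_le_mul_left g (show Y.k ≤ 2 * r by omega)
        have e : g * (2 * r) = 2 * (g * r) := by ring
        omega
      omega
    by_cases h5 : Y.k ≤ P * (Y.G.filter (fun g => Y.T < P * g * Y.k)).card
    · exact hT2 Y hV (hmono _ (by omega)) (by omega) hR h5
    · exact hα Y hV (hmono _ (by omega)) (by omega) (by omega)

end Pool.Agent.Lib.MP_299528_co.Bd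
end
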