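import Pool.Agent.Lib.MP_299528_co.W.Stein
import Pool.Agent.Lib.MP_299528_co.W.ClA
import Pool.Agent.Lib.MP_299528_co.W.Deep

-- part Pool.Agent.Lib.MP_299528_co.W.FTb
section

/-! Far letters have almost nonnegative margin. -/

set_option autoImplicit false

namespace Pool.Agent.Lib.MP_299528_co.Bd

open Finset

theorem ftb_floor {m : ℕ} (hm : 0 < m) (y : ℕ) :
    ∑ x ∈ Ico y (y + m), ((x / m : ℕ) : ℝ) = y := by
  induction y with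
  | zero =>
    rw [Nat.cast_zero]
    exact sum_eq_zero fun x hx => by rw [Nat.div_eq_of_lt (by simpa using hx), Nat.cast_zero]
  | succ y ih =>
    rw [sum_eq_sum_Ico_succ_bot (by omega)] at ih
    rw [Nat.add_right_comm, sum_Ico_succ_top (by omega), Nat.add_div_right _ hm]
    push_cast
    linarith

theorem ftb_avg {H : ℕ → ℝ} (h : Monotone H) {u m : ℕ} (hu : u ≤ m) :
    m * ∑ r ∈ range u, H r ≤ u * ∑ r ∈ range m, H r := by
  have h1 := sum_le_card_nsmul (range u) H (H u) fun r hr => h (mem_range.1 hr).le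
  have h2 := card_nsmul_le_sum (Ico u m) H (H u) fun r hr => h (mem_Ico.1 hr).1
  rw [card_range, nsmul_eq_mul] at h1
  rw [Nat.card_Ico, nsmul_eq_mul, Nat.cast_sub hu] at h2
  have h3 := mul_le_mul_of_nonneg_left h1 (sub_nonneg.2 (Nat.cast_le (α := ℝ).2 hu))
  have h4 := mul_le_mul_of_nonneg_left h2 (Nat.cast_nonneg (α := ℝ) u)
  rw [← sum_range_add_sum_Ico H hu]
  linarith

namespace Cl

/-- The offset. -/
noncomputable def ftb_o (Y : Cl) : ℝ := max ((Y.gm : ℝ) / Y.m - 4) 0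

theorem ftb_o_spec (Y : Cl) :
    0 ≤ Y.ftb_o ∧ (Y.gm : ℝ) / Y.m - 4 ≤ Y.ftb_o ∧ Y.ftb_o + 1 ≤ (Y.gm : ℝ) / Y.m := by
  have h1 : 1 ≤ (Y.gm : ℝ) / Y.m := (one_le_div Y.pos.1).2 Y.pos.2.2.1.le
  exact ⟨le_max_right _ _, le_max_left _ _,
    le_sub_iff_add_le.1 (max_le (by linarith) (by linarith))⟩

theorem ftb_one (Y : Cl) {x : ℕ} (h1 : Y.gm ≤ x) (h2 : x < Y.gm + Y.m) :
    |((x / Y.m : ℕ) : ℝ) - Y.ftb_o| ≤ 5 := by
  obtain ⟨-, o2, o3⟩ := Y.ftb_o_spec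
  have hm := Y.pos.1
  have h3 : ((x / Y.m : ℕ) : ℝ) ≤ (Y.gm : ℝ) / Y.m + 1 := by
    rw [div_add_one hm.ne', le_div_iff₀ hm]
    exact_mod_cast (Nat.div_mul_le_self x Y.m).trans h2.le
  have h4 : (Y.gm : ℝ) / Y.m ≤ (x / Y.m : ℕ) + 1 := by
    rw [div_le_iff₀ hm]
    have := Nat.lt_div_mul_add (a := x) Y.hm
    exact_mod_cast (by rw [add_mul, one_mul]; omega : Y.gm ≤ (x / Y.m + 1) * Y.m)
  exact abs_le.2 ⟨by linarith, by linarith⟩

theorem ftb_two (Y : Cl) {g r : ℕ} (h1 : Y.gm ≤ g + Y.m) (h2 : g ≤ Y.gm + Y.m) (hr : r < Y.m) :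
    0 ≤ g / Y.gb * Y.HH r - Y.ftb_o ∧ g / Y.gb * Y.HH r - Y.ftb_o ≤ 8 := by
  obtain ⟨hm, -, -, -, -, -, -, -, -, -, hs, -⟩ := Y.pos
  obtain ⟨b1, b2, -⟩ := Y.gb_near
  obtain ⟨c1, c2, c3⟩ := Y.HH_bounds hr
  have hb := hm.trans b2
  have hw : (1000 * Y.w : ℝ) ≤ Y.m := by exact_mod_cast Y.hw
  have h1' : (Y.gm : ℝ) ≤ g + Y.m := by exact_mod_cast h1
  have h2' : (g : ℝ) ≤ Y.gm + Y.m := by exact_mod_cast h2
  have r0 : 0 ≤ g / Y.gb := by positivity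
  have r3 : g / Y.gb ≤ 3 := by
    rw [div_le_iff₀ hb]
    linarith [(abs_le.1 b1).1]
  have e : g / Y.gb * (Y.gb / Y.m) = g / Y.m := by field_simp
  have d1 : (Y.gm : ℝ) / Y.m ≤ g / Y.m + 1 := by
    rw [div_add_one hm.ne']
    exact div_le_div_of_nonneg_right h1' hm.le
  have d2 : (g : ℝ) / Y.m ≤ Y.gm / Y.m + 1 := by
    rw [div_add_one hm.ne']
    exact div_le_div_of_nonneg_right h2' hm.le
  have e2 := mul_le_mul_of_nonneg_left c2 r0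
  have e3 := mul_le_mul_of_nonneg_left c3 r0
  rw [mul_sub, e] at e2
  rw [mul_add, e] at e3
  exact ⟨sub_nonneg.2 (max_le (by linarith) (mul_nonneg r0 (by linarith))),
    by linarith [Y.ftb_o_spec.2.1]⟩

theorem ftb_itv (Y : Cl) {g : ℕ} (hg : g ∈ Y.G \ Y.C) : ∃ y₁ y₂ : ℕ, Y.gm ≤ y₁ ∧ y₁ ≤ y₂ ∧
    y₂ ≤ Y.gm + Y.m ∧
    (∀ x, Y.gm ≤ x → x < Y.gm + Y.m → (y₁ ≤ x ∧ x < y₂ ↔ g ≤ x ∧ x < g + Y.m)) ∧
    Y.Dw ^ 2 * Y.m ≤
      Y.gm - Y.ftb_o * Y.m - ∑ x ∈ Ico y₁ y₂, (g / Y.gb * Y.HH (x - g) - Y.ftb_o) := by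
  obtain ⟨hm, -, -, -, -, d0, d1, -⟩ := Y.pos
  obtain ⟨o1, -, o3⟩ := Y.ftb_o_spec
  have hb := hm.trans Y.gb_near.2.1
  have ew := Y.eqs.2.2.1
  have hfar : g + Y.w < Y.gm ∨ Y.gm + Y.w < g := by
    by_contra h
    exact (mem_sdiff.1 hg).2 (mem_filter.2 ⟨(mem_sdiff.1 hg).1, by omega, by omega⟩)
  have d2 : Y.Dw ^ 2 * Y.m ≤ Y.w := by
    rw [← ew]
    exact mul_le_mul_of_nonneg_right (by nlinarith) hm.le
  rw [le_div_iff₀ hm] at o3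
  by_cases h : g + Y.m ≤ Y.gm ∨ Y.gm + Y.m ≤ g
  · refine ⟨Y.gm, Y.gm, le_rfl, le_rfl, by omega, fun x _ _ => by omega, ?_⟩
    have hw : (1000 * Y.w : ℝ) ≤ Y.m := by exact_mod_cast Y.hw
    rw [Ico_self, sum_empty]
    linarith
  rcases hfar with h1 | h1
  · refine ⟨Y.gm, g + Y.m, le_rfl, by omega, by omega, fun x _ _ => by omega, ?_⟩
    have h2 : ∑ x ∈ Ico Y.gm (g + Y.m), (g / Y.gb * Y.HH (x - g) - Y.ftb_o) ≤
        ∑ x ∈ Ico g (g + Y.m), (g / Y.gb * Y.HH (x - g) - Y.ftb_o) :=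
      sum_le_sum_of_subset_of_nonneg (Ico_subset_Ico_left (by omega)) fun x hx _ =>
        (Y.ftb_two (by omega) (by omega) (by have := mem_Ico.1 hx; omega)).1
    rw [sum_Ico_eq_sum_range _ g] at h2
    simp only [Nat.add_sub_cancel_left] at h2
    rw [sum_sub_distrib (s := range _), ← mul_sum, Y.sum_HH, div_mul_cancel₀ _ hb.ne', sum_const,
      card_range, nsmul_eq_mul] at h2
    have h3 : (g : ℝ) + Y.w < Y.gm := by exact_mod_cast h1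
    linarith
  · refine ⟨g, Y.gm + Y.m, by omega, by omega, le_rfl, fun x _ _ => by omega, ?_⟩
    obtain ⟨t, rfl⟩ : ∃ t, g = Y.gm + t := ⟨g - Y.gm, by omega⟩
    have ht : t ≤ Y.m := by omega
    have h2 := ftb_avg Y.HH_mono (Nat.sub_le Y.m t)
    rw [sum_Ico_eq_sum_range, Nat.add_sub_add_left]
    simp only [Nat.add_sub_cancel_left]
    rw [sum_sub_distrib, ← mul_sum, sum_const, card_range, nsmul_eq_mul, Nat.cast_sub ht,
      Nat.cast_add]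
    rw [Y.sum_HH, Nat.cast_sub ht] at h2
    have h3 : (Y.w : ℝ) ≤ t := by exact_mod_cast (by omega : Y.w ≤ t)
    have h4 := mul_le_mul_of_nonneg_left h2 (show 0 ≤ ((Y.gm : ℝ) + t) / Y.gb by positivity)
    rw [mul_comm _ Y.gb, ← mul_assoc _ Y.gb, div_mul_cancel₀ _ hb.ne'] at h4
    have h5 := mul_le_mul_of_nonneg_left o3 (Nat.cast_nonneg (α := ℝ) t)
    have h6 := mul_self_le_mul_self (Nat.cast_nonneg _) h3
    refine le_of_mul_le_mul_left ?_ hm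
    rw [← ew] at h6
    linarith

theorem FT : ∃ K : ℝ, 0 < K ∧ ∀ Y : Cl, Y.Sm → K * Y.eB ≤ Y.Dw ^ 2 → ∀ g ∈ Y.G \ Y.C,
    -(K * Y.E) ≤ Y.kc * Y.Tg g := by
  obtain ⟨K₁, p1, h1⟩ := FT_lines
  obtain ⟨K₂, p2, h2⟩ := abel
  refine ⟨6 * K₁ + 13 * K₂, by positivity, fun Y hS hK g hg => ?_⟩
  obtain ⟨y₁, y₂, a1, a2, a3, a4, a5⟩ := Y.ftb_itv hg
  obtain ⟨hm, -, -, hl, -⟩ := Y.pos
  have hb := hm.trans Y.gb_near.2.1
  have o1 := Y.ftb_o_spec.1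
  have b1 : ∀ x, y₁ ≤ x → x < y₂ → 0 ≤ g / Y.gb * Y.HH (x - g) - Y.ftb_o ∧
      g / Y.gb * Y.HH (x - g) - Y.ftb_o ≤ 8 := fun x e1 e2 => by
    have := (a4 x (by omega) (by omega)).1 ⟨e1, e2⟩
    exact Y.ftb_two (by omega) (by omega) (by omega)
  have c1 := h1 Y hS g (mem_sdiff.1 hg).1 (fun x => ((x / Y.m : ℕ) : ℝ) - Y.ftb_o -
    if y₁ ≤ x ∧ x < y₂ then g / Y.gb * Y.HH (x - g) - Y.ftb_o else 0) 5 (by norm_num)
    fun x e1 e2 => by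
      have e3 := (abs_le.1 (Y.ftb_one e1 e2)).2
      split_ifs with e
      · have := (b1 x e.1 e.2).1
        exact ⟨by linarith, by linarith, fun _ _ => by linarith⟩
      · exact ⟨by linarith, by linarith, fun e4 e5 => absurd ((a4 x e1 e2).2 ⟨e4, e5⟩) e⟩
  have c2 := h2 Y hS _ _ le_rfl (Nat.le_add_right _ _) le_rfl
    (fun x => ((x / Y.m : ℕ) : ℝ) - Y.ftb_o) 5 (by norm_num)
    (fun x y _ e _ => sub_le_sub_right (Nat.cast_le.2 (Nat.div_le_div_right e)) _)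
    fun x => Y.ftb_one
  have c3 := h2 Y hS _ _ a1 a2 a3 (fun x => g / Y.gb * Y.HH (x - g) - Y.ftb_o) 8 (by norm_num)
    (fun x y _ e _ => sub_le_sub_right (mul_le_mul_of_nonneg_left
      (Y.HH_mono (Nat.sub_le_sub_right e g)) (by positivity)) _)
    fun x e1 e2 => by rw [abs_of_nonneg (b1 x e1 e2).1]; exact (b1 x e1 e2).2
  have c4 : (Y.itv Y.gm (Y.gm + Y.m)).filter (fun a => y₁ ≤ Y.η a ∧ Y.η a < y₂) = Y.itv y₁ y₂ := by
    rw [itv, itv, filter_filter]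
    exact filter_congr fun a _ => by omega
  rw [sum_sub_distrib, ← sum_filter, c4, Err] at c1
  rw [sum_sub_distrib (s := Ico _ _), ftb_floor Y.hm, sum_const, Nat.card_Ico,
    Nat.add_sub_cancel_left, nsmul_eq_mul, Err] at c2
  rw [Err] at c3
  have c5 := mul_le_mul_of_nonneg_left a5 (show 0 ≤ Y.l by linarith)
  have c6 := mul_le_mul_of_nonneg_right hK (show 0 ≤ Y.l * Y.m by positivity)
  linarith [(abs_le.1 c2).1, (abs_le.1 c3).2]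

end Cl

end Pool.Agent.Lib.MP_299528_co.Bd
end

-- part Pool.Agent.Lib.MP_299528_co.W.F5
section

/-! The deficit: crude bound and removal of the lower tail. -/

set_option autoImplicit false

namespace Pool.Agent.Lib.MP_299528_co.Bd

open Finset

namespace Cl

/-- The deficit written with carries relative to the centre. -/
theorem Df_eq (Y : Cl) {H : Finset ℕ} (hH : H.Nonempty) (b : Multiset ℕ) (g : ℕ) :
    Y.Df H b = ∑ h ∈ H, ((ct H b : ℝ) / H.card - b.count h) *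
      ((((Y.res b + h) / Y.m : ℕ) : ℝ) - (((Y.res b + g) / Y.m : ℕ) : ℝ)) := by
  have h0 : (H.card : ℝ) ≠ 0 := by exact_mod_cast hH.card_pos.ne'
  have h1 : (ct H b : ℝ) = ∑ h ∈ H, (b.count h : ℝ) := by simp [ct]
  simp only [Df, sub_mul, mul_sub, sum_sub_distrib, ← mul_sum, ← sum_mul, sum_const, nsmul_eq_mul,
    ← h1]
  field_simp
  ring

theorem carry_ge (Y : Cl) (b : Multiset ℕ) {g h : ℕ} (h1 : g ≤ h) (h2 : h ≤ g + Y.m) :
    (((Y.res b + h) / Y.m : ℕ) : ℝ) - (((Y.res b + g) / Y.m : ℕ) : ℝ) =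
      if (Y.η b + h) % Y.m < h - g then 1 else 0 := by
  have := div_step (Y.res b + g) (z := h - g) (by omega) Y.hm
  rw [add_assoc, Nat.add_sub_cancel' h1] at this
  rw [this, Ap.res, Nat.mod_add_mod]
  split_ifs <;> simp

/-- The carry relative to the centre. -/
noncomputable def f5D (Y : Cl) (h : ℕ) (b : Multiset ℕ) : ℝ :=
  (((Y.res b + h) / Y.m : ℕ) : ℝ) - (((Y.res b + Y.gm) / Y.m : ℕ) : ℝ)

theorem f5_sum (Y : Cl) {H : Finset ℕ} (hH : H.Nonempty) : ∑ b ∈ Y.D, Y.Df H b =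
    ∑ h ∈ H, ∑ b ∈ Y.D, ((ct H b : ℝ) / H.card - b.count h) * Y.f5D h b := by
  rw [sum_comm]
  exact sum_congr rfl fun b _ => Y.Df_eq hH b Y.gm

theorem f5_up (Y : Cl) {h : ℕ} (hh : h ∈ Y.C) (h1 : Y.gm ≤ h) (f : Multiset ℕ → ℝ) :
    ∑ b ∈ Y.D, f b * Y.f5D h b = ∑ b ∈ Y.arc Y.D h (h - Y.gm), f b := by
  have := Y.mem_C hh
  have := Y.hw
  rw [arc, sum_filter]
  refine sum_congr rfl fun b _ => ?_
  rw [f5D, Y.carry_ge b h1 (by omega)]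
  split_ifs <;> simp

theorem f5_dn (Y : Cl) {h : ℕ} (hh : h ∈ Y.C) (h1 : h ≤ Y.gm) (f : Multiset ℕ → ℝ) :
    ∑ b ∈ Y.D, f b * Y.f5D h b = ∑ b ∈ Y.arc Y.D Y.gm (Y.gm - h), -f b := by
  have := Y.mem_C hh
  have := Y.hw
  rw [arc, sum_filter]
  refine sum_congr rfl fun b _ => ?_
  rw [f5D, ← neg_sub, Y.carry_ge b h1 (by omega)]
  split_ifs <;> simp

theorem f5_arc (Y : Cl) (p u : ℕ) {f : Multiset ℕ → ℝ} {c : ℝ} (hc : 0 ≤ c)
    (hf : ∀ b ∈ Y.D, f b ≤ c) : ∑ b ∈ Y.arc Y.D p u, f b ≤ c * u := by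
  refine (sum_le_card_nsmul _ _ c fun b hb => hf b (filter_subset _ _ hb)).trans ?_
  rw [nsmul_eq_mul, mul_comm]
  exact mul_le_mul_of_nonneg_left (by exact_mod_cast Y.card_arc_le p u) hc

theorem f5_ct (H : Finset ℕ) (B : Finset (Multiset ℕ)) :
    ∑ g ∈ H, ∑ b ∈ B, (b.count g : ℝ) = ∑ b ∈ B, (ct H b : ℝ) := by
  rw [sum_comm]
  simp [ct]

theorem f5_abs (x y : ℕ) :
    ((x - y : ℕ) : ℝ) ≤ |(x : ℝ) - y| ∧ ((y - x : ℕ) : ℝ) ≤ |(x : ℝ) - y| := by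
  rcases le_total x y with h | h
  · rw [Nat.sub_eq_zero_of_le h, Nat.cast_sub h, abs_sub_comm]
    exact ⟨by simp, le_abs_self _⟩
  · rw [Nat.sub_eq_zero_of_le h, Nat.cast_sub h]
    exact ⟨le_abs_self _, by simp⟩

theorem f5_dev (Y : Cl) {H : Finset ℕ} (hH : H ⊆ Y.C) :
    ∑ h ∈ H, |(h : ℝ) - Y.gm| ≤ Y.s * Y.kc := by
  rw [Y.eqs.2.2.2.2.1]
  exact sum_le_sum_of_subset_of_nonneg hH fun _ _ _ => abs_nonneg _

/-- An affine bound summed over a set of letters. -/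
theorem f5_aff (Y : Cl) {H : Finset ℕ} (hH : H ⊆ Y.C) {f : ℕ → ℝ} {a c q : ℝ} (ha : 0 ≤ a)
    (hc : 0 ≤ c) (hq : (H.card : ℝ) ≤ q * Y.kc)
    (hf : ∀ h ∈ H, Y.kc * f h ≤ a * |(h : ℝ) - Y.gm| + c) : ∑ h ∈ H, f h ≤ a * Y.s + q * c := by
  refine le_of_mul_le_mul_left ?_ Y.pos.2.1
  have h1 := sum_le_sum hf
  rw [← mul_sum, sum_add_distrib, ← mul_sum, sum_const, nsmul_eq_mul] at h1
  have h2 := mul_le_mul_of_nonneg_left (Y.f5_dev hH) ha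
  have h3 := mul_le_mul_of_nonneg_right hq hc
  linarith

theorem f5_mult (Y : Cl) (hS : Y.Sm) {H : Finset ℕ} (hH : H ⊆ Y.C) (x : ℕ) (u : ℕ → ℕ)
    (hx : ∀ g ∈ H, g + u g ≤ x ∧ x ≤ g + 2 * Y.w) :
    ∑ g ∈ H, ∑ b ∈ Y.arc Y.D x (u g), (b.count g : ℝ) ≤
      ∑ g ∈ H, ((Y.arc Y.low (x - g) (u g)).card : ℝ) + 400 * Y.Es := by
  have hw := Y.hw
  have h1 : ∀ g ∈ H, ∑ b ∈ Y.arc Y.D x (u g), (b.count g : ℝ) ≤
      (Y.arc Y.low (x - g) (u g)).card +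
        ∑ a ∈ Y.arc Y.low (2 * Y.w) (2 * Y.w), (a.count g : ℝ) := fun g hg => by
    have := hx g hg
    refine (Y.count_le g (P := Y.arc Y.low (x - g) (u g)) (filter_subset _ _)
      fun a ha => ?_).trans (add_le_add_right
        (sum_le_sum_of_subset_of_nonneg (fun a ha => ?_) fun _ _ _ => Nat.cast_nonneg _) _)
    · obtain ⟨a1, a2⟩ := mem_filter.1 ha
      obtain ⟨b1, -, b3⟩ := Y.of_cons a1
      refine mem_filter.2 ⟨Y.Us_sub (mem_filter.2 ⟨b1, a1⟩), ?_⟩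
      rwa [b3, add_assoc, Nat.add_sub_cancel' (by omega)]
    · exact mem_filter.2 ⟨(mem_filter.1 ha).1, arc_mono (z := x - g) (by omega) (by omega)
        ((mem_filter.1 ha).2.trans_le (by omega))⟩
  refine (sum_le_sum h1).trans ?_
  rw [sum_add_distrib, f5_ct]
  refine add_le_add_right ((sum_le_card_nsmul _ _ _ fun b hb =>
    Y.ct_le hH (Y.mem_low.1 (filter_subset _ _ hb)).1).trans ?_) _
  rw [nsmul_eq_mul]
  have h2 := Y.MU hS (2 * Y.w) (u := 2 * Y.w) (by omega)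
  rw [arc] at h2
  linarith

theorem F5 : ∃ K : ℝ, 0 < K ∧ ∀ Y : Cl, Y.Sm →
    ∑ b ∈ Y.D, Y.Df Y.C b ≤ K * (Y.s * Y.l) + Y.Gc / 4 + K * Y.Es := by
  refine ⟨400, by norm_num, fun Y hS => ?_⟩
  obtain ⟨-, p2, -, p4, -, -, -, -, -, p10, -, p12⟩ := Y.pos
  have hl : 0 ≤ Y.l := by linarith
  have hsl := mul_nonneg p10 hl
  let U : ℕ → ℝ := fun h => ∑ b ∈ Y.arc Y.D Y.gm (Y.gm - h), (b.count h : ℝ)
  have hU : ∀ h, 0 ≤ U h := fun h => sum_nonneg fun _ _ => Nat.cast_nonneg _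
  have h1 := Y.f5_aff Subset.rfl (a := 2 * Y.l) (c := 0) (q := 1) (f := fun h =>
    ∑ b ∈ Y.D, ((ct Y.C b : ℝ) / Y.C.card - b.count h) * Y.f5D h b - U h) (by linarith) le_rfl
    (one_mul _).ge fun h hh => by
      have k0 := mul_nonneg hl (abs_nonneg ((h : ℝ) - Y.gm))
      rcases le_total Y.gm h with e | e
      · rw [Y.f5_up hh e, mul_sub, mul_sum]
        have k1 := Y.f5_arc h (h - Y.gm) (c := 2 * Y.l) (by linarith)
          (f := fun b => Y.kc * ((ct Y.C b : ℝ) / Y.C.card - b.count h)) fun b hb => by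
            have := mul_nonneg p2.le (Nat.cast_nonneg (α := ℝ) (b.count h))
            rw [mul_sub, ← kc, mul_div_cancel₀ _ p2.ne']
            linarith [Y.ct_le Subset.rfl hb]
        have k2 := mul_le_mul_of_nonneg_left (f5_abs h Y.gm).1 hl
        have k3 := mul_nonneg p2.le (hU h)
        linarith
      · rw [Y.f5_dn hh e]
        have k1 : ∑ b ∈ Y.arc Y.D Y.gm (Y.gm - h), -((ct Y.C b : ℝ) / Y.C.card - b.count h) ≤
            U h := sum_le_sum fun b _ => by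
          have : (0 : ℝ) ≤ (ct Y.C b : ℝ) / Y.C.card := by positivity
          linarith
        have k2 := mul_nonneg p2.le (sub_nonneg.2 k1)
        linarith
  rw [sum_sub_distrib, ← Y.f5_sum (H := Y.C) (card_pos.1 Y.hC),
    ← sum_filter_add_sum_filter_not Y.C (fun h : ℕ => 8 * Y.s < (Y.gm : ℝ) - h) U] at h1
  set F := Y.C.filter fun h : ℕ => 8 * Y.s < (Y.gm : ℝ) - h with hF
  have hFC : F ⊆ Y.C := filter_subset _ _
  have h2 : (F.card : ℝ) ≤ 1 / 8 * Y.kc := by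
    rcases F.eq_empty_or_nonempty with e | e
    · rw [e, card_empty, Nat.cast_zero]
      positivity
    have k1 := (sum_lt_sum_of_nonempty e (f := fun _ => 8 * Y.s) fun h hh =>
      (mem_filter.1 hh).2.trans_le ((le_abs_self _).trans_eq (abs_sub_comm _ _))).trans_le
      (Y.f5_dev hFC)
    rw [sum_const, nsmul_eq_mul] at k1
    by_contra! k2
    linarith [mul_le_mul_of_nonneg_right k2.le p10]
  have h3 : ∑ h ∈ F, U h ≤ _ := Y.f5_mult hS hFC Y.gm (fun h => Y.gm - h) fun g hg => by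
    have k1 : (g : ℝ) < Y.gm := by linarith [(mem_filter.1 hg).2]
    have k2 : g < Y.gm := by exact_mod_cast k1
    have := Y.mem_C (hFC hg)
    omega
  have h4 := Y.f5_aff hFC (a := 4 * Y.l) (c := 2 * Y.Gc + 16 * (Y.s * Y.l)) (by linarith)
    (by linarith) h2 (f := fun g => ((Y.arc Y.low (Y.gm - g) (Y.gm - g)).card : ℝ)) fun g _ => by
      have k1 := Y.CD Subset.rfl (Y.gm - g) (Y.gm - g)
      have k2 := mul_le_mul_of_nonneg_left (f5_abs g Y.gm).2 hl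
      linarith [Y.UP_low]
  have h5 : ∑ h ∈ Y.C.filter (fun h : ℕ => ¬ 8 * Y.s < (Y.gm : ℝ) - h), U h ≤
      2 * Y.l * (8 * Y.s) := by
    refine (sum_le_sum (g := fun h => ∑ b ∈ Y.arc Y.D Y.gm ⌊8 * Y.s⌋₊, (b.count h : ℝ))
      fun h hh => sum_le_sum_of_subset_of_nonneg (fun b hb => ?_)
        fun _ _ _ => Nat.cast_nonneg _).trans ?_
    · refine mem_filter.2 ⟨(mem_filter.1 hb).1, (mem_filter.1 hb).2.trans_le (Nat.le_floor ?_)⟩
      rcases le_total h Y.gm with e | e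
      · rw [Nat.cast_sub e]
        exact not_lt.1 (mem_filter.1 hh).2
      · rw [Nat.sub_eq_zero_of_le e, Nat.cast_zero]
        linarith
    · rw [f5_ct]
      exact (Y.f5_arc _ _ (by linarith) fun b hb => Y.ct_le (filter_subset _ _) hb).trans
        (mul_le_mul_of_nonneg_left (Nat.floor_le (by linarith)) (by linarith))
  linarith

/-- The lower quantile. -/
theorem f5_quant (Y : Cl) {q : ℝ} (h0 : 0 < q) (h1 : q ≤ 1 / 4) : ∃ g₀ ∈ Y.C, g₀ ≤ Y.gm ∧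
    ((Y.C.filter fun h => ¬ g₀ ≤ h).card : ℝ) ≤ q * Y.kc ∧ ((Y.gm : ℝ) - g₀) * q ≤ Y.s := by
  have p2 := Y.pos.2.1
  have hg : q * Y.kc < (Y.C.filter fun h => h ≤ Y.gm).card := by
    have : Y.kc ≤ 3 * ((Y.C.filter fun h => h ≤ Y.gm).card : ℝ) := by
      rw [kc]
      exact_mod_cast Y.hlo
    nlinarith
  have hex : ∃ x : ℕ, q * Y.kc < (Y.C.filter fun h => h ≤ x).card := ⟨_, hg⟩
  have k1 := Nat.find_spec hex
  have k2 := Nat.find_min' hex hg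
  have k3 := fun x => Nat.find_min hex (m := x)
  generalize Nat.find hex = g at k1 k2 k3
  have k4 : ((Y.C.filter fun h => ¬ g ≤ h).card : ℝ) ≤ q * Y.kc := by
    rcases g with _ | g
    · simpa using (mul_pos h0 p2).le
    · simpa using k3 g (Nat.lt_succ_self g)
  refine ⟨g, ?_, k2, k4, ?_⟩
  · by_contra hc
    refine absurd (k1.trans_le (Nat.cast_le.2 (card_le_card fun h hh => ?_))) (not_lt.2 k4)
    obtain ⟨a1, a2⟩ := mem_filter.1 hh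
    exact mem_filter.2 ⟨a1, fun e => hc (le_antisymm a2 e ▸ a1)⟩
  · have k5 := (card_nsmul_le_sum (Y.C.filter fun h => h ≤ g) (fun h => |(h : ℝ) - Y.gm|)
      ((Y.gm : ℝ) - g) fun h hh => by
        have : (h : ℝ) ≤ g := by exact_mod_cast (mem_filter.1 hh).2
        linarith [neg_le_abs ((h : ℝ) - Y.gm)]).trans (Y.f5_dev (filter_subset _ _))
    rw [nsmul_eq_mul] at k5
    have k6 : (0 : ℝ) ≤ (Y.gm : ℝ) - g := sub_nonneg.2 (by exact_mod_cast k2)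
    refine le_of_mul_le_mul_right ?_ p2
    linarith [mul_le_mul_of_nonneg_right k1.le k6]

theorem A6 : ∃ K : ℝ, 0 < K ∧ ∀ Y : Cl, Y.Sm → ∀ q : ℝ, 0 < q → q ≤ 1 / 4 → ∃ g₀ ∈ Y.C,
    ∑ h ∈ Y.C.filter (fun h => g₀ ≤ h), ((h : ℝ) - g₀) ≤
      2 * Y.s / q * (Y.C.filter (fun h => g₀ ≤ h)).card ∧
    ∑ b ∈ Y.D, Y.Df Y.C b ≤
      ∑ b ∈ Y.D, Y.Df (Y.C.filter (fun h => g₀ ≤ h)) b + K * (q * Y.E + Y.Es) := by
  obtain ⟨KU, hKU, HU⟩ := UD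
  obtain ⟨KL, hKL, HL⟩ := LC
  refine ⟨2 * KU + KL + 800, by positivity, fun Y hS q q0 q1 => ?_⟩
  obtain ⟨g₀, g1, g2, g3, g4⟩ := Y.f5_quant q0 q1
  refine ⟨g₀, g1, ?_⟩
  obtain ⟨p1, p2, -, p4, -, -, -, p8, -, p10, -, p12⟩ := Y.pos
  obtain ⟨e1, -, e3, -, -, -, -, e8, -⟩ := Y.E_ge
  have hl : 0 ≤ Y.l := by linarith
  have hE : 0 ≤ Y.E := by linarith
  have hEs : 0 ≤ Y.Es := (mul_nonneg p8 hE).trans e8
  have hw := Y.hw
  have c1 : ((Y.C.filter fun h => g₀ ≤ h).card : ℝ) + (Y.C.filter fun h => ¬ g₀ ≤ h).card =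
      Y.kc := by
    rw [kc]
    exact_mod_cast card_filter_add_card_filter_not _
  have c2 : ∀ b, (ct Y.C b : ℝ) =
      ct (Y.C.filter fun h => g₀ ≤ h) b + ct (Y.C.filter fun h => ¬ g₀ ≤ h) b := fun b => by
    exact_mod_cast (sum_filter_add_sum_filter_not _ _ _).symm
  have c3 := Y.f5_sum (H := Y.C) (card_pos.1 Y.hC)
  rw [← sum_filter_add_sum_filter_not Y.C (fun h => g₀ ≤ h), ← kc] at c3
  have c4 := Y.f5_sum (H := Y.C.filter fun h => g₀ ≤ h) ⟨g₀, mem_filter.2 ⟨g1, le_rfl⟩⟩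
  have hL : ∀ h ∈ Y.C.filter fun h => ¬ g₀ ≤ h, h ≤ Y.gm := fun h hh => by
    have := (mem_filter.1 hh).2
    omega
  have hC' : (Y.C.filter fun h => g₀ ≤ h) ⊆ Y.C := filter_subset _ _
  have hLC : (Y.C.filter fun h => ¬ g₀ ≤ h) ⊆ Y.C := filter_subset _ _
  generalize (Y.C.filter fun h => g₀ ≤ h) = C' at *
  generalize (Y.C.filter fun h => ¬ g₀ ≤ h) = L at *
  have c5 : q * Y.kc ≤ 1 / 4 * Y.kc := mul_le_mul_of_nonneg_right q1 p2.le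
  have c6 : (0 : ℝ) < C'.card := by linarith
  have c7 : (C'.card : ℝ) ≤ Y.kc := by linarith [Nat.cast_nonneg (α := ℝ) L.card]
  constructor
  · have k1 : ∑ h ∈ C', ((h : ℝ) - g₀) ≤ ∑ h ∈ C', (|(h : ℝ) - Y.gm| + (Y.gm - g₀)) :=
      sum_le_sum fun h _ => by linarith [le_abs_self ((h : ℝ) - Y.gm)]
    rw [sum_add_distrib, sum_const, nsmul_eq_mul] at k1
    rw [div_mul_eq_mul_div, le_div_iff₀ q0]
    have k2 := mul_le_mul_of_nonneg_right (k1.trans (add_le_add_left (Y.f5_dev hC') _)) q0.le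
    have k3 := mul_le_mul_of_nonneg_left g4 c6.le
    have k4 := mul_le_mul_of_nonneg_left (show q * Y.kc ≤ C'.card by linarith) p10
    linarith
  have a1 := Y.f5_mult hS hLC Y.gm (fun h => Y.gm - h) fun g hg => by
    have := hL g hg
    have := Y.mem_C (hLC hg)
    omega
  have a2 := Y.f5_aff hLC (a := KL * Y.eB * Y.l) (c := (KU + KL) * Y.E) (by positivity)
    (by positivity) g3 (f := fun h => ((Y.arc Y.low (Y.gm - h) (Y.gm - h)).card : ℝ) -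
      ∑ b ∈ Y.arc Y.D Y.gm (Y.gm - h), (ct Y.C b : ℝ) / Y.kc) fun h hh => by
      have k0 := Y.mem_C (hLC hh)
      have k1 := HU Y hS (Y.gm - h) (Y.gm - h)
      have k2 := (HL Y hS Y.gm (Y.gm - h) (by omega)).trans (sum_le_sum_of_subset_of_nonneg
        (t := Y.arc Y.D Y.gm (Y.gm - h)) (filter_subset_filter _ (filter_subset _ _))
        fun _ _ _ => Nat.cast_nonneg _)
      have k3 := mul_le_mul_of_nonneg_left (f5_abs h Y.gm).2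
        (show 0 ≤ KL * Y.eB * Y.l by positivity)
      rw [mul_sub, ← sum_div, mul_div_cancel₀ _ p2.ne']
      linarith
  have a3 : ∑ h ∈ L, ∑ b ∈ Y.D, ((ct Y.C b : ℝ) / Y.kc - b.count h) * Y.f5D h b =
      ∑ h ∈ L, ∑ b ∈ Y.arc Y.D Y.gm (Y.gm - h), (b.count h : ℝ) -
        ∑ h ∈ L, ∑ b ∈ Y.arc Y.D Y.gm (Y.gm - h), (ct Y.C b : ℝ) / Y.kc := by
    rw [← sum_sub_distrib]
    refine sum_congr rfl fun h hh => ?_
    rw [Y.f5_dn (hLC hh) (hL h hh), ← sum_sub_distrib]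
    simp only [neg_sub]
  have a4 := Y.f5_aff hC' (a := 3 * q * Y.l) (c := q * KU * Y.E + 400 * Y.Es) (q := 1)
    (by positivity) (by positivity) (by linarith) (f := fun h =>
      ∑ b ∈ Y.D, ((ct Y.C b : ℝ) / Y.kc - (ct C' b : ℝ) / C'.card) * Y.f5D h b) fun h hh => by
      have k0 := Y.mem_C (hC' hh)
      have k1 : 0 ≤ q * Y.l := by positivity
      have k2 : 0 ≤ q * KU * Y.E := by positivity
      rcases le_total Y.gm h with e | e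
      · rw [Y.f5_up (hC' hh) e, mul_sum]
        have k3 : ∑ b ∈ Y.arc Y.D h (h - Y.gm),
            Y.kc * ((ct Y.C b : ℝ) / Y.kc - (ct C' b : ℝ) / C'.card) ≤
            ∑ b ∈ Y.arc Y.D h (h - Y.gm), (ct L b : ℝ) := sum_le_sum fun b _ => by
          have : (ct C' b : ℝ) ≤ Y.kc * ((ct C' b : ℝ) / C'.card) := by
            rw [← mul_div_assoc, le_div_iff₀ c6, mul_comm]
            exact mul_le_mul_of_nonneg_right c7 (Nat.cast_nonneg _)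
          rw [mul_sub, mul_div_cancel₀ _ p2.ne', c2]
          linarith
        have k4 := Y.f5_mult hS hLC h (fun _ => h - Y.gm) fun g hg => by
          have := hL g hg
          have := Y.mem_C (hLC hg)
          omega
        have k5 := Y.f5_aff hLC (a := 0) (c := Y.l * (h - Y.gm : ℕ) + KU * Y.E) le_rfl
          (by positivity) g3 (f := fun g => ((Y.arc Y.low (h - g) (h - Y.gm)).card : ℝ))
          fun g _ => by simpa using HU Y hS (h - g) (h - Y.gm)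
        have k6 := mul_le_mul_of_nonneg_left (f5_abs h Y.gm).1 k1
        have k7 := mul_nonneg k1 (abs_nonneg ((h : ℝ) - Y.gm))
        rw [f5_ct] at k4
        linarith
      · rw [Y.f5_dn (hC' hh) e, mul_sum]
        have k3 := Y.f5_arc Y.gm (Y.gm - h) (c := 3 * (q * Y.l)) (by positivity)
          (f := fun b => Y.kc * -((ct Y.C b : ℝ) / Y.kc - (ct C' b : ℝ) / C'.card)) fun b hb => by
            have l1 : Y.kc * ((ct C' b : ℝ) / C'.card) ≤ ct C' b + 3 * (q * Y.l) := by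
              have l2 := mul_le_mul g3 (Y.ct_le hC' hb) (Nat.cast_nonneg _) (by positivity)
              have l3 := mul_le_mul_of_nonneg_left
                (show 3 / 4 * Y.kc ≤ C'.card by linarith) k1
              have l4 := mul_nonneg k1 p2.le
              rw [← mul_div_assoc, div_le_iff₀ c6]
              linear_combination l2 + 3 * l3 + 1 / 4 * l4 - (ct C' b : ℝ) * c1
            rw [neg_sub, mul_sub, mul_div_cancel₀ _ p2.ne', c2]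
            linarith [Nat.cast_nonneg (α := ℝ) (ct L b)]
        have k6 := mul_le_mul_of_nonneg_left (f5_abs h Y.gm).2 k1
        linarith
  have a5 : ∑ h ∈ C', ∑ b ∈ Y.D, ((ct Y.C b : ℝ) / Y.kc - b.count h) * Y.f5D h b =
      ∑ h ∈ C', ∑ b ∈ Y.D, ((ct C' b : ℝ) / C'.card - b.count h) * Y.f5D h b +
        ∑ h ∈ C', ∑ b ∈ Y.D, ((ct Y.C b : ℝ) / Y.kc - (ct C' b : ℝ) / C'.card) * Y.f5D h b := by
    rw [← sum_add_distrib]
    refine sum_congr rfl fun h _ => ?_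
    rw [← sum_add_distrib]
    exact sum_congr rfl fun b _ => by ring
  rw [sum_sub_distrib] at a2
  have b1 := mul_le_mul_of_nonneg_left e3 q0.le
  have b2 := mul_le_mul_of_nonneg_left ((mul_le_mul_of_nonneg_left e3 p8).trans e8) hKL.le
  have b3 := mul_nonneg q0.le hE
  have b4 := mul_nonneg hKU.le hEs
  linarith

end Cl

end Pool.Agent.Lib.MP_299528_co.Bd
end

-- part Pool.Agent.Lib.MP_299528_co.W.A0
section

/-! Clusters with large ratio of length to size do not exist. -/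

set_option autoImplicit false

namespace Pool.Agent.Lib.MP_299528_co.Bd

open Finset

namespace Cl

theorem a0_k (Y : Cl) : 1 ≤ Y.kc ∧ (Y.k : ℝ) ≤ 1001 / 1000 * Y.kc := by
  obtain ⟨-, kc0, -, -, -, -, -, -, h, -⟩ := Y.pos
  have hC : 1 ≤ Y.C.card := Y.hC
  refine ⟨by rw [kc]; exact_mod_cast hC, ?_⟩
  have := mul_le_mul_of_nonneg_right h kc0.le
  linarith [Y.eqs.2.2.2.2.2.1]

theorem a0_lam (Y : Cl) {Θ₀ : ℕ} (hT : Y.T ≤ Θ₀ * ((Y.k + 1) * Y.m)) : Y.lam ≤ 3 * Θ₀ := by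
  obtain ⟨m0, kc0, hgm, -⟩ := Y.pos
  obtain ⟨e1, e2, -⟩ := Y.eqs
  obtain ⟨k1, k2⟩ := Y.a0_k
  have h1 : (Y.T : ℝ) ≤ Θ₀ * ((Y.k + 1) * Y.m) := by exact_mod_cast hT
  refine le_of_mul_le_mul_right ?_ (mul_pos kc0 (m0.trans hgm))
  calc Y.lam * (Y.kc * Y.gm) = Y.T := by rw [← e1, ← e2]; ring
    _ ≤ Θ₀ * ((Y.k + 1) * Y.m) := h1
    _ ≤ Θ₀ * ((3 * Y.kc) * Y.gm) := by gcongr; linarith
    _ = _ := by ring

theorem a0_n (Y : Cl) : 3 / 10 * (Y.lam * Y.gm) ≤ Y.n := by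
  obtain ⟨m0, kc0, hgm, l0, -⟩ := Y.pos
  obtain ⟨e1, e2, -⟩ := Y.eqs
  obtain ⟨k1, k2⟩ := Y.a0_k
  have h1 : (Y.T : ℝ) ≤ (2 * Y.k + 1) * Y.n + Y.m := by exact_mod_cast Y.T_le
  have h2 := mul_le_mul_of_nonneg_right l0 (m0.trans hgm).le
  have n0 : (0 : ℝ) ≤ Y.n := Nat.cast_nonneg _
  have h3 := mul_le_mul_of_nonneg_right k2 n0
  have h4 := mul_le_mul_of_nonneg_right k1 n0
  have h5 : Y.lam * Y.gm * Y.kc = Y.T := by rw [← e1, ← e2]; ring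
  refine le_of_mul_le_mul_right ?_ kc0
  linarith

theorem Gc_ge (Θ₀ : ℕ) (ζ : ℝ) (hζ : 0 < ζ) : ∃ κ : ℝ, 0 < κ ∧ ∃ k₀ : ℕ, ∀ Y : Cl,
    Y.T ≤ Θ₀ * ((Y.k + 1) * Y.m) → ζ ≤ Y.lam → k₀ ≤ Y.k → κ * (Y.kc * Y.m) ≤ Y.Gc := by
  obtain ⟨A, hA⟩ : ∃ A : ℕ, A = 12 * Θ₀ + 8 := ⟨_, rfl⟩
  have hA' : (A : ℝ) = 12 * Θ₀ + 8 := by rw [hA]; push_cast; ring
  have A0 : (0 : ℝ) < A := by rw [hA']; positivity
  refine ⟨min (ζ / 100) (9 / 100 * ζ ^ 2 / (100 * A ^ 3)), lt_min (by positivity) (by positivity),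
    ⌈70 * (A : ℝ) ^ 2 / ζ⌉₊, fun Y hT hl hk => ?_⟩
  obtain ⟨m0, kc0, hgm, -, lam0, -, -, -, -, -, -, G0⟩ := Y.pos
  obtain ⟨e1, e2, -⟩ := Y.eqs
  obtain ⟨k1, k2⟩ := Y.a0_k
  have gm0 : (0 : ℝ) < Y.gm := m0.trans hgm
  have hn : 3 / 10 * (ζ * Y.gm) ≤ Y.n := le_trans (by gcongr) Y.a0_n
  have hn' : ζ * Y.m ≤ ζ * Y.gm := by gcongr
  by_cases hc : Y.kc * Y.n ≤ 30 * Y.Gc
  · refine (mul_le_mul_of_nonneg_right (min_le_left _ _) (by positivity)).trans ?_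
    have := mul_le_mul_of_nonneg_left (show 3 / 10 * (ζ * Y.m) ≤ Y.n by linarith) kc0.le
    linarith
  refine (mul_le_mul_of_nonneg_right (min_le_right _ _) (by positivity)).trans ?_
  have hC : 0 < Y.C.card := Y.hC
  have hw := Y.hw
  have hg := Y.hgm
  obtain ⟨s, hs⟩ : ∃ s, s = 2 * Y.T / Y.C.card + 1 := ⟨_, rfl⟩
  obtain ⟨S, hS⟩ : ∃ S, S = (s + 2 * Y.gm) / Y.m + 1 := ⟨_, rfl⟩
  have s1 : 2 * Y.T ≤ Y.C.card * s := hs ▸ (Nat.lt_mul_div_succ _ hC).le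
  have s2 : s + 2 * Y.gm ≤ S * Y.m := by
    rw [hS, mul_comm _ Y.m]; exact (Nat.lt_mul_div_succ _ Y.hm).le
  have s3 : (s : ℝ) ≤ 2 * (Y.lam * Y.gm) + 1 := by
    rw [hs, Nat.cast_add, Nat.cast_one, add_le_add_iff_right]
    refine Nat.cast_div_le.trans ?_
    rw [div_le_iff₀ (by exact_mod_cast hC), Nat.cast_mul, ← e1, ← e2]
    exact le_of_eq (by rw [kc]; push_cast; ring)
  have s4 : 2 * S * Y.m ≤ A * Y.gm := by
    have h1 : S * Y.m ≤ s + 2 * Y.gm + Y.m := by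
      rw [hS, add_mul, one_mul]
      exact Nat.add_le_add_right (Nat.div_mul_le_self _ _) _
    have h2 : ((S * Y.m : ℕ) : ℝ) ≤ s + 2 * Y.gm + Y.m := by exact_mod_cast h1
    have h3 := mul_le_mul_of_nonneg_right (Y.a0_lam hT) gm0.le
    have h4 : (1 : ℝ) ≤ Y.m := by exact_mod_cast Y.hm
    have h5 : ((2 * S * Y.m : ℕ) : ℝ) ≤ (A * Y.gm : ℕ) := by
      push_cast at h2 ⊢
      rw [hA']
      linarith
    exact_mod_cast h5
  have s4' : 2 * (S : ℝ) * Y.m ≤ A * Y.gm := by exact_mod_cast s4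
  have h1 := Y.decay_iter Y.C_sub (card_pos.1 hC) (s := s) (S := S)
    (fun g hg' => by have := (Y.mem_C hg').2.2.1; omega) s1 2
  have h2 : (Y.GS Y.C : ℝ) / Y.C.card ≤ Y.n / 30 := by
    rw [div_le_div_iff₀ (by exact_mod_cast hC) (by norm_num)]
    have := (not_le.1 hc).le
    rw [Gc, kc] at this
    linarith
  have h3 : 10 * Y.II (2 * S) ≤ 3 * Y.n := by
    have : (10 : ℝ) * Y.II (2 * S) ≤ 3 * Y.n := by linarith
    exact_mod_cast this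
  have h4 : 70 * (A : ℝ) ^ 2 ≤ Y.k * ζ := by
    rw [← div_le_iff₀ hζ]
    exact (Nat.le_ceil _).trans (by exact_mod_cast hk)
  have h5 : 5 * (2 * A) * (2 * S) * Y.m ≤ Y.C.card * Y.n := by
    have a1 := mul_le_mul_of_nonneg_left s4' A0.le
    have a2 := mul_le_mul_of_nonneg_left hn kc0.le
    have a3 := mul_le_mul_of_nonneg_right h4 gm0.le
    have a4 := mul_le_mul_of_nonneg_right k2 (mul_pos hζ gm0).le
    have a5 : 0 ≤ Y.kc * (ζ * Y.gm) := by positivity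
    have : (5 : ℝ) * (2 * A) * (2 * S) * Y.m ≤ Y.kc * Y.n := by linarith
    rw [kc] at this
    exact_mod_cast this
  have h6 := Y.tlem Y.C (S := 2 * S) (Q := 2 * A) (fun j hj => by
    have h7 : Y.gm ≤ 2 * j := by have := (Y.mem_C hj).2.1; omega
    calc 2 * S * Y.m ≤ A * Y.gm := s4
      _ ≤ A * (2 * j) := Nat.mul_le_mul_left _ h7
      _ = _ := by ring) h3 h5
  have h7 : Y.kc * (Y.n : ℝ) ^ 2 ≤ 25 * (2 * A) ^ 2 * (2 * S) * Y.m * Y.Gc := by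
    rw [kc, Gc]; exact_mod_cast h6
  have h8 : 9 / 100 * ζ ^ 2 * (Y.kc * Y.m) * Y.gm ≤ 100 * A ^ 3 * Y.Gc * Y.gm :=
    calc 9 / 100 * ζ ^ 2 * (Y.kc * Y.m) * Y.gm
        = Y.kc * (3 / 10 * (ζ * Y.m) * (3 / 10 * (ζ * Y.gm))) := by ring
      _ ≤ Y.kc * (Y.n * Y.n) := by gcongr; linarith
      _ ≤ 100 * A ^ 2 * Y.Gc * (2 * S * Y.m) := by linarith
      _ ≤ 100 * A ^ 2 * Y.Gc * (A * Y.gm) := by gcongr
      _ = _ := by ring
  rw [div_mul_eq_mul_div, div_le_iff₀ (by positivity)]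
  linarith [le_of_mul_le_mul_right h8 gm0]

/-- The carries of one element. -/
theorem a0_pt (Y : Cl) {b : Multiset ℕ} (hb : b ∈ Y.D) :
    ∑ h ∈ Y.C, (b.count h : ℝ) * (h - Y.m * (((Y.res b + h) / Y.m : ℕ) : ℝ)) ≤
      Y.l * (Y.gm - Y.m * (((Y.res b + Y.gm) / Y.m : ℕ) : ℝ)) + Y.η b + wt (Y.G \ Y.C) b +
        4 * Y.l * Y.w + 2 * Y.l * Y.m * if (Y.η b + Y.gm) % Y.m < Y.w then 1 else 0 := by
  obtain ⟨m0, -, hgm, l0, -⟩ := Y.pos
  have hw := Y.hw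
  have hg := Y.hgm
  have hr : Y.res b < Y.m := Nat.mod_lt _ Y.hm
  have c1 := Y.ct_le subset_rfl hb
  have c0 : (0 : ℝ) ≤ ct Y.C b := Nat.cast_nonneg _
  have c2 : (ct Y.C b : ℝ) = ∑ h ∈ Y.C, (b.count h : ℝ) := Nat.cast_sum _ _
  have w0 : (0 : ℝ) ≤ Y.w := Nat.cast_nonneg _
  have d1 := div_step (Y.res b + Y.gm - Y.w) (z := Y.w) (m := Y.m) (by omega) Y.hm
  rw [Nat.sub_add_cancel (by omega), show (Y.res b + Y.gm) % Y.m = (Y.η b + Y.gm) % Y.m from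
    Nat.mod_add_mod _ _ _] at d1
  have q1 : Y.m * ((Y.res b + Y.gm) / Y.m) ≤ Y.m + Y.gm :=
    (Nat.mul_div_le _ _).trans (by omega)
  have q2 : Y.gm ≤ Y.m * ((Y.res b + Y.gm) / Y.m) + Y.m := by
    have := Nat.lt_mul_div_succ (Y.res b + Y.gm) Y.hm
    rw [mul_add] at this
    omega
  have d2 : ∀ h ∈ Y.C, (((Y.res b + Y.gm) / Y.m : ℕ) : ℝ) ≤ ((Y.res b + h) / Y.m : ℕ) +
      if (Y.η b + Y.gm) % Y.m < Y.w then 1 else 0 := fun h hh => by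
    have h1 : (Y.res b + Y.gm - Y.w) / Y.m ≤ (Y.res b + h) / Y.m :=
      Nat.div_le_div_right (by have := (Y.mem_C hh).2.1; omega)
    rw [d1]
    split_ifs <;> exact_mod_cast Nat.add_le_add_right h1 _
  generalize (Y.res b + Y.gm) / Y.m = q at q1 q2 d2 ⊢
  have i0 : (0 : ℝ) ≤ if (Y.η b + Y.gm) % Y.m < Y.w then 1 else 0 := by split_ifs <;> norm_num
  generalize (if (Y.η b + Y.gm) % Y.m < Y.w then (1 : ℝ) else 0) = ι at d2 i0 ⊢
  have p1 : |(Y.gm : ℝ) - Y.m * q| ≤ Y.gm := by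
    have a1 : (Y.m : ℝ) * q ≤ Y.m + Y.gm := by exact_mod_cast q1
    have a2 : (Y.gm : ℝ) ≤ Y.m * q + Y.m := by exact_mod_cast q2
    rw [abs_le]
    constructor <;> linarith
  have h1 : ∑ h ∈ Y.C, (b.count h : ℝ) * (h - Y.m * (((Y.res b + h) / Y.m : ℕ) : ℝ)) ≤
      ct Y.C b * (Y.gm - Y.m * q + Y.w + Y.m * ι) := by
    rw [c2, sum_mul]
    refine sum_le_sum fun h hh => mul_le_mul_of_nonneg_left ?_ (Nat.cast_nonneg _)
    have a1 := mul_le_mul_of_nonneg_left (d2 h hh) m0.le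
    have a2 := (abs_le.1 (Y.mem_C hh).2.2.2).2
    linarith
  have h2 : |∑ h ∈ Y.C, (b.count h : ℝ) * ((h : ℝ) - Y.gm)| ≤ ct Y.C b * Y.w := by
    rw [c2, sum_mul]
    refine (abs_sum_le_sum_abs _ _).trans (sum_le_sum fun h hh => ?_)
    rw [abs_mul, Nat.abs_cast]
    exact mul_le_mul_of_nonneg_left (Y.mem_C hh).2.2.2 (Nat.cast_nonneg _)
  have h3 := mul_le_mul_of_nonneg_right c1 w0
  have h4 := mul_le_mul_of_nonneg_right c1 (mul_nonneg m0.le i0)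
  have h5 : (ct Y.C b - Y.l) * (Y.gm - Y.m * q) ≤ Y.η b + wt (Y.G \ Y.C) b + 2 * Y.l * Y.w := by
    have a1 := Y.wt_eq hb
    have a2 := Y.eqs.1
    have a3 : (0 : ℝ) ≤ Y.η b := Nat.cast_nonneg _
    have a4 : (0 : ℝ) ≤ wt (Y.G \ Y.C) b := Nat.cast_nonneg _
    obtain ⟨a5, a6⟩ := abs_le.1 h2
    calc _ ≤ |ct Y.C b - Y.l| * |(Y.gm : ℝ) - Y.m * q| := (le_abs_self _).trans (abs_mul _ _).le
      _ ≤ |ct Y.C b - Y.l| * |(Y.gm : ℝ)| := by rw [Nat.abs_cast]; gcongr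
      _ ≤ _ := by
        rw [← abs_mul, abs_le]
        constructor <;> linarith
  linarith

theorem Gc_le (Y : Cl) :
    Y.Gc ≤ 6 * Y.l * Y.w + Y.n + Y.m + 3 * (Y.eB * Y.kc) * Y.n := by
  obtain ⟨m0, -, -, l0, -⟩ := Y.pos
  have eF := Y.eqs.2.2.2.1
  have h1 : ∑ g ∈ Y.G \ Y.C, (g : ℝ) * Y.AA g + ∑ g ∈ Y.C, (g : ℝ) * Y.AA g +
      ∑ a ∈ Y.D, (Y.η a : ℝ) = Y.m * Y.T := by
    rw [sum_sdiff Y.C_sub]
    exact_mod_cast Y.sum_AA
  have h2 : 2 * ∑ a ∈ Y.D, (Y.η a : ℝ) + Y.m = 2 * (Y.m * Y.n) + Y.m * Y.m := by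
    exact_mod_cast Y.sum_η
  have h3 : ((Y.k : ℝ) + 1) * Y.n + Y.m ≤ Y.T := by exact_mod_cast Y.hV.n_le
  have h4 : ∑ g ∈ Y.G \ Y.C, (g : ℝ) * Y.AA g ≤ Y.eB * Y.kc * (2 * (Y.m * Y.n)) := by
    rw [eF, ← nsmul_eq_mul]
    exact sum_le_card_nsmul _ _ _ fun g _ => by exact_mod_cast Y.AA_le g
  have h5 : ∑ b ∈ Y.D, (wt (Y.G \ Y.C) b : ℝ) = ∑ g ∈ Y.G \ Y.C, (g : ℝ) * Y.AA g := by
    simp only [wt, Ap.AA, Nat.cast_sum, Nat.cast_mul, mul_sum]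
    rw [sum_comm]
    exact sum_congr rfl fun g _ => sum_congr rfl fun b _ => mul_comm _ _
  have h6 : Y.m * Y.Gc + ∑ g ∈ Y.C, (g : ℝ) * Y.AA g = Y.kc * (Y.m * Y.n) +
      ∑ b ∈ Y.D, ∑ h ∈ Y.C,
        (b.count h : ℝ) * (h - Y.m * (((Y.res b + h) / Y.m : ℕ) : ℝ)) := by
    rw [sum_comm, Gc, Ap.GS, Nat.cast_sum, mul_sum, ← sum_add_distrib, kc, ← nsmul_eq_mul,
      ← sum_const, ← sum_add_distrib]
    refine sum_congr rfl fun h _ => ?_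
    rw [Y.n_eq h, Ap.AA, Nat.cast_add, Nat.cast_sum, Nat.cast_sum, mul_add, mul_sum, mul_sum,
      add_assoc, ← sum_add_distrib]
    refine congrArg _ (sum_congr rfl fun b _ => ?_)
    rw [Nat.cast_mul]
    ring
  have h7 := sum_le_sum fun b (hb : b ∈ Y.D) => Y.a0_pt hb
  have h8 : ∑ b ∈ Y.D, ((Y.gm : ℝ) - Y.m * (((Y.res b + Y.gm) / Y.m : ℕ) : ℝ)) = 0 := by
    rw [Y.sum_res fun r => (Y.gm : ℝ) - Y.m * (((r + Y.gm) / Y.m : ℕ) : ℝ), sum_sub_distrib,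
      sum_const, ← mul_sum, ← Nat.cast_sum, avg_range_div Y.hm, card_range, nsmul_eq_mul, sub_self]
  have h9 : ∑ b ∈ Y.D, (if (Y.η b + Y.gm) % Y.m < Y.w then (1 : ℝ) else 0) ≤ Y.w := by
    rw [sum_boole]
    exact_mod_cast Y.card_arc_le Y.gm Y.w
  rw [sum_add_distrib, sum_add_distrib, sum_add_distrib, sum_add_distrib, sum_const, ← mul_sum,
    ← mul_sum, h8, h5, Y.cardD, nsmul_eq_mul] at h7
  have a1 := mul_le_mul_of_nonneg_left h9 (show 0 ≤ 2 * Y.l * Y.m by positivity)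
  have a2 := mul_le_mul_of_nonneg_left h3 m0.le
  have a3 : (Y.k : ℝ) * (Y.m * Y.n) = (Y.kc + Y.eB * Y.kc) * (Y.m * Y.n) := by
    rw [Y.eqs.2.2.2.2.2.1]
  have a4 : (0 : ℝ) ≤ Y.m * Y.m := by positivity
  refine le_of_mul_le_mul_left ?_ m0
  linarith

theorem large (Θ₀ : ℕ) (ζ : ℝ) (hζ : 0 < ζ) : ∃ ζ' : ℝ, 0 < ζ' ∧ ∃ k₀ : ℕ, ∀ Y : Cl,
    Y.T ≤ Θ₀ * ((Y.k + 1) * Y.m) → ζ ≤ Y.lam → Y.Dw ≤ ζ' → Y.eB ≤ ζ' → k₀ ≤ Y.k →
    False := by
  obtain ⟨κ, hκ, k₀, h⟩ := Gc_ge Θ₀ ζ hζ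
  have t0 : (0 : ℝ) ≤ Θ₀ := Nat.cast_nonneg _
  refine ⟨κ / (42 * (Θ₀ + 1)), by positivity, max k₀ (⌈4 * ((Θ₀ : ℝ) + 1) / κ⌉₊ + 1),
    fun Y hT hl hD hB hk => ?_⟩
  have h1 := h Y hT hl (le_of_max_le_left hk)
  have h2 := Y.Gc_le
  obtain ⟨m0, kc0, -, l0, -, D0, -, B0, -⟩ := Y.pos
  obtain ⟨-, e2, e3, -⟩ := Y.eqs
  obtain ⟨k1, k2⟩ := Y.a0_k
  have h3 : (Y.n : ℝ) ≤ Θ₀ * Y.m := by
    have a1 : (Y.k + 1) * Y.n ≤ (Y.k + 1) * (Θ₀ * Y.m) := by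
      have := Y.hV.n_le
      rw [mul_left_comm] at hT
      omega
    exact_mod_cast Nat.le_of_mul_le_mul_left a1 (Nat.succ_pos _)
  have h4 : 4 * ((Θ₀ : ℝ) + 1) < Y.k * κ := by
    rw [← div_lt_iff₀ hκ]
    exact (Nat.le_ceil _).trans_lt (by exact_mod_cast le_of_max_le_right hk)
  generalize hz : κ / (42 * (Θ₀ + 1)) = z at hD hB
  have z1 : z * (42 * (Θ₀ + 1)) = κ := by rw [← hz]; field_simp
  have z0 : 0 ≤ z := B0.trans hB
  have a1 : 6 * Y.l * Y.w ≤ 6 * (3 * Θ₀ * Y.kc) * (z * Y.m) := by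
    rw [← e2, ← e3]
    have := Y.a0_lam hT
    gcongr
  have a2 : 3 * (Y.eB * Y.kc) * Y.n ≤ 3 * (z * Y.kc) * (Θ₀ * Y.m) := by gcongr
  have a3 : z * (42 * (Θ₀ + 1)) * (Y.kc * Y.m) = κ * (Y.kc * Y.m) := by rw [z1]
  have a4 : 0 ≤ z * (Y.kc * Y.m) := by positivity
  have a5 := mul_lt_mul_of_pos_right h4 m0
  have a6 := mul_le_mul_of_nonneg_right k2 (mul_pos hκ m0).le
  have a7 : 0 ≤ κ * (Y.kc * Y.m) := by positivity
  linarith

end Cl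

end Pool.Agent.Lib.MP_299528_co.Bd
end
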