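import Pool.Agent.Lib.MP_299528_co.AsyQ

/-! Slack in the inequality for one type when the classes are spread. -/

set_option autoImplicit false

namespace Pool.Agent.Lib.MP_299528_co

open Finset

theorem bq_th {A Γ₁ D : ℝ} (hA : 0 ≤ A) (hΓ : 0 ≤ Γ₁) (hD0 : 0 < D) (hD1 : D ≤ 1) :
    ∃ th : ℝ, D / (11 * (1 + A) ^ 2 * (Γ₁ + 1) ^ 2) = th ∧ 0 < th ∧ th ≤ 1 / 11 ∧
      11 * (th * ((1 + A) * (Γ₁ + 1)) ^ 2) = D ∧ 1 ≤ (1 + A) * (Γ₁ + 1) := by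
  have h1 : 1 ≤ (1 + A) * (Γ₁ + 1) := one_le_mul_of_one_le_of_one_le (by linarith) (by linarith)
  have h2 : 1 ≤ ((1 + A) * (Γ₁ + 1)) ^ 2 := one_le_pow₀ h1
  refine ⟨_, rfl, by positivity, ?_, by field_simp, h1⟩
  rw [div_le_iff₀ (by positivity)]
  rw [mul_pow] at h2
  linarith

theorem bq_ratio {a u P P' : ℝ} (ha : 0 ≤ a) (hP : a * u ≤ (1 + a) * P)
    (hQ : a * (1 - u) ≤ (1 + a) * P') :
    ∃ r, a = r * (1 + a) ∧ r * u ≤ P ∧ r * (1 - u) ≤ P' := by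
  have hA : 0 < 1 + a := by linarith
  obtain ⟨r, hr⟩ : ∃ r, a = r * (1 + a) := ⟨a / (1 + a), by field_simp⟩
  refine ⟨r, hr, le_of_mul_le_mul_left ?_ hA, le_of_mul_le_mul_left ?_ hA⟩
  · have : (1 + a) * (r * u) = a * u := by linear_combination (-u) * hr
    linarith
  · have : (1 + a) * (r * (1 - u)) = a * (1 - u) := by linear_combination (-(1 - u)) * hr
    linarith

/-- One of two separated classes has slack. -/
theorem slack_norm {a1 a2 g1 g2 u1 u2 v R1 R2 P P' n' A Γ₁ D : ℝ} (ha1 : 0 ≤ a1) (ha2 : 0 ≤ a2)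
    (hA1 : a1 ≤ A) (hA2 : a2 ≤ A) (hD0 : 0 < D) (hD1 : D ≤ 1) (hΓ : 0 ≤ Γ₁) (hg : g1 + D ≤ g2)
    (hu1 : 0 ≤ u1) (hu1' : u1 ≤ 1) (hu2 : 0 ≤ u2) (hu2' : u2 ≤ 1)
    (hR1 : R1 = g1 - v + u1) (hR2 : R2 = g2 - v + u2) (hR0 : 0 ≤ R1) (hRΓ : R1 ≤ Γ₁ + 1)
    (hP1 : a1 * u1 ≤ (1 + a1) * P) (hP2 : a2 * u2 ≤ (1 + a2) * P)
    (hQ1 : a1 * (1 - u1) ≤ (1 + a1) * P') (hQ2 : a2 * (1 - u2) ≤ (1 + a2) * P')
    (hn1 : a1 * (P + P' + R1 - 1) ≤ n') (hn2 : a2 * (P + P' + R2 - 1) ≤ n') :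
    a1 * R1 ≤ (1 - D / (11 * (1 + A) ^ 2 * (Γ₁ + 1) ^ 2)) * (n' + P + P') ∨
      a2 * R2 ≤ (1 - D / (11 * (1 + A) ^ 2 * (Γ₁ + 1) ^ 2)) * (n' + P + P') := by
  have hA : 0 ≤ A := ha1.trans hA1
  obtain ⟨th, e, t0, t1, t2, t3⟩ := bq_th hA hΓ hD0 hD1
  rw [e]
  obtain ⟨r1, hr1, p1, q1⟩ := bq_ratio ha1 hP1 hQ1
  obtain ⟨r2, hr2, p2, q2⟩ := bq_ratio ha2 hP2 hQ2
  by_contra hc
  push Not at hc
  obtain ⟨c1, c2⟩ := hc
  obtain ⟨n, hn⟩ : ∃ n, n = n' + P + P' := ⟨_, rfl⟩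
  rw [← hn] at c1 c2
  obtain ⟨τ, hτ⟩ : ∃ τ, τ = th * n := ⟨_, rfl⟩
  have s1 : (1 + a1) * (P + P' - r1) ≤ n - a1 * R1 := by linarith
  have s2 : (1 + a2) * (P + P' - r2) ≤ n - a2 * R2 := by linarith
  have b1 : 0 ≤ P + P' - r1 := by linarith
  have b2 : 0 ≤ P + P' - r2 := by linarith
  have m1 := mul_nonneg ha1 b1
  have m2 := mul_nonneg ha2 b2
  have d1 : P + P' - r1 < τ := by linarith
  have d2 : P + P' - r2 < τ := by linarith
  have hτ0 : 0 < τ := by linarith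
  have hn0 : 0 < n := by
    by_contra h
    push Not at h
    linarith [mul_nonneg t0.le (neg_nonneg.mpr h)]
  have k1 : a1 - a2 ≤ τ * (1 + A) ^ 2 := by
    have h1 : a1 - a2 = (r1 - r2) * ((1 + a1) * (1 + a2)) := by
      linear_combination (1 + a2) * hr1 - (1 + a1) * hr2
    have h2 : (1 + a1) * (1 + a2) ≤ (1 + A) * (1 + A) :=
      mul_le_mul (by linarith) (by linarith) (by linarith) (by linarith)
    have h3 : (r1 - r2) * ((1 + a1) * (1 + a2)) ≤ τ * ((1 + a1) * (1 + a2)) :=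
      mul_le_mul_of_nonneg_right (by linarith) (by positivity)
    linarith [mul_le_mul_of_nonneg_left h2 hτ0.le]
  have k2 : a2 * (u1 - u2) ≤ 2 * τ * (1 + A) := by
    have h1 : a2 * (u1 - u2) = (r2 * (u1 - u2)) * (1 + a2) := by
      linear_combination (u1 - u2) * hr2
    have h2 : (r2 - r1) * u1 ≤ τ := by
      have := mul_le_mul_of_nonneg_right (show r2 - r1 ≤ τ by linarith) hu1
      linarith [mul_le_mul_of_nonneg_left hu1' hτ0.le]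
    have h3 : r2 * (u1 - u2) ≤ 2 * τ := by linarith
    have h4 := mul_le_mul_of_nonneg_right h3 (by linarith : 0 ≤ 1 + a2)
    linarith [mul_le_mul_of_nonneg_left hA2 hτ0.le]
  have k3 : (a1 - a2) * R1 ≤ τ * (1 + A) ^ 2 * (Γ₁ + 1) :=
    (mul_le_mul_of_nonneg_right k1 hR0).trans (mul_le_mul_of_nonneg_left hRΓ (by positivity))
  have k4 : a2 * D ≤ a2 * (g2 - g1) := mul_le_mul_of_nonneg_left (by linarith) ha2
  have k5 : a2 * R2 - a1 * R1 = a2 * (g2 - g1) - a2 * (u1 - u2) - (a1 - a2) * R1 := by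
    rw [hR2, hR1]; ring
  have k6 : (a1 - a2) * D ≤ τ * (1 + A) ^ 2 :=
    (mul_le_mul_of_nonneg_right k1 hD0.le).trans (mul_le_of_le_one_right (by positivity) hD1)
  have w1 : τ * (1 + A) ^ 2 ≤ τ * (1 + A) ^ 2 * (Γ₁ + 1) :=
    le_mul_of_one_le_right (by positivity) (by linarith)
  have w2 : τ * (1 + A) ≤ τ * (1 + A) ^ 2 := by
    rw [pow_two, ← mul_assoc]
    exact le_mul_of_one_le_right (by positivity) (by linarith)
  have w3 : τ ≤ τ * (1 + A) := le_mul_of_one_le_right hτ0.le (by linarith)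
  have k7 : a1 * D ≤ 5 * (τ * (1 + A) ^ 2 * (Γ₁ + 1)) := by linarith
  have k8 := mul_le_mul_of_nonneg_right k7 (by linarith : 0 ≤ Γ₁ + 1)
  have k9 : (1 - th) * n * D ≤ a1 * (Γ₁ + 1) * D :=
    mul_le_mul_of_nonneg_right (c1.le.trans (mul_le_mul_of_nonneg_left hRΓ ha1)) hD0.le
  have k10 : 11 * (τ * (1 + A) ^ 2 * (Γ₁ + 1) * (Γ₁ + 1)) = n * D := by
    rw [hτ, ← t2]; ring
  have k11 := mul_le_mul_of_nonneg_right t1 (mul_pos hn0 hD0).le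
  linarith [mul_pos hn0 hD0]

/-- A light class or the heavy class has slack. -/
theorem slack_heavy {a u R P P' n' A Γ₁ D b : ℝ} (ha : 0 ≤ a) (hA : a ≤ A) (hD0 : 0 < D)
    (hD1 : D ≤ 1) (hΓ : 0 ≤ Γ₁) (hRΓ : R ≤ Γ₁ + 1) (hP : a * u ≤ (1 + a) * P)
    (hQ : a * (1 - u) ≤ (1 + a) * P') (hb0 : 0 ≤ b) (hb : b ≤ n') :
    a * R ≤ (1 - D / (11 * (1 + A) ^ 2 * (Γ₁ + 1) ^ 2)) * (n' + P + P') ∨
      b ≤ (1 - D / (11 * (1 + A) ^ 2 * (Γ₁ + 1) ^ 2)) * (n' + P + P') := by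
  have hA0 : 0 ≤ A := ha.trans hA
  obtain ⟨th, e, t0, t1, t2, t3⟩ := bq_th hA0 hΓ hD0 hD1
  rw [e]
  by_contra hc
  push Not at hc
  obtain ⟨c1, c2⟩ := hc
  obtain ⟨n, hn⟩ : ∃ n, n = n' + P + P' := ⟨_, rfl⟩
  rw [← hn] at c1 c2
  have s0 : 0 ≤ P + P' := le_of_mul_le_mul_left (by linarith) (by linarith : 0 < 1 + a)
  have s1 : P + P' < th * n := by linarith
  have hn0 : 0 < n := by
    by_contra h
    push Not at h
    linarith [mul_nonneg t0.le (neg_nonneg.mpr h)]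
  have s2 : a ≤ (1 + A) * (th * n) := by
    have h1 := mul_le_mul_of_nonneg_right hA s0
    have h2 := mul_le_mul_of_nonneg_left s1.le (by linarith : 0 ≤ 1 + A)
    linarith
  have s3 := (mul_le_mul_of_nonneg_left hRΓ ha).trans
    (mul_le_mul_of_nonneg_right s2 (by linarith : 0 ≤ Γ₁ + 1))
  have s4 : th * n * ((1 + A) * (Γ₁ + 1)) ≤ th * n * ((1 + A) * (Γ₁ + 1)) ^ 2 := by
    rw [pow_two, ← mul_assoc (th * n) ((1 + A) * (Γ₁ + 1))]
    exact le_mul_of_one_le_right (by positivity) t3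
  have s5 : 11 * (th * n * ((1 + A) * (Γ₁ + 1)) ^ 2) = n * D := by rw [← t2]; ring
  have s6 := mul_le_mul_of_nonneg_left hD1 hn0.le
  have s7 := mul_le_mul_of_nonneg_right t1 hn0.le
  linarith

theorem bq_norm_hom {a1 a2 g1 g2 U1 U2 V R1 R2 P P' n' p A Γ₁ D : ℝ} (hp : 0 < p) (ha1 : 0 ≤ a1)
    (ha2 : 0 ≤ a2) (hA1 : a1 ≤ A) (hA2 : a2 ≤ A) (hD0 : 0 < D) (hD1 : D ≤ 1) (hΓ : 0 ≤ Γ₁)
    (hg : g1 + D ≤ g2) (hu1 : 0 ≤ U1) (hu1' : U1 ≤ p) (hu2 : 0 ≤ U2) (hu2' : U2 ≤ p)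
    (hR1 : R1 = g1 * p - V + U1) (hR2 : R2 = g2 * p - V + U2) (hR0 : 0 ≤ R1)
    (hRΓ : R1 ≤ p * (Γ₁ + 1))
    (hP1 : a1 * U1 ≤ (1 + a1) * P) (hP2 : a2 * U2 ≤ (1 + a2) * P)
    (hQ1 : a1 * (p - U1) ≤ (1 + a1) * P') (hQ2 : a2 * (p - U2) ≤ (1 + a2) * P')
    (hn1 : a1 * (P + P' + R1 - p) ≤ n') (hn2 : a2 * (P + P' + R2 - p) ≤ n') :
    a1 * R1 ≤ (1 - D / (11 * (1 + A) ^ 2 * (Γ₁ + 1) ^ 2)) * (n' + P + P') ∨
      a2 * R2 ≤ (1 - D / (11 * (1 + A) ^ 2 * (Γ₁ + 1) ^ 2)) * (n' + P + P') := by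
  obtain ⟨u1, rfl⟩ := exists_scale hp U1
  obtain ⟨u2, rfl⟩ := exists_scale hp U2
  obtain ⟨v, rfl⟩ := exists_scale hp V
  obtain ⟨r1, rfl⟩ := exists_scale hp R1
  obtain ⟨r2, rfl⟩ := exists_scale hp R2
  obtain ⟨P, rfl⟩ := exists_scale hp P
  obtain ⟨P', rfl⟩ := exists_scale hp P'
  obtain ⟨n', rfl⟩ := exists_scale hp n'
  have c : ∀ {x y : ℝ}, p * x ≤ p * y → x ≤ y := fun h => le_of_mul_le_mul_left h hp
  have key := slack_norm (a1 := a1) (a2 := a2) (g1 := g1) (g2 := g2) (u1 := u1) (u2 := u2)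
    (v := v) (R1 := r1) (R2 := r2) (P := P) (P' := P') (n' := n') ha1 ha2 hA1 hA2 hD0 hD1 hΓ hg
    (c (by linarith)) (c (by linarith)) (c (by linarith)) (c (by linarith))
    (mul_left_cancel₀ hp.ne' (by linarith)) (mul_left_cancel₀ hp.ne' (by linarith))
    (c (by linarith)) (c hRΓ) (c (by linarith)) (c (by linarith)) (c (by linarith))
    (c (by linarith)) (c (by linarith)) (c (by linarith))
  generalize D / (11 * (1 + A) ^ 2 * (Γ₁ + 1) ^ 2) = th at key ⊢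
  exact key.imp (fun h => by linarith [mul_le_mul_of_nonneg_left h hp.le])
    fun h => by linarith [mul_le_mul_of_nonneg_left h hp.le]

theorem bq_heavy_hom {a U R P P' n' p A Γ₁ D B : ℝ} (hp : 0 < p) (ha : 0 ≤ a) (hA : a ≤ A)
    (hD0 : 0 < D) (hD1 : D ≤ 1) (hΓ : 0 ≤ Γ₁) (hRΓ : R ≤ p * (Γ₁ + 1))
    (hP : a * U ≤ (1 + a) * P) (hQ : a * (p - U) ≤ (1 + a) * P') (hb0 : 0 ≤ B) (hb : B ≤ n') :
    a * R ≤ (1 - D / (11 * (1 + A) ^ 2 * (Γ₁ + 1) ^ 2)) * (n' + P + P') ∨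
      B ≤ (1 - D / (11 * (1 + A) ^ 2 * (Γ₁ + 1) ^ 2)) * (n' + P + P') := by
  obtain ⟨u, rfl⟩ := exists_scale hp U
  obtain ⟨r, rfl⟩ := exists_scale hp R
  obtain ⟨P, rfl⟩ := exists_scale hp P
  obtain ⟨P', rfl⟩ := exists_scale hp P'
  obtain ⟨n', rfl⟩ := exists_scale hp n'
  obtain ⟨b, rfl⟩ := exists_scale hp B
  have c : ∀ {x y : ℝ}, p * x ≤ p * y → x ≤ y := fun h => le_of_mul_le_mul_left h hp
  have key := slack_heavy (a := a) (u := u) (R := r) (P := P) (P' := P') (n' := n') (b := b)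
    ha hA hD0 hD1 hΓ (c hRΓ) (c (by linarith)) (c (by linarith)) (c (by linarith)) (c hb)
  generalize D / (11 * (1 + A) ^ 2 * (Γ₁ + 1) ^ 2) = th at key ⊢
  exact key.imp (fun h => by linarith [mul_le_mul_of_nonneg_left h hp.le])
    fun h => by linarith [mul_le_mul_of_nonneg_left h hp.le]

/-- All pairs put together, with a gain. -/
theorem bq_end (J CC : Finset ℕ) (hCC : CC ⊆ J) (x y E μ : ℕ → ℝ) {p n C B μh G1 G2 : ℝ}
    (hp : 0 < p) (hC0 : 0 ≤ C) (hE : ∀ j ∈ J, 0 ≤ E j) (hμ : ∀ j ∈ J, 0 ≤ μ j) (hμh : 0 ≤ μh)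
    (hsum : ∑ j ∈ J, μ j + μh = 1)
    (pair : ∀ i ∈ J, ∀ j ∈ J, x i * y j + x j * y i ≤ 2 * n + 2 * C * (E i + E j))
    (pc : ∀ i ∈ CC, ∀ j ∈ CC, x i * y j + x j * y i ≤ 2 * n - G1)
    (ph : ∀ j ∈ J, x j * p * p + B * y j ≤ p * (2 * n + 2 * C * E j)) (s3 : B ≤ n - G2) :
    (p * ∑ j ∈ J, μ j * x j + μh * B) * (∑ j ∈ J, μ j * y j + μh * p) ≤
      p * (n + 2 * C * ∑ j ∈ J, μ j * E j - ((∑ j ∈ CC, μ j) ^ 2 * G1 / 2 + μh ^ 2 * G2)) := by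
  have hW : ∑ j ∈ CC, μ j = ∑ j ∈ J, if j ∈ CC then μ j else 0 := by
    rw [← sum_filter, filter_mem_eq_inter, inter_eq_right.mpr hCC]
  rw [hW]
  set M := ∑ j ∈ J, μ j with hM
  set X := ∑ j ∈ J, μ j * x j with hX
  set Y := ∑ j ∈ J, μ j * y j with hY
  set Z := ∑ j ∈ J, μ j * E j with hZ
  set W := ∑ j ∈ J, if j ∈ CC then μ j else 0 with hW'
  have hZ0 : 0 ≤ Z := sum_nonneg (fun j hj => mul_nonneg (hμ j hj) (hE j hj))
  have s1 : 2 * (X * Y) ≤ 2 * n * (M * M) + 4 * C * (M * Z) - G1 * (W * W) := by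
    have e1 : 2 * (X * Y) = ∑ i ∈ J, ∑ j ∈ J, μ i * μ j * (x i * y j + x j * y i) := by
      rw [two_mul]
      conv_lhs => rw [hX, hY, sum_mul_sum]; enter [2]; rw [sum_comm]
      rw [← sum_add_distrib]
      refine sum_congr rfl (fun i _ => ?_)
      rw [← sum_add_distrib]
      refine sum_congr rfl (fun j _ => ?_)
      ring
    have e2 : 2 * n * (M * M) + 4 * C * (M * Z) - G1 * (W * W) = ∑ i ∈ J, ∑ j ∈ J,
        (μ i * μ j * (2 * n + 2 * C * (E i + E j)) -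
          G1 * ((if i ∈ CC then μ i else 0) * if j ∈ CC then μ j else 0)) := by
      have e3 : 2 * n * (M * M) + 4 * C * (M * Z) =
          (2 * n) * (M * M) + (2 * C) * (Z * M) + (2 * C) * (M * Z) := by ring
      rw [e3, hM, hZ, hW', sum_mul_sum, sum_mul_sum, sum_mul_sum, sum_mul_sum, mul_sum, mul_sum,
        mul_sum, mul_sum, ← sum_add_distrib, ← sum_add_distrib, ← sum_sub_distrib]
      refine sum_congr rfl (fun i _ => ?_)
      rw [mul_sum, mul_sum, mul_sum, mul_sum, ← sum_add_distrib, ← sum_add_distrib,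
        ← sum_sub_distrib]
      refine sum_congr rfl (fun j _ => ?_)
      ring
    rw [e1, e2]
    refine sum_le_sum (fun i hi => sum_le_sum (fun j hj => ?_))
    have h0 := mul_nonneg (hμ i hi) (hμ j hj)
    have h1 := mul_le_mul_of_nonneg_left (pair i hi j hj) h0
    by_cases hi' : i ∈ CC
    · by_cases hj' : j ∈ CC
      · rw [if_pos hi', if_pos hj']
        have h2 := mul_le_mul_of_nonneg_left (pc i hi' j hj') h0
        have h3 := mul_nonneg h0 (mul_nonneg hC0 (add_nonneg (hE i hi) (hE j hj)))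
        linarith
      · rw [if_neg hj', mul_zero, mul_zero, sub_zero]; exact h1
    · rw [if_neg hi', zero_mul, mul_zero, sub_zero]; exact h1
  have s2 : X * p * p + B * Y ≤ p * (2 * n * M + 2 * C * Z) := by
    have e1 : X * p * p + B * Y = ∑ j ∈ J, μ j * (x j * p * p + B * y j) := by
      rw [hX, hY, sum_mul, sum_mul, mul_sum, ← sum_add_distrib]
      refine sum_congr rfl (fun j _ => ?_)
      ring
    have e2 : p * (2 * n * M + 2 * C * Z) = ∑ j ∈ J, μ j * (p * (2 * n + 2 * C * E j)) := by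
      rw [hM, hZ, mul_sum, mul_sum, ← sum_add_distrib, mul_sum]
      refine sum_congr rfl (fun j _ => ?_)
      ring
    rw [e1, e2]
    exact sum_le_sum (fun j hj => mul_le_mul_of_nonneg_left (ph j hj) (hμ j hj))
  have hM1 : M = 1 - μh := by linarith
  have t1 := mul_le_mul_of_nonneg_left s1 hp.le
  have t2 := mul_le_mul_of_nonneg_left s2 hμh
  have t3 := mul_le_mul_of_nonneg_left s3 (mul_nonneg (mul_nonneg hμh hμh) hp.le)
  have t4 : 0 ≤ p * C * Z * μh := by positivity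
  rw [hM1] at t1 t2
  linarith

theorem bq_markov (J : Finset ℕ) (E μ : ℕ → ℝ) {η : ℝ} (hη : 0 < η) (hE : ∀ j ∈ J, 0 ≤ E j)
    (hμ : ∀ j ∈ J, 0 ≤ μ j) :
    ∑ j ∈ J.filter (fun j => ¬ E j ≤ 4 * (∑ j ∈ J, μ j * E j) / η), μ j ≤ η / 4 := by
  have h0 : ∀ j ∈ J, 0 ≤ μ j * E j := fun j hj => mul_nonneg (hμ j hj) (hE j hj)
  rcases (sum_nonneg h0).eq_or_lt with hZ | hZ
  · refine (sum_eq_zero fun j hj => ?_).trans_le (by positivity)
    obtain ⟨h1, h2⟩ := mem_filter.mp hj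
    rw [← hZ, mul_zero, zero_div, not_le] at h2
    exact (mul_eq_zero.mp ((sum_eq_zero_iff_of_nonneg h0).mp hZ.symm j h1)).resolve_right h2.ne'
  · set Z := ∑ j ∈ J, μ j * E j with hZ'
    have h1 : (∑ j ∈ J.filter (fun j => ¬ E j ≤ 4 * Z / η), μ j) * (4 * Z / η) ≤ Z := by
      rw [sum_mul]
      refine (sum_le_sum fun j hj => ?_).trans
        (sum_le_sum_of_subset_of_nonneg (filter_subset _ J) fun j hj _ => h0 j hj)
      obtain ⟨h1, h2⟩ := mem_filter.mp hj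
      exact mul_le_mul_of_nonneg_left (not_le.mp h2).le (hμ j h1)
    rw [← mul_div_assoc, div_le_iff₀ hη] at h1
    refine le_of_mul_le_mul_right ?_ hZ
    linarith

theorem bq_mass {J S Lo : Finset ℕ} {μ : ℕ → ℝ} {q : ℕ → Prop} [DecidablePred q]
    (hμ : ∀ j ∈ J, 0 ≤ μ j) (hL : Lo ⊆ J) (hS : S ⊆ J) (h : ∀ j ∈ Lo, q j → j ∈ S) :
    ∑ j ∈ Lo, μ j ≤ ∑ j ∈ S, μ j + ∑ j ∈ J.filter (fun j => ¬ q j), μ j := by
  rw [← sum_filter_add_sum_filter_not Lo q]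
  exact add_le_add (sum_le_sum_of_subset_of_nonneg
    (fun j hj => h j (mem_filter.mp hj).1 (mem_filter.mp hj).2) fun j hj _ => hμ j (hS hj))
    (sum_le_sum_of_subset_of_nonneg (filter_subset_filter _ hL)
      fun j hj _ => hμ j (mem_filter.mp hj).1)

theorem bq_cell {x1 x2 y1 y2 p th N : ℝ} (hp : 0 < p) (t0 : 0 < th) (hN : 0 ≤ N) (h1 : 0 ≤ x1)
    (h2 : 0 ≤ x2) (k1 : p ≤ 2 * y1) (k2 : p ≤ 2 * y2) (e1 : x1 * y1 ≤ (1 - th) * N)
    (e2 : x2 * y2 ≤ (1 - th) * N) (hc : ⌊y1 / (p * th / 2)⌋₊ = ⌊y2 / (p * th / 2)⌋₊) :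
    x1 * y2 + x2 * y1 ≤ (2 - th) * N := by
  have hw : 0 < p * th / 2 := by positivity
  have one : ∀ {y y' : ℝ}, p ≤ 2 * y' → ⌊y / (p * th / 2)⌋₊ = ⌊y' / (p * th / 2)⌋₊ →
      y - y' ≤ p * th / 2 := fun {y y'} k h => by
    have a1 := Nat.lt_floor_add_one (y / (p * th / 2))
    have a2 := Nat.floor_le (div_nonneg (by linarith : 0 ≤ y') hw.le)
    rw [h, div_lt_iff₀ hw] at a1
    rw [le_div_iff₀ hw] at a2
    linarith
  have d1 := one k2 hc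
  have d2 := one k1 hc.symm
  have hτ := mul_nonneg t0.le hN
  have b1 : x1 * p ≤ 2 * N := by linarith [mul_le_mul_of_nonneg_left k1 h1]
  have b2 : x2 * p ≤ 2 * N := by linarith [mul_le_mul_of_nonneg_left k2 h2]
  have c1 := mul_le_mul_of_nonneg_right b1 t0.le
  have c2 := mul_le_mul_of_nonneg_right b2 t0.le
  rcases le_total y1 y2 with h | h
  · linarith [mul_le_mul_of_nonneg_left d2 h1, mul_le_mul_of_nonneg_left h h2]
  · linarith [mul_le_mul_of_nonneg_left d1 h2, mul_le_mul_of_nonneg_left h h1]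

/-- The inequality for one type, with slack. -/
theorem type_ineq_slack (A₀ Γ₁ D η : ℝ) (hA₀ : 0 ≤ A₀) (hΓ₁ : 0 ≤ Γ₁) (hD0 : 0 < D) (hD1 : D ≤ 1)
    (hη : 0 < η) : ∃ ϑ : ℝ, 0 < ϑ ∧ ϑ ≤ 1 / 2 ∧
    ∀ (J Lo Hi : Finset ℕ) (a g U R E μ : ℕ → ℝ) (V P P' n' p A Γ B μh : ℝ), 0 < p → 0 ≤ A →
      A ≤ A₀ → 0 ≤ Γ → (∀ j ∈ J, 0 ≤ a j ∧ a j ≤ A) → (∀ j ∈ J, 1 ≤ g j) →
      (∀ j ∈ J, 0 ≤ U j ∧ U j ≤ p) → 0 ≤ V → V ≤ p →
      (∀ j ∈ J, R j = g j * p - V + U j) → (∀ j ∈ J, p ≤ R j) →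
      (∀ i ∈ J, ∀ j ∈ J, g i ≤ g j → R i ≤ R j) → 0 ≤ P → 0 ≤ P' → (∀ j ∈ J, 0 ≤ E j) →
      (∀ j ∈ J, a j * (U j - E j) ≤ (1 + a j) * P) →
      (∀ j ∈ J, a j * (p - U j - E j) ≤ (1 + a j) * P') → P ≤ V → P' ≤ p - V →
      (∀ j ∈ J, a j * (P + P' + R j - p - (Γ + 1) * E j) ≤ n') → 0 ≤ B → B ≤ n' →
      (∀ j ∈ J, 0 ≤ μ j) → 0 ≤ μh → ∑ j ∈ J, μ j + μh = 1 →
      Lo ⊆ J → Hi ⊆ J → (∀ i ∈ Lo, g i ≤ Γ₁) → (∀ i ∈ Lo, ∀ j ∈ Hi, g i + D ≤ g j) →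
      η ≤ ∑ j ∈ Lo, μ j → η ≤ ∑ j ∈ Hi, μ j + μh →
      (p * ∑ j ∈ J, μ j * (g j * a j) + μh * B) * (∑ j ∈ J, μ j * (R j / g j) + μh * p) ≤
        p * ((1 - ϑ) * (n' + P + P') +
          2 * A * (Γ + 6) * (1 + 2 / η) * ∑ j ∈ J, μ j * E j) := by
  obtain ⟨th, e, t0, t1, -, -⟩ := bq_th hA₀ hΓ₁ hD0 hD1
  obtain ⟨Nc, hNc⟩ : ∃ Nc : ℕ, Nc = ⌊4 / th⌋₊ + 1 := ⟨_, rfl⟩
  have hN1 : (1 : ℝ) ≤ Nc := by exact_mod_cast (by omega : 1 ≤ Nc)
  obtain ⟨κ, hκ⟩ : ∃ κ : ℝ, κ = min 1 (η / (4 * Nc)) := ⟨_, rfl⟩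
  have κ0 : 0 < κ := hκ ▸ lt_min one_pos (by positivity)
  have κ1 : κ ≤ 1 := hκ ▸ min_le_left _ _
  have κ2 : Nc * κ ≤ η / 4 := by
    have : κ ≤ η / (4 * Nc) := hκ ▸ min_le_right _ _
    rw [le_div_iff₀ (by positivity)] at this
    linarith
  have κ3 : κ ≤ η / 4 := (le_mul_of_one_le_left κ0.le hN1).trans κ2
  refine ⟨th / 2 * κ ^ 2, by positivity, ?_, ?_⟩
  · linarith [mul_le_mul_of_nonneg_left (pow_le_one₀ (n := 2) κ0.le κ1) t0.le]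
  intro J Lo Hi a g U R E μ V P P' n' p A Γ B μh hp hA hAA hΓ ha hg hU hv0 hv1 hR hR0 hRm hP0 hQ0
    hE hP hQ hPv hQv hn hB0 hB hμ hμh hsum hLo hHi hgl hgap hml hmh
  obtain ⟨n, hn0⟩ : ∃ n, n = n' + P + P' := ⟨_, rfl⟩
  obtain ⟨C, hC⟩ : ∃ C, C = A * (Γ + 6) := ⟨_, rfl⟩
  have hC0 : 0 ≤ C := by rw [hC]; positivity
  have hn1 : 0 ≤ n := by linarith
  have pair : ∀ i ∈ J, ∀ j ∈ J, g i * a i * (R j / g j) + g j * a j * (R i / g i) ≤
      2 * n + 2 * C * (E i + E j) := by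
    have one : ∀ i ∈ J, ∀ j ∈ J, g i ≤ g j → g i * a i * (R j / g j) + g j * a j * (R i / g i) ≤
        2 * n + 2 * C * (E i + E j) := by
      intro i hi j hj hij
      have e1 := mul_nonneg (ha i hi).1 (hE j hj)
      have e2 := mul_nonneg (ha j hj).1 (hE i hi)
      have e3 := mul_nonneg e1 (by linarith : 0 ≤ Γ + 1)
      have e4 := mul_nonneg e2 (by linarith : 0 ≤ Γ + 1)
      have := Q_hom (E := E i + E j) (P := P) (P' := P') (n' := n') hp (ha i hi).1 (ha j hj).1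
        (ha i hi).2 (ha j hj).2 hΓ (hg i hi) hij
        (hU i hi).1 (hU i hi).2 (hU j hj).1 (hU j hj).2 hv0 hv1 (hR i hi) (hR j hj) (hR0 i hi)
        (hRm i hi j hj hij) hP0 (add_nonneg (hE i hi) (hE j hj)) (by linarith [hP i hi])
        (by linarith [hP j hj]) (by linarith [hQ i hi]) (by linarith [hQ j hj]) hPv hQv
        (by linarith [hn i hi]) (by linarith [hn j hj])
      rw [hC, hn0]
      linarith
    intro i hi j hj
    rcases le_total (g i) (g j) with h | h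
    · exact one i hi j hj h
    · linarith [one j hj i hi h]
  have ph : ∀ j ∈ J, g j * a j * p * p + B * (R j / g j) ≤ p * (2 * n + 2 * C * E j) := by
    intro j hj
    have := Qh_hom (P := P) (P' := P') (n' := n') hp (ha j hj).1 (ha j hj).2 hΓ (hg j hj)
      (hU j hj).1 (hU j hj).2 hv0 (hR j hj) (hE j hj) (hP j hj) (hQ j hj) hPv hQv (hn j hj) hB0 hB
    rw [hC, hn0]
    linarith
  have hend := fun (CC : Finset ℕ) (hCC : CC ⊆ J) (G1 G2 : ℝ) =>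
    bq_end J CC hCC (fun j => g j * a j) (fun j => R j / g j) E μ (G1 := G1) (G2 := G2) (B := B)
      hp hC0 hE hμ hμh hsum pair
  have hmk := bq_markov J E μ hη hE hμ
  have hZ0 : 0 ≤ ∑ j ∈ J, μ j * E j := sum_nonneg (fun j hj => mul_nonneg (hμ j hj) (hE j hj))
  have hM0 : 0 ≤ ∑ j ∈ J, μ j := sum_nonneg hμ
  rw [← hn0]
  have eZ : 2 * A * (Γ + 6) * (1 + 2 / η) * ∑ j ∈ J, μ j * E j =
      2 * C * ∑ j ∈ J, μ j * E j + C * (4 * (∑ j ∈ J, μ j * E j) / η) := by rw [hC]; ring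
  rw [eZ]
  have hF0 : 0 ≤ 4 * (∑ j ∈ J, μ j * E j) / η := by positivity
  generalize 4 * (∑ j ∈ J, μ j * E j) / η = F at hmk hF0 ⊢
  obtain ⟨t, ht0, ht1, htA, ht⟩ := exists_cap hA
  have htF : 0 ≤ t * F := by positivity
  have htF1 : t * F ≤ F := by linarith [mul_le_mul_of_nonneg_right ht1 hF0]
  have htFA : t * F ≤ A * F := mul_le_mul_of_nonneg_right htA hF0
  have hAF : 0 ≤ A * F := by positivity
  have hAG : 0 ≤ A * ((Γ + 3) * F) := by positivity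
  obtain ⟨N, hN⟩ : ∃ N, N = n' + A * ((Γ + 3) * F) + (P + t * F) + (P' + t * F) := ⟨_, rfl⟩
  have hN0 : 0 ≤ N := by linarith
  have hNle : N ≤ n + C * F := by rw [hC]; linarith
  have hCF : 0 ≤ C * F := by positivity
  have gd : ∀ j ∈ J, E j ≤ F → a j * U j ≤ (1 + a j) * (P + t * F) ∧
      a j * (p - U j) ≤ (1 + a j) * (P' + t * F) ∧
      a j * (P + t * F + (P' + t * F) + R j - p) ≤ n' + A * ((Γ + 3) * F) := fun j hj h => by
    have k0 := mul_le_mul_of_nonneg_left h (ha j hj).1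
    have k1 := mul_le_mul_of_nonneg_right (ht _ (ha j hj).2) hF0
    have k2 := mul_le_mul_of_nonneg_left k0 (by linarith : 0 ≤ Γ + 1)
    have k3 := mul_le_mul_of_nonneg_right (ha j hj).2
      (by positivity : 0 ≤ (Γ + 1) * F + 2 * (t * F))
    have k4 := mul_le_mul_of_nonneg_left htF1 hA
    exact ⟨by linarith [hP j hj], by linarith [hQ j hj], by linarith [hn j hj]⟩
  have hRl : ∀ i ∈ Lo, R i ≤ p * (Γ₁ + 1) := fun i hi => by
    have := mul_le_mul_of_nonneg_right (hgl i hi) hp.le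
    linarith [hR i (hLo hi), (hU i (hLo hi)).2]
  obtain ⟨S, hS⟩ : ∃ S, S = J.filter fun j => a j * R j ≤ (1 - th) * N := ⟨_, rfl⟩
  have hSJ : S ⊆ J := hS ▸ filter_subset _ _
  have alt : η / 4 ≤ ∑ j ∈ S, μ j ∨ (η / 2 ≤ μh ∧ B ≤ (1 - th) * N) := by
    by_cases h : ∀ i ∈ Lo, E i ≤ F → i ∈ S
    · exact Or.inl (by linarith [bq_mass hμ hLo hSJ h])
    push Not at h
    obtain ⟨i, hi, hiF, hiS⟩ := h
    have hiJ := hLo hi
    have hi' : ¬ a i * R i ≤ (1 - th) * N := fun h => hiS (hS ▸ mem_filter.mpr ⟨hiJ, h⟩)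
    obtain ⟨g1, g2, g3⟩ := gd i hiJ hiF
    have h1 := bq_heavy_hom (n' := n' + A * ((Γ + 3) * F)) hp (ha i hiJ).1
      ((ha i hiJ).2.trans hAA) hD0 hD1 hΓ₁ (hRl i hi) g1 g2 hB0 (by linarith)
    rw [e, ← hN] at h1
    have h2 : ∀ j ∈ Hi, E j ≤ F → j ∈ S := fun j hj hjF => by
      have hjJ := hHi hj
      obtain ⟨f1, f2, f3⟩ := gd j hjJ hjF
      have h3 := bq_norm_hom hp (ha i hiJ).1 (ha j hjJ).1 ((ha i hiJ).2.trans hAA)
        ((ha j hjJ).2.trans hAA) hD0 hD1 hΓ₁ (hgap i hi j hj) (hU i hiJ).1 (hU i hiJ).2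
        (hU j hjJ).1 (hU j hjJ).2 (hR i hiJ) (hR j hjJ) (hp.le.trans (hR0 i hiJ)) (hRl i hi)
        g1 f1 g2 f2 g3 f3
      rw [e, ← hN] at h3
      exact hS ▸ mem_filter.mpr ⟨hjJ, h3.resolve_left hi'⟩
    have h4 := bq_mass hμ hHi hSJ h2
    by_cases h5 : η / 2 ≤ μh
    · exact Or.inr ⟨h5, h1.resolve_left hi'⟩
    · exact Or.inl (by linarith [not_le.mp h5])
  have hth := mul_nonneg t0.le hn1
  rcases alt with h | ⟨h1, h2⟩
  · have hy : ∀ j ∈ J, p ≤ 2 * (R j / g j) ∧ R j / g j ≤ 2 * p := fun j hj => by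
      have h0 : 0 < g j := by linarith [hg j hj]
      have h1 := mul_le_mul_of_nonneg_right (hg j hj) hp.le
      rw [← mul_div_assoc, le_div_iff₀ h0, div_le_iff₀ h0]
      constructor <;> linarith [hR j hj, hR0 j hj, (hU j hj).1, (hU j hj).2]
    obtain ⟨c, -, hc⟩ := exists_le_sum_fiber_of_maps_to_of_nsmul_le_sum (s := S) (t := range Nc)
      (f := fun j => ⌊R j / g j / (p * th / 2)⌋₊) (w := μ) (b := κ) (fun j hj => by
        rw [mem_range, hNc, Nat.lt_succ_iff]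
        refine Nat.floor_le_floor ?_
        rw [div_le_div_iff₀ (by positivity) t0]
        linarith [mul_le_mul_of_nonneg_right (hy j (hSJ hj)).2 t0.le])
      ⟨0, mem_range.mpr (by omega)⟩ (by rw [card_range, nsmul_eq_mul]; linarith)
    have hCJ := (filter_subset (fun j => ⌊R j / g j / (p * th / 2)⌋₊ = c) S).trans hSJ
    have key := hend _ hCJ (th * n - 2 * (C * F)) 0 (fun i hi j hj => by
      obtain ⟨i1, i2⟩ := mem_filter.mp hi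
      obtain ⟨j1, j2⟩ := mem_filter.mp hj
      have one : ∀ j ∈ S, 0 ≤ g j * a j ∧ g j * a j * (R j / g j) ≤ (1 - th) * N := fun j hj => by
        obtain ⟨k1, k2⟩ := mem_filter.mp (hS ▸ hj)
        have h0 : 0 < g j := by linarith [hg j k1]
        refine ⟨mul_nonneg h0.le (ha j k1).1, le_of_eq_of_le ?_ k2⟩
        field_simp
      have h3 := bq_cell hp t0 hN0 (one i i1).1 (one j j1).1 (hy i (hSJ i1)).1 (hy j (hSJ j1)).1
        (one i i1).2 (one j j1).2 (i2.trans j2.symm)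
      have h4 := mul_le_mul_of_nonneg_left hNle (by linarith : 0 ≤ 2 - th)
      linarith [mul_nonneg t0.le hCF]) ph (by linarith)
    have hW1 := sum_le_sum_of_subset_of_nonneg hCJ fun j hj _ => hμ j hj
    generalize ∑ j ∈ S.filter (fun j => ⌊R j / g j / (p * th / 2)⌋₊ = c), μ j = W at hc key hW1
    refine key.trans (mul_le_mul_of_nonneg_left ?_ hp.le)
    have w1 := mul_le_mul_of_nonneg_right (pow_le_pow_left₀ κ0.le hc 2) hth
    have w2 := mul_le_mul_of_nonneg_right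
      (pow_le_one₀ (n := 2) (κ0.le.trans hc) (by linarith : W ≤ 1)) hCF
    linarith
  · have key := hend ∅ (empty_subset _) 0 (th * n - C * F) (fun i hi => absurd hi (notMem_empty i))
      ph (by
        have h4 := mul_le_mul_of_nonneg_left hNle (by linarith : 0 ≤ 1 - th)
        linarith [mul_nonneg t0.le hCF])
    refine key.trans (mul_le_mul_of_nonneg_left ?_ hp.le)
    have w1 := mul_le_mul_of_nonneg_right (pow_le_pow_left₀ κ0.le (by linarith : κ ≤ μh) 2) hth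
    have w2 := mul_le_mul_of_nonneg_right (pow_le_one₀ (n := 2) hμh (by linarith : μh ≤ 1)) hCF
    have w3 := mul_nonneg (sq_nonneg κ) hth
    linarith

end Pool.Agent.Lib.MP_299528_co
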