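import Mathlib

-- part Pool.Agent.Lib.MP_299528_co.Bd.Ap
section

/-! Apery data of a numerical semigroup: standard factorizations as multisets. -/

set_option autoImplicit false

namespace Pool.Agent.Lib.MP_299528_co.Bd

open Finset

/-- `m` multiplicity, `c` conductor, `G` the other minimal generators, `D` the chosen
factorizations of the Apery elements. -/
structure Ap where
  m : ℕ
  c : ℕ
  G : Finset ℕ
  D : Finset (Multiset ℕ)
  hm : 0 < m
  hG : ∀ g ∈ G, m < g
  memG : ∀ t ∈ D, ∀ g ∈ t, g ∈ G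
  down : ∀ t ∈ D, ∀ s : Multiset ℕ, s ≤ t → s ∈ D
  cardD : D.card = m
  inj : ∀ t ∈ D, ∀ s ∈ D, t.sum % m = s.sum % m → t = s
  lt : ∀ t ∈ D, t.sum < c + m
  least : ∀ u : Multiset ℕ, (∀ g ∈ u, g ∈ G) → ∃ t ∈ D, t.sum ≤ u.sum ∧ t.sum % m = u.sum % m

namespace Ap

variable (Y : Ap)

/-- Number of elements of the class of `t` below the conductor. -/
def δ (t : Multiset ℕ) : ℕ := (Y.c + Y.m - 1 - t.sum) / Y.m

/-- The number `n`. -/
def n : ℕ := ∑ t ∈ Y.D, Y.δ t

/-- The number of generators other than `m`. -/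
def k : ℕ := Y.G.card

/-- All factorizations have length at most `J`. -/
def Len (J : ℕ) : Prop := ∀ t ∈ Y.D, Multiset.card t ≤ J

/-- Level `l`. -/
def lev (l : ℕ) : Finset (Multiset ℕ) := Y.D.filter (fun t => Multiset.card t = l)

/-- Apery elements below the conductor. -/
def low : Finset (Multiset ℕ) := Y.D.filter (fun t => t.sum < Y.c)

/-- Squarefree elements of level `j` above the conductor. -/
def top (j : ℕ) : Finset (Multiset ℕ) :=
  Y.D.filter (fun t => Multiset.card t = j ∧ t.Nodup ∧ Y.c ≤ t.sum)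

/-- Unused pairs. -/
def unused : Finset (Multiset ℕ × ℕ) :=
  (Y.low ×ˢ Y.G).filter (fun p => p.2 ∉ p.1 ∧ p.2 ::ₘ p.1 ∉ Y.D)

end Ap

end Pool.Agent.Lib.MP_299528_co.Bd
end

-- part Pool.Agent.Lib.MP_299528_co.Bd.ApA
section

/-! Basic counts for Apery data. -/

set_option autoImplicit false

namespace Pool.Agent.Lib.MP_299528_co.Bd

open Finset

namespace Ap

variable (Y : Ap)

theorem zero_mem : (0 : Multiset ℕ) ∈ Y.D := by
  have h : 0 < Y.D.card := by rw [Y.cardD]; exact Y.hm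
  obtain ⟨t, ht⟩ := Finset.card_pos.mp h
  exact Y.down t ht 0 (Multiset.zero_le t)

private theorem mem_lev {l : ℕ} {t : Multiset ℕ} :
    t ∈ Y.lev l ↔ t ∈ Y.D ∧ Multiset.card t = l := by
  unfold lev; rw [Finset.mem_filter]

private theorem mem_low {t : Multiset ℕ} : t ∈ Y.low ↔ t ∈ Y.D ∧ t.sum < Y.c := by
  unfold low; rw [Finset.mem_filter]

theorem card_lev_le (l : ℕ) : (Y.lev l).card ≤ Y.k ^ l := by
  induction l with
  | zero =>
    rw [pow_zero]
    refine Finset.card_le_one.mpr ?_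
    intro a ha b hb
    rw [Multiset.card_eq_zero.mp (Y.mem_lev.mp ha).2, Multiset.card_eq_zero.mp (Y.mem_lev.mp hb).2]
  | succ l ih =>
    have hsub : Y.lev (l + 1) ⊆
        (Y.G ×ˢ Y.lev l).image (fun p : ℕ × Multiset ℕ => p.1 ::ₘ p.2) := by
      intro t ht
      obtain ⟨htD, hc⟩ := Y.mem_lev.mp ht
      have hne : t ≠ 0 := by
        intro h0
        rw [h0] at hc
        simp at hc
      obtain ⟨g, hg⟩ := Multiset.exists_mem_of_ne_zero hne
      obtain ⟨s, hs⟩ := Multiset.exists_cons_of_mem hg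
      refine Finset.mem_image.mpr ⟨(g, s), ?_, hs.symm⟩
      refine Finset.mem_product.mpr ⟨Y.memG t htD g hg, Y.mem_lev.mpr ⟨?_, ?_⟩⟩
      · refine Y.down t htD s ?_
        rw [hs]
        exact Multiset.le_cons_self s g
      · rw [hs, Multiset.card_cons] at hc
        show Multiset.card s = l
        omega
    calc (Y.lev (l + 1)).card
        ≤ ((Y.G ×ˢ Y.lev l).image (fun p : ℕ × Multiset ℕ => p.1 ::ₘ p.2)).card :=
          Finset.card_le_card hsub
      _ ≤ (Y.G ×ˢ Y.lev l).card := Finset.card_image_le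
      _ = Y.k * (Y.lev l).card := Finset.card_product _ _
      _ ≤ Y.k * Y.k ^ l := Nat.mul_le_mul_left _ ih
      _ = Y.k ^ (l + 1) := by ring

theorem m_le (J : ℕ) (h : Y.Len J) : Y.m ≤ (J + 1) * (Y.k + 1) ^ J := by
  have hsub : Y.D ⊆ (Finset.range (J + 1)).biUnion Y.lev := by
    intro t ht
    refine Finset.mem_biUnion.mpr ⟨Multiset.card t, ?_, Y.mem_lev.mpr ⟨ht, rfl⟩⟩
    exact Finset.mem_range.mpr (Nat.lt_succ_of_le (h t ht))
  calc Y.m = Y.D.card := Y.cardD.symm
    _ ≤ ((Finset.range (J + 1)).biUnion Y.lev).card := Finset.card_le_card hsub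
    _ ≤ ∑ l ∈ Finset.range (J + 1), (Y.lev l).card := Finset.card_biUnion_le
    _ ≤ ∑ _l ∈ Finset.range (J + 1), (Y.k + 1) ^ J := by
        refine Finset.sum_le_sum fun l hl => ?_
        have hl' : l ≤ J := Nat.lt_succ_iff.mp (Finset.mem_range.mp hl)
        calc (Y.lev l).card ≤ Y.k ^ l := Y.card_lev_le l
          _ ≤ (Y.k + 1) ^ l := Nat.pow_le_pow_left (Nat.le_succ _) l
          _ ≤ (Y.k + 1) ^ J := Nat.pow_le_pow_right (Nat.succ_pos _) hl'
    _ = (J + 1) * (Y.k + 1) ^ J := by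
        rw [Finset.sum_const, Finset.card_range, smul_eq_mul]

theorem card_dup_le (l : ℕ) : ((Y.lev l).filter (fun t => ¬ t.Nodup)).card ≤ Y.k ^ (l - 1) := by
  have key : ∀ t ∈ (Y.lev l).filter (fun t => ¬ t.Nodup), ∃ g s, g ∈ Y.G ∧ s ∈ Y.D ∧
      Multiset.card s + 2 = l ∧ t = g ::ₘ g ::ₘ s := by
    intro t ht
    obtain ⟨ht1, hnd⟩ := Finset.mem_filter.mp ht
    obtain ⟨htD, hc⟩ := Y.mem_lev.mp ht1
    rw [Multiset.nodup_iff_ne_cons_cons] at hnd
    push Not at hnd
    obtain ⟨g, s, hs⟩ := hnd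
    refine ⟨g, s, Y.memG t htD g (by rw [hs]; exact Multiset.mem_cons_self _ _), ?_, ?_, hs⟩
    · refine Y.down t htD s ?_
      rw [hs]
      exact le_trans (Multiset.le_cons_self s g) (Multiset.le_cons_self _ g)
    · rw [hs, Multiset.card_cons, Multiset.card_cons] at hc
      omega
  by_cases hl : 2 ≤ l
  · obtain ⟨j, rfl⟩ : ∃ j, l = j + 2 := ⟨l - 2, by omega⟩
    have hsub : (Y.lev (j + 2)).filter (fun t => ¬ t.Nodup) ⊆
        (Y.G ×ˢ Y.lev j).image (fun p : ℕ × Multiset ℕ => p.1 ::ₘ p.1 ::ₘ p.2) := by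
      intro t ht
      obtain ⟨g, s, hg, hs, hc, rfl⟩ := key t ht
      refine Finset.mem_image.mpr ⟨(g, s), ?_, rfl⟩
      exact Finset.mem_product.mpr ⟨hg, Y.mem_lev.mpr ⟨hs, by show Multiset.card s = j; omega⟩⟩
    calc ((Y.lev (j + 2)).filter (fun t => ¬ t.Nodup)).card
        ≤ ((Y.G ×ˢ Y.lev j).image (fun p : ℕ × Multiset ℕ => p.1 ::ₘ p.1 ::ₘ p.2)).card :=
          Finset.card_le_card hsub
      _ ≤ (Y.G ×ˢ Y.lev j).card := Finset.card_image_le
      _ = Y.k * (Y.lev j).card := Finset.card_product _ _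
      _ ≤ Y.k * Y.k ^ j := Nat.mul_le_mul_left _ (Y.card_lev_le j)
      _ = Y.k ^ (j + 2 - 1) := by
          have : j + 2 - 1 = j + 1 := by omega
          rw [this]; ring
  · have : (Y.lev l).filter (fun t => ¬ t.Nodup) = ∅ := by
      refine Finset.eq_empty_of_forall_notMem fun t ht => ?_
      obtain ⟨g, s, -, -, hc, -⟩ := key t ht
      omega
    rw [this, Finset.card_empty]
    exact Nat.zero_le _

/-- The sum of all Apery elements. -/
theorem sum_id : 2 * (∑ t ∈ Y.D, t.sum + Y.m * Y.n) + Y.m = 2 * (Y.m * Y.c) + Y.m * Y.m := by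
  have hm := Y.hm
  set r : Multiset ℕ → ℕ := fun t => (Y.c + Y.m - 1 - t.sum) % Y.m with hr
  have hinj : Set.InjOn r Y.D := by
    intro t ht s hs hts
    have ht' := Y.lt t ht
    have hs' := Y.lt s hs
    refine Y.inj t ht s hs ?_
    have h1 : (Y.c + Y.m - 1 - t.sum) ≡ (Y.c + Y.m - 1 - s.sum) [MOD Y.m] := hts
    have h2 : (Y.c + Y.m - 1 - t.sum) + t.sum ≡ (Y.c + Y.m - 1 - s.sum) + s.sum [MOD Y.m] := by
      have e1 : (Y.c + Y.m - 1 - t.sum) + t.sum = (Y.c + Y.m - 1 - s.sum) + s.sum := by omega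
      rw [e1]
    exact Nat.ModEq.add_left_cancel h1 h2
  have himg : Y.D.image r = Finset.range Y.m := by
    refine Finset.eq_of_subset_of_card_le ?_ ?_
    · intro x hx
      obtain ⟨t, -, rfl⟩ := Finset.mem_image.mp hx
      exact Finset.mem_range.mpr (Nat.mod_lt _ hm)
    · rw [Finset.card_range, Finset.card_image_of_injOn hinj, Y.cardD]
  have hsum : ∑ t ∈ Y.D, r t = ∑ x ∈ Finset.range Y.m, x := by
    rw [← himg, Finset.sum_image hinj]
  have hgauss : (∑ x ∈ Finset.range Y.m, x) * 2 = Y.m * (Y.m - 1) := Finset.sum_range_id_mul_two _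
  have hterm : ∀ t ∈ Y.D, t.sum + Y.m * Y.δ t + r t = Y.c + (Y.m - 1) := by
    intro t ht
    have ht' := Y.lt t ht
    have h1 := Nat.div_add_mod (Y.c + Y.m - 1 - t.sum) Y.m
    show t.sum + Y.m * ((Y.c + Y.m - 1 - t.sum) / Y.m) + (Y.c + Y.m - 1 - t.sum) % Y.m = _
    omega
  have htot : ∑ t ∈ Y.D, t.sum + Y.m * Y.n + ∑ t ∈ Y.D, r t = Y.m * (Y.c + (Y.m - 1)) := by
    unfold n
    rw [Finset.mul_sum, ← Finset.sum_add_distrib, ← Finset.sum_add_distrib,
      Finset.sum_congr rfl hterm, Finset.sum_const, Y.cardD, smul_eq_mul]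
  rw [hsum] at htot
  obtain ⟨p, hp⟩ : ∃ p, Y.m = p + 1 := ⟨Y.m - 1, by omega⟩
  have hp' : Y.m - 1 = p := by omega
  rw [hp'] at htot hgauss
  generalize (∑ t ∈ Y.D, t.sum + Y.m * Y.n) = A at htot ⊢
  generalize (∑ x ∈ Finset.range Y.m, x) = S at htot hgauss
  rw [hp] at htot hgauss ⊢
  nlinarith [htot, hgauss]

private theorem split_g (g : ℕ) (a : Multiset ℕ) :
    a.filter (fun x => x ≠ g) + Multiset.replicate (a.count g) g = a := by
  ext x
  rw [Multiset.count_add, Multiset.count_filter, Multiset.count_replicate]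
  by_cases h : x = g
  · subst h; simp
  · have h' : ¬ g = x := fun e => h e.symm
    simp [h, h']

private theorem filter_g (g i : ℕ) (a : Multiset ℕ) :
    (a.filter (fun x => x ≠ g) + Multiset.replicate i g).filter (fun x => x ≠ g) =
      a.filter (fun x => x ≠ g) := by
  ext x
  rw [Multiset.count_filter, Multiset.count_add, Multiset.count_filter, Multiset.count_replicate]
  by_cases h : x = g
  · subst h; simp
  · have h' : ¬ g = x := fun e => h e.symm
    simp [h, h']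

private theorem count_g (g i : ℕ) (a : Multiset ℕ) :
    (a.filter (fun x => x ≠ g) + Multiset.replicate i g).count g = i := by
  rw [Multiset.count_add, Multiset.count_filter, Multiset.count_replicate]
  simp

private theorem rep_le (g : ℕ) (b : Multiset ℕ) {i j : ℕ} (h : i ≤ j) :
    b + Multiset.replicate i g ≤ b + Multiset.replicate j g :=
  add_le_add le_rfl ((Multiset.replicate_le_replicate g).mpr h)

private theorem rep_bound (g i : ℕ) (b : Multiset ℕ) (h : b + Multiset.replicate i g ∈ Y.D) :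
    i ≤ Y.c + Y.m := by
  rcases Nat.eq_zero_or_pos i with h0 | h0
  · omega
  · have hg : g ∈ b + Multiset.replicate i g :=
      Multiset.mem_add.mpr (Or.inr (Multiset.mem_replicate.mpr ⟨by omega, rfl⟩))
    have h1 := Y.hG g (Y.memG _ h g hg)
    have h2 := Y.lt _ h
    rw [Multiset.sum_add, Multiset.sum_replicate, smul_eq_mul] at h2
    have h3 : i * 1 ≤ i * g := Nat.mul_le_mul_left i (by omega)
    omega

/-- Reflection of the chains in direction `g`. -/
theorem exists_refl (g : ℕ) : ∃ ρ : Multiset ℕ → Multiset ℕ, Set.BijOn ρ Y.D Y.D ∧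
    (∀ a ∈ Y.D, (ρ a).sum + a.count g * g < Y.c + Y.m) ∧
    (∀ a ∈ Y.D, g ::ₘ a ∉ Y.D → ρ a = a.filter (fun x => x ≠ g)) := by
  set h : Multiset ℕ → ℕ := fun b =>
    Nat.findGreatest (fun i => b + Multiset.replicate i g ∈ Y.D) (Y.c + Y.m) with hh
  have hle : ∀ b i, b + Multiset.replicate i g ∈ Y.D → i ≤ h b := fun b i hi =>
    Nat.le_findGreatest (P := fun i => b + Multiset.replicate i g ∈ Y.D) (Y.rep_bound g i b hi) hi
  have hmem : ∀ b i, b + Multiset.replicate i g ∈ Y.D → b + Multiset.replicate (h b) g ∈ Y.D :=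
    fun b i hi => Nat.findGreatest_spec (P := fun i => b + Multiset.replicate i g ∈ Y.D)
      (Y.rep_bound g i b hi) hi
  set ρ : Multiset ℕ → Multiset ℕ := fun a => a.filter (fun x => x ≠ g) +
    Multiset.replicate (h (a.filter (fun x => x ≠ g)) - a.count g) g with hρ
  have hself : ∀ a ∈ Y.D, a.filter (fun x => x ≠ g) + Multiset.replicate (a.count g) g ∈ Y.D := by
    intro a ha
    rw [split_g]
    exact ha
  have hmaps : Set.MapsTo ρ Y.D Y.D := by
    intro a ha
    exact Y.down _ (hmem _ _ (hself a ha)) _ (rep_le g _ (Nat.sub_le _ _))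
  have hinv : ∀ a ∈ Y.D, ρ (ρ a) = a := by
    intro a ha
    have h1 := hle _ _ (hself a ha)
    show (ρ a).filter (fun x => x ≠ g) +
      Multiset.replicate (h ((ρ a).filter (fun x => x ≠ g)) - (ρ a).count g) g = a
    have e1 : (ρ a).filter (fun x => x ≠ g) = a.filter (fun x => x ≠ g) := filter_g g _ a
    have e2 : (ρ a).count g = h (a.filter (fun x => x ≠ g)) - a.count g := count_g g _ a
    rw [e1, e2, Nat.sub_sub_self h1, split_g]
  refine ⟨ρ, Set.InvOn.bijOn ⟨hinv, hinv⟩ hmaps hmaps, ?_, ?_⟩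
  · intro a ha
    have h1 := hle _ _ (hself a ha)
    have h2 := Y.lt _ (hmem _ _ (hself a ha))
    rw [Multiset.sum_add, Multiset.sum_replicate, smul_eq_mul] at h2
    show (a.filter (fun x => x ≠ g) +
      Multiset.replicate (h (a.filter (fun x => x ≠ g)) - a.count g) g).sum + a.count g * g < _
    rw [Multiset.sum_add, Multiset.sum_replicate, smul_eq_mul, add_assoc, ← add_mul,
      Nat.sub_add_cancel h1]
    exact h2
  · intro a ha hna
    have h1 : h (a.filter (fun x => x ≠ g)) ≤ a.count g := by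
      by_contra hc
      apply hna
      have h2 := Y.down _ (hmem _ _ (hself a ha)) _
        (rep_le g (a.filter (fun x => x ≠ g)) (Nat.succ_le_of_lt (Nat.lt_of_not_le hc)))
      rw [Multiset.replicate_succ, Multiset.add_cons, split_g] at h2
      exact h2
    show a.filter (fun x => x ≠ g) +
      Multiset.replicate (h (a.filter (fun x => x ≠ g)) - a.count g) g = _
    rw [Nat.sub_eq_zero_of_le h1, Multiset.replicate_zero, add_zero]

private theorem m_lt_sum {s : Multiset ℕ} (hs : s ∈ Y.D) (h0 : s ≠ 0) : Y.m < s.sum := by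
  obtain ⟨g, hg⟩ := Multiset.exists_mem_of_ne_zero h0
  exact lt_of_lt_of_le (Y.hG g (Y.memG s hs g hg)) (Multiset.le_sum_of_mem hg)

private theorem split_two {t : Multiset ℕ} (ht : t ∈ Y.D) (hc : 2 ≤ Multiset.card t) :
    ∃ s s', s ∈ Y.low ∧ s' ∈ Y.low ∧ s ≠ 0 ∧ s' ≠ 0 ∧ t = s + s' := by
  have hne : t ≠ 0 := by
    intro h0
    rw [h0] at hc
    simp at hc
  obtain ⟨g, hg⟩ := Multiset.exists_mem_of_ne_zero hne
  obtain ⟨s, hs⟩ := Multiset.exists_cons_of_mem hg
  have hs0 : s ≠ 0 := by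
    intro h0
    rw [hs, h0] at hc
    simp at hc
  have hg0 : ({g} : Multiset ℕ) ≠ 0 := Multiset.singleton_ne_zero g
  have he : t = {g} + s := by rw [hs, Multiset.singleton_add]
  have h1 : ({g} : Multiset ℕ) ∈ Y.D := Y.down t ht _ (by rw [he]; exact Multiset.le_add_right _ _)
  have h2 : s ∈ Y.D := Y.down t ht _ (by rw [he]; exact Multiset.le_add_left _ _)
  have h3 := Y.m_lt_sum h1 hg0
  have h4 := Y.m_lt_sum h2 hs0
  have h5 := Y.lt t ht
  rw [he, Multiset.sum_add] at h5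
  exact ⟨{g}, s, Y.mem_low.mpr ⟨h1, by omega⟩, Y.mem_low.mpr ⟨h2, by omega⟩, hg0, hs0, he⟩

private theorem card_small : (Y.D.filter (fun t => Multiset.card t < 2)).card ≤ Y.k + 1 := by
  have hsub : Y.D.filter (fun t => Multiset.card t < 2) ⊆ Y.lev 1 ∪ Y.lev 0 := by
    intro t ht
    obtain ⟨h1, h2⟩ := Finset.mem_filter.mp ht
    rcases Nat.eq_zero_or_pos (Multiset.card t) with h0 | h0
    · exact Finset.mem_union_right _ (Y.mem_lev.mpr ⟨h1, h0⟩)
    · exact Finset.mem_union_left _ (Y.mem_lev.mpr ⟨h1, by omega⟩)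
  have h1 := Y.card_lev_le 1
  have h0 := Y.card_lev_le 0
  rw [pow_one] at h1
  rw [pow_zero] at h0
  have h2 := Finset.card_le_card hsub
  have h3 := Finset.card_union_le (Y.lev 1) (Y.lev 0)
  omega

/-- The case of many generators. -/
theorem one_level (B : ℕ) (hB : Y.low.card ≤ B) (hm : 4 * B ^ 2 ≤ Y.m) :
    Y.c ≤ (Y.k + 1) * Y.n := by
  have hm0 := Y.hm
  have hc0 : Y.c ≤ Y.m * Y.δ 0 := by
    have h1 := Nat.div_add_mod (Y.c + Y.m - 1) Y.m
    have h2 := Nat.mod_lt (Y.c + Y.m - 1) hm0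
    show Y.c ≤ Y.m * ((Y.c + Y.m - 1 - (0 : Multiset ℕ).sum) / Y.m)
    rw [Multiset.sum_zero, Nat.sub_zero]
    omega
  have hsmall := Y.card_small
  have hsplit := Finset.card_filter_add_card_filter_not (s := Y.D)
    (fun t => Multiset.card t < 2)
  rw [Y.cardD] at hsplit
  by_cases hex : ∃ t ∈ Y.D, 2 ≤ Multiset.card t
  · have hbig : (Y.D.filter (fun t => ¬ Multiset.card t < 2)).card ≤ B ^ 2 := by
      have hsub : Y.D.filter (fun t => ¬ Multiset.card t < 2) ⊆
          (Y.low ×ˢ Y.low).image (fun p : Multiset ℕ × Multiset ℕ => p.1 + p.2) := by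
        intro t ht
        obtain ⟨h1, h2⟩ := Finset.mem_filter.mp ht
        obtain ⟨s, s', hs, hs', -, -, he⟩ := Y.split_two h1 (Nat.le_of_not_lt h2)
        exact Finset.mem_image.mpr ⟨(s, s'), Finset.mem_product.mpr ⟨hs, hs'⟩, he.symm⟩
      calc (Y.D.filter (fun t => ¬ Multiset.card t < 2)).card
          ≤ ((Y.low ×ˢ Y.low).image (fun p : Multiset ℕ × Multiset ℕ => p.1 + p.2)).card :=
            Finset.card_le_card hsub
        _ ≤ (Y.low ×ˢ Y.low).card := Finset.card_image_le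
        _ = Y.low.card * Y.low.card := Finset.card_product _ _
        _ ≤ B * B := Nat.mul_le_mul hB hB
        _ = B ^ 2 := by ring
    obtain ⟨t, ht, hc⟩ := hex
    have hs : ∃ s, s ∈ Y.low ∧ s ≠ 0 ∧ 2 * s.sum < Y.c + Y.m := by
      obtain ⟨s, s', hs, hs', h0, h0', he⟩ := Y.split_two ht hc
      have h5 := Y.lt t ht
      rw [he, Multiset.sum_add] at h5
      rcases le_total s.sum s'.sum with h | h
      · exact ⟨s, hs, h0, by omega⟩
      · exact ⟨s', hs', h0', by omega⟩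
    obtain ⟨s, hs, h0, h2⟩ := hs
    obtain ⟨hsD, hsc⟩ := Y.mem_low.mp hs
    have hd1 : 1 ≤ Y.δ s := by
      show 1 ≤ (Y.c + Y.m - 1 - s.sum) / Y.m
      rw [Nat.le_div_iff_mul_le hm0]
      omega
    have hd0 : Y.δ 0 ≤ 2 * Y.δ s + 1 := by
      show (Y.c + Y.m - 1 - (0 : Multiset ℕ).sum) / Y.m ≤ 2 * ((Y.c + Y.m - 1 - s.sum) / Y.m) + 1
      rw [Multiset.sum_zero, Nat.sub_zero]
      apply Nat.le_of_lt_succ
      rw [Nat.div_lt_iff_lt_mul hm0]
      have h1 := Nat.div_add_mod (Y.c + Y.m - 1 - s.sum) Y.m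
      have h3 := Nat.mod_lt (Y.c + Y.m - 1 - s.sum) hm0
      have e : (2 * ((Y.c + Y.m - 1 - s.sum) / Y.m) + 1).succ * Y.m =
          2 * (Y.m * ((Y.c + Y.m - 1 - s.sum) / Y.m)) + 2 * Y.m := by
        rw [Nat.succ_eq_add_one]; ring
      rw [e]
      omega
    have hn : Y.δ 0 + Y.δ s ≤ Y.n := by
      have hsub : ({0, s} : Finset (Multiset ℕ)) ⊆ Y.D := by
        intro x hx
        rcases Finset.mem_insert.mp hx with h | h
        · rw [h]; exact Y.zero_mem
        · rw [Finset.mem_singleton.mp h]; exact hsD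
      have h1 := Finset.sum_le_sum_of_subset (f := Y.δ) hsub
      rw [Finset.sum_pair h0.symm] at h1
      exact h1
    have hk : Y.m ≤ Y.k + 1 + B ^ 2 := by omega
    have e1 : (Y.k + 1) * (Y.δ 0 + Y.δ s) ≤ (Y.k + 1) * Y.n := Nat.mul_le_mul_left _ hn
    have e2 : Y.m * (Y.δ 0 + Y.δ s) ≤ (Y.k + 1 + B ^ 2) * (Y.δ 0 + Y.δ s) :=
      Nat.mul_le_mul_right _ hk
    have e3 : B ^ 2 * (Y.δ 0 + Y.δ s) ≤ B ^ 2 * (4 * Y.δ s) := Nat.mul_le_mul_left _ (by omega)
    have e4 : 4 * B ^ 2 * Y.δ s ≤ Y.m * Y.δ s := Nat.mul_le_mul_right _ hm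
    have e5 : B ^ 2 * (4 * Y.δ s) = 4 * B ^ 2 * Y.δ s := by ring
    have e6 : (Y.k + 1 + B ^ 2) * (Y.δ 0 + Y.δ s) =
        (Y.k + 1) * (Y.δ 0 + Y.δ s) + B ^ 2 * (Y.δ 0 + Y.δ s) := by ring
    have e7 : Y.m * (Y.δ 0 + Y.δ s) = Y.m * Y.δ 0 + Y.m * Y.δ s := by ring
    omega
  · have hbig : Y.D.filter (fun t => ¬ Multiset.card t < 2) = ∅ := by
      refine Finset.eq_empty_of_forall_notMem fun t ht => ?_
      obtain ⟨h1, h2⟩ := Finset.mem_filter.mp ht
      exact hex ⟨t, h1, Nat.le_of_not_lt h2⟩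
    rw [hbig, Finset.card_empty] at hsplit
    have hn : Y.δ 0 ≤ Y.n :=
      Finset.single_le_sum (f := Y.δ) (fun _ _ => Nat.zero_le _) Y.zero_mem
    exact le_trans hc0 (Nat.mul_le_mul (by omega) hn)

end Ap

end Pool.Agent.Lib.MP_299528_co.Bd
end

-- part Pool.Agent.Lib.MP_299528_co.Bd.ApB
section

/-! The master inequality. -/

set_option autoImplicit false

namespace Pool.Agent.Lib.MP_299528_co.Bd

open Finset

namespace Ap

variable (Y : Ap)

theorem apb_div {x y m : ℕ} (hm : 0 < m) (h : y ≤ x) : (y : ℝ) / m - 1 ≤ ((x / m : ℕ) : ℝ) := by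
  have h1 : (y : ℝ) ≤ m * ((x / m : ℕ) : ℝ) + m := by
    have := Nat.div_add_mod x m
    have := Nat.mod_lt x hm
    exact_mod_cast (by omega : y ≤ m * (x / m) + m)
  have h2 : (0 : ℝ) < m := by exact_mod_cast hm
  rw [sub_le_iff_le_add, div_le_iff₀ h2]
  linarith

theorem apb_count {a : Multiset ℕ} (ha : a ∈ Y.D) : ∑ g ∈ Y.G, a.count g * g = a.sum := by
  rw [Finset.sum_multiset_count_of_subset a Y.G fun g hg =>
    Y.memG a ha g (Multiset.mem_toFinset.1 hg)]
  simp

theorem apb_filter {a : Multiset ℕ} (ha : a.Nodup) {g : ℕ} (hg : g ∈ a) :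
    (a.filter fun x => x ≠ g).sum + g = a.sum := by
  rw [← ha.erase_eq_filter, add_comm, Multiset.sum_erase hg]

theorem apb_mem (J : ℕ) (hJ : Y.Len J) {a : Multiset ℕ} (ha : a ∈ Y.D) :
    (Y.G.filter fun g => g ∈ a).card ≤ J :=
  ((card_le_card fun _ hg => Multiset.mem_toFinset.2 (mem_filter.1 hg).2).trans
    a.toFinset_card_le).trans (hJ a ha)

theorem apb_key (J : ℕ) (hJ : Y.Len J) :
    Y.k * Y.low.card ≤ Y.unused.card + J * Y.low.card + ∑ t ∈ Y.D, Multiset.card t := by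
  have h1 : Y.low ×ˢ Y.G ⊆ Y.unused ∪ (Y.low ×ˢ Y.G).filter (fun p => p.2 ∈ p.1) ∪
      (Y.low ×ˢ Y.G).filter (fun p => p.2 ::ₘ p.1 ∈ Y.D) := fun p hp => by
    simp only [unused, mem_union, mem_filter, hp, true_and]
    tauto
  have h2 : ((Y.low ×ˢ Y.G).filter (fun p => p.2 ∈ p.1)).card ≤ J * Y.low.card := by
    refine (card_le_card_of_injOn (t := Y.low.sigma fun a => a.toFinset) (fun p => ⟨p.1, p.2⟩)
      (fun p hp => ?_) (fun p _ q _ h => ?_)).trans ?_
    · have := mem_filter.1 (mem_coe.1 hp)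
      exact mem_coe.2 (mem_sigma.2 ⟨(mem_product.1 this.1).1, Multiset.mem_toFinset.2 this.2⟩)
    · simp only [Sigma.mk.injEq, heq_eq_eq] at h
      exact Prod.ext h.1 h.2
    · rw [card_sigma, mul_comm, ← smul_eq_mul]
      exact sum_le_card_nsmul _ _ _ fun a ha => a.toFinset_card_le.trans (hJ a (mem_filter.1 ha).1)
  have h3 : ((Y.low ×ˢ Y.G).filter (fun p => p.2 ::ₘ p.1 ∈ Y.D)).card ≤
      ∑ t ∈ Y.D, Multiset.card t := by
    refine (card_le_card_of_injOn (t := Y.D.sigma fun a => a.toFinset)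
      (fun p => ⟨p.2 ::ₘ p.1, p.2⟩) (fun p hp => ?_) (fun p _ q _ h => ?_)).trans ?_
    · exact mem_coe.2 (mem_sigma.2 ⟨(mem_filter.1 (mem_coe.1 hp)).2,
        Multiset.mem_toFinset.2 (Multiset.mem_cons_self _ _)⟩)
    · simp only [Sigma.mk.injEq, heq_eq_eq] at h
      obtain ⟨h4, h5⟩ := h
      rw [h5] at h4
      exact Prod.ext ((Multiset.cons_inj_right _).1 h4) h5
    · rw [card_sigma]
      exact sum_le_sum fun a _ => a.toFinset_card_le
  have h4 := (card_le_card h1).trans ((card_union_le _ _).trans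
    (Nat.add_le_add_right (card_union_le _ _) _))
  rw [card_product] at h4
  rw [k, mul_comm]
  omega

/-- The master inequality, for a set `T` of squarefree elements above the conductor. -/
theorem master (J : ℕ) (hJ : Y.Len J) (T : Finset (Multiset ℕ))
    (hT : ∀ t ∈ T, t ∈ Y.D ∧ t.Nodup ∧ Y.c ≤ t.sum) :
    ∑ t ∈ T, (t.map (fun g => ((((Y.c + Y.m - 1 - t.sum + g) / Y.m : ℕ) : ℝ) -
        (g : ℝ) / Y.m))).sum + Y.unused.card - J * ((Y.m : ℝ) - T.card) ≤
      (Y.k + 1) * Y.n - Y.c - ((Y.m : ℝ) - 1) / 2 := by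
  classical
  choose ρ h1 h2 h3 using Y.exists_refl
  have hm : (0 : ℝ) < Y.m := by exact_mod_cast Y.hm
  let τ : Multiset ℕ → ℕ → ℝ := fun a g => (Y.δ (ρ g a) : ℝ) - ((a.count g * g : ℕ) : ℝ) / Y.m
  have tot : ∑ a ∈ Y.D, ∑ g ∈ Y.G, τ a g = (Y.k + 1) * Y.n - Y.c - ((Y.m : ℝ) - 1) / 2 := by
    simp only [τ, sum_sub_distrib]
    have e1 : ∑ a ∈ Y.D, ∑ g ∈ Y.G, (Y.δ (ρ g a) : ℝ) = Y.k * Y.n := by
      rw [sum_comm, sum_congr rfl fun g _ => sum_nbij (t := Y.D) (g := fun a => (Y.δ a : ℝ)) (ρ g)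
        (fun a ha => (h1 g).mapsTo ha) (h1 g).injOn (h1 g).surjOn fun _ _ => rfl]
      simp [k, n]
    have e2 : ∑ a ∈ Y.D, ∑ g ∈ Y.G, ((a.count g * g : ℕ) : ℝ) / Y.m =
        ((∑ a ∈ Y.D, a.sum : ℕ) : ℝ) / Y.m := by
      rw [Nat.cast_sum, sum_div]
      exact sum_congr rfl fun a ha => by rw [← sum_div, ← Nat.cast_sum, Y.apb_count ha]
    have e3 : 2 * (((∑ a ∈ Y.D, a.sum : ℕ) : ℝ) + Y.m * Y.n) + Y.m =
        2 * (Y.m * Y.c) + Y.m * Y.m := by exact_mod_cast Y.sum_id
    have e4 : ((∑ a ∈ Y.D, a.sum : ℕ) : ℝ) / Y.m = Y.c + ((Y.m : ℝ) - 1) / 2 - Y.n := by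
      rw [div_eq_iff hm.ne']
      linarith
    rw [e1, e2, e4]
    ring
  have t0 : ∀ a g, g ∉ a → τ a g = Y.δ (ρ g a) := fun a g hg => by
    simp [τ, Multiset.count_eq_zero_of_notMem hg]
  have t1 : ∀ a ∈ Y.D, ∀ g, (if (a, g) ∈ Y.unused then (1 : ℝ) else 0) -
      (if g ∈ a then 1 else 0) ≤ τ a g := fun a ha g => by
    by_cases hg : g ∈ a
    · rw [if_neg fun h => (mem_filter.1 h).2.1 hg, if_pos hg]
      have := apb_div (x := Y.c + Y.m - 1 - (ρ g a).sum) (y := a.count g * g) Y.hm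
        (by have := h2 g a ha; omega)
      simp only [τ, δ]
      linarith
    · rw [if_neg hg, sub_zero, t0 a g hg]
      split_ifs with h
      · have h4 := mem_filter.1 h
        have h5 : a.sum < Y.c := (mem_filter.1 (mem_product.1 h4.1).1).2
        rw [h3 g a ha h4.2.2, (Multiset.filter_eq_self (p := fun x => x ≠ g)).2
          fun x hx (e : x = g) => hg (e ▸ hx)]
        exact_mod_cast (Nat.le_div_iff_mul_le Y.hm).2 (by omega : 1 * Y.m ≤ Y.c + Y.m - 1 - a.sum)
      · exact Nat.cast_nonneg _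
  let F : Multiset ℕ → ℝ := fun t => (t.map (fun g =>
    ((((Y.c + Y.m - 1 - t.sum + g) / Y.m : ℕ) : ℝ) - (g : ℝ) / Y.m))).sum
  have key : ∀ a ∈ Y.D, (if a ∈ T then F a + J else 0) - J +
      ∑ g ∈ Y.G, (if (a, g) ∈ Y.unused then (1 : ℝ) else 0) ≤ ∑ g ∈ Y.G, τ a g := fun a ha => by
    split_ifs with h
    · obtain ⟨-, hn, hc⟩ := hT a h
      rw [sum_eq_zero fun g _ => if_neg fun h' =>
        (mem_filter.1 (mem_product.1 (mem_filter.1 h').1).1).2.not_ge hc, add_zero,
        add_sub_cancel_right]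
      have e1 : F a = ∑ g ∈ a.toFinset, τ a g := by
        rw [Finset.sum, Multiset.toFinset_val, hn.dedup]
        refine congrArg _ (Multiset.map_congr rfl fun g hg => ?_)
        have h4 := Y.hG g (Y.memG a ha g hg)
        have h5 : g ::ₘ a ∉ Y.D := fun h' => by
          have := Y.lt _ h'
          rw [Multiset.sum_cons] at this
          omega
        have h6 := apb_filter hn hg
        have h7 := Y.lt a ha
        simp only [τ, δ, h3 g a ha h5, Multiset.count_eq_one_of_mem hn hg, one_mul]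
        congr 3
        omega
      rw [e1]
      refine sum_le_sum_of_subset_of_nonneg
        (fun g hg => Y.memG a ha g (Multiset.mem_toFinset.1 hg)) fun g _ hg => ?_
      rw [t0 a g fun h' => hg (Multiset.mem_toFinset.2 h')]
      exact Nat.cast_nonneg _
    · refine le_trans ?_ (sum_le_sum fun g _ => t1 a ha g)
      rw [sum_sub_distrib, sum_boole (fun g => g ∈ a)]
      have : ((Y.G.filter fun g => g ∈ a).card : ℝ) ≤ J := by exact_mod_cast Y.apb_mem J hJ ha
      linarith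
  have h4 := sum_le_sum key
  have e1 : ∑ a ∈ Y.D, ∑ g ∈ Y.G, (if (a, g) ∈ Y.unused then (1 : ℝ) else 0) = Y.unused.card := by
    rw [← sum_product' (f := fun a g => if (a, g) ∈ Y.unused then (1 : ℝ) else 0), sum_boole,
      filter_mem_eq_inter, inter_eq_right.2 fun p hp => ?_]
    have := mem_product.1 (mem_filter.1 hp).1
    exact mem_product.2 ⟨(mem_filter.1 this.1).1, this.2⟩
  rw [tot, sum_add_distrib, e1, sum_sub_distrib, ← sum_filter, filter_mem_eq_inter,
    inter_eq_right.2 fun t ht => (hT t ht).1, sum_add_distrib, sum_const, sum_const, Y.cardD,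
    nsmul_eq_mul, nsmul_eq_mul] at h4
  linarith

theorem unused_ge (J : ℕ) (hJ : Y.Len J) :
    Y.k * Y.low.card ≤ Y.unused.card + J * Y.low.card + J * Y.m := by
  have h := sum_le_card_nsmul Y.D (fun t => Multiset.card t) J hJ
  rw [Y.cardD, smul_eq_mul, mul_comm] at h
  exact (Y.apb_key J hJ).trans (Nat.add_le_add_left h _)

theorem unused_ge_top (J : ℕ) (hJ : Y.Len J) (j : ℕ) :
    Y.k * (Y.low ∩ Y.lev j).card + J * (Y.top (j + 1)).card ≤
      Y.unused.card + J * Y.low.card + (j + 1) * (Y.top (j + 1)).card + J * Y.m := by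
  have hs : Y.top (j + 1) ⊆ Y.D := filter_subset _ _
  have h1 : ∑ t ∈ Y.top (j + 1), Multiset.card t = (j + 1) * (Y.top (j + 1)).card := by
    rw [sum_congr rfl fun t ht => (mem_filter.1 ht).2.1, sum_const, smul_eq_mul, mul_comm]
  have h2 := sum_le_card_nsmul (Y.D \ Y.top (j + 1)) (fun t => Multiset.card t) J
    fun t ht => hJ t (mem_sdiff.1 ht).1
  have h3 := sum_sdiff (f := fun t => Multiset.card t) hs
  have h4 := congrArg (J * ·) (card_sdiff_add_card_eq_card hs)
  have h5 := Nat.mul_le_mul_left Y.k (card_le_card (inter_subset_left (s₁ := Y.low) (s₂ := Y.lev j)))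
  have h6 := Y.apb_key J hJ
  simp only [Y.cardD, mul_add] at h4
  rw [smul_eq_mul, mul_comm] at h2
  omega

/-- If the inequality fails, few Apery elements lie below the conductor. -/
theorem low_small (J : ℕ) (hJ : Y.Len J) (hk : 2 * J ≤ Y.k) (h : (Y.k + 1) * Y.n < Y.c) :
    Y.k * Y.low.card ≤ 4 * J * Y.m := by
  have h1 := Y.master J hJ ∅ (by simp)
  have h2 : ((Y.k : ℝ) + 1) * Y.n < Y.c := by exact_mod_cast h
  have h3 : (1 : ℝ) ≤ Y.m := by exact_mod_cast Y.hm
  simp only [sum_empty, card_empty, Nat.cast_zero, sub_zero, zero_add] at h1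
  have h4 : Y.unused.card ≤ J * Y.m := by
    have : (Y.unused.card : ℝ) ≤ J * Y.m := by linarith
    exact_mod_cast this
  have h5 := Y.unused_ge J hJ
  have h6 := Nat.mul_le_mul_right Y.low.card hk
  rw [mul_assoc] at h6 ⊢
  omega

end Ap

end Pool.Agent.Lib.MP_299528_co.Bd
end

-- part Pool.Agent.Lib.MP_299528_co.Bd.Avg
section

/-! Averaging over the window. -/

set_option autoImplicit false

namespace Pool.Agent.Lib.MP_299528_co.Bd

open Finset

theorem avg_range_div {m : ℕ} (hm : 0 < m) (X : ℕ) : ∑ r ∈ range m, (r + X) / m = X := by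
  induction X with
  | zero => exact sum_eq_zero fun r hr => by simpa using Or.inr (mem_range.mp hr)
  | succ X ih =>
    have h1 := sum_range_succ (fun r => (r + X) / m) m
    have h2 := sum_range_succ' (fun r => (r + X) / m) m
    have h3 : ∑ r ∈ range m, (r + (X + 1)) / m = ∑ r ∈ range m, (r + 1 + X) / m :=
      sum_congr rfl fun r _ => by rw [add_assoc, add_comm 1 X]
    rw [add_comm m X, Nat.add_div_right X hm] at h1
    simp only [zero_add] at h2
    omega

theorem avg_gauss (m : ℕ) : ∑ e ∈ range m, (e : ℝ) = (m : ℝ) * (m - 1) / 2 := by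
  induction m with
  | zero => simp
  | succ m ih => rw [sum_range_succ, ih]; push_cast; ring

theorem avg_floor_ge {m : ℕ} (hm : 0 < m) (a : ℕ) : (a : ℝ) / m - 1 ≤ ((a / m : ℕ) : ℝ) := by
  have hm' : (0 : ℝ) < m := by exact_mod_cast hm
  have h : a < (a / m + 1) * m := by
    rw [← Nat.div_lt_iff_lt_mul hm]; exact Nat.lt_succ_self _
  have h' : (a : ℝ) < (((a / m : ℕ) : ℝ) + 1) * m := by exact_mod_cast h
  have := (div_lt_iff₀ hm').2 h'
  linarith

/-- Averaging step: thresholds `ζ` dominated by all but `μ` tuples. -/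
theorem dom_avg (j m c w μ : ℕ) (hm : 0 < m) (E : Finset (Fin j → ℕ)) (ζ : Fin j → ℕ)
    (hE : ∀ v ∈ E, c ≤ ∑ h, v h ∧ ∑ h, v h < c + m)
    (hinj : Set.InjOn (fun v : Fin j → ℕ => ∑ h, v h) E)
    (h1 : c ≤ (∑ h, ζ h) + w) (h2 : ∑ h, ζ h ≤ c + m)
    (h3 : m ≤ (E.filter (fun v => ∀ h, ζ h ≤ v h)).card + μ) :
    -((m : ℝ) / 2) - w - (2 * j + 1) * μ ≤
      ∑ v ∈ E, ∑ h, ((((c + m - 1 - (∑ x, v x) + v h) / m : ℕ) : ℝ) - (v h : ℝ) / m) := by
  classical
  have hm' : (0 : ℝ) < m := by exact_mod_cast hm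
  set η : (Fin j → ℕ) → ℕ := fun v => c + m - 1 - ∑ x, v x with hη
  set Φ : ℕ → ℝ := fun e => (∑ h, (((e + ζ h) / m : ℕ) : ℝ)) - ((c : ℝ) + m - 1 - e) / m with hΦ
  have ηlt : ∀ v ∈ E, η v < m := fun v hv => by
    have := hE v hv
    simp only [hη]
    omega
  have ηinj : Set.InjOn η E := fun v hv v' hv' h => by
    have a := hE v hv
    have b := hE v' hv'
    refine hinj hv hv' ?_
    simp only [hη] at h
    show ∑ x, v x = ∑ x, v' x
    omega
  have ηcast : ∀ v ∈ E, (∑ x, (v x : ℝ)) = (c : ℝ) + m - 1 - η v := fun v hv => by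
    have a := hE v hv
    have e : η v + (∑ x, v x) + 1 = c + m := by simp only [hη]; omega
    have e' : (η v : ℝ) + (∑ x, (v x : ℝ)) + 1 = c + m := by exact_mod_cast e
    linarith
  have cE : E.card ≤ m := by
    rw [← card_image_of_injOn ηinj, ← card_range m]
    refine card_le_card fun e he => ?_
    obtain ⟨v, hv, rfl⟩ := mem_image.mp he
    exact mem_range.mpr (ηlt v hv)
  set Gd := E.filter (fun v => ∀ h, ζ h ≤ v h) with hGd
  set Bd := E.filter (fun v => ¬ ∀ h, ζ h ≤ v h) with hBd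
  have cB : Bd.card ≤ μ := by
    have := card_filter_add_card_filter_not (s := E) (fun v => ∀ h, ζ h ≤ v h)
    rw [← hGd, ← hBd] at this
    omega
  have ginj : Set.InjOn η Gd := ηinj.mono (coe_subset.mpr (filter_subset _ _))
  have gsub : Gd.image η ⊆ range m := fun e he => by
    obtain ⟨v, hv, rfl⟩ := mem_image.mp he
    exact mem_range.mpr (ηlt v (mem_filter.mp hv).1)
  have cR : (range m \ Gd.image η).card ≤ μ := by
    rw [card_sdiff_of_subset gsub, card_image_of_injOn ginj, card_range]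
    omega
  have tot : -((m : ℝ) / 2) - w ≤ ∑ e ∈ range m, Φ e := by
    have a : ∑ e ∈ range m, ∑ h, (((e + ζ h) / m : ℕ) : ℝ) = ∑ h, (ζ h : ℝ) := by
      rw [sum_comm]
      refine sum_congr rfl fun h _ => ?_
      exact_mod_cast avg_range_div hm (ζ h)
    have b : ∑ e ∈ range m, ((c : ℝ) + m - 1 - e) / m = c + ((m : ℝ) - 1) / 2 := by
      rw [← sum_div, sum_sub_distrib, avg_gauss, sum_const, card_range, nsmul_eq_mul]
      field_simp
      ring
    have h1' : (c : ℝ) ≤ (∑ h, (ζ h : ℝ)) + w := by exact_mod_cast h1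
    simp only [hΦ]
    rw [sum_sub_distrib, a, b]
    linarith
  have up : ∀ e ∈ range m \ Gd.image η, Φ e ≤ (j : ℝ) + 1 := fun e he => by
    have he' : e + 1 ≤ m := mem_range.mp (mem_sdiff.mp he).1
    have he'' : (e : ℝ) + 1 ≤ m := by exact_mod_cast he'
    have h2' : (∑ h, (ζ h : ℝ)) ≤ c + m := by exact_mod_cast h2
    have a : ∑ h, (((e + ζ h) / m : ℕ) : ℝ) ≤ ∑ h, ((e : ℝ) + ζ h) / m :=
      sum_le_sum fun h _ => by
        have := (Nat.cast_div_le (α := ℝ) (m := e + ζ h) (n := m))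
        exact_mod_cast this
    rw [← sum_div, sum_add_distrib, sum_const, card_univ, Fintype.card_fin, nsmul_eq_mul] at a
    have b : ((j : ℝ) * e + ∑ h, (ζ h : ℝ)) / m - ((c : ℝ) + m - 1 - e) / m ≤ j + 1 := by
      rw [← sub_div, div_le_iff₀ hm']
      have : (j : ℝ) * e ≤ j * m := mul_le_mul_of_nonneg_left (by linarith) (Nat.cast_nonneg _)
      linarith
    simp only [hΦ]
    linarith
  have s1 : ∑ e ∈ range m \ Gd.image η, Φ e ≤ ((j : ℝ) + 1) * μ := by
    refine (sum_le_card_nsmul _ _ _ up).trans ?_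
    rw [nsmul_eq_mul, mul_comm]
    exact mul_le_mul_of_nonneg_left (by exact_mod_cast cR) (by positivity)
  have s2 := sum_sdiff (f := Φ) gsub
  rw [sum_image ginj] at s2
  have s3 : ∑ v ∈ Gd, Φ (η v) ≤
      ∑ v ∈ Gd, ∑ h, ((((c + m - 1 - (∑ x, v x) + v h) / m : ℕ) : ℝ) - (v h : ℝ) / m) :=
    sum_le_sum fun v hv => by
      obtain ⟨hv, hz⟩ := mem_filter.mp hv
      rw [sum_sub_distrib, ← sum_div, ηcast v hv]
      simp only [hΦ]
      refine sub_le_sub_right (sum_le_sum fun h _ => ?_) _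
      exact_mod_cast Nat.div_le_div_right (Nat.add_le_add_left (hz h) _)
  have s4 : -((j : ℝ) * μ) ≤
      ∑ v ∈ Bd, ∑ h, ((((c + m - 1 - (∑ x, v x) + v h) / m : ℕ) : ℝ) - (v h : ℝ) / m) := by
    have a : ∀ v ∈ Bd, -(j : ℝ) ≤
        ∑ h, ((((c + m - 1 - (∑ x, v x) + v h) / m : ℕ) : ℝ) - (v h : ℝ) / m) := fun v _ => by
      have b : ∀ h ∈ (univ : Finset (Fin j)), (-1 : ℝ) ≤
          (((c + m - 1 - (∑ x, v x) + v h) / m : ℕ) : ℝ) - (v h : ℝ) / m := fun h _ => by
        have b1 := avg_floor_ge hm (v h)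
        have b2 : ((v h / m : ℕ) : ℝ) ≤ (((c + m - 1 - (∑ x, v x) + v h) / m : ℕ) : ℝ) := by
          exact_mod_cast Nat.div_le_div_right (Nat.le_add_left _ _)
        linarith
      have := card_nsmul_le_sum _ _ _ b
      rw [card_univ, Fintype.card_fin, nsmul_eq_mul] at this
      linarith
    have b := card_nsmul_le_sum _ _ _ a
    rw [nsmul_eq_mul] at b
    have c' : (Bd.card : ℝ) ≤ μ := by exact_mod_cast cB
    have := mul_le_mul_of_nonneg_left c' (Nat.cast_nonneg (α := ℝ) j)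
    linarith
  rw [← sum_filter_add_sum_filter_not E (fun v => ∀ h, ζ h ≤ v h), ← hGd, ← hBd]
  linarith

end Pool.Agent.Lib.MP_299528_co.Bd
end

-- part Pool.Agent.Lib.MP_299528_co.W.Defs
section

/-! Definitions for the proof that all but finitely many numerical semigroups satisfy the
inequality. -/

set_option autoImplicit false

namespace Pool.Agent.Lib.MP_299528_co.Bd

open Finset

/-- Number of letters of `b` that lie in `H`, with multiplicity. -/
def ct (H : Finset ℕ) (b : Multiset ℕ) : ℕ := ∑ g ∈ H, b.count g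

/-- Weight of the letters of `b` that lie in `H`. -/
def wt (H : Finset ℕ) (b : Multiset ℕ) : ℕ := ∑ g ∈ H, b.count g * g

/-- The weight of the letter `j` in `a`. -/
def uu (j : ℕ) (a : Multiset ℕ) : ℕ := a.count j * j

/-- The bottom of the line through `a` in direction `g`. -/
def bot (g : ℕ) (a : Multiset ℕ) : Multiset ℕ := a.filter (fun x => x ≠ g)

/-- A linear statistic of the letters in `N`. -/
noncomputable def XX (N : Finset ℕ) (χ : ℕ → ℝ) (a : Multiset ℕ) : ℝ :=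
  ∑ h ∈ N, (a.count h : ℝ) * χ h

/-- The cut-off function of the exchange inequality. -/
noncomputable def FF (D₀ L x : ℝ) : ℝ := max 0 (min 1 ((-x - D₀) / L))

/-- The letters within distance `w` of `gm`. -/
def win (G : Finset ℕ) (gm w : ℕ) : Finset ℕ := G.filter (fun h => gm ≤ h + w ∧ h ≤ gm + w)

/-- Distance to the nearest multiple of `m`. -/
def cd (m t : ℕ) : ℕ := min (t % m) (m - t % m)

namespace Ap

variable (Y : Ap)

/-- The largest possible sum. -/
def T : ℕ := Y.c + Y.m - 1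

/-- The depth of an element. -/
def η (a : Multiset ℕ) : ℕ := Y.T - a.sum

/-- The residue of the depth. -/
def res (a : Multiset ℕ) : ℕ := Y.η a % Y.m

/-- The inequality fails. -/
def Viol : Prop := (Y.k + 1) * Y.n < Y.c

/-- Elements above the conductor. -/
def Z : Finset (Multiset ℕ) := Y.D.filter (fun a => Y.η a < Y.m)

/-- Elements that cannot be extended by `g`. -/
def Un (g : ℕ) : Finset (Multiset ℕ) := Y.D.filter (fun a => g ::ₘ a ∉ Y.D)

/-- Elements that can be extended by `g`. -/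
def Us (g : ℕ) : Finset (Multiset ℕ) := Y.D.filter (fun a => g ::ₘ a ∈ Y.D)

/-- Elements that can be extended by some letter of `N`. -/
def Pu (N : Finset ℕ) : Finset (Multiset ℕ) := Y.D.filter (fun a => ∃ g ∈ N, g ::ₘ a ∈ Y.D)

/-- The surplus of the letter `g`. -/
def GG (g : ℕ) : ℕ := ∑ a ∈ Y.Un g, (a.count g + 1) * Y.δ a

/-- The surplus of a set of letters. -/
def GS (H : Finset ℕ) : ℕ := ∑ g ∈ H, Y.GG g

/-- Number of elements containing `g`. -/
def PP (g : ℕ) : ℕ := (Y.D.filter (fun b => g ∈ b)).card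

/-- Number of occurrences of `g`. -/
def AA (g : ℕ) : ℕ := ∑ b ∈ Y.D, b.count g

/-- The largest exponent of `g` on the line through `a`. -/
def len (g : ℕ) (a : Multiset ℕ) : ℕ :=
  Nat.findGreatest (fun i => bot g a + Multiset.replicate i g ∈ Y.D) (Y.c + Y.m)

/-- The top of the line through `a` in direction `g`. -/
def tp (g : ℕ) (a : Multiset ℕ) : Multiset ℕ := bot g a + Multiset.replicate (Y.len g a) g

/-- The reflection of the line through `a` in direction `g`. -/
def rf (g : ℕ) (a : Multiset ℕ) : Multiset ℕ :=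
  bot g a + Multiset.replicate (Y.len g a - a.count g) g

/-- Total depth of the tops of the lines in direction `g`. -/
def YT (g : ℕ) : ℕ := ∑ a ∈ Y.D, Y.η (Y.tp g a)

open Classical in
/-- The element whose sum is congruent to `x`. -/
noncomputable def rep (x : ℕ) : Multiset ℕ :=
  if h : ∃ t ∈ Y.D, t.sum % Y.m = x % Y.m then h.choose else 0

/-- The mass below level `x`. -/
def II (x : ℕ) : ℕ := ∑ a ∈ Y.D, (Y.δ a - x)

/-- The mean weight per letter. -/
noncomputable def Φ : ℝ := (Y.T : ℝ) / Y.k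

/-- Elements with a quarter of the weight on large coordinates. -/
noncomputable def EE (M : ℝ) : Finset (Multiset ℕ) :=
  Y.D.filter (fun b => (Y.T : ℝ) ≤
    4 * ∑ j ∈ Y.G.filter (fun j => M * Y.Φ ≤ (uu j b : ℝ)), (uu j b : ℝ))

/-- Number of small coordinates other than `i`. -/
noncomputable def sm (i : ℕ) (x : ℝ) (a : Multiset ℕ) : ℕ :=
  ((Y.G.erase i).filter (fun j => (uu j a : ℝ) < 2 * x)).card

/-- Shallow elements with few small coordinates. -/
noncomputable def Ash (i : ℕ) (x e : ℝ) : Finset (Multiset ℕ) :=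
  Y.D.filter (fun a => (Y.η a : ℝ) < x ∧ (Y.sm i x a : ℝ) ≤ e * Y.k)

/-- Almost all letters lie in a window of length `m`. -/
def Win (P glo : ℕ) : Prop :=
  P * (Y.G.filter (fun g => g < glo ∨ glo + Y.m < g)).card ≤ Y.k ∧
    Y.k * Y.low.card * glo ≤ 3 * (Y.T * Y.m) ∧ Y.GS Y.G * glo ≤ 2 * (Y.T * Y.m)

end Ap

/-- Apery data violating the inequality whose letters cluster around `gm`. -/
structure Cl extends Ap where
  gm : ℕ
  w : ℕ
  hgm : m < gm
  hw1 : 1 ≤ w
  hw : 1000 * w ≤ m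
  hk : G.card ≤ m
  hV : toAp.Viol
  hC : 0 < (win G gm w).card
  hlo : (win G gm w).card ≤ 3 * ((win G gm w).filter (fun h => h ≤ gm)).card
  hhi : (win G gm w).card ≤ 3 * ((win G gm w).filter (fun h => gm ≤ h)).card
  hfar : 1000 * (G \ win G gm w).card ≤ (win G gm w).card
  hl : 100 * gm ≤ toAp.T

namespace Cl

variable (Y : Cl)

/-- The cluster. -/
def C : Finset ℕ := win Y.G Y.gm Y.w

/-- The size of the cluster. -/
noncomputable def kc : ℝ := (Y.C.card : ℝ)

/-- The typical length. -/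
noncomputable def l : ℝ := (Y.T : ℝ) / Y.gm

/-- Length over size. -/
noncomputable def lam : ℝ := Y.l / Y.kc

/-- The relative width. -/
noncomputable def Dw : ℝ := (Y.w : ℝ) / Y.m

/-- The proportion of far letters. -/
noncomputable def eB : ℝ := ((Y.G \ Y.C).card : ℝ) / Y.kc

/-- The mean deviation. -/
noncomputable def s : ℝ := (∑ h ∈ Y.C, |(h : ℝ) - Y.gm|) / Y.kc

/-- The surplus of the cluster. -/
noncomputable def Gc : ℝ := (Y.GS Y.C : ℝ)

/-- The unit of all error terms. -/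
noncomputable def E : ℝ := Y.s * Y.l + Y.Gc + Y.m

/-- The small error term. -/
noncomputable def Es : ℝ := (Y.lam + Y.Dw + Y.eB) * Y.E

/-- The error term of the macroscopic estimates. -/
noncomputable def Err : ℝ := Y.eB * Y.l * Y.m + Y.E

/-- The length is small compared with the size. -/
def Sm : Prop := 1000 * Y.T ≤ Y.gm * Y.C.card

/-- The mean of the cluster. -/
noncomputable def gb : ℝ := (∑ h ∈ Y.C, (h : ℝ)) / Y.kc

/-- The mean number of carries. -/
noncomputable def HH (r : ℕ) : ℝ := (∑ h ∈ Y.C, (((r + h) / Y.m : ℕ) : ℝ)) / Y.kc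

/-- The margin of the letter `g`. -/
noncomputable def Tg (g : ℕ) : ℝ :=
  Y.n - (g : ℝ) / Y.gb * ∑ b ∈ Y.D, (b.count g : ℝ) * Y.HH (Y.res b)

/-- The deficit of carries of `b` with respect to the letters in `H`. -/
noncomputable def Df (H : Finset ℕ) (b : Multiset ℕ) : ℝ :=
  (ct H b : ℝ) * ((∑ h ∈ H, (((Y.res b + h) / Y.m : ℕ) : ℝ)) / H.card) -
    ∑ h ∈ H, (b.count h : ℝ) * (((Y.res b + h) / Y.m : ℕ) : ℝ)

/-- The excess weight. -/
noncomputable def VV (b : Multiset ℕ) : ℝ := (wt Y.C b : ℝ) - ct Y.C b * Y.gb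

/-- Unused pairs over a set of elements. -/
noncomputable def UP (P : Finset (Multiset ℕ)) : ℝ :=
  ∑ h ∈ Y.C, ∑ a ∈ P ∩ Y.Un h, ((a.count h : ℝ) + 1)

/-- The elements of `P` on an arc. -/
def arc (P : Finset (Multiset ℕ)) (p u : ℕ) : Finset (Multiset ℕ) :=
  P.filter (fun a => (Y.η a + p) % Y.m < u)

/-- The elements with depth in an interval. -/
def itv (y₁ y₂ : ℕ) : Finset (Multiset ℕ) := Y.D.filter (fun a => y₁ ≤ Y.η a ∧ Y.η a < y₂)

/-- Low elements outside the typical level. -/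
def odd : Finset (Multiset ℕ) := Y.low.filter (fun a => Y.η a < Y.gm ∨ Y.gm + Y.m ≤ Y.η a)

/-- The unused pairs that are charged. -/
noncomputable def Chs : ℝ := Y.UP (Y.low.filter (fun a => 13 * Y.m < 8 * Y.η a))

/-- The unused pairs with surplus. -/
noncomputable def Ufree : ℝ :=
  Y.UP (Y.low.filter (fun a => 8 * Y.η a ≤ 13 * Y.m ∨ 2 * Y.m ≤ Y.η a))

/-- The two edges of the window. -/
def Edge (σ : ℤ) (e : ℕ) : Prop := (σ = 1 ∧ e = 0) ∨ (σ = -1 ∧ e + 1 = Y.m)

/-- Signed distance of a low element from the edge. -/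
def za (σ : ℤ) (e : ℕ) (a : Multiset ℕ) : ℤ := σ * ((Y.η a : ℤ) - Y.gm - e)

/-- Signed distance of an upper element from the edge. -/
def zb (σ : ℤ) (e : ℕ) (b : Multiset ℕ) : ℤ := σ * ((Y.η b : ℤ) - e)

/-- Signed deviation of a letter. -/
def vv (σ : ℤ) (h : ℕ) : ℤ := σ * ((h : ℤ) - Y.gm)

/-- Unused pairs near the edge. -/
noncomputable def Ue (e : ℕ) : ℝ :=
  Y.UP (Y.low.filter (fun a => 8 * |(Y.η a : ℤ) - Y.gm - e| ≤ Y.m))

/-- Mean positive part of the signed deviation. -/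
noncomputable def sp (σ : ℤ) : ℝ := (∑ h ∈ Y.C, max ((Y.vv σ h : ℤ) : ℝ) 0) / Y.kc

end Cl

end Pool.Agent.Lib.MP_299528_co.Bd
end
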