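import Pool.Agent.Lib.MP_299528_co.Short
import Pool.Agent.Lib.MP_299528_co.W.Defs
import Pool.Agent.Lib.MP_299528_co.AsyMain
import Pool.Agent.Lib.MP_299528_co.Bd.Main
import Pool.Agent.Lib.MP_299528_co.W.BQ

-- part Pool.Agent.Lib.MP_299528_co.Bd.Semi
section

/-! Apery data of an actual numerical semigroup. -/

set_option autoImplicit false

namespace Pool.Agent.Lib.MP_299528_co.Bd

open Finset

namespace SemiAux

variable (Y : Sys)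

/-- The multiset of an exponent vector. -/
def ms (b : Y.G → ℕ) : Multiset ℕ := ∑ g : Y.G, Multiset.replicate (b g) (g : ℕ)

theorem ms_sum (b : Y.G → ℕ) : (ms Y b).sum = ∑ g : Y.G, b g * g := by
  unfold ms
  rw [Multiset.sum_sum]
  simp

theorem ms_count (b : Y.G → ℕ) (g : Y.G) : Multiset.count (g : ℕ) (ms Y b) = b g := by
  unfold ms
  rw [Multiset.count_sum', sum_eq_single g]
  · simp
  · intro h _ hh
    rw [Multiset.count_replicate, if_neg fun e => hh (Subtype.ext e)]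
  · simp

theorem ms_mem {b : Y.G → ℕ} {g : ℕ} (h : g ∈ ms Y b) : g ∈ Y.G := by
  unfold ms at h
  obtain ⟨k, -, hk⟩ := Multiset.mem_sum.mp h
  rw [Multiset.eq_of_mem_replicate hk]
  exact k.2

theorem ms_inj : Function.Injective (ms Y) := fun a b h => by
  funext g
  rw [← ms_count Y a, ← ms_count Y b, h]

theorem ms_surj {u : Multiset ℕ} (h : ∀ g ∈ u, g ∈ Y.G) :
    ms Y (fun g => Multiset.count (g : ℕ) u) = u := by
  ext g
  by_cases hg : g ∈ Y.G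
  · exact ms_count Y _ ⟨g, hg⟩
  · rw [Multiset.count_eq_zero_of_notMem fun k => hg (ms_mem Y k),
      Multiset.count_eq_zero_of_notMem fun k => hg (h g k)]

/-- The chosen factorizations. -/
def DD : Finset (Multiset ℕ) := Y.AA.image (ms Y)

theorem DD_down {t : Multiset ℕ} (ht : t ∈ DD Y) {s : Multiset ℕ} (hs : s ≤ t) : s ∈ DD Y := by
  obtain ⟨b, hb, rfl⟩ := mem_image.mp ht
  refine mem_image.mpr ⟨fun g => Multiset.count (g : ℕ) s, Y.tile.low b hb _ fun g => ?_,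
    ms_surj Y fun g hg => ms_mem Y (Multiset.mem_of_le hs hg)⟩
  exact (Multiset.count_le_of_le _ hs).trans (ms_count Y b g).le

theorem DD_apery {t : Multiset ℕ} (ht : t ∈ DD Y) {s : ℕ} (hs : s ∈ Y.S) : s + Y.m ≠ t.sum := by
  obtain ⟨b, hb, rfl⟩ := mem_image.mp ht
  obtain ⟨x, -, rfl⟩ := mem_image.mp hb
  have := Y.apery x s hs
  rw [← sum_coe_sort Y.G] at this
  rw [ms_sum]
  exact this

/-- The Apery data of a system in which all sums of generators are elements. -/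
def ap (hS : ∀ u : Multiset ℕ, (∀ g ∈ u, g ∈ Y.G) → u.sum ∈ Y.S) : Ap where
  m := Y.m
  c := Y.c
  G := Y.G
  D := DD Y
  hm := Y.hm
  hG := Y.hG
  memG := fun t ht g hg => by
    obtain ⟨b, -, rfl⟩ := mem_image.mp ht
    exact ms_mem Y hg
  down := fun t ht s hs => DD_down Y ht hs
  cardD := by
    rw [DD, card_image_of_injective _ (ms_inj Y)]
    exact Y.card_tile
  inj := fun t ht s hs h => by
    obtain ⟨a, ha, rfl⟩ := mem_image.mp ht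
    obtain ⟨b, hb, rfl⟩ := mem_image.mp hs
    rw [ms_sum, ms_sum] at h
    rw [Y.tile.inj a ha b hb ((ZMod.natCast_eq_natCast_iff' _ _ _).mpr h)]
  lt := fun t ht => by
    obtain ⟨a, ha, rfl⟩ := mem_image.mp ht
    have h1 : ∑ g : Y.G, a g * g ≤ Y.c + Y.m - 1 := Y.tile.le a ha
    have h2 := Y.hm
    rw [ms_sum]
    omega
  least := fun u hu => by
    have h1 := hS u hu
    refine ⟨ms Y (Y.V u.sum), mem_image_of_mem _ (Y.V_mem h1), ?_, ?_⟩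
    · have := Y.deg' h1
      rw [ms_sum]
      omega
    · rw [ms_sum]
      exact (ZMod.natCast_eq_natCast_iff' _ _ _).mp (Y.cast_w h1)

theorem ap_n (hS : ∀ u : Multiset ℕ, (∀ g ∈ u, g ∈ Y.G) → u.sum ∈ Y.S) : (ap Y hS).n = Y.NN := by
  rw [← Y.sum_δ]
  refine (sum_image (ms_inj Y).injOn).trans (sum_congr rfl fun b _ => ?_)
  show (Y.c + Y.m - 1 - (ms Y b).sum) / Y.m = _
  rw [ms_sum]
  rfl

theorem pt_add (a b : ℕ) : pt (a + b) = pt a + pt b := ext_one (by simp [pt])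

theorem pt_sum {S : Set (Fin 1 → ℕ)} (h0 : (0 : Fin 1 → ℕ) ∈ S)
    (hadd : ∀ x ∈ S, ∀ y ∈ S, x + y ∈ S) (u : Multiset ℕ) :
    (∀ g ∈ u, pt g ∈ S) → pt u.sum ∈ S := by
  induction u using Multiset.induction_on with
  | empty => exact fun _ => h0
  | cons a u ih =>
    intro h
    rw [Multiset.sum_cons, pt_add]
    exact hadd _ (h a (Multiset.mem_cons_self _ _)) _
      (ih fun g hg => h g (Multiset.mem_cons_of_mem hg))

theorem gen_mod {S : Set (Fin 1 → ℕ)} (h0 : (0 : Fin 1 → ℕ) ∈ S)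
    (hadd : ∀ x ∈ S, ∀ y ∈ S, x + y ∈ S) {m : ℕ} (hm : pt m ∈ S) {g a : ℕ} (hg : pt g ∈ Gen S)
    (ha : pt a ∈ S) (hpos : 0 < a) (hle : a ≤ g) (h : a % m = g % m) : a = g := by
  obtain ⟨i, hi⟩ := (Nat.modEq_iff_dvd' hle).mp h
  have e : pt a + i • pt m = pt g := ext_one (by
    simp only [pt, Pi.add_apply, Pi.smul_apply, smul_eq_mul]
    rw [mul_comm]
    omega)
  rcases hg.2.2 _ ha _ (nsmul_mem' h0 hadd hm i) e with k | k
  · have := congrFun k 0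
    simp only [pt, Pi.zero_apply] at this
    omega
  · rw [k, add_zero] at e
    exact pt_inj e

theorem exists_fun {J : ℕ} (u : Multiset ℕ) (h : Multiset.card u = J) :
    ∃ w : Fin J → ℕ, (∀ i, w i ∈ u) ∧ ∑ i, w i = u.sum := by
  induction u using Quotient.inductionOn with
  | h l =>
    have hl : l.length = J := h
    subst hl
    refine ⟨l.get, fun i => List.get_mem l i, ?_⟩
    simp

end SemiAux

open SemiAux in
theorem exists_ap {S : Set (Fin 1 → ℕ)} (h0 : (0 : Fin 1 → ℕ) ∈ S)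
    (hadd : ∀ x ∈ S, ∀ y ∈ S, x + y ∈ S) (hfin : Sᶜ.Finite) {m : ℕ}
    (hm : IsLeast {t : ℕ | 0 < t ∧ (Pi.single 0 t : Fin 1 → ℕ) ∈ S} m) :
    ∃ Y : Ap, Y.m = m ∧ Y.c = cS S ∧ Y.k + 1 = eS S ∧ Y.n ≤ nS S ∧ eS S ≤ m ∧
      ∀ J : ℕ, (∀ w : Fin (J + 1) → Fin 1 → ℕ, (∀ i, w i ∈ S ∧ w i ≠ 0) →
        ∃ s ∈ S, ∑ i, w i = s + Pi.single 0 m) → Y.Len J := by
  classical
  obtain ⟨Y, e1, e2, e3, e4, e5, e6⟩ := exists_sys2 h0 hadd hfin hm
  have hS : ∀ u : Multiset ℕ, (∀ g ∈ u, g ∈ Y.G) → u.sum ∈ Y.S := fun u hu => by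
    rw [e5]
    exact pt_sum h0 hadd u fun g hg => (e6 g (hu g hg)).1
  have hmS : pt m ∈ S := single_eq_pt m ▸ hm.1.2
  have hm0 : 0 < m := hm.1.1
  refine ⟨ap Y hS, e1, e2, e3, ?_, ?_, fun J hJ t ht => ?_⟩
  · rw [ap_n, ← e4]
    exact Y.NN_le
  · rw [← e3]
    have h1 : #Y.G ≤ #(Ioo 0 m) := by
      refine card_le_card_of_injOn (fun g => g % m) (fun g hg => ?_) fun g hg g' hg' h => ?_
      · have k1 := Y.hG g hg
        refine mem_coe.mpr (mem_Ioo.mpr ⟨Nat.pos_of_ne_zero fun k => ?_, Nat.mod_lt _ hm0⟩)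
        have := gen_mod h0 hadd hmS (e6 g hg) hmS hm0 (by omega) (by rw [Nat.mod_self]; exact k.symm)
        omega
      · have k1 := Y.hG g hg
        have k2 := Y.hG g' hg'
        rcases le_total g g' with k | k
        · exact gen_mod h0 hadd hmS (e6 g' hg') (e6 g hg).1 (by omega) k h
        · exact (gen_mod h0 hadd hmS (e6 g hg) (e6 g' hg').1 (by omega) k h.symm).symm
    rw [Nat.card_Ioo] at h1
    omega
  · by_contra hc
    obtain ⟨s, hs, hcard⟩ : ∃ s ≤ t, Multiset.card s = J + 1 := by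
      have : 0 < Multiset.card (Multiset.powersetCard (J + 1) t) := by
        rw [Multiset.card_powersetCard]
        exact Nat.choose_pos (by omega)
      obtain ⟨s, hs⟩ := Multiset.card_pos_iff_exists_mem.mp this
      exact ⟨s, Multiset.mem_powersetCard.mp hs⟩
    have hsD := DD_down Y ht hs
    obtain ⟨w, hw1, hw2⟩ := exists_fun s hcard
    obtain ⟨x, hx, hx2⟩ := hJ (fun i => pt (w i)) fun i =>
      have k := e6 _ ((ap Y hS).memG s hsD _ (hw1 i))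
      ⟨k.1, k.2.1⟩
    refine DD_apery Y hsD (s := x 0) (by rw [e5]; show pt (x 0) ∈ S; rwa [pt_eq]) ?_
    have := congrFun hx2 0
    simp only [Finset.sum_apply, pt_zero, Pi.add_apply, Pi.single_eq_same] at this
    rw [e1, ← this, hw2]

end Pool.Agent.Lib.MP_299528_co.Bd
end

-- part Pool.Agent.Lib.MP_299528_co.Bd.Final
section

/-! The two theorems. -/

set_option autoImplicit false

namespace Pool.Agent.Lib.MP_299528_co.Bd

open Finset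

theorem wilf_length (J : ℕ) : ∃ c₀ : ℕ, ∀ (S : Set (Fin 1 → ℕ)) (m : ℕ),
    (0 : Fin 1 → ℕ) ∈ S → (∀ x ∈ S, ∀ y ∈ S, x + y ∈ S) → Sᶜ.Finite →
    IsLeast {t : ℕ | 0 < t ∧ (Pi.single 0 t : Fin 1 → ℕ) ∈ S} m →
    (∀ w : Fin (J + 1) → Fin 1 → ℕ, (∀ i, w i ∈ S ∧ w i ≠ 0) →
      ∃ s ∈ S, ∑ i, w i = s + Pi.single 0 m) →
    c₀ ≤ cS S → cS S ≤ eS S * nS S := by
  obtain ⟨m₀, h⟩ := ap_wilf J
  refine ⟨(4 * (m₀ + 1)) ^ (2 * (m₀ + 1) ^ 3), fun S m h0 hadd hfin hm hJ hc => ?_⟩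
  obtain ⟨Y, e1, e2, e3, e4, e5, e6⟩ := exists_ap h0 hadd hfin hm
  by_cases hm0 : m₀ ≤ m
  · have := h Y (e6 J hJ) (e1 ▸ hm0)
    rw [e2, e3] at this
    exact this.trans (Nat.mul_le_mul_left _ e4)
  · refine wilf_large h0 hadd hfin (le_trans ?_ hc)
    have he : eS S ≤ m₀ + 1 := by omega
    calc (4 * eS S) ^ (2 * eS S ^ 3) ≤ (4 * (m₀ + 1)) ^ (2 * eS S ^ 3) :=
          Nat.pow_le_pow_left (by omega) _
      _ ≤ _ := Nat.pow_le_pow_right (by omega)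
          (Nat.mul_le_mul_left _ (Nat.pow_le_pow_left he _))

theorem wilf_asym (ε : ℝ) (hε : 0 < ε) : ∃ c₀ : ℕ, ∀ S : Set (Fin 1 → ℕ),
    (0 : Fin 1 → ℕ) ∈ S → (∀ x ∈ S, ∀ y ∈ S, x + y ∈ S) → Sᶜ.Finite → c₀ ≤ cS S →
    (1 - ε) * (cS S : ℝ) ≤ (eS S : ℝ) * nS S := by
  classical
  obtain ⟨q, hq⟩ := asym_unif ε hε
  obtain ⟨c₀, h⟩ := wilf_length q
  refine ⟨c₀, fun S h0 hadd hfin hc => ?_⟩
  have hex : ∃ t : ℕ, 0 < t ∧ (Pi.single 0 t : Fin 1 → ℕ) ∈ S :=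
    ⟨cS S + 1, Nat.succ_pos _, mem_of_cS_le hfin (by simp)⟩
  have hm : IsLeast {t : ℕ | 0 < t ∧ (Pi.single 0 t : Fin 1 → ℕ) ∈ S} (Nat.find hex) :=
    ⟨Nat.find_spec hex, fun _ h => Nat.find_min' hex h⟩
  set m := Nat.find hex
  by_cases hd : q * m ≤ cS S
  · exact hq S m h0 hadd hfin hm hd
  · have h1 := h S m h0 hadd hfin hm (fun w hw => by
      have hge : ∀ i, m ≤ w i 0 := fun i => hm.2 ⟨by
        by_contra hh
        exact (hw i).2 (ext_one (by simpa using hh)), by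
        rw [single_eq_pt, pt_eq]
        exact (hw i).1⟩
      have hs : (q + 1) * m ≤ ∑ i, w i 0 := by
        have := card_nsmul_le_sum (univ : Finset (Fin (q + 1))) (fun i => w i 0) m
          (fun i _ => hge i)
        simpa using this
      rw [add_mul, one_mul] at hs
      refine ⟨pt (∑ i, w i 0 - m), mem_of_cS_le hfin (by rw [pt_zero]; omega), ext_one ?_⟩
      simp only [Finset.sum_apply, Pi.add_apply, pt_zero, Pi.single_eq_same]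
      omega) hc
    have h2 : (cS S : ℝ) ≤ (eS S : ℝ) * nS S := by exact_mod_cast h1
    have h3 : (0 : ℝ) ≤ cS S := Nat.cast_nonneg _
    nlinarith

end Pool.Agent.Lib.MP_299528_co.Bd
end

-- part Pool.Agent.Lib.MP_299528_co.W.BT
section

/-! Slack in the inequality for the elements of one type. -/

set_option autoImplicit false

namespace Pool.Agent.Lib.MP_299528_co

open Finset Par

theorem type_main_slack (Θ₀ Γ₁ D η : ℝ) (hΘ : 0 ≤ Θ₀) (hΓ₁ : 0 ≤ Γ₁) (hD0 : 0 < D) (hD1 : D ≤ 1)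
    (hη : 0 < η) : ∃ ϑ : ℝ, 0 < ϑ ∧ ϑ ≤ 1 / 2 ∧ ∀ (Y : Par) (o : ℕ) (Lo Hi : Finset ℕ),
      Y.δ ≤ 2 / Y.Γ → (Y.c : ℝ) / Y.m ≤ Θ₀ * Y.ee → Lo ⊆ Y.J → Hi ⊆ Y.J →
      (∀ i ∈ Lo, Y.γ i ≤ Γ₁) → (∀ i ∈ Lo, ∀ j ∈ Hi, Y.γ i + D ≤ Y.γ j) →
      η ≤ ∑ j ∈ Lo, Y.μ j → η ≤ ∑ j ∈ Hi, Y.μ j + Y.hv.card / Y.ee → ∀ τ : ℕ → ℕ,
      (1 - 2 / Y.Γ) / Y.ee * (((Y.c : ℝ) / Y.m - Y.J.card * Y.L * (Y.Γ + 1)) * Y.W o τ Y.Yw -
        2 * Y.W o τ (fun x => Y.a (Y.c + x) Y.m)) ≤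
        (1 - ϑ) * Y.nn o τ Y.c +
          2 * (4 * (Y.c / Y.m) / Y.ee) * (Y.Γ + 6) * (1 + 2 / η) * Y.err o τ := by
  obtain ⟨ϑ, hϑ0, hϑ1, hϑ⟩ := type_ineq_slack (4 * Θ₀) Γ₁ D η (by positivity) hΓ₁ hD0 hD1 hη
  refine ⟨ϑ, hϑ0, hϑ1, fun Y o Lo Hi hδ hΘq hLo hHi hLΓ hLH hη1 hη2' τ => ?_⟩
  obtain ⟨hζ0, hζ1⟩ := Y.ζ_bounds
  have hΓ := Y.Γ_ge
  have hm := Y.m_pos
  have hee := Y.ee_pos
  have hδ0 := Y.δ_nonneg
  set ζ : ℝ := 1 - 2 / Y.Γ with hζ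
  set q : ℝ := Y.c / Y.m with hq
  set F : ℝ := Y.J.card * Y.L * (Y.Γ + 1) with hF
  set A : ℝ := 4 * q / Y.ee with hA
  set p := Y.W o τ (fun _ => 1) with hp
  set M := Y.W o τ (fun x => Y.a (Y.c + x) Y.m) with hM
  set Yb := Y.W o τ Y.Yw with hYb
  set P := Y.Z o τ (fun t => t / Y.m) with hP
  set P' := Y.Z o τ (fun t => 1 - t / Y.m) with hP'
  set n' := Y.nn o τ (Y.c - Y.m) with hn'
  have hq0 : 0 ≤ q := by positivity
  have hF0 : 0 ≤ F := by positivity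
  have hA0 : 0 ≤ A := by positivity
  have hp0 : 0 ≤ p := Y.W_nonneg o τ (fun _ _ => zero_le_one)
  have hM0 : 0 ≤ M := Y.W_nonneg o τ (fun _ _ => Nat.cast_nonneg _)
  have hY0 : 0 ≤ Yb := Y.W_nonneg o τ (fun _ hx => (Y.Yw_bounds hx).1)
  have hY2 : Yb ≤ 2 * p := by
    rw [hp, ← W_const]
    exact Y.W_mono o τ (fun _ hx => (Y.Yw_bounds hx).2)
  have hPb := Y.Z_le o τ (f := fun t => t / Y.m) (fun _ _ => by positivity)
  have hQb := Y.Z_le o τ (f := fun t => 1 - t / Y.m)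
    (fun t ht => sub_nonneg.mpr ((div_le_one hm).mpr (by exact_mod_cast ht.le)))
  rw [W_sub] at hQb
  have hn0 : 0 ≤ n' := sum_nonneg (fun _ _ => Y.χ_nonneg o _ _)
  have hW0 : ∀ j, 0 ≤ Y.W o τ (fun x => Y.bd o j (Y.c + x)) :=
    fun j => Y.W_nonneg o τ (fun _ _ => Y.bd_nonneg o _ _)
  have hc0 : ∀ j, 0 ≤ Y.W o τ (Y.cut j) := fun j => Y.W_nonneg o τ (fun _ _ => Y.cut_nonneg _ _)
  have hs1 : 0 ≤ ∑ j ∈ Y.J, Y.μ j * Y.W o τ (Y.cut j) :=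
    sum_nonneg (fun j _ => mul_nonneg (Y.μ_pos j).le (hc0 j))
  have hs2 : 0 ≤ ∑ j ∈ Y.J, (Y.W o τ (fun x => Y.bd o j (Y.c + x)) + Y.eN o τ j) :=
    sum_nonneg (fun j _ => add_nonneg (hW0 j) (Y.eN_nonneg o τ j))
  have hδp : 0 ≤ Y.δ * p := by positivity
  have herr0 : 0 ≤ Y.err o τ := by unfold err; linarith
  have htriv : ζ / Y.ee * ((q - F) * Yb - 2 * M) ≤ A / 2 * p := by
    have k1 : (q - F) * Yb - 2 * M ≤ 2 * q * p := by
      linarith [mul_nonneg hF0 hY0, mul_le_mul_of_nonneg_left hY2 hq0]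
    have k2 : ζ * (2 * q * p) ≤ 2 * q * p := by
      linarith [mul_nonneg (sub_nonneg.mpr hζ1) (by positivity : 0 ≤ 2 * q * p)]
    have k3 := mul_le_mul_of_nonneg_left k1 hζ0
    rw [hA, show 4 * q / Y.ee / 2 * p = 2 * q * p / Y.ee by ring, div_mul_eq_mul_div]
    exact div_le_div_of_nonneg_right (by linarith) hee.le
  rw [nn_split, ← hn', ← hP, ← hP']
  have hAe : 0 ≤ A * Y.err o τ := by positivity
  have hη2 : (0 : ℝ) ≤ 2 / η := by positivity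
  have hAe2 : A * Y.err o τ ≤ 2 * A * (Y.Γ + 6) * (1 + 2 / η) * Y.err o τ := by
    have k1 := mul_nonneg hAe (by linarith : (0 : ℝ) ≤ 2 * Y.Γ + 11)
    have k2 := mul_nonneg (mul_nonneg hAe (by linarith : (0 : ℝ) ≤ 2 * Y.Γ + 12)) hη2
    linarith
  have hnn : 0 ≤ (1 / 2 - ϑ) * (n' + P + P') :=
    mul_nonneg (sub_nonneg.mpr hϑ1) (by linarith [hPb.1, hQb.1])
  have hAA : A ≤ 4 * Θ₀ := by
    rw [hA, div_le_iff₀ hee]
    linarith
  by_cases hcap : ∃ j ∈ Y.J, A < Y.α o τ j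
  · obtain ⟨j, hj, hA'⟩ := hcap
    have k1 := Y.raw_one o τ j
    have k2 := Y.raw_low o τ j
    have k3 : 0 ≤ Y.W o τ (fun x => (KK Y.m (Y.le j) x - 1) * (1 - Y.bd o j (Y.c + x))) :=
      Y.W_nonneg o τ (fun x hx => mul_nonneg
        (sub_nonneg.mpr (Y.KK_real hx (Y.m_le j)).2.2.2) (Y.bd_le o _ _))
    have k4 := mul_nonneg (Y.α_nonneg o τ j) k3
    rw [← hp, ← hP, ← hP'] at k1
    rw [← hn', ← hP, ← hP'] at k2
    set X := Y.W o τ (fun x => Y.bd o j (Y.c + x)) + Y.eN o τ j with hX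
    have k5 : Y.α o τ j * (p - X) ≤ n' + P + P' := by rw [hX]; linarith
    have k6 : A * (p - X) ≤ n' + P + P' := by
      by_cases h : 0 ≤ p - X
      · linarith [mul_le_mul_of_nonneg_right hA'.le h]
      · linarith [mul_nonneg hA0 (neg_nonneg.mpr (not_le.mp h).le), hPb.1, hQb.1]
    have k7 : X ≤ Y.err o τ := by
      have := single_le_sum (f := fun j => Y.W o τ (fun x => Y.bd o j (Y.c + x)) + Y.eN o τ j)
        (fun j _ => add_nonneg (hW0 j) (Y.eN_nonneg o τ j)) hj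
      unfold err
      linarith
    linarith [mul_le_mul_of_nonneg_left k7 hA0]
  push Not at hcap
  rcases hp0.eq_or_lt with hp1 | hp1
  · rw [← hp1, mul_zero] at htriv
    linarith [hPb.1, hQb.1]
  set H := Y.W o τ Y.hd with hH
  have hH0 : 0 ≤ H := Y.W_nonneg o τ (fun x _ => Y.hd_nonneg x)
  have hB : ζ * H / Y.hv.card ≤ n' := by
    rcases (Nat.cast_nonneg (α := ℝ) Y.hv.card).eq_or_lt with h | h
    · rw [← h, div_zero]
      exact hn0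
    · rw [div_le_iff₀ h, mul_comm n']
      exact Y.raw_heavy o τ
  have hB2 : Y.hv.card / Y.ee * (ζ * H / Y.hv.card) = ζ * H / Y.ee := by
    rcases (Nat.cast_nonneg (α := ℝ) Y.hv.card).eq_or_lt with h | h
    · have h1 : Y.hv = ∅ := card_eq_zero.mp (by exact_mod_cast h.symm)
      have h2 : H = 0 := by simp [hH, W, hd, h1]
      simp [h2]
    · field_simp
  have key := hϑ Y.J Lo Hi (Y.α o τ) Y.γ (fun j => Y.W o τ (fun x => UU Y.m (Y.le j) x / Y.m))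
    (fun j => Y.W o τ (fun x => KK Y.m (Y.le j) x))
    (fun j => Y.W o τ (Y.cut j) + Y.δ * p + (Y.W o τ (fun x => Y.bd o j (Y.c + x)) + Y.eN o τ j))
    Y.μ (Y.W o τ (fun x => x / Y.m)) P P' n' p A Y.Γ
    (ζ * H / Y.hv.card) (Y.hv.card / Y.ee) hp1 hA0 hAA (by linarith)
    (fun j hj => ⟨Y.α_nonneg o τ j, hcap j hj⟩) (fun j _ => Y.γ_ge j)
    (fun j _ => ⟨Y.W_nonneg o τ (fun _ _ => by positivity),
      Y.W_mono o τ (fun x hx => (Y.KK_real hx (Y.m_le j)).2.1)⟩)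
    (Y.W_nonneg o τ (fun _ _ => by positivity))
    (Y.W_mono o τ (fun x hx => (Y.KK_real hx le_rfl).2.2.1))
    (fun j _ => by
      rw [hp, ← W_const, ← W_sub, ← W_add]
      exact sum_congr rfl (fun x hx => by
        simp only [(Y.KK_real (mem_range.mp hx) (Y.m_le j)).1, γ]))
    (fun j _ => Y.W_mono o τ (fun x hx => (Y.KK_real hx (Y.m_le j)).2.2.2))
    (fun i _ j _ hij => Y.W_mono o τ (fun x _ => by
      have : (Y.le i : ℝ) ≤ Y.le j := (div_le_div_iff_of_pos_right hm).mp hij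
      exact_mod_cast KK_mono (by exact_mod_cast this)))
    hPb.1 hQb.1
    (fun j _ => add_nonneg (add_nonneg (hc0 j) hδp) (add_nonneg (hW0 j) (Y.eN_nonneg o τ j)))
    (fun j _ => by
      have := mul_nonneg (Y.α_nonneg o τ j) (add_nonneg (hc0 j) (Y.eN_nonneg o τ j))
      linarith [Y.raw_P o τ j])
    (fun j _ => by
      have := mul_nonneg (Y.α_nonneg o τ j) (add_nonneg hδp (Y.eN_nonneg o τ j))
      linarith [Y.raw_Q o τ j])
    hPb.2 hQb.2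
    (fun j hj => by
      have k1 : Y.W o τ (fun x => KK Y.m (Y.le j) x) - p -
          Y.Γ * Y.W o τ (fun x => Y.bd o j (Y.c + x)) ≤
          Y.W o τ (fun x => (KK Y.m (Y.le j) x - 1) * (1 - Y.bd o j (Y.c + x))) := by
        rw [hp, ← W_mul, ← W_sub, ← W_sub]
        refine Y.W_mono o τ (fun x hx => ?_)
        obtain ⟨a1, a2, -, -⟩ := Y.KK_real hx (Y.m_le j)
        have a3 := Y.γ_le hj
        have a4 : (0 : ℝ) ≤ x / Y.m := by positivity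
        have a5 : (KK Y.m (Y.le j) x : ℝ) - 1 ≤ Y.Γ := by unfold γ at a3; linarith
        linarith [mul_le_mul_of_nonneg_right a5 (Y.bd_nonneg o j (Y.c + x))]
      have k2 : 0 ≤ (Y.Γ + 1) * (Y.W o τ (Y.cut j) + Y.δ * p) +
          Y.W o τ (fun x => Y.bd o j (Y.c + x)) + Y.Γ * Y.eN o τ j := by
        have := hc0 j
        have := hW0 j
        have := Y.eN_nonneg o τ j
        positivity
      have k3 := mul_nonneg (Y.α_nonneg o τ j) k2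
      have k4 := mul_le_mul_of_nonneg_left k1 (Y.α_nonneg o τ j)
      linarith [Y.raw_low o τ j])
    (by positivity) hB (fun j _ => (Y.μ_pos j).le) (by positivity) Y.sum_μ
    hLo hHi hLΓ hLH hη1 hη2'
  have e1 : ∑ j ∈ Y.J, Y.μ j * (Y.W o τ (fun x => KK Y.m (Y.le j) x) / Y.γ j) +
      Y.hv.card / Y.ee * p = Yb := by
    rw [hYb, hp, ← W_const]
    unfold Yw
    rw [W_add, W_sum]
    congr 1
    refine sum_congr rfl (fun j _ => ?_)
    rw [W_mul, div_eq_inv_mul, ← W_mul]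
    simp only [div_eq_inv_mul]
  set T := ∑ j ∈ Y.J, Y.γ j * Y.β o τ j with hT
  have hT0 : 0 ≤ T := sum_nonneg (fun j _ =>
    mul_nonneg (zero_le_one.trans (Y.γ_ge j)) (Nat.cast_nonneg _))
  have e2 : ∑ j ∈ Y.J, Y.μ j * (Y.γ j * Y.α o τ j) = T / Y.ee := by
    rw [hT, sum_div]
    refine sum_congr rfl (fun j _ => ?_)
    have h2 : (0 : ℝ) < Y.L := by exact_mod_cast Y.hL
    unfold μ α
    field_simp
  have e3 : ∑ j ∈ Y.J, Y.μ j * (Y.W o τ (Y.cut j) + Y.δ * p +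
      (Y.W o τ (fun x => Y.bd o j (Y.c + x)) + Y.eN o τ j)) ≤ Y.err o τ := by
    have h0 : (0 : ℝ) ≤ Y.hv.card / Y.ee := by positivity
    have h1 : ∑ j ∈ Y.J, Y.μ j ≤ 1 := by linarith [Y.sum_μ]
    have h2 : ∀ j ∈ Y.J, Y.μ j * (Y.W o τ (fun x => Y.bd o j (Y.c + x)) + Y.eN o τ j) ≤
        Y.W o τ (fun x => Y.bd o j (Y.c + x)) + Y.eN o τ j := fun j hj =>
      mul_le_of_le_one_left (add_nonneg (hW0 j) (Y.eN_nonneg o τ j))
        ((single_le_sum (fun j _ => (Y.μ_pos j).le) hj).trans h1)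
    have h3 := sum_le_sum h2
    have h4 := mul_le_mul_of_nonneg_right h1 hδp
    simp only [mul_add (Y.μ _) (_ + _), mul_add (Y.μ _) (Y.W o τ (Y.cut _)), sum_add_distrib]
    rw [← sum_mul]
    unfold err
    linarith
  rw [e1, e2, hB2] at key
  have d1 := Y.raw_deg o (by linarith) τ
  rw [← hq, ← hp, ← hM, ← hT, ← hF, ← hH] at d1
  have d2 : ζ * (1 + Y.δ) ≤ 1 := by
    have := mul_nonneg (sub_nonneg.mpr hζ1) hδ0
    linarith
  have d3 : ζ * ((q - F) * p - M) ≤ p * T + ζ * H := by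
    have m1 := mul_le_mul_of_nonneg_left d1 hζ0
    have m2 := mul_le_mul_of_nonneg_right d2 (mul_nonneg hp0 hT0)
    linarith
  have d4 : p * (ζ / Y.ee * ((q - F) * Yb - 2 * M)) ≤ (p * (T / Y.ee) + ζ * H / Y.ee) * Yb := by
    have m1 := mul_le_mul_of_nonneg_right d3 hY0
    have m2 := mul_le_mul_of_nonneg_left hY2 (mul_nonneg hζ0 hM0)
    have m3 : p * (ζ / Y.ee * ((q - F) * Yb - 2 * M)) =
        (p * ζ * ((q - F) * Yb - 2 * M)) / Y.ee := by ring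
    have m4 : (p * (T / Y.ee) + ζ * H / Y.ee) * Yb = ((p * T + ζ * H) * Yb) / Y.ee := by ring
    rw [m3, m4]
    exact div_le_div_of_nonneg_right (by linarith) hee.le
  have d5 := le_of_mul_le_mul_left (d4.trans key) hp1
  have d6 := mul_le_mul_of_nonneg_left e3
    (by positivity : 0 ≤ 2 * A * (Y.Γ + 6) * (1 + 2 / η))
  linarith

end Pool.Agent.Lib.MP_299528_co
end

-- part Pool.Agent.Lib.MP_299528_co.W.BM
section

/-! Spread light letters at bounded depth give the inequality. -/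

set_option autoImplicit false

namespace Pool.Agent.Lib.MP_299528_co

open Finset

theorem main_slack (Θ₀ Γ₁ D η : ℝ) (hΘ : 0 ≤ Θ₀) (hΓ₁ : 0 ≤ Γ₁) (hD0 : 0 < D) (hD1 : D ≤ 1)
    (hη : 0 < η) : ∃ ϑ : ℝ, 0 < ϑ ∧ ϑ ≤ 1 / 2 ∧ ∀ (Y : Par) (Lo Hi : Finset ℕ),
      Y.δ ≤ 2 / Y.Γ → (Y.c : ℝ) / Y.m ≤ Θ₀ * Y.ee → Lo ⊆ Y.J → Hi ⊆ Y.J →
      (∀ i ∈ Lo, Y.γ i ≤ Γ₁) → (∀ i ∈ Lo, ∀ j ∈ Hi, Y.γ i + D ≤ Y.γ j) →
      η ≤ ∑ j ∈ Lo, Y.μ j → η ≤ ∑ j ∈ Hi, Y.μ j + Y.hv.card / Y.ee →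
      (1 - 2 / Y.Γ) * (((Y.c : ℝ) / Y.m - Y.J.card * Y.L * (Y.Γ + 1)) * Y.m - 2 * Y.n) ≤
        (1 - ϑ) * (Y.ee * Y.n) + 8 * (Y.c / Y.m) * (Y.Γ + 6) * (1 + 2 / η) *
          (2 * (Y.δ * Y.m) + Y.J.card * (Y.m + Y.n) / Y.L) := by
  obtain ⟨ϑ, h0, h12, H⟩ := type_main_slack Θ₀ Γ₁ D η hΘ hΓ₁ hD0 hD1 hη
  refine ⟨ϑ, h0, h12, fun Y Lo Hi hδ hc hLo hHi hγ hgap hμ1 hμ2 => ?_⟩
  obtain ⟨o, ho⟩ := Y.exists_o
  have hee := Y.ee_pos
  have hm := Y.m_pos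
  have h1 := sum_le_sum (s := Y.Ty o)
    (fun τ _ => H Y o Lo Hi hδ hc hLo hHi hγ hgap hμ1 hμ2 τ)
  rw [← mul_sum, sum_sub_distrib, ← mul_sum, ← mul_sum, Y.sum_W, Y.sum_Yw, sum_add_distrib,
    ← mul_sum, Y.sum_nn, ← mul_sum] at h1
  have h2 : ∑ τ ∈ Y.Ty o, Y.W o τ (fun x => Y.a (Y.c + x) Y.m) ≤ Y.n := by
    rw [← Y.sum_nn o]
    refine sum_le_sum (fun τ _ => le_trans (le_of_eq ?_) (Y.ineq_m o τ))
    exact sum_congr rfl (fun x _ => mul_comm _ _)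
  have h3 := (Y.sum_err o).trans (add_le_add_right ho _)
  have h4 := mul_le_mul_of_nonneg_left h3
    (by positivity : 0 ≤ 2 * (4 * ((Y.c : ℝ) / Y.m) / Y.ee) * (Y.Γ + 6) * (1 + 2 / η))
  have h5 := mul_le_mul_of_nonneg_left h2 (div_nonneg Y.ζ_bounds.1 hee.le)
  have h6 : (1 - 2 / Y.Γ) / Y.ee *
      (((Y.c : ℝ) / Y.m - Y.J.card * Y.L * (Y.Γ + 1)) * Y.m - 2 * Y.n) ≤
      (1 - ϑ) * Y.n + 2 * (4 * ((Y.c : ℝ) / Y.m) / Y.ee) * (Y.Γ + 6) * (1 + 2 / η) *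
        (2 * (Y.δ * Y.m) + Y.J.card * (Y.m + Y.n) / Y.L) := by linarith
  have h7 := mul_le_mul_of_nonneg_left h6 hee.le
  have e1 : ∀ x y : ℝ, Y.ee * (x / Y.ee * y) = x * y := fun x y => by field_simp
  have e2 : ∀ a x y z u t : ℝ, Y.ee * (a * x + 2 * (4 * y / Y.ee) * z * u * t) =
      a * (Y.ee * x) + 8 * y * z * u * t := fun a x y z u t => by field_simp; ring
  rwa [e1, e2] at h7

/-- A set of letters covered by some classes and the heavy letters. -/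
theorem Par.card_cover (Y : Par) (A B : Finset ℕ) (hA : A ⊆ Y.G)
    (hB : ∀ g ∈ A, ∀ j ∈ Y.J, g ∈ Y.cls j → j ∈ B) :
    A.card ≤ ∑ j ∈ B, (Y.cls j).card + (A ∩ Y.hv).card := by
  classical
  have h1 : A ⊆ B.biUnion Y.cls ∪ A ∩ Y.hv := by
    intro g hg
    by_cases h2 : g < Y.Γ * Y.m
    · have h3 : g ∈ Y.cls ((g - Y.m) / Y.w) := mem_filter.mpr ⟨hA hg, h2, rfl⟩
      have h4 := (Y.cls_spec h3).2.1
      have h5 : (g - Y.m) / Y.w ∈ Y.J := by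
        refine mem_filter.mpr ⟨mem_range.mpr ?_, by omega⟩
        have := Y.hN
        exact (Nat.div_lt_iff_lt_mul Y.hw).mpr (by omega)
      exact mem_union_left _ (mem_biUnion.mpr ⟨_, hB g hg _ h5 h3, h3⟩)
    · exact mem_union_right _ (mem_inter.mpr ⟨hg, mem_filter.mpr ⟨hA hg, h2⟩⟩)
  exact (card_le_card h1).trans ((card_union_le _ _).trans
    (Nat.add_le_add_right card_biUnion_le _))

theorem Par.mass_cover (Y : Par) (B : Finset ℕ) (P x y : ℕ) (hP : 1 ≤ P)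
    (hee : Y.ee ≤ 2 * Y.G.card) (h1 : Y.G.card ≤ P * x)
    (h2 : x ≤ ∑ j ∈ B, (Y.cls j).card + y) :
    1 / (2 * (P : ℝ)) ≤ ∑ j ∈ B, Y.μ j + y / Y.ee := by
  have he := Y.ee_pos
  have hP' : (0 : ℝ) < P := by exact_mod_cast hP
  have k1 : (Y.G.card : ℝ) ≤ P * x := by exact_mod_cast h1
  have k2 : (x : ℝ) ≤ ∑ j ∈ B, ((Y.cls j).card : ℝ) + y := by exact_mod_cast h2
  have k3 : (∑ j ∈ B, ((Y.cls j).card : ℝ)) / Y.ee ≤ ∑ j ∈ B, Y.μ j := by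
    rw [sum_div]
    refine sum_le_sum (fun j _ => ?_)
    unfold Par.μ
    exact div_le_div_of_nonneg_right (le_add_of_nonneg_right (Nat.cast_nonneg _)) he.le
  have k4 : 1 / (2 * (P : ℝ)) ≤ x / Y.ee := by
    rw [div_le_div_iff₀ (by positivity) he]
    linarith
  have k5 : (x : ℝ) / Y.ee ≤ (∑ j ∈ B, ((Y.cls j).card : ℝ)) / Y.ee + y / Y.ee := by
    rw [← add_div]
    exact div_le_div_of_nonneg_right k2 he.le
  linarith

theorem spread_num {ϑ ε q ν k J L Γ δ u Θ R : ℝ} (hε : ε = ϑ / 5) (h0 : 0 < ϑ) (h1 : ϑ ≤ 1 / 2)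
    (hq : 0 < q) (hν : 0 ≤ ν) (hνΘ : ν ≤ Θ) (hJL : 0 ≤ J * L) (hΓ : 0 ≤ Γ)
    (hζ : 1 - 2 / Γ ≤ 1) (hv : (k + 1) * ν ≤ q)
    (b1 : 2 / Γ ≤ ε) (b2 : 16 * (Γ + 6) * u * δ ≤ ε) (b3 : 8 * (Γ + 6) * u * R ≤ ε)
    (b4 : J * L * (Γ + 1) + 2 * Θ + J * L * Θ ≤ ε * q)
    (key : (1 - 2 / Γ) * (q - J * L * (Γ + 1) - 2 * ν) ≤
      (1 - ϑ) * ((k + J * L) * ν) + 8 * q * (Γ + 6) * u * (2 * δ + R)) : False := by
  have b5 := mul_nonneg (sub_nonneg.mpr hζ) (by positivity : 0 ≤ J * L * (Γ + 1) + 2 * ν)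
  have c1 := mul_le_mul_of_nonneg_right b1 hq.le
  have c2 := mul_le_mul_of_nonneg_right b2 hq.le
  have c3 := mul_le_mul_of_nonneg_right b3 hq.le
  have c4 : (k + J * L) * ν ≤ q + J * L * Θ := by
    have := mul_le_mul_of_nonneg_left hνΘ hJL
    linarith
  have c5 := mul_le_mul_of_nonneg_left c4 (by linarith : 0 ≤ 1 - ϑ)
  have c6 : 0 ≤ ϑ * (J * L * Θ) := mul_nonneg h0.le (mul_nonneg hJL (hν.trans hνΘ))
  have c7 := mul_pos h0 hq
  subst hε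
  linarith

open Classical in
theorem spread (Θ₀ Γ₁ P : ℕ) (hP : 1 ≤ P) : ∃ q₀ : ℕ, ∀ (Y : Sys) (t : ℕ), q₀ * Y.m ≤ Y.c →
    Y.c ≤ Θ₀ * ((Y.G.card + 1) * Y.m) → t ≤ Γ₁ * Y.m →
    Y.G.card ≤ P * (Y.G.filter (fun g => g ≤ t)).card →
    Y.G.card ≤ P * (Y.G.filter (fun g => P * t + Y.m ≤ P * g)).card →
    Y.c ≤ (Y.G.card + 1) * ((range Y.c).filter (fun s => s ∈ Y.S)).card := by
  have hP' : (1 : ℝ) ≤ P := by exact_mod_cast hP
  have hη : (0 : ℝ) < 1 / (2 * P) := by positivity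
  obtain ⟨ϑ, hϑ0, hϑ1, H⟩ := main_slack Θ₀ Γ₁ (1 / (2 * P)) (1 / (2 * P)) (Nat.cast_nonneg _)
    (Nat.cast_nonneg _) hη (by rw [div_le_one (by positivity)]; linarith) hη
  obtain ⟨u, hu⟩ : ∃ u : ℝ, u = 1 + 2 / (1 / (2 * (P : ℝ))) := ⟨_, rfl⟩
  rw [← hu] at H
  have hu0 : 0 ≤ u := by rw [hu]; positivity
  have ht : 0 < ϑ / 5 := by positivity
  obtain ⟨Γ, hΓ2, hΓ⟩ := exists_big 2 ht (Γ₁ + 2)
  obtain ⟨K, hKΓ, hK⟩ := exists_big (16 * (Γ + 6) * u) ht (Γ + 2 * P)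
  obtain ⟨L, hL1, hL⟩ := exists_big (8 * (Γ + 6) * u * (Γ * K * (1 + Θ₀))) ht 1
  obtain ⟨q₀, hq1, hq⟩ := exists_big (Γ * K * L * (Γ + 1) + 2 * Θ₀ + Γ * K * L * Θ₀) ht
    (Θ₀ * (Γ * K * L + 1) + 1)
  refine ⟨q₀, fun Y₀ t hc hcΘ htΓ hlo hhi => ?_⟩
  by_contra hV
  rw [not_le] at hV
  have hm := Y₀.hm
  have hm0 : (0 : ℝ) < Y₀.m := by exact_mod_cast hm
  have hK0 : 0 < K := by omega
  have hmc : Y₀.m ≤ Y₀.c := le_trans (Nat.le_mul_of_pos_left _ (by omega)) hc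
  have hN : Γ * Y₀.m ≤ Γ * K * (Y₀.m / K + 1) := by
    rw [mul_assoc]
    exact Nat.mul_le_mul_left _ (Nat.lt_mul_div_succ Y₀.m hK0).le
  have hk : Γ * K * L ≤ Y₀.G.card := by
    have k1 : q₀ * Y₀.m ≤ Θ₀ * (Y₀.G.card + 1) * Y₀.m := by rw [mul_assoc]; exact hc.trans hcΘ
    have k2 := Nat.le_of_mul_le_mul_right k1 hm
    have k3 : Θ₀ * (Γ * K * L + 1) < Θ₀ * (Y₀.G.card + 1) := by omega
    have k4 := Nat.lt_of_mul_lt_mul_left k3
    omega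
  let Y : Par := ⟨Y₀, Γ, Y₀.m / K + 1, L, Γ * K, Nat.succ_pos _, hL1, hmc, hN, by omega⟩
  have hK' : (0 : ℝ) < K := by exact_mod_cast hK0
  have hΓ' : (2 : ℝ) ≤ Γ := by exact_mod_cast (by omega : 2 ≤ Γ)
  have hL' : (1 : ℝ) ≤ L := by exact_mod_cast hL1
  have hδ : Y.δ ≤ 1 / K := by
    show (((Y₀.m / K + 1 : ℕ) : ℝ) - 1) / (Y₀.m : ℝ) ≤ 1 / K
    rw [Nat.cast_succ, add_sub_cancel_right, div_le_iff₀ hm0, one_div_mul_eq_div]
    exact Nat.cast_div_le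
  have hδ2 : Y.δ ≤ 2 / Y.Γ := by
    refine hδ.trans (div_le_div₀ (by norm_num) (by norm_num) (by show (0 : ℝ) < Γ; linarith) ?_)
    show (Γ : ℝ) ≤ K
    exact_mod_cast (by omega : Γ ≤ K)
  have hJ : (Y.J.card : ℝ) ≤ Γ * K := by
    have : Y.J.card ≤ Γ * K := (card_filter_le _ _).trans (card_range _).le
    exact_mod_cast this
  have hJ1 : (1 : ℝ) ≤ Y.J.card := by exact_mod_cast Y.J_pos
  have hYe : Y.ee = Y₀.G.card + Y.J.card * L := rfl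
  have hJL : (Y.J.card : ℝ) * L ≤ Γ * K * L := mul_le_mul_of_nonneg_right hJ (by linarith)
  have hJL1 : (1 : ℝ) ≤ Y.J.card * L := one_le_mul_of_one_le_of_one_le hJ1 hL'
  have hee : Y.ee ≤ 2 * Y.G.card := by
    have : ((Γ : ℝ) * K * L) ≤ Y₀.G.card := by exact_mod_cast hk
    show Y.ee ≤ 2 * Y₀.G.card
    linarith
  have hcq : (Y₀.c : ℝ) / Y₀.m ≤ Θ₀ * (Y₀.G.card + 1) := by
    rw [div_le_iff₀ hm0, mul_assoc]
    exact_mod_cast hcΘ
  have hcee : (Y.c : ℝ) / Y.m ≤ Θ₀ * Y.ee :=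
    hcq.trans (mul_le_mul_of_nonneg_left (by linarith) (Nat.cast_nonneg _))
  have hγ1 : ∀ i ∈ Y.J.filter (fun j => Y.le j ≤ t), Y.γ i ≤ Γ₁ := by
    intro i hi
    show (Y.le i : ℝ) / Y₀.m ≤ Γ₁
    rw [div_le_iff₀ hm0]
    exact_mod_cast (mem_filter.mp hi).2.trans htΓ
  have hγ2 : ∀ i ∈ Y.J.filter (fun j => Y.le j ≤ t),
      ∀ j ∈ Y.J.filter (fun j => P * t + Y₀.m + P ≤ P * (Y.le j + (Y₀.m / K + 1))),
      Y.γ i + 1 / (2 * P) ≤ Y.γ j := by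
    intro i hi j hj
    have k1 := Nat.mul_le_mul_left P (mem_filter.mp hi).2
    have k2 := (mem_filter.mp hj).2
    have k3 : 2 * P * (Y₀.m / K) ≤ Y₀.m :=
      (Nat.mul_le_mul_right _ (by omega : 2 * P ≤ K)).trans (Nat.mul_div_le _ _)
    rw [mul_add, mul_add, mul_one] at k2
    rw [mul_assoc] at k3
    have k4 : 2 * (P * Y.le i) + Y₀.m ≤ 2 * (P * Y.le j) := by omega
    have k5 : 2 * ((P : ℝ) * Y.le i) + Y₀.m ≤ 2 * (P * Y.le j) := by exact_mod_cast k4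
    show (Y.le i : ℝ) / Y₀.m + 1 / (2 * P) ≤ (Y.le j : ℝ) / Y₀.m
    rw [div_add_div _ _ hm0.ne' (by positivity), div_le_div_iff₀ (by positivity) hm0]
    have := mul_le_mul_of_nonneg_right k5 hm0.le
    linarith
  have hμ1 : 1 / (2 * (P : ℝ)) ≤ ∑ j ∈ Y.J.filter (fun j => Y.le j ≤ t), Y.μ j := by
    have k1 := Y.card_cover (Y₀.G.filter (fun g => g ≤ t)) (Y.J.filter (fun j => Y.le j ≤ t))
      (filter_subset _ _) (fun g hg j hj hgj =>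
        mem_filter.mpr ⟨hj, (Y.cls_spec hgj).2.1.trans (mem_filter.mp hg).2⟩)
    have k2 : Y₀.G.filter (fun g => g ≤ t) ∩ Y.hv = ∅ := by
      refine eq_empty_of_forall_notMem (fun g hg => ?_)
      obtain ⟨k3, k4⟩ := mem_inter.mp hg
      have k5 := (mem_filter.mp k3).2
      have k6 : ¬ g < Γ * Y₀.m := (mem_filter.mp k4).2
      have k7 : (Γ₁ + 2) * Y₀.m ≤ Γ * Y₀.m := Nat.mul_le_mul_right _ hΓ2
      rw [add_mul] at k7
      omega
    rw [k2, card_empty] at k1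
    simpa using Y.mass_cover _ P _ 0 hP hee hlo k1
  have hμ2 : 1 / (2 * (P : ℝ)) ≤ ∑ j ∈ Y.J.filter
      (fun j => P * t + Y₀.m + P ≤ P * (Y.le j + (Y₀.m / K + 1))), Y.μ j + Y.hv.card / Y.ee := by
    have k1 := Y.card_cover (Y₀.G.filter (fun g => P * t + Y₀.m ≤ P * g))
      (Y.J.filter (fun j => P * t + Y₀.m + P ≤ P * (Y.le j + (Y₀.m / K + 1))))
      (filter_subset _ _) (fun g hg j hj hgj => mem_filter.mpr ⟨hj, by
        have k2 : g + 1 ≤ Y.le j + (Y₀.m / K + 1) := (Y.cls_spec hgj).2.2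
        have k3 := Nat.mul_le_mul_left P k2
        have k4 := (mem_filter.mp hg).2
        rw [mul_add, mul_one] at k3
        omega⟩)
    exact Y.mass_cover _ P _ _ hP hee hhi
      (k1.trans (Nat.add_le_add_left (card_le_card inter_subset_right) _))
  have key := H Y _ _ hδ2 hcee (filter_subset _ _) (filter_subset _ _) hγ1 hγ2 hμ1 hμ2
  have hζ := Y.ζ_bounds.2
  have hYn : Y.n = ((range Y₀.c).filter (fun s => s ∈ Y₀.S)).card := by
    unfold Par.n Par.one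
    rw [sum_boole]
  have hV' : ((Y₀.G.card : ℝ) + 1) * Y.n < Y₀.c := by
    rw [hYn]
    exact_mod_cast hV
  have hn0 : 0 ≤ Y.n := by rw [hYn]; exact Nat.cast_nonneg _
  rw [hYe] at key
  change (1 - 2 / (Γ : ℝ)) * (((Y₀.c : ℝ) / Y₀.m - Y.J.card * L * (Γ + 1)) * Y₀.m - 2 * Y.n) ≤
    _ + 8 * ((Y₀.c : ℝ) / Y₀.m) * (Γ + 6) * u *
      (2 * (Y.δ * Y₀.m) + Y.J.card * (Y₀.m + Y.n) / L) at key
  change 1 - 2 / (Γ : ℝ) ≤ 1 at hζ
  obtain ⟨q, hcq'⟩ := exists_scale hm0 (Y₀.c : ℝ)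
  obtain ⟨ν, hν⟩ := exists_scale hm0 Y.n
  have hq0 : (q₀ : ℝ) ≤ q := by
    have : (q₀ : ℝ) * Y₀.m ≤ Y₀.c := by exact_mod_cast hc
    exact le_of_mul_le_mul_left (by linarith) hm0
  have hqq : 0 < q := lt_of_lt_of_le (by exact_mod_cast (by omega : 0 < q₀)) hq0
  have hν0 : 0 ≤ ν := le_of_mul_le_mul_left (by linarith) hm0
  rw [hcq', mul_div_cancel_left₀ _ hm0.ne'] at hcq
  rw [hcq', hν, mul_div_cancel_left₀ _ hm0.ne'] at key
  rw [hcq', hν] at hV'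
  have hv : ((Y₀.G.card : ℝ) + 1) * ν ≤ q := le_of_mul_le_mul_left (by linarith) hm0
  have hνΘ : ν ≤ Θ₀ :=
    le_of_mul_le_mul_left (by linarith) (by positivity : (0 : ℝ) < Y₀.G.card + 1)
  set J : ℝ := (Y.J.card : ℝ)
  have key2 : (1 - 2 / (Γ : ℝ)) * (q - J * L * (Γ + 1) - 2 * ν) ≤
      (1 - ϑ) * ((Y₀.G.card + J * L) * ν) + 8 * q * (Γ + 6) * u * (2 * Y.δ + J * (1 + ν) / L) := by
    refine le_of_mul_le_mul_left ?_ hm0
    have e5 : J * ((Y₀.m : ℝ) + Y₀.m * ν) / L = Y₀.m * (J * (1 + ν) / L) := by ring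
    rw [e5] at key
    linarith
  refine spread_num rfl hϑ0 hϑ1 hqq hν0 hνΘ (by linarith) (by linarith) hζ hv
    ((div_le_iff₀ (by linarith)).mpr hΓ) ?_ ?_ ?_ key2
  · refine (mul_le_mul_of_nonneg_left hδ (by positivity)).trans ?_
    rw [mul_one_div, div_le_iff₀ hK']
    exact hK
  · rw [← mul_div_assoc, div_le_iff₀ (by linarith)]
    refine le_trans ?_ hL
    exact mul_le_mul_of_nonneg_left (mul_le_mul hJ (by linarith) (by linarith) (by positivity))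
      (by positivity)
  · have k2 := mul_le_mul_of_nonneg_right hJL (by linarith : (0 : ℝ) ≤ Γ + 1)
    have k3 := mul_le_mul_of_nonneg_right hJL (Nat.cast_nonneg (α := ℝ) Θ₀)
    have k4 := mul_le_mul_of_nonneg_left hq0 ht.le
    linarith

end Pool.Agent.Lib.MP_299528_co
end
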