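import Pool.Agent.Lib.MP_299528_co.W.Stein

/-! Heavy letters and long elements: the letters cluster. -/

set_option autoImplicit false

namespace Pool.Agent.Lib.MP_299528_co.Bd

open Finset

private theorem cs_arith {Pe PD l h w m k Γ nB S U Pu nA nB' : ℝ} (hPe : 1 ≤ Pe) (hPD : 1 ≤ PD)
    (hl : 65536 * PD * Pe ≤ l) (hh : 1 ≤ 4 * Pe * h) (hm : m ≤ PD * w) (hw : w ≤ m) (hw0 : 0 < w)
    (hΓ : Γ = 4096 * PD * Pe ^ 2 + 1024 * PD * Pe + 1) (hB1 : w ≤ 2 * nB) (hB2 : nB ≤ w)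
    (hS : nB * (h * l / 8) - S ≤ U + h * l * Pu + nB * (1 / 64 * (1 + 2 * h * l) + 1) + 128 * m)
    (hU : Γ * U ≤ 2 * l * m) (hPu : 128 * Pu ≤ w) (hS2 : S ≤ nA * (2 * k))
    (hA : Γ * (nA * nB') ≤ 2 * l * m) (hk : k ≤ 2 * Pe * nB') (hnA : 0 ≤ nA) : False := by
  have hPe0 : 0 < Pe := by linarith
  have hPD0 : 0 < PD := by linarith
  have hPP : 0 < PD * Pe := mul_pos hPD0 hPe0
  have hl0 : 0 < l := by linarith
  have hm0 : 0 < m := by linarith
  obtain ⟨x, hx⟩ : ∃ x, x = h * l := ⟨_, rfl⟩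
  have hx1 : l ≤ 4 * Pe * x := by
    have := mul_le_mul_of_nonneg_right hh hl0.le
    rw [hx]; linarith
  have hx2 : 16384 * PD ≤ x := by
    have h1 : Pe * (16384 * PD) ≤ Pe * x := by linarith
    exact le_of_mul_le_mul_left h1 hPe0
  have hx0 : 0 < x := by linarith
  obtain ⟨y, hy⟩ : ∃ y, y = x * w := ⟨_, rfl⟩
  have hy0 : 0 < y := by rw [hy]; exact mul_pos hx0 hw0
  have hlm : l * m ≤ 4 * (PD * Pe) * y := by
    have := mul_le_mul hx1 hm hm0.le (by positivity)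
    rw [hy]; linarith
  have hΓ0 : 0 < Γ := by rw [hΓ]; positivity
  have hPP2 : 0 < PD * Pe ^ 2 := by positivity
  have hU2 : U ≤ y / 128 := by
    have h1 : 1024 * (PD * Pe) * y ≤ Γ * y :=
      mul_le_mul_of_nonneg_right (by rw [hΓ]; linarith) hy0.le
    have h2 : Γ * U ≤ Γ * (y / 128) := by linarith
    exact le_of_mul_le_mul_left h2 hΓ0
  have hm2 : 16384 * m ≤ y := by
    have := mul_le_mul_of_nonneg_right hx2 hw0.le
    rw [hy]; linarith
  have h3 : y ≤ 2 * (nB * x) := by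
    have := mul_le_mul_of_nonneg_right hB1 hx0.le
    rw [hy]; linarith
  have h4 : 128 * (x * Pu) ≤ y := by
    have := mul_le_mul_of_nonneg_left hPu hx0.le
    rw [hy]; linarith
  have hS3 : y / 64 ≤ S := by
    have e1 : nB * (h * l / 8) = nB * x / 8 := by rw [hx]; ring
    have e2 : nB * (1 / 64 * (1 + 2 * h * l) + 1) = nB * x / 32 + 65 / 64 * nB := by
      rw [hx]; ring
    rw [e1, e2, ← hx] at hS
    linarith
  have h5 : S ≤ 4 * Pe * (nA * nB') := by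
    have := mul_le_mul_of_nonneg_left hk hnA
    linarith
  have h6 : Γ * S ≤ 32 * (PD * Pe ^ 2) * y := by
    have a1 := mul_le_mul_of_nonneg_left h5 hΓ0.le
    have a2 := mul_le_mul_of_nonneg_left hA hPe0.le
    have a3 := mul_le_mul_of_nonneg_left hlm hPe0.le
    have e : Pe * (4 * (PD * Pe) * y) = 4 * (PD * Pe ^ 2) * y := by ring
    linarith
  have h7 : 4096 * (PD * Pe ^ 2) * y ≤ Γ * y :=
    mul_le_mul_of_nonneg_right (by rw [hΓ]; linarith) hy0.le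
  have h8 := mul_le_mul_of_nonneg_left hS3 hΓ0.le
  have h9 := mul_pos hPP2 hy0
  linarith

private theorem cs_deep (Y : Ap) {Γ glo : ℕ} (hΓ : Γ * Y.m ≤ glo) {a : Multiset ℕ}
    (ha : glo ≤ Y.η a) : Γ ≤ Y.δ a := by
  rw [Y.δ_eq, Nat.le_div_iff_mul_le Y.hm]
  omega

private theorem cs_far (Y : Ap) (hV : Y.Viol) {F : Finset ℕ} {P : ℕ} (hF : P * F.card ≤ Y.k) :
    P * (Y.D.filter (fun b => Y.T ≤ 2 * wt F b)).card ≤ 4 * Y.m := by
  have hn := hV.n_le
  have hm := Y.hm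
  have hT : 0 < Y.T := by omega
  have h1 : (Y.D.filter (fun b => Y.T ≤ 2 * wt F b)).card * Y.T ≤ ∑ b ∈ Y.D, 2 * wt F b := by
    calc _ = ∑ _b ∈ Y.D.filter (fun b => Y.T ≤ 2 * wt F b), Y.T := by simp
      _ ≤ ∑ b ∈ Y.D.filter (fun b => Y.T ≤ 2 * wt F b), 2 * wt F b :=
        sum_le_sum fun b hb => (mem_filter.1 hb).2
      _ ≤ _ := sum_le_sum_of_subset (filter_subset _ _)
  have h2 : ∑ b ∈ Y.D, wt F b = ∑ g ∈ F, g * Y.AA g := by
    unfold wt Ap.AA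
    rw [sum_comm]
    refine sum_congr rfl fun g _ => ?_
    rw [mul_sum]
    exact sum_congr rfl fun b _ => mul_comm _ _
  have h3 : ∑ g ∈ F, g * Y.AA g ≤ F.card * (2 * (Y.m * Y.n)) := by
    calc _ ≤ ∑ _g ∈ F, 2 * (Y.m * Y.n) := sum_le_sum fun g _ => Y.AA_le g
      _ = _ := by simp
  rw [← mul_sum, h2] at h1
  have h4 : Y.k * Y.n ≤ Y.T := by nlinarith
  refine Nat.le_of_mul_le_mul_right ?_ hT
  calc P * (Y.D.filter (fun b => Y.T ≤ 2 * wt F b)).card * Y.T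
      = P * ((Y.D.filter (fun b => Y.T ≤ 2 * wt F b)).card * Y.T) := by ring
    _ ≤ P * (2 * (F.card * (2 * (Y.m * Y.n)))) :=
      Nat.mul_le_mul_left _ (h1.trans (Nat.mul_le_mul_left _ h3))
    _ = (P * F.card) * Y.n * (4 * Y.m) := by ring
    _ ≤ Y.k * Y.n * (4 * Y.m) := by gcongr
    _ ≤ Y.T * (4 * Y.m) := by gcongr
    _ = _ := by ring

private theorem cs_upper (Y : Ap) {A : Finset ℕ} {BB AS : Finset (Multiset ℕ)} (hB : BB ⊆ Y.D)
    (h : ∀ g ∈ A, ∀ a, g ::ₘ a ∈ BB → a ∈ AS) :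
    ∑ b ∈ BB, ct A b ≤ ∑ a ∈ AS, (ct A a + A.card) := by
  have e : ∑ a ∈ AS, (ct A a + A.card) = ∑ g ∈ A, ∑ a ∈ AS, (a.count g + 1) := by
    rw [sum_comm]
    refine sum_congr rfl fun a _ => ?_
    rw [sum_add_distrib]
    simp [ct]
  rw [e]
  unfold ct
  rw [sum_comm]
  refine sum_le_sum fun g hg => ?_
  have e1 : ∑ b ∈ BB, b.count g = ∑ b ∈ Y.D, b.count g • (if b ∈ BB then 1 else 0 : ℕ) := by
    rw [← sum_subset hB (f := fun b => b.count g • (if b ∈ BB then 1 else 0 : ℕ))]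
    · exact sum_congr rfl fun b hb => by simp [hb]
    · intro b _ hb
      simp [hb]
  rw [e1, Y.sum_count g (fun b => (if b ∈ BB then 1 else 0 : ℕ))]
  calc _ = ∑ a ∈ (Y.Us g).filter (fun a => g ::ₘ a ∈ BB), (a.count g + 1) := by
        rw [sum_filter]
        refine sum_congr rfl fun a _ => ?_
        split_ifs <;> simp
    _ ≤ _ := sum_le_sum_of_subset fun a ha => h g hg a (mem_filter.1 ha).2

private theorem cs_un (Y : Ap) (A : Finset ℕ) {Q : Finset (Multiset ℕ)} {Γ : ℕ}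
    (h : ∀ a ∈ Q, Γ ≤ Y.δ a) :
    Γ * ∑ g ∈ A, ∑ a ∈ Q ∩ Y.Un g, (a.count g + 1) ≤ Y.GS A := by
  rw [mul_sum]
  exact sum_le_sum fun g _ => Y.un_le_GG g Γ h

private theorem cs_pairs (Y : Ap) {B : Finset ℕ} {AS : Finset (Multiset ℕ)} {Γ : ℕ}
    (hD : AS ⊆ Y.D) (h : ∀ a ∈ AS, Γ ≤ Y.δ a) (h' : ∀ a ∈ AS, ∀ g ∈ B, Y.η a < g) :
    Γ * (AS.card * B.card) ≤ Y.GS B := by
  refine le_trans (Nat.mul_le_mul_left _ ?_) (cs_un Y B h)
  calc AS.card * B.card = ∑ _g ∈ B, AS.card := by simp [mul_comm]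
    _ ≤ _ := sum_le_sum fun g hg => ?_
  rw [inter_eq_left.2 fun a ha => Y.mem_Un_of_lt (hD ha) (h' a ha g hg), card_eq_sum_ones]
  exact sum_le_sum fun a _ => by omega

private theorem cs_card (Y : Ap) (F : Finset ℕ) {w : ℕ} (hw : w ≤ Y.m) :
    (Y.D.filter (fun b => Y.η b < w ∧ 2 * wt F b < Y.T)).card ≤ w ∧
    w ≤ (Y.D.filter (fun b => Y.η b < w ∧ 2 * wt F b < Y.T)).card + Y.low.card +
      (Y.D.filter (fun b => Y.T ≤ 2 * wt F b)).card := by
  constructor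
  · refine le_trans (card_le_card fun b hb => ?_) (Y.card_arc_le 0 w)
    rw [mem_filter] at hb ⊢
    refine ⟨hb.1, ?_⟩
    rw [Nat.add_zero, Nat.mod_eq_of_lt (by omega)]
    exact hb.2.1
  · conv_lhs => rw [← Y.card_arc_eq 0 hw]
    refine le_trans (card_le_card fun b hb => ?_)
      ((card_union_le _ _).trans (Nat.add_le_add_right (card_union_le _ _) _))
    rw [mem_filter] at hb
    simp only [mem_union, mem_filter, Y.mem_low]
    by_cases h1 : Y.m ≤ Y.η b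
    · exact Or.inl (Or.inr ⟨hb.1, h1⟩)
    · have h2 := hb.2
      rw [Nat.add_zero, Nat.mod_eq_of_lt (by omega)] at h2
      by_cases h3 : Y.T ≤ 2 * wt F b
      · exact Or.inr ⟨hb.1, h3⟩
      · exact Or.inl (Or.inl ⟨hb.1, h2, by omega⟩)

private theorem cs_ct (Y : Ap) {glo : ℕ} (hm : Y.m ≤ glo) (hT : 4 * glo ≤ Y.T) {b : Multiset ℕ}
    (hb : b ∈ Y.D) (h1 : Y.η b ≤ Y.m)
    (h2 : 2 * wt (Y.G.filter (fun g => g < glo ∨ glo + Y.m < g)) b < Y.T) :
    Y.T ≤ 8 * (ct (Y.G.filter (fun g => ¬ (g < glo ∨ glo + Y.m < g))) b * glo) := by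
  have e1 : wt (Y.G.filter (fun g => g < glo ∨ glo + Y.m < g)) b +
      wt (Y.G.filter (fun g => ¬ (g < glo ∨ glo + Y.m < g))) b = b.sum := by
    rw [← Y.wt_G hb]
    unfold wt
    exact sum_filter_add_sum_filter_not _ _ _
  have e2 : wt (Y.G.filter (fun g => ¬ (g < glo ∨ glo + Y.m < g))) b ≤
      2 * (ct (Y.G.filter (fun g => ¬ (g < glo ∨ glo + Y.m < g))) b * glo) := by
    unfold wt ct
    rw [sum_mul, mul_sum]
    refine sum_le_sum fun g hg => ?_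
    have := (mem_filter.1 hg).2
    calc b.count g * g ≤ b.count g * (2 * glo) := Nat.mul_le_mul_left _ (by omega)
      _ = _ := by ring
  have e3 := Y.η_add hb
  omega

private theorem cs_main {Pe PD : ℕ} (hPe : 1 ≤ Pe) (hPD : 1 ≤ PD) (Y : Ap) {glo w t : ℕ}
    (hV : Y.Viol) (hW : Y.Win (16 * PD + 4 * Pe) glo) (hk : 1 ≤ Y.k)
    (hΓ : (4096 * PD * Pe ^ 2 + 1024 * PD * Pe + 1) * Y.m ≤ glo)
    (hl : 65536 * PD * Pe * glo ≤ Y.T) (hΛ : 384 * PD * Y.T ≤ glo * Y.k) (hm : Y.m ≤ PD * w)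
    (hw : w ≤ Y.m) (h1 : Y.k < 2 * Pe * (Y.G.filter (fun g => g < t + 1)).card)
    (h2 : Y.k < 2 * Pe * (Y.G.filter (fun g => t + w < g)).card) :
    False := by
  obtain ⟨hW1, hW2, hW3⟩ := hW
  obtain ⟨Γ, hΓe⟩ : ∃ Γ, Γ = 4096 * PD * Pe ^ 2 + 1024 * PD * Pe + 1 := ⟨_, rfl⟩
  rw [← hΓe] at hΓ
  have hm0 := Y.hm
  have hΓ1 : 1 ≤ Γ := by omega
  have hmg : Y.m ≤ glo := le_trans (Nat.le_mul_of_pos_left _ hΓ1) hΓ
  have hg0 : 0 < glo := by omega
  have hw0 : 0 < w := by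
    rcases Nat.eq_zero_or_pos w with h | h
    · rw [h] at hm; omega
    · exact h
  have hPP : 1 ≤ PD * Pe := Nat.mul_pos hPD hPe
  have hT4 : 4 * glo ≤ Y.T := by
    refine le_trans (Nat.mul_le_mul_right _ ?_) hl
    rw [mul_assoc]; omega
  obtain ⟨F, hF⟩ : ∃ F, F = Y.G.filter (fun g => g < glo ∨ glo + Y.m < g) := ⟨_, rfl⟩
  obtain ⟨N, hN⟩ : ∃ N, N = Y.G.filter (fun g => ¬ (g < glo ∨ glo + Y.m < g)) := ⟨_, rfl⟩
  obtain ⟨A, hA⟩ : ∃ A, A = N.filter (fun g => g ≤ t) := ⟨_, rfl⟩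
  obtain ⟨B', hB'⟩ : ∃ B', B' = Y.G.filter (fun g => t + w < g) := ⟨_, rfl⟩
  obtain ⟨BB, hBB⟩ : ∃ BB, BB = Y.D.filter (fun b => Y.η b < w ∧ 2 * wt F b < Y.T) := ⟨_, rfl⟩
  obtain ⟨AS, hAS⟩ : ∃ AS, AS = Y.D.filter (fun a => glo ≤ Y.η a ∧ Y.η a ≤ t + w) := ⟨_, rfl⟩
  rw [← hF] at hW1
  rw [← hB'] at h2
  have hAN : A ⊆ N := by rw [hA]; exact filter_subset _ _
  have hNG : N ⊆ Y.G := by rw [hN]; exact filter_subset _ _
  have hBG : B' ⊆ Y.G := by rw [hB']; exact filter_subset _ _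
  have hBD : BB ⊆ Y.D := by rw [hBB]; exact filter_subset _ _
  have hAD : AS ⊆ Y.D := by rw [hAS]; exact filter_subset _ _
  have hNk : N.card ≤ Y.k := card_le_card hNG
  have hAk : A.card ≤ Y.k := (card_le_card hAN).trans hNk
  have hNg : ∀ g ∈ N, glo ≤ g := fun g hg => by
    rw [hN] at hg
    have := (mem_filter.1 hg).2
    omega
  have hAc : (Y.G.filter (fun g => g < t + 1)).card ≤ A.card + F.card := by
    refine le_trans (card_le_card fun g hg => ?_) (card_union_le _ _)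
    rw [mem_filter] at hg
    rw [mem_union, hA, hN, hF, mem_filter, mem_filter, mem_filter]
    by_cases h : g < glo ∨ glo + Y.m < g
    · exact Or.inr ⟨hg.1, h⟩
    · exact Or.inl ⟨⟨hg.1, h⟩, by omega⟩
  have hA4 : Y.k < 4 * Pe * A.card := by
    have a1 := Nat.mul_le_mul_left (2 * Pe) hAc
    have a2 : 4 * Pe * F.card ≤ (16 * PD + 4 * Pe) * F.card := Nat.mul_le_mul_right _ (by omega)
    have a3 : 2 * (2 * Pe * (A.card + F.card)) = 4 * Pe * A.card + 4 * Pe * F.card := by ring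
    omega
  have hA0 : 0 < A.card := by
    rcases Nat.eq_zero_or_pos A.card with h | h
    · rw [h] at hA4; omega
    · exact h
  have hN0 : 0 < N.card := lt_of_lt_of_le hA0 (card_le_card hAN)
  have hLw : 128 * Y.low.card ≤ w := by
    have hT0 : 0 < Y.T := by omega
    have a1 : 384 * PD * Y.T * Y.low.card ≤ glo * Y.k * Y.low.card := Nat.mul_le_mul_right _ hΛ
    have a2 : Y.T * Y.m ≤ Y.T * (PD * w) := Nat.mul_le_mul_left _ hm
    have a3 : 3 * (PD * Y.T) * (128 * Y.low.card) ≤ 3 * (PD * Y.T) * w := by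
      calc _ = 384 * PD * Y.T * Y.low.card := by ring
        _ ≤ glo * Y.k * Y.low.card := a1
        _ = Y.k * Y.low.card * glo := by ring
        _ ≤ 3 * (Y.T * (PD * w)) := hW2.trans (Nat.mul_le_mul_left _ a2)
        _ = _ := by ring
    exact Nat.le_of_mul_le_mul_left a3 (by positivity)
  have hFH : 4 * (Y.D.filter (fun b => Y.T ≤ 2 * wt F b)).card ≤ w := by
    have a1 := cs_far Y hV hW1
    have a2 : 16 * PD * (Y.D.filter (fun b => Y.T ≤ 2 * wt F b)).card ≤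
        (16 * PD + 4 * Pe) * (Y.D.filter (fun b => Y.T ≤ 2 * wt F b)).card :=
      Nat.mul_le_mul_right _ (by omega)
    have a3 : 4 * PD * (4 * (Y.D.filter (fun b => Y.T ≤ 2 * wt F b)).card) ≤ 4 * PD * w := by
      calc _ = 16 * PD * (Y.D.filter (fun b => Y.T ≤ 2 * wt F b)).card := by ring
        _ ≤ 4 * (PD * w) := (a2.trans a1).trans (Nat.mul_le_mul_left _ hm)
        _ = _ := by ring
    exact Nat.le_of_mul_le_mul_left a3 (by positivity)
  obtain ⟨hB2, hB1⟩ := cs_card Y F hw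
  rw [← hBB] at hB1 hB2
  have hB1' : w ≤ 2 * BB.card := by omega
  obtain ⟨l, hle⟩ : ∃ l : ℝ, l = (Y.T : ℝ) / glo := ⟨_, rfl⟩
  have hg0' : (0 : ℝ) < glo := by exact_mod_cast hg0
  have hlT : l * glo = Y.T := by rw [hle]; field_simp
  have hle_of : ∀ x : ℕ, x * glo ≤ Y.T → (x : ℝ) ≤ l := fun x hx => by
    rw [hle, le_div_iff₀ hg0']
    exact_mod_cast hx
  have hctl : ∀ H : Finset ℕ, H ⊆ N → ∀ b ∈ Y.D, (ct H b : ℝ) ≤ l := fun H hH b hb =>
    hle_of _ (Y.ct_mul_le (fun g hg => hNg g (hH hg)) hb)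
  have hlk : l ≤ Y.k := by
    rw [hle, div_le_iff₀ hg0']
    have : Y.T ≤ Y.k * glo := by
      rw [mul_comm]
      exact le_trans (Nat.le_mul_of_pos_left _ (by omega)) hΛ
    exact_mod_cast this
  have hGS : ∀ H : Finset ℕ, H ⊆ Y.G → (Y.GS H : ℝ) ≤ 2 * l * Y.m := fun H hH => by
    have a1 : Y.GS H * glo ≤ 2 * (Y.T * Y.m) :=
      (Nat.mul_le_mul_right _ (Y.GS_mono hH)).trans hW3
    have a2 : (Y.GS H : ℝ) * glo ≤ 2 * (Y.T * Y.m) := by exact_mod_cast a1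
    rw [← hlT] at a2
    refine le_of_mul_le_mul_right ?_ hg0'
    linarith
  have hst := Y.stein_set hAN (l := l) (θ := 0) (e := 1 / 64) (hctl N Subset.rfl) le_rfl
    zero_le_one (by norm_num) (fun _ => 1) (fun _ => 1) (fun _ _ => zero_le_one)
    (fun _ _ => zero_le_one) (fun _ _ _ _ => by simp) hBD (fun _ _ => rfl)
  obtain ⟨h, hhe⟩ : ∃ h : ℝ, h = (A.card : ℝ) / N.card := ⟨_, rfl⟩
  rw [← hhe] at hst
  have hN0' : (0 : ℝ) < N.card := by exact_mod_cast hN0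
  have hh0 : 0 ≤ h := by rw [hhe]; positivity
  have hh : 1 ≤ 4 * (Pe : ℝ) * h := by
    rw [hhe, ← mul_div_assoc, le_div_iff₀ hN0', one_mul]
    have : N.card ≤ 4 * Pe * A.card := by omega
    exact_mod_cast this
  have hlow : (BB.card : ℝ) * (h * l / 8) - ((∑ b ∈ BB, ct A b : ℕ) : ℝ) ≤
      ∑ b ∈ BB, max (h * ct N b - ct A b) 0 := by
    have e : (BB.card : ℝ) * (h * l / 8) - ((∑ b ∈ BB, ct A b : ℕ) : ℝ) =
        ∑ b ∈ BB, (h * l / 8 - ct A b) := by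
      rw [sum_sub_distrib]
      simp
    rw [e]
    refine sum_le_sum fun b hb => le_trans ?_ (le_max_left _ _)
    have hb' := hb
    rw [hBB, mem_filter] at hb'
    have a1 := cs_ct Y hmg hT4 hb'.1 (by omega) (by rw [← hF]; exact hb'.2.2)
    rw [← hN] at a1
    have a2 : (Y.T : ℝ) ≤ 8 * (ct N b * glo) := by exact_mod_cast a1
    rw [← hlT] at a2
    have a3 : l ≤ 8 * ct N b := le_of_mul_le_mul_right (by linarith) hg0'
    have a4 := mul_le_mul_of_nonneg_left a3 hh0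
    linarith
  have hU : (Γ : ℝ) * ((∑ g ∈ A, ∑ a ∈ Y.Pu N ∩ Y.Un g, (a.count g + 1) : ℕ) : ℝ) ≤
      2 * l * Y.m := by
    refine le_trans ?_ (hGS A (hAN.trans hNG))
    have := cs_un Y A (Q := Y.Pu N) (Γ := Γ) fun a ha => by
      obtain ⟨g, hg, hga⟩ := (mem_filter.1 ha).2
      have a1 := (Y.of_cons hga).2.2
      have a2 := hNg g hg
      exact cs_deep Y hΓ (by omega)
    exact_mod_cast this
  have hS2 : ((∑ b ∈ BB, ct A b : ℕ) : ℝ) ≤ AS.card * (2 * (Y.k : ℝ)) := by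
    have a1 := cs_upper Y (A := A) (AS := AS) hBD fun g hg a ha => by
      rw [hBB, mem_filter] at ha
      obtain ⟨b1, -, b3⟩ := Y.of_cons ha.1
      have b4 := hNg g (hAN hg)
      rw [hA] at hg
      have b5 := (mem_filter.1 hg).2
      rw [hAS, mem_filter]
      exact ⟨b1, by omega, by omega⟩
    have a2 : ((∑ b ∈ BB, ct A b : ℕ) : ℝ) ≤ ∑ a ∈ AS, ((ct A a : ℝ) + A.card) := by
      exact_mod_cast a1
    refine a2.trans ?_
    have a3 : (A.card : ℝ) ≤ Y.k := by exact_mod_cast hAk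
    calc _ ≤ ∑ _a ∈ AS, 2 * (Y.k : ℝ) := sum_le_sum fun a ha => by
          have := hctl A hAN a (hAD ha)
          linarith
      _ = _ := by simp
  have hpairs : (Γ : ℝ) * (AS.card * B'.card) ≤ 2 * l * Y.m := by
    refine le_trans ?_ (hGS B' hBG)
    have := cs_pairs Y (B := B') (Γ := Γ) hAD
      (fun a ha => by
        rw [hAS] at ha
        exact cs_deep Y hΓ (mem_filter.1 ha).2.1)
      (fun a ha g hg => by
        rw [hAS] at ha
        rw [hB'] at hg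
        have a1 := (mem_filter.1 ha).2.2
        have a2 := (mem_filter.1 hg).2
        omega)
    exact_mod_cast this
  have hPu : 128 * ((Y.Pu N).card : ℝ) ≤ w := by
    have := card_le_card (Y.Pu_sub N)
    have a : 128 * (Y.Pu N).card ≤ w := by omega
    exact_mod_cast a
  refine cs_arith (Pe := Pe) (PD := PD) (l := l) (h := h) (w := w) (m := Y.m) (k := Y.k) (Γ := Γ)
    (nB := BB.card) (nA := AS.card) (nB' := B'.card) (by exact_mod_cast hPe)
    (by exact_mod_cast hPD) ?_ hh (by exact_mod_cast hm) (by exact_mod_cast hw)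
    (by exact_mod_cast hw0) (by exact_mod_cast hΓe) (by exact_mod_cast hB1')
    (by exact_mod_cast hB2) ?_ hU hPu hS2 hpairs (by exact_mod_cast h2.le) (by positivity)
  · have := hle_of _ hl
    exact_mod_cast this
  · refine (hlow.trans hst).trans (le_of_eq ?_)
    simp only [mul_one, sum_const, nsmul_eq_mul, Y.cardD, zero_add]
    push_cast
    ring

theorem heavy_cluster (Pe PD : ℕ) (hPe : 1 ≤ Pe) (hPD : 1 ≤ PD) :
    ∃ P Γ l₀ Λ : ℕ, ∀ (Y : Ap) (glo w : ℕ), Y.Viol → Y.Win P glo → 1 ≤ Y.k → Γ * Y.m ≤ glo →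
      l₀ * glo ≤ Y.T → Λ * Y.T ≤ glo * Y.k → Y.m ≤ PD * w → w ≤ Y.m →
      ∃ t, t ≤ glo + Y.m ∧ Pe * (Y.G.filter (fun g => g < t ∨ t + w < g)).card ≤ Y.k := by
  refine ⟨16 * PD + 4 * Pe, 4096 * PD * Pe ^ 2 + 1024 * PD * Pe + 1, 65536 * PD * Pe, 384 * PD,
    fun Y glo w hV hW hk hΓ hl hΛ hm hw => ?_⟩
  obtain ⟨t, hte⟩ : ∃ t, t = Nat.findGreatest
      (fun t => 2 * Pe * (Y.G.filter (fun g => g < t)).card ≤ Y.k) (glo + Y.m) := ⟨_, rfl⟩
  have ht : t ≤ glo + Y.m := by rw [hte]; exact Nat.findGreatest_le _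
  have h0 : 2 * Pe * (Y.G.filter (fun g => g < t)).card ≤ Y.k := by
    rw [hte]
    exact Nat.findGreatest_spec
      (P := fun t => 2 * Pe * (Y.G.filter (fun g => g < t)).card ≤ Y.k) (Nat.zero_le _) (by simp)
  have h2 : 2 * Pe * (Y.G.filter (fun g => t + w < g)).card ≤ Y.k := by
    by_contra h2
    rcases ht.eq_or_lt with h | h
    · refine h2 (le_trans (Nat.mul_le_mul (by omega) (card_le_card fun g hg => ?_)) hW.1)
      rw [mem_filter] at hg ⊢
      exact ⟨hg.1, Or.inr (by omega)⟩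
    · have h1 := Nat.findGreatest_is_greatest
        (P := fun t => 2 * Pe * (Y.G.filter (fun g => g < t)).card ≤ Y.k) (k := t + 1)
        (n := glo + Y.m) (by rw [← hte]; omega) h
      exact cs_main hPe hPD Y hV hW hk hΓ hl hΛ hm hw (not_le.1 h1) (not_le.1 h2)
  refine ⟨t, ht, ?_⟩
  have h3 : (Y.G.filter (fun g => g < t ∨ t + w < g)).card ≤
      (Y.G.filter (fun g => g < t)).card + (Y.G.filter (fun g => t + w < g)).card := by
    rw [filter_or]
    exact card_union_le _ _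
  have h4 := Nat.mul_le_mul_left (2 * Pe) h3
  rw [mul_add, mul_assoc] at h4
  omega

end Pool.Agent.Lib.MP_299528_co.Bd
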