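import Pool.Agent.Lib.MP_299528_co.W.Stein
import Pool.Agent.Lib.MP_299528_co.W.ClA
import Pool.Agent.Lib.MP_299528_co.W.Deep

-- part Pool.Agent.Lib.MP_299528_co.W.F6
section

/-! The margin identity. -/

set_option autoImplicit false

namespace Pool.Agent.Lib.MP_299528_co.Bd

open Finset

theorem f6_sum {m h : ℕ} (hm : 0 < m) (hh : m < h) :
    ∑ r ∈ range m, (r : ℝ) * (((r + h) / m : ℕ) : ℝ) ≤ 7 / 10 * m * h := by
  have h1 : 1 ≤ h / m := (Nat.one_le_div_iff hm).2 hh.le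
  have h2 : ∑ r ∈ range m, (((r + h) / m : ℕ) : ℝ) = h := by exact_mod_cast avg_range_div hm h
  have h3 : ∀ r ∈ range m, (r : ℝ) * (((r + h) / m : ℕ) : ℝ) ≤
      (((h / m : ℕ) : ℝ) + 3 / 10) * r + 7 / 10 * m * (((r + h) / m : ℕ) : ℝ) -
        7 / 10 * m * ((h / m : ℕ) : ℝ) := fun r hr => by
    have k1 : (r : ℝ) ≤ m := by exact_mod_cast (mem_range.1 hr).le
    have k2 := div_step h (mem_range.1 hr).le hm
    have k3 : (0 : ℝ) ≤ r := Nat.cast_nonneg r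
    rw [add_comm r, k2]
    split_ifs <;> push_cast <;> linarith
  refine (sum_le_sum h3).trans ?_
  rw [sum_sub_distrib, sum_add_distrib, ← mul_sum, ← mul_sum, avg_gauss, h2, sum_const, card_range,
    nsmul_eq_mul]
  have k1 : (1 : ℝ) ≤ ((h / m : ℕ) : ℝ) := by exact_mod_cast h1
  have k2 : (0 : ℝ) < m := by exact_mod_cast hm
  generalize ((h / m : ℕ) : ℝ) = κ at k1
  have k3 : 0 ≤ (κ - 1) * (m * m) := mul_nonneg (by linarith) (by positivity)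
  have k4 : 0 ≤ κ * m := by positivity
  have k5 : (0 : ℝ) ≤ m * m := by positivity
  linarith

namespace Cl

theorem f6_HH (Y : Cl) : ∑ r ∈ range Y.m, (r : ℝ) * Y.HH r ≤ 7 / 10 * Y.m * Y.gb := by
  simp only [HH, gb, ← mul_div_assoc, mul_sum]
  rw [← sum_div, sum_comm]
  exact div_le_div_of_nonneg_right (sum_le_sum fun h hh => f6_sum Y.hm (Y.mem_C hh).1) Y.pos.2.1.le

theorem F0 (Y : Cl) (hS : Y.Sm) : ∑ g ∈ Y.G, Y.Tg g ≤ -((Y.m : ℝ) / 4) := by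
  obtain ⟨p1, p2, p3, p4, p5, p6, p7, p8, p9, p10, p11, p12⟩ := Y.pos
  obtain ⟨g1, g2, -⟩ := Y.gb_near
  have g3 : 0 < Y.gb := p1.trans g2
  have h1 : ∑ g ∈ Y.G, Y.Tg g =
      Y.k * Y.n - (∑ b ∈ Y.D, (b.sum : ℝ) * Y.HH (Y.res b)) / Y.gb := by
    simp only [Tg, sum_sub_distrib, sum_const, nsmul_eq_mul, mul_sum, Ap.k]
    rw [sum_comm, sum_div]
    refine congrArg _ (sum_congr rfl fun b hb => ?_)
    rw [← Y.wt_G hb, wt]
    push_cast
    rw [sum_mul, sum_div]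
    exact sum_congr rfl fun g _ => by ring
  have h2 : ∀ b ∈ Y.D, Y.T * Y.HH (Y.res b) - (Y.res b : ℝ) * Y.HH (Y.res b) -
      (Y.gb + Y.m) * Y.δ b ≤ (b.sum : ℝ) * Y.HH (Y.res b) := fun b hb => by
    have k1 : (Y.η b : ℝ) + b.sum = Y.T := by exact_mod_cast Y.η_add hb
    have k2 : (Y.m : ℝ) * Y.δ b + Y.res b = Y.η b := by
      exact_mod_cast Nat.div_add_mod (Y.η b) Y.m
    have k3 := (Y.HH_bounds (r := Y.res b) (Nat.mod_lt _ Y.hm)).2.2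
    have k4 : Y.m * Y.HH (Y.res b) ≤ Y.gb + Y.m := by
      refine (mul_le_mul_of_nonneg_left k3 p1.le).trans_eq ?_
      field_simp
    have k5 := mul_le_mul_of_nonneg_right k4 (Nat.cast_nonneg (α := ℝ) (Y.δ b))
    rw [← k1, ← k2]
    linarith
  have h3 := sum_le_sum h2
  rw [sum_sub_distrib, sum_sub_distrib, ← mul_sum, ← mul_sum, Y.sum_res Y.HH, Y.sum_HH,
    Y.sum_res (fun r => (r : ℝ) * Y.HH r), ← Nat.cast_sum] at h3
  have h4 := Y.f6_HH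
  have h5 : ((Y.k : ℝ) + 1) * Y.n + Y.m ≤ Y.T := by exact_mod_cast Y.hV.n_le
  have h6 : (Y.n : ℝ) ≤ Y.gb / 500 := by
    have k1 := Y.n_le
    have k2 := mul_le_mul_of_nonneg_right hS.lam_le.1 (p1.trans p3).le
    have k3 : (1000 : ℝ) * Y.w ≤ Y.m := by exact_mod_cast Y.hw
    linarith [(abs_le.1 g1).1]
  have h7 := mul_le_mul_of_nonneg_left h6 p1.le
  have h8 := mul_le_mul_of_nonneg_right h5 g3.le
  have h9 : 0 < Y.m * Y.gb := mul_pos p1 g3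
  rw [h1, sub_le_comm, le_div_iff₀ g3]
  change _ - (Y.gb + Y.m) * (Y.n : ℝ) ≤ _ at h3
  linarith

theorem core (Y : Cl) : ∑ g ∈ Y.C, Y.Tg g =
    Y.Gc - ∑ b ∈ Y.D, Y.Df Y.C b - ∑ b ∈ Y.D, Y.HH (Y.res b) / Y.gb * Y.VV b := by
  have g3 : Y.gb ≠ 0 := (Y.pos.1.trans Y.gb_near.2.1).ne'
  have h1 : ∀ g ∈ Y.C, Y.Tg g = Y.GG g + ∑ b ∈ Y.D, ((b.count g : ℝ) *
      (((Y.res b + g) / Y.m : ℕ) : ℝ) - (b.count g : ℝ) * g * (Y.HH (Y.res b) / Y.gb)) :=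
    fun g _ => by
      have k1 : (Y.n : ℝ) = Y.GG g + ∑ b ∈ Y.D, (b.count g : ℝ) *
          (((Y.res b + g) / Y.m : ℕ) : ℝ) := by exact_mod_cast Y.n_eq g
      rw [Tg, k1, sum_sub_distrib, mul_sum, add_sub_assoc]
      refine congrArg _ (congrArg _ (sum_congr rfl fun b _ => by ring))
  rw [sum_congr rfl h1, sum_add_distrib, sum_comm, sub_sub, ← sum_add_distrib, sub_eq_add_neg,
    ← sum_neg_distrib]
  congr 1
  · rw [Gc, Ap.GS, Nat.cast_sum]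
  · refine sum_congr rfl fun b _ => ?_
    rw [sum_sub_distrib, ← sum_mul, Df, VV, wt]
    change _ = -((ct Y.C b : ℝ) * Y.HH (Y.res b) - _ + _)
    push_cast
    field_simp
    ring

theorem F6 : ∃ K : ℝ, 0 < K ∧ ∀ Y : Cl, Y.Sm → ∀ ε : ℝ, 0 < ε → ε ≤ 1 →
    ∑ b ∈ Y.D, Y.HH (Y.res b) / Y.gb * Y.VV b ≤ K * (ε + Y.Dw / ε) * Y.E := by
  refine ⟨96, by norm_num, fun Y hS ε e0 e1 => ?_⟩
  obtain ⟨p1, p2, p3, p4, p5, p6, p7, p8, p9, p10, p11, p12⟩ := Y.pos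
  obtain ⟨g1, g2, g4⟩ := Y.gb_near
  obtain ⟨E1, E2, E3, -⟩ := Y.E_ge
  have g3 : 0 < Y.gb := p1.trans g2
  have w0 : (0 : ℝ) < Y.w := by exact_mod_cast Y.hw1
  have h1 : ∀ b ∈ Y.D, Y.HH (Y.res b) / Y.gb * Y.VV b ≤ 2 / Y.m * max (Y.VV b) 0 := fun b _ => by
    obtain ⟨k1, -, k3⟩ := Y.HH_bounds (r := Y.res b) (Nat.mod_lt _ Y.hm)
    refine (mul_le_mul_of_nonneg_left (le_max_left _ 0) (by positivity)).trans
      (mul_le_mul_of_nonneg_right ?_ (le_max_right _ _))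
    have k4 : 1 ≤ Y.gb / Y.m := (one_le_div p1).2 g2.le
    rw [div_le_iff₀ g3, div_mul_eq_mul_div, mul_div_assoc]
    linarith
  have h2 : ∀ h ∈ Y.C, |(h : ℝ) - Y.gb| ≤ |(h : ℝ) - Y.gm| + Y.s := fun h _ =>
    (abs_sub_le _ (Y.gm : ℝ) _).trans (by rw [abs_sub_comm (Y.gm : ℝ)]; linarith)
  have h3 := Y.stein_V (N := Y.C) (l := 2 * Y.l) (W := 2 * Y.w) (L := 1 / ε) g4
    (fun b hb => Y.ct_le subset_rfl hb) (by positivity)
    (fun h hh => (h2 h hh).trans (by linarith [(Y.mem_C hh).2.2.2])) (by positivity)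
  have h4 : ∑ h ∈ Y.C, (Y.AA h : ℝ) ≤ Y.m * (2 * Y.l) := by
    have k1 : ∑ h ∈ Y.C, (Y.AA h : ℝ) = ∑ b ∈ Y.D, (ct Y.C b : ℝ) := by
      simp only [Ap.AA, ct, Nat.cast_sum]
      exact sum_comm
    have k2 := sum_le_card_nsmul Y.D _ _ fun b hb => Y.ct_le subset_rfl hb
    rwa [Y.cardD, nsmul_eq_mul, ← k1] at k2
  have h5 : ∑ h ∈ Y.C, |(h : ℝ) - Y.gb| * Y.AA h ≤ 6 * Y.E * Y.m := by
    refine (sum_le_sum fun h hh => mul_le_mul_of_nonneg_right (h2 h hh)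
      (Nat.cast_nonneg _)).trans ?_
    simp only [add_mul, sum_add_distrib, ← mul_sum]
    have k1 := mul_le_mul_of_nonneg_left h4 p10
    have k2 := mul_le_mul_of_nonneg_right E3 p1.le
    linarith [Y.dev_le]
  have h6 : Y.m * (1 / ε) + 2 * Y.l * Y.low.card + Y.GS Y.C ≤ 24 * Y.E / ε := by
    have k1 := Y.l_low hS
    have k2 : Y.E ≤ Y.E / ε := le_div_self (p1.le.trans E1) e0 e1
    have k3 : Y.m / ε ≤ Y.E / ε := div_le_div_of_nonneg_right E1 e0.le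
    rw [mul_one_div, mul_div_assoc]
    change _ + Y.Gc ≤ _
    linarith
  have h7 : ∑ b ∈ Y.D, max (Y.VV b) 0 ≤ 2 * Y.w * (24 * Y.E / ε) + ε * (6 * Y.E * Y.m) := by
    refine h3.trans (add_le_add (mul_le_mul_of_nonneg_left h6 (by positivity)) ?_)
    rw [one_div_one_div]
    exact mul_le_mul_of_nonneg_left h5 e0.le
  refine (sum_le_sum h1).trans ?_
  rw [← mul_sum]
  refine (mul_le_mul_of_nonneg_left h7 (by positivity)).trans ?_
  have h8 : 2 / Y.m * (2 * Y.w * (24 * Y.E / ε) + ε * (6 * Y.E * Y.m)) =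
      96 * (Y.Dw / ε) * Y.E + 12 * (ε * Y.E) := by
    rw [Dw]
    field_simp
    ring
  have h9 : 0 ≤ ε * Y.E := mul_nonneg e0.le (p1.le.trans E1)
  rw [h8]
  linarith

end Cl

end Pool.Agent.Lib.MP_299528_co.Bd
end

-- part Pool.Agent.Lib.MP_299528_co.W.Cut
section

/-! The exchange inequality near a cut. -/

set_option autoImplicit false

namespace Pool.Agent.Lib.MP_299528_co.Bd

open Finset

theorem cut_geo (n : ℕ) : ∑ i ∈ range n, (1 / 2 : ℝ) ^ i = 2 - 2 * (1 / 2) ^ n ∧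
    ∑ i ∈ range n, ((i : ℝ) + 1) * (1 / 2) ^ i = 4 - (2 * n + 4) * (1 / 2) ^ n := by
  induction n with
  | zero => norm_num
  | succ n ih =>
    rw [sum_range_succ, sum_range_succ, ih.1, ih.2]
    push_cast
    constructor <;> ring

theorem cut_exp {u : ℝ} (hu : 0 ≤ u) : Real.exp (-u) ≤ (1 / 2) ^ ⌊u⌋₊ := by
  have h1 : Real.exp (-1) ≤ 1 / 2 := by
    have h2 := Real.add_one_le_exp (1 : ℝ)
    rw [Real.exp_neg, one_div]
    exact inv_anti₀ two_pos (by linarith)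
  calc Real.exp (-u) ≤ Real.exp (⌊u⌋₊ * -1) :=
        Real.exp_le_exp.2 (by have := Nat.floor_le hu; linarith)
    _ = Real.exp (-1) ^ ⌊u⌋₊ := Real.exp_nat_mul _ _
    _ ≤ _ := pow_le_pow_left₀ (Real.exp_pos _).le h1 _

theorem sum_exp {ι : Type*} (S : Finset ι) (d : ι → ℝ) {x R : ℝ} (hx : 0 ≤ x) (hR : 0 < R)
    (h : ∀ r : ℝ, 0 ≤ r → ((S.filter (fun b => d b ≤ r)).card : ℝ) ≤ 2 * r + 1) :
    ∑ b ∈ S, Real.exp (-(max (d b - x) 0 / R)) ≤ 4 * x + 8 * R + 2 := by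
  classical
  have hu : ∀ b, 0 ≤ max (d b - x) 0 / R := fun b => div_nonneg (le_max_right _ _) hR.le
  obtain ⟨n, hn⟩ : ∃ n, ∀ b ∈ S, ⌊max (d b - x) 0 / R⌋₊ ∈ range n :=
    ⟨S.sup (fun b => ⌊max (d b - x) 0 / R⌋₊) + 1, fun b hb =>
      mem_range.2 (Nat.lt_succ_of_le (le_sup (f := fun b => ⌊max (d b - x) 0 / R⌋₊) hb))⟩
  rw [← sum_fiberwise_of_maps_to hn]
  have key : ∀ i ∈ range n, ∑ b ∈ S.filter (fun b => ⌊max (d b - x) 0 / R⌋₊ = i),
      Real.exp (-(max (d b - x) 0 / R)) ≤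
      (2 * x + 1) * (1 / 2) ^ i + 2 * R * (((i : ℝ) + 1) * (1 / 2) ^ i) := fun i _ => by
    have h1 := sum_le_card_nsmul (S.filter (fun b => ⌊max (d b - x) 0 / R⌋₊ = i))
      (fun b => Real.exp (-(max (d b - x) 0 / R))) ((1 / 2 : ℝ) ^ i) fun b hb => by
        rw [← (mem_filter.1 hb).2]
        exact cut_exp (hu b)
    have h2 : S.filter (fun b => ⌊max (d b - x) 0 / R⌋₊ = i) ⊆
        S.filter (fun b => d b ≤ x + (i + 1) * R) := fun b hb => by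
      obtain ⟨k1, k2⟩ := mem_filter.1 hb
      refine mem_filter.2 ⟨k1, ?_⟩
      have k3 := Nat.lt_floor_add_one (max (d b - x) 0 / R)
      rw [k2, div_lt_iff₀ hR] at k3
      have := le_max_left (d b - x) 0
      linarith
    have h3 := h (x + (i + 1) * R) (by positivity)
    have h4 : ((S.filter (fun b => ⌊max (d b - x) 0 / R⌋₊ = i)).card : ℝ) ≤
        2 * (x + (i + 1) * R) + 1 := (Nat.cast_le.2 (card_le_card h2)).trans h3
    rw [nsmul_eq_mul] at h1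
    have h5 := mul_le_mul_of_nonneg_right h4 (show (0 : ℝ) ≤ (1 / 2) ^ i by positivity)
    linarith
  refine (sum_le_sum key).trans ?_
  rw [sum_add_distrib, ← mul_sum, ← mul_sum, (cut_geo n).1, (cut_geo n).2]
  have h6 : 0 ≤ (2 * x + 1) * (2 * (1 / 2 : ℝ) ^ n) := by positivity
  have h7 : 0 ≤ 2 * R * ((2 * n + 4) * (1 / 2 : ℝ) ^ n) := by positivity
  linarith

theorem cut_ratio {p q x y R θ : ℝ} (hR : 0 < R) (h : |p - q| ≤ y) (hy : 2 * y ≤ θ * R)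
    (hθ : θ ≤ 1) : |Real.exp (-(max (p - x) 0 / R)) - Real.exp (-(max (q - x) 0 / R))| ≤
      θ * Real.exp (-(max (q - x) 0 / R)) := by
  have h1 : |max (q - x) 0 - max (p - x) 0| ≤ y := by
    refine (abs_max_sub_max_le_abs _ _ _).trans ?_
    rwa [sub_sub_sub_cancel_right, abs_sub_comm]
  have h2 : |(max (q - x) 0 - max (p - x) 0) / R| ≤ θ / 2 := by
    rw [abs_div, abs_of_pos hR, div_le_iff₀ hR]
    linarith
  have h3 := Real.abs_exp_sub_one_le (h2.trans (by linarith))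
  have e : Real.exp (-(max (p - x) 0 / R)) - Real.exp (-(max (q - x) 0 / R)) =
      (Real.exp ((max (q - x) 0 - max (p - x) 0) / R) - 1) * Real.exp (-(max (q - x) 0 / R)) := by
    rw [sub_mul, ← Real.exp_add, one_mul]
    congr 2
    ring
  rw [e, abs_mul, abs_of_pos (Real.exp_pos _)]
  exact mul_le_mul_of_nonneg_right (by linarith) (Real.exp_pos _).le

theorem cut_far {p x R ρ : ℝ} (hR : 0 < R) (hρ : 0 < ρ) (h : x + ρ ≤ p) :
    Real.exp (-(max (p - x) 0 / R)) ≤ R / ρ := by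
  have h1 : ρ / R ≤ max (p - x) 0 / R :=
    div_le_div_of_nonneg_right ((by linarith : ρ ≤ p - x).trans (le_max_left _ _)) hR.le
  have h2 := Real.add_one_le_exp (max (p - x) 0 / R)
  have h3 : ρ / R ≤ Real.exp (max (p - x) 0 / R) := by linarith
  rw [Real.exp_neg, ← inv_div ρ R]
  exact inv_anti₀ (div_pos hρ hR) h3

theorem cut_one (p : ℝ) {R : ℝ} (hR : 0 < R) : Real.exp (-(max p 0 / R)) ≤ 1 :=
  Real.exp_le_one_iff.2 (neg_nonpos.2 (div_nonneg (le_max_right _ _) hR.le))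

namespace Cl

theorem cut_stein : ∃ K : ℝ, 0 < K ∧ ∀ Y : Cl, ∀ d : ℕ → ℝ,
    (∀ t t' : ℕ, |d t - d t'| ≤ |(t : ℝ) - t'|) →
    (∀ (g : ℕ) (r : ℝ), 0 ≤ r →
      ((Y.D.filter (fun b => d (Y.η b + g) ≤ r)).card : ℝ) ≤ 2 * r + 1) →
    ∀ (g₀ : ℕ) (x x₂ θ ρ : ℝ), 0 ≤ x → 1 ≤ x₂ → 0 < θ → θ ≤ 1 → 0 < ρ →
    ∀ A N : Finset ℕ, A ⊆ N → N ⊆ Y.C → (∀ h ∈ N, g₀ ≤ h ∧ (h : ℝ) ≤ g₀ + x₂) →
    ∀ B : Finset (Multiset ℕ), B ⊆ Y.D → (∀ b ∈ B, d (Y.η b + g₀) ≤ x) →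
    ∑ b ∈ B, max ((A.card : ℝ) / N.card * ct N b - ct A b) 0 ≤
      ∑ g ∈ A, ∑ a ∈ Y.low.filter (fun a => d (Y.η a) ≤ x + ρ) ∩ Y.Un g, ((a.count g : ℝ) + 1) +
      2 * x₂ / (θ * ρ) * Y.GS A +
      B.card * (2 * θ * (1 + 4 * ((A.card : ℝ) / N.card) * Y.l) + 1) +
      K * ((A.card : ℝ) / N.card * Y.lam * (Y.Gc + Y.l * (x + x₂ / θ + Y.s)) +
        (x + x₂ / θ) / θ) := by
  refine ⟨144, by norm_num, ?_⟩
  intro Y d hd hc g₀ x x₂ θ ρ hx hx₂ hθ hθ1 hρ A N hA hN hg B hB hBx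
  obtain ⟨-, p2, -, p4, p5, -, -, -, -, p10, -, p12⟩ := Y.pos
  have q2 := Y.eqs.2.1
  obtain ⟨z, hz⟩ : ∃ z, z = x₂ / θ := ⟨_, rfl⟩
  have hz1 : 1 ≤ z := by
    rw [hz, le_div_iff₀ hθ]
    linarith
  have hzθ : z * θ = x₂ := by rw [hz, div_mul_cancel₀ _ hθ.ne']
  have hR : 0 < 2 * z := by linarith
  have e1 : 2 * x₂ / (θ * ρ) = 2 * z / ρ := by
    rw [hz]
    field_simp
  rw [e1, ← hz]
  obtain ⟨q, hq⟩ : ∃ q : ℝ, q = (A.card : ℝ) / N.card := ⟨_, rfl⟩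
  have hq0 : 0 ≤ q := by rw [hq]; positivity
  have s1 := Y.stein_set hA (l := 2 * Y.l) (fun b hb => Y.ct_le hN hb) hθ.le hθ1 hθ
    (fun a => Real.exp (-(max (d (Y.η a) - x) 0 / (2 * z))))
    (fun b => Real.exp (-(max (d (Y.η b + g₀) - x) 0 / (2 * z))))
    (fun _ _ => (Real.exp_pos _).le) (fun _ _ => (Real.exp_pos _).le)
    (fun h hh a ha => by
      refine cut_ratio (y := x₂) hR ((hd _ _).trans ?_) (by linarith) hθ1
      have k1 : (g₀ : ℝ) ≤ h := Nat.cast_le.2 (hg h hh).1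
      have k2 := (hg h hh).2
      rw [(Y.of_cons ha).2.2]
      push_cast
      rw [add_sub_add_left_eq_sub, abs_le]
      constructor <;> linarith)
    hB (fun b hb => by
      rw [max_eq_right (sub_nonpos.2 (hBx b hb)), zero_div, neg_zero, Real.exp_zero])
  rw [← hq] at s1 ⊢
  have t1 : ∑ g ∈ A, ∑ a ∈ Y.Pu N ∩ Y.Un g,
      ((a.count g : ℝ) + 1) * Real.exp (-(max (d (Y.η a) - x) 0 / (2 * z))) ≤
      ∑ g ∈ A, ∑ a ∈ Y.low.filter (fun a => d (Y.η a) ≤ x + ρ) ∩ Y.Un g, ((a.count g : ℝ) + 1) +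
        2 * z / ρ * Y.GS A := by
    rw [Ap.GS, Nat.cast_sum, mul_sum, ← sum_add_distrib]
    refine sum_le_sum fun g _ => ?_
    have k1 := Y.un_le_GG g (P := Y.low) 1 fun a ha => (Y.η_low ha).1
    rw [one_mul] at k1
    have k2 : ∑ a ∈ Y.low ∩ Y.Un g, ((a.count g : ℝ) + 1) ≤ Y.GG g := by exact_mod_cast k1
    have k3 : 0 ≤ 2 * z / ρ := by positivity
    have k4 : Y.low.filter (fun a => d (Y.η a) ≤ x + ρ) ∩ Y.Un g =
        (Y.low ∩ Y.Un g).filter (fun a => d (Y.η a) ≤ x + ρ) := filter_inter _ _ _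
    refine le_trans ?_ (add_le_add le_rfl (mul_le_mul_of_nonneg_left k2 k3))
    rw [k4, sum_filter, mul_sum, ← sum_add_distrib]
    refine (sum_le_sum_of_subset_of_nonneg (inter_subset_inter_right (Y.Pu_sub N))
      fun _ _ _ => by positivity).trans (sum_le_sum fun a _ => ?_)
    have k5 : (0 : ℝ) ≤ (a.count g : ℝ) + 1 := by positivity
    split_ifs with k6
    · have k7 := mul_le_mul_of_nonneg_left (cut_one (d (Y.η a) - x) hR) k5
      have k8 := mul_nonneg k3 k5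
      linarith
    · have k7 := mul_le_mul_of_nonneg_left (cut_far hR hρ (not_le.1 k6).le) k5
      linarith
  have t2 := Y.CDw (fun a => Real.exp (-(max (d (Y.η a) - x) 0 / (2 * z))))
    (fun b => Real.exp (-(max (d (Y.η b + Y.gm) - (x + 2 * Y.s)) 0 / (2 * z))))
    (fun _ _ => (Real.exp_pos _).le) (fun _ _ => (Real.exp_pos _).le) (fun g _ hgs a ha => by
      refine Real.exp_le_exp.2 (neg_le_neg (div_le_div_of_nonneg_right
        (max_le_max ?_ le_rfl) hR.le))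
      have k1 := hd (Y.η a) (Y.η (g ::ₘ a) + Y.gm)
      have k2 : |(Y.η a : ℝ) - (Y.η (g ::ₘ a) + Y.gm : ℕ)| = |(g : ℝ) - Y.gm| := by
        rw [(Y.of_cons ha).2.2]
        push_cast
        rw [add_sub_add_left_eq_sub]
      rw [k2] at k1
      have k3 := (abs_le.1 (k1.trans hgs)).1
      linarith)
  have t3 : ∑ g ∈ Y.C, ∑ a ∈ Y.low ∩ Y.Un g, Real.exp (-(max (d (Y.η a) - x) 0 / (2 * z))) ≤
      Y.Gc := by
    refine le_trans (sum_le_sum fun g _ => sum_le_sum fun a _ => ?_) Y.UP_low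
    exact (cut_one _ hR).trans (le_add_of_nonneg_left (Nat.cast_nonneg _))
  have t4 := sum_exp Y.D (fun b => d (Y.η b + Y.gm)) (x := x + 2 * Y.s) (by linarith) hR (hc Y.gm)
  have t5 := sum_exp Y.D (fun b => d (Y.η b + g₀)) hx hR (hc g₀)
  have t6 : ∑ a ∈ Y.Pu N, Real.exp (-(max (d (Y.η a) - x) 0 / (2 * z))) ≤
      ∑ a ∈ Y.low, Real.exp (-(max (d (Y.η a) - x) 0 / (2 * z))) :=
    sum_le_sum_of_subset_of_nonneg (Y.Pu_sub N) fun _ _ _ => (Real.exp_pos _).le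
  have l0 : 0 ≤ Y.l := by linarith
  have u1 : Y.kc * ∑ a ∈ Y.Pu N, Real.exp (-(max (d (Y.η a) - x) 0 / (2 * z))) ≤
      72 * (Y.Gc + Y.l * (x + z + Y.s)) := by
    have k1 := mul_le_mul_of_nonneg_left t6 p2.le
    have k2 := mul_le_mul_of_nonneg_left
      (t4.trans (show _ ≤ 18 * (x + z + Y.s) by linarith)) l0
    linarith
  have u2 := mul_le_mul_of_nonneg_left u1 (mul_nonneg hq0 p5.le)
  have u3 := mul_le_mul_of_nonneg_left (t5.trans (show _ ≤ 18 * (x + z) by linarith))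
    (show 0 ≤ 2 / θ by positivity)
  have u4 : 0 ≤ (x + z) / θ := by positivity
  have u5 : 2 / θ * (18 * (x + z)) = 36 * ((x + z) / θ) := by ring
  have u6 : q * (2 * Y.l) * ∑ a ∈ Y.Pu N, Real.exp (-(max (d (Y.η a) - x) 0 / (2 * z))) =
      2 * (q * Y.lam * (Y.kc * ∑ a ∈ Y.Pu N,
        Real.exp (-(max (d (Y.η a) - x) 0 / (2 * z))))) := by
    rw [← q2]
    ring
  linarith

end Cl

end Pool.Agent.Lib.MP_299528_co.Bd
end

-- part Pool.Agent.Lib.MP_299528_co.W.F7a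
section

/-! Deviations towards the edge force unused pairs. -/

set_option autoImplicit false

namespace Pool.Agent.Lib.MP_299528_co.Bd

open Finset

namespace Cl

theorem f7a_cut : ∃ K : ℝ, 0 < K ∧ ∀ Y : Cl, Y.Sm → ∀ (e : ℕ) (A : Finset ℕ), A ⊆ Y.C →
    ∀ B : Finset (Multiset ℕ), B ⊆ Y.D → (∀ b ∈ B, |(Y.η b : ℝ) - e| ≤ Y.w) →
    A.card / Y.kc * ∑ b ∈ B, (ct Y.C b : ℝ) - ∑ b ∈ B, (ct A b : ℝ) ≤
      Y.Ue e + B.card * (2 + A.card / Y.kc * Y.l / 125) + K * Y.Es := by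
  obtain ⟨K, hK, H⟩ := cut_stein
  refine ⟨64000 + K * 2012012, by positivity, fun Y hS e A hA B hB hB' => ?_⟩
  obtain ⟨p1, p2, p3, p4, p5, p6, -, -, -, p7, -, p8⟩ := Y.pos
  obtain ⟨e1, e2, e3, -, e4, e5, e6, -⟩ := Y.E_ge
  have hw : (1000 : ℝ) * Y.w ≤ Y.m := by exact_mod_cast Y.hw
  have w1 : (1 : ℝ) ≤ Y.w := by exact_mod_cast Y.hw1
  have hg : ((Y.gm - Y.w : ℕ) : ℝ) = Y.gm - Y.w :=
    Nat.cast_sub (by have := Y.hw; have := Y.hgm; omega)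
  have H1 := H Y (fun t => |(t : ℝ) - (Y.gm + e)|)
    (fun t t' => (abs_abs_sub_abs_le_abs_sub _ _).trans_eq (by rw [sub_sub_sub_cancel_right]))
    (fun g r hr => by
      have e1 : ∀ b, ((Y.η b + g : ℕ) : ℝ) - (Y.gm + e) = Y.η b - (Y.gm + e - g) := fun b => by
        rw [Nat.cast_add]
        ring
      simp only [e1]
      exact Y.card_abs_le _ hr)
    (Y.gm - Y.w) (2 * Y.w) (2 * Y.w) (1 / 1000) (Y.m / 16) (by linarith) (by linarith)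
    (by norm_num) (by norm_num) (by linarith) A Y.C hA subset_rfl (fun h hh => by
      obtain ⟨-, h1, h2, -⟩ := Y.mem_C hh
      have h3 : (h : ℝ) ≤ Y.gm + Y.w := by exact_mod_cast h2
      exact ⟨by omega, by linarith⟩) B hB (fun b hb => by
      have h := abs_le.1 (hB' b hb)
      rw [Nat.cast_add, hg, abs_le]
      constructor <;> linarith [h.1, h.2])
  have q0 : (0 : ℝ) ≤ A.card / Y.kc := by positivity
  have q1 : A.card / Y.kc ≤ 1 := (div_le_one p2).2 (Nat.cast_le.2 (card_le_card hA))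
  change ∑ b ∈ B, max (A.card / Y.kc * _ - _) 0 ≤ _ + _ + _ * (2 * _ * (1 + 4 * (A.card / Y.kc) * _)
    + 1) + K * (A.card / Y.kc * _ * _ + _) at H1
  generalize (A.card : ℝ) / Y.kc = q at *
  have t0 : q * ∑ b ∈ B, (ct Y.C b : ℝ) - ∑ b ∈ B, (ct A b : ℝ) ≤
      ∑ b ∈ B, max (q * ct Y.C b - ct A b) 0 := by
    rw [mul_sum, ← sum_sub_distrib]
    exact sum_le_sum fun b _ => le_max_left _ _
  have t1 : ∑ g ∈ A, ∑ a ∈ Y.low.filter (fun a => |(Y.η a : ℝ) - (Y.gm + e)| ≤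
      2 * Y.w + Y.m / 16) ∩ Y.Un g, ((a.count g : ℝ) + 1) ≤ Y.Ue e := by
    refine (sum_le_sum_of_subset_of_nonneg hA fun g _ _ => by positivity).trans
      (Y.UP_mono fun a ha => ?_).2
    rw [mem_filter] at ha ⊢
    refine ⟨ha.1, (Int.cast_le (R := ℝ)).1 ?_⟩
    push_cast
    rw [sub_sub]
    linarith [ha.2]
  have t2 : 2 * (2 * (Y.w : ℝ)) / (1 / 1000 * (Y.m / 16)) * Y.GS A ≤ 64000 * Y.Es := by
    have a1 : 2 * (2 * (Y.w : ℝ)) / (1 / 1000 * (Y.m / 16)) = 64000 * Y.Dw := by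
      rw [Dw]
      field_simp
      norm_num
    have a2 : (Y.GS A : ℝ) ≤ Y.Gc := Nat.cast_le.2 (Y.GS_mono hA)
    have a3 := mul_le_mul_of_nonneg_left (a2.trans e2) p6.le
    rw [a1]
    linarith
  have t3 : q * Y.lam * (Y.Gc + Y.l * (2 * Y.w + 2 * Y.w / (1 / 1000) + Y.s)) +
      (2 * Y.w + 2 * Y.w / (1 / 1000)) / (1 / 1000) ≤ 2012012 * Y.Es := by
    have l0 : 0 ≤ Y.l := by linarith
    have a0 : 0 ≤ Y.lam * (Y.Gc + Y.l * (2 * Y.w + 2 * Y.w / (1 / 1000) + Y.s)) := by positivity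
    have a1 := mul_le_of_le_one_left a0 q1
    have a2 := mul_le_mul_of_nonneg_left e2 p5.le
    have a3 := mul_le_mul_of_nonneg_left e3 p5.le
    have a4 := mul_le_mul_of_nonneg_left ((Y.T0 hS).trans
      (by linarith : 5 * Y.Gc ≤ 5 * Y.E)) p6.le
    have a5 : Y.Dw * (Y.lam * Y.l * Y.m) = Y.lam * Y.l * Y.w := by
      rw [← Y.eqs.2.2.1]
      ring
    linarith
  have t4 := mul_le_mul_of_nonneg_left t3 hK.le
  have t5 : (0 : ℝ) ≤ B.card := Nat.cast_nonneg _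
  linarith

theorem f7a_up (Y : Cl) (hS : Y.Sm) {σ : ℤ} {e : ℕ} (hE : Y.Edge σ e) {v : ℤ} (hv : v ≤ Y.w) :
    ∑ b ∈ Y.Z.filter (fun b => Y.zb σ e b < v), (ct (Y.C.filter (fun h => Y.vv σ h ≤ 0)) b : ℝ) ≤
      Y.kc * (Y.low.filter (fun a => -(Y.w : ℤ) ≤ Y.za σ e a ∧ Y.za σ e a < v)).card +
        400 * Y.Es := by
  set A := Y.C.filter (fun h => Y.vv σ h ≤ 0) with hA
  set P := Y.low.filter (fun a => -(Y.w : ℤ) ≤ Y.za σ e a ∧ Y.za σ e a < v) with hP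
  have hAC : A ⊆ Y.C := filter_subset _ _
  have h1 : ∑ b ∈ Y.Z.filter (fun b => Y.zb σ e b < v), (ct A b : ℝ) ≤
      A.card * P.card + ∑ a ∈ P, (ct A a : ℝ) := by
    simp only [ct, Nat.cast_sum]
    rw [sum_comm, sum_comm (s := P), ← nsmul_eq_mul, ← sum_const, ← sum_add_distrib]
    refine sum_le_sum fun g hg => Y.count_le g
      ((filter_subset _ _).trans (filter_subset _ _)) fun a ha => ?_
    rw [mem_filter] at ha hg
    have h2 : g ::ₘ a ∈ Y.D := filter_subset _ _ ha.1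
    obtain ⟨h3, -, h4⟩ := Y.of_cons h2
    obtain ⟨h5, -, -, h6⟩ := Y.mem_C hg.1
    rw [← hE.vv_abs] at h6
    have h7 : -(Y.w : ℤ) ≤ Y.vv σ g := by exact_mod_cast (abs_le.1 h6).1
    have h8 := hE.zb_nonneg ha.1
    rw [hP, mem_filter, Y.mem_low, Y.z_cons h2]
    exact ⟨⟨h3, by omega⟩, by omega, by omega⟩
  have h2 : ∑ a ∈ P, (ct A a : ℝ) ≤ P.card * (2 * Y.l) := by
    rw [← nsmul_eq_mul, ← sum_const]
    exact sum_le_sum fun a ha => Y.ct_le hAC (Y.mem_low.1 (filter_subset _ _ ha)).1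
  obtain ⟨p, hp⟩ := hE.arc_za (-(Y.w : ℤ)) (2 * Y.w)
  have h3 := Y.MU hS p (u := 2 * Y.w) (by omega)
  have h4 : (P.card : ℝ) ≤ (Y.arc Y.low p (2 * Y.w)).card := by
    refine Nat.cast_le.2 (card_le_card fun a ha => ?_)
    rw [hP, mem_filter] at ha
    exact mem_filter.2 ⟨ha.1, hp a ha.2.1 (by have := ha.2.2; omega)⟩
  have h5 := mul_le_mul_of_nonneg_left h4 (by linarith [Y.pos.2.2.2.1] : 0 ≤ Y.l)
  have h6 : (A.card : ℝ) * P.card ≤ Y.kc * P.card :=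
    mul_le_mul_of_nonneg_right (Nat.cast_le.2 (card_le_card hAC)) (Nat.cast_nonneg _)
  linarith

theorem f7a_one : ∃ K : ℝ, 0 < K ∧ ∀ Y : Cl, Y.Sm → ∀ (σ : ℤ) (e : ℕ), Y.Edge σ e →
    ∀ h ∈ Y.C, (1 / 4 - K * Y.eB) * Y.l * max ((Y.vv σ h : ℤ) : ℝ) 0 ≤
      Y.kc * (Y.low.filter (fun a => -(Y.w : ℤ) ≤ Y.za σ e a ∧ Y.za σ e a < Y.vv σ h)).card +
        (Y.Ue e + K * Y.Es) := by
  obtain ⟨K, hK, H⟩ := f7a_cut
  obtain ⟨K', hK', H'⟩ := LC'
  refine ⟨K + K' + 402, by positivity, fun Y hS σ e hE h hh => ?_⟩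
  obtain ⟨p1, p2, p3, p4, p5, p6, -, p7, -⟩ := Y.pos
  obtain ⟨e1, -, -, -, e4, -, e6, -⟩ := Y.E_ge
  have w0 : (0 : ℝ) ≤ Y.w := Nat.cast_nonneg _
  have s0 : 0 ≤ Y.Es := by linarith
  have u0 : 0 ≤ Y.Ue e := (Y.UP_mono subset_rfl).1
  rcases le_total (Y.vv σ h) 0 with hv | hv
  · rw [max_eq_right (by exact_mod_cast hv), mul_zero]
    positivity
  obtain ⟨u, hu⟩ := Int.eq_ofNat_of_zero_le hv
  have h1 := (Y.mem_C hh).2.2.2
  rw [← hE.vv_abs, hu, Int.cast_natCast, Nat.abs_cast] at h1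
  have h2 : u ≤ Y.w := Nat.cast_le.1 h1
  have h3 := Y.f7a_up hS hE (v := u) (Nat.cast_le.2 h2)
  obtain ⟨p, hp⟩ := hE.arc_Z (u := u) (by have := Y.hw; omega)
  have h4 := H Y hS e _ (filter_subset (fun h => Y.vv σ h ≤ 0) _)
    (Y.Z.filter (fun b => Y.zb σ e b < u)) ((filter_subset _ _).trans (filter_subset _ _))
    fun b hb => by
      rw [mem_filter] at hb
      have a1 := hE.zb_nonneg hb.1
      have a2 := hb.2
      have a3 : |(Y.η b : ℤ) - e| ≤ Y.w := by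
        rw [zb] at a1 a2
        rw [abs_le]
        rcases hE with ⟨rfl, -⟩ | ⟨rfl, -⟩ <;> omega
      exact_mod_cast a3
  rw [hp] at h3 h4
  have h5 := H' Y hS p u (by omega)
  have h6 : ((Y.arc Y.Z p u).card : ℝ) ≤ u := Nat.cast_le.2 ((card_le_card
    (filter_subset_filter _ (filter_subset _ _))).trans (Y.card_arc_le p u))
  have q0 : 1 / 3 ≤ ((Y.C.filter (fun h => Y.vv σ h ≤ 0)).card : ℝ) / Y.kc := by
    have a1 : Y.kc ≤ 3 * ((Y.C.filter (fun h => Y.vv σ h ≤ 0)).card : ℝ) := by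
      rw [kc]
      exact_mod_cast hE.sides.1
    rw [le_div_iff₀ p2]
    linarith
  have q1 : ((Y.C.filter (fun h => Y.vv σ h ≤ 0)).card : ℝ) / Y.kc ≤ 1 :=
    (div_le_one p2).2 (Nat.cast_le.2 (card_filter_le _ _))
  generalize ((Y.C.filter (fun h => Y.vv σ h ≤ 0)).card : ℝ) / Y.kc = q at *
  rw [hu, Int.cast_natCast, max_eq_left (Nat.cast_nonneg u)]
  have l0 : 0 ≤ Y.l := by linarith
  have q2 : 0 ≤ q := by linarith
  have a1 := mul_le_mul_of_nonneg_left h5 q2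
  have a2 := mul_le_mul_of_nonneg_right h6 (by positivity : 0 ≤ 2 + q * Y.l / 125)
  have a3 : 0 ≤ u * Y.l := by positivity
  have a4 := mul_le_mul_of_nonneg_right q0 a3
  have a5 := mul_le_of_le_one_left (by positivity : 0 ≤ K' * Y.eB * (u * Y.l) + K' * Y.Es) q1
  have a6 : 0 ≤ (K + 402) * Y.eB * (u * Y.l) := by positivity
  linarith

theorem F7a : ∃ κ K : ℝ, 0 < κ ∧ 0 < K ∧ ∀ Y : Cl, Y.Sm → ∀ (σ : ℤ) (e : ℕ), Y.Edge σ e →
    κ * (Y.sp σ * Y.l) ≤ Y.Ue e + K * Y.Es := by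
  obtain ⟨K, hK, H⟩ := f7a_one
  refine ⟨1 / 8, K + 200, by norm_num, by positivity, fun Y hS σ e hE => ?_⟩
  obtain ⟨p1, p2, p3, p4, -, -, -, p7, -⟩ := Y.pos
  obtain ⟨-, -, e3, -, -, -, -, e7, -⟩ := Y.E_ge
  have h1 := sum_le_sum (H Y hS σ e hE)
  have h2 : ∑ h ∈ Y.C, max ((Y.vv σ h : ℤ) : ℝ) 0 = Y.kc * Y.sp σ := by
    rw [sp, mul_div_cancel₀ _ p2.ne']
  rw [← mul_sum, h2, sum_add_distrib, ← mul_sum, sum_const, nsmul_eq_mul] at h1
  have h3 := mul_le_mul_of_nonneg_left (Y.forced hS hE) p2.le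
  have h4 : (1 / 4 - K * Y.eB) * Y.l * Y.sp σ ≤ 2 * Y.Ue e + (K + 400) * Y.Es := by
    refine le_of_mul_le_mul_left ?_ p2
    change _ ≤ _ + Y.kc * _ at h1
    linarith
  have h5 : 0 ≤ Y.sp (-σ) := div_nonneg (sum_nonneg fun _ _ => le_max_right _ _) p2.le
  have h6 : Y.sp σ * Y.l ≤ Y.E :=
    (mul_le_mul_of_nonneg_right (by linarith [hE.s_eq]) (by linarith)).trans e3
  have h7 := mul_le_mul_of_nonneg_left ((mul_le_mul_of_nonneg_left h6 p7).trans e7) hK.le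
  linarith

end Cl

end Pool.Agent.Lib.MP_299528_co.Bd
end

-- part Pool.Agent.Lib.MP_299528_co.W.F7b
section

/-! Deviations away from the edge force unused pairs. -/

set_option autoImplicit false

namespace Pool.Agent.Lib.MP_299528_co.Bd

open Finset

theorem f7b_geo (c w : ℝ) (hc : 0 < c) (hw : 0 ≤ w) (J : ℕ) :
    ∑ i ∈ (range J).filter (fun i => 2 ^ i * c ≤ w), (2 : ℝ) ^ i * c ≤ 2 ^ J * c ∧
    ∑ i ∈ (range J).filter (fun i => 2 ^ i * c ≤ w), (2 : ℝ) ^ i * c ≤ 2 * w := by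
  induction J with
  | zero => simp; constructor <;> linarith
  | succ J ih =>
    obtain ⟨h1, h2⟩ := ih
    have hp : (0 : ℝ) < 2 ^ J * c := by positivity
    rw [range_add_one, filter_insert]
    split_ifs with h
    · rw [sum_insert (by simp)]
      constructor
      · rw [pow_succ]; linarith
      · linarith
    · constructor
      · rw [pow_succ]; linarith
      · exact h2

theorem f7b_sum_ct (H : Finset ℕ) (B : Finset (Multiset ℕ)) :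
    ∑ b ∈ B, (ct H b : ℝ) = ∑ g ∈ H, ∑ b ∈ B, (b.count g : ℝ) := by
  rw [sum_comm]
  refine sum_congr rfl fun b _ => ?_
  simp [ct]

theorem f7b_disj {C : Finset ℕ} {I : Finset ℕ} (A : ℕ → Finset ℕ) (hA : ∀ i, A i ⊆ C)
    (hd : ∀ i j, i ≠ j → Disjoint (A i) (A j)) (f : ℕ → ℝ) (hf : ∀ g ∈ C, 0 ≤ f g) :
    ∑ i ∈ I, ∑ g ∈ A i, f g ≤ ∑ g ∈ C, f g := by
  rw [← sum_biUnion (fun i _ j _ hij => hd i j hij)]
  refine sum_le_sum_of_subset_of_nonneg ?_ (fun g hg _ => hf g hg)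
  intro g hg
  obtain ⟨i, _, hi⟩ := mem_biUnion.1 hg
  exact hA i hi

namespace Cl

/-- Low elements just beyond the edge. -/
def f7bA (Y : Cl) (σ : ℤ) (e : ℕ) : Finset (Multiset ℕ) :=
  Y.low.filter (fun a => -(Y.w : ℤ) ≤ Y.za σ e a ∧ Y.za σ e a < 0)

/-- Unused pairs near the edge for one letter. -/
noncomputable def f7bU (Y : Cl) (e g : ℕ) : ℝ :=
  ∑ a ∈ Y.low.filter (fun a => 8 * |(Y.η a : ℤ) - Y.gm - e| ≤ Y.m) ∩ Y.Un g,
    ((a.count g : ℝ) + 1)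

theorem f7b_low_sub (Y : Cl) : Y.low ⊆ Y.D := fun _ ha => (Y.mem_low.1 ha).1

theorem f7b_cons_low (Y : Cl) {g : ℕ} {a : Multiset ℕ} (h : g ::ₘ a ∈ Y.D) : a ∈ Y.low := by
  apply Y.Us_sub (g := g)
  exact mem_filter.2 ⟨(Y.of_cons h).1, h⟩

theorem f7b_vv_le {Y : Cl} {σ : ℤ} {e : ℕ} (hE : Y.Edge σ e) {h : ℕ} (hh : h ∈ Y.C) :
    |Y.vv σ h| ≤ (Y.w : ℤ) := by
  have h1 := hE.vv_abs h
  have h2 := (Y.mem_C hh).2.2.2
  rw [← h1] at h2
  exact_mod_cast h2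

theorem f7b_short {Y : Cl} (hS : Y.Sm) {σ : ℤ} {e : ℕ} (hE : Y.Edge σ e) (y : ℤ) {u : ℕ}
    (hu : u ≤ 10 * Y.w) :
    Y.l * ((Y.low.filter (fun a => y ≤ Y.za σ e a ∧ Y.za σ e a < y + u)).card : ℝ) ≤
      200 * Y.Es := by
  obtain ⟨p, hp⟩ := hE.arc_za y u
  have h1 := Y.MU hS p hu
  have h2 : (Y.low.filter (fun a => y ≤ Y.za σ e a ∧ Y.za σ e a < y + u)) ⊆ Y.arc Y.low p u := by
    intro a ha
    obtain ⟨ha1, ha2, ha3⟩ := mem_filter.1 ha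
    exact mem_filter.2 ⟨ha1, hp a ha2 ha3⟩
  have h3 : ((Y.low.filter (fun a => y ≤ Y.za σ e a ∧ Y.za σ e a < y + u)).card : ℝ) ≤
      (Y.arc Y.low p u).card := by exact_mod_cast card_le_card h2
  have hl : 0 ≤ Y.l := by linarith [Y.pos.2.2.2.1]
  exact le_trans (mul_le_mul_of_nonneg_left h3 hl) h1

theorem f7b_mult {Y : Cl} {H : Finset ℕ} (hH : H ⊆ Y.C) {P : Finset (Multiset ℕ)}
    (hP : P ⊆ Y.low) :
    ∑ g ∈ H, ∑ a ∈ P, (a.count g : ℝ) ≤ 2 * (Y.l * P.card) := by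
  rw [← f7b_sum_ct]
  calc ∑ b ∈ P, (ct H b : ℝ) ≤ ∑ _b ∈ P, 2 * Y.l :=
        sum_le_sum fun b hb => Y.ct_le hH (Y.f7b_low_sub (hP hb))
    _ = 2 * (Y.l * P.card) := by rw [sum_const, nsmul_eq_mul]; ring

theorem f7b_Ue_nonneg (Y : Cl) (e : ℕ) : 0 ≤ Y.Ue e := (Y.UP_mono (Subset.refl _)).1

/-- Letters far from the centre contribute little on the arc. -/
theorem f7b_out {Y : Cl} (hS : Y.Sm) {σ : ℤ} {e : ℕ} (hE : Y.Edge σ e) {x : ℝ} (hx : 1 ≤ x)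
    (hsx : Y.s ≤ 4 * x) {u : ℕ} (hu : (u : ℝ) ≤ 2 * x) (huw : u ≤ Y.w) {H : Finset ℕ}
    (hH : H ⊆ Y.C) (hc : 750 * (H.card : ℝ) ≤ Y.kc) :
    ∑ b ∈ Y.Z.filter (fun b => Y.zb σ e b < u), (ct H b : ℝ) ≤
      Y.Ue e / 375 + 96 / 1000 * (x * Y.l) + 400 * Y.Es := by
  obtain ⟨_, hkc, _, hl, _⟩ := Y.pos
  have hU := Y.f7b_Ue_nonneg e
  have hZ : Y.Z.filter (fun b => Y.zb σ e b < u) ⊆ Y.D :=
    fun b hb => (mem_filter.1 (mem_filter.1 hb).1).1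
  set P : ℕ → Finset (Multiset ℕ) := fun g =>
    Y.low.filter (fun a => Y.vv σ g ≤ Y.za σ e a ∧ Y.za σ e a < Y.vv σ g + u) with hPdef
  set Q : Finset (Multiset ℕ) :=
    Y.low.filter (fun a => -(Y.w : ℤ) ≤ Y.za σ e a ∧ Y.za σ e a < -(Y.w : ℤ) + (3 * Y.w : ℕ))
    with hQdef
  have hPQ : ∀ g ∈ H, P g ⊆ Q := by
    intro g hg a ha
    obtain ⟨ha1, ha2, ha3⟩ := mem_filter.1 ha
    have := abs_le.1 (f7b_vv_le hE (hH hg))
    refine mem_filter.2 ⟨ha1, by omega, by push_cast; omega⟩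
  have h1 : ∀ g ∈ H, ∑ b ∈ Y.Z.filter (fun b => Y.zb σ e b < u), (b.count g : ℝ) ≤
      (2 * Y.Ue e + 72 * (x * Y.l)) / Y.kc + ∑ a ∈ Q, (a.count g : ℝ) := by
    intro g hg
    have h2 := count_le Y g (P := P g) hZ (by
      intro a ha
      obtain ⟨hb1, hb2⟩ := mem_filter.1 ha
      have hD := (mem_filter.1 hb1).1
      have h3 := Y.z_cons (σ := σ) (e := e) hD
      have h4 := hE.zb_nonneg hb1
      exact mem_filter.2 ⟨Y.f7b_cons_low hD, by omega, by omega⟩)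
    have h3 : ∑ a ∈ P g, (a.count g : ℝ) ≤ ∑ a ∈ Q, (a.count g : ℝ) :=
      sum_le_sum_of_subset_of_nonneg (hPQ g hg) (fun _ _ _ => Nat.cast_nonneg _)
    obtain ⟨p, hp⟩ := hE.arc_za (Y.vv σ g) u
    have h4 : Y.arc (P g) p u = P g := by
      apply filter_true_of_mem
      intro a ha
      obtain ⟨_, ha2, ha3⟩ := mem_filter.1 ha
      exact hp a ha2 ha3
    have h5 := Y.CD (P := P g) (filter_subset _ _) p u
    rw [h4] at h5
    have h6 : Y.UP (P g) ≤ Y.Ue e := by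
      refine (Y.UP_mono ?_).2
      intro a ha
      obtain ⟨ha1, ha2, ha3⟩ := mem_filter.1 (hPQ g hg ha)
      refine mem_filter.2 ⟨ha1, ?_⟩
      rw [← hE.abs_za]
      have := Y.hw
      have h7 : |Y.za σ e a| ≤ 2 * Y.w := by
        rw [abs_le]; push_cast at ha3; constructor <;> omega
      omega
    have h7 : Y.l * (u + 4 * Y.s) ≤ Y.l * (18 * x) :=
      mul_le_mul_of_nonneg_left (by linarith) (by linarith)
    have h8 : ((P g).card : ℝ) ≤ (2 * Y.Ue e + 72 * (x * Y.l)) / Y.kc := by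
      rw [le_div_iff₀ hkc]; nlinarith
    linarith
  rw [f7b_sum_ct]
  have h2 := sum_le_sum h1
  rw [sum_add_distrib, sum_const, nsmul_eq_mul] at h2
  have h3 := f7b_mult hH (P := Q) (filter_subset _ _)
  have h4 := f7b_short hS hE (-(Y.w : ℤ)) (u := 3 * Y.w) (by omega)
  have h5 : (H.card : ℝ) * ((2 * Y.Ue e + 72 * (x * Y.l)) / Y.kc) ≤
      Y.Ue e / 375 + 96 / 1000 * (x * Y.l) := by
    have hxl : 0 ≤ x * Y.l := by positivity
    have hq : (H.card : ℝ) / Y.kc ≤ 1 / 750 := by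
      rw [div_le_iff₀ hkc]; linarith
    have : (H.card : ℝ) * ((2 * Y.Ue e + 72 * (x * Y.l)) / Y.kc) =
        (H.card : ℝ) / Y.kc * (2 * Y.Ue e + 72 * (x * Y.l)) := by ring
    rw [this]
    have := mul_le_mul_of_nonneg_right hq (by linarith : 0 ≤ 2 * Y.Ue e + 72 * (x * Y.l))
    linarith
  linarith

/-- The letters of a class on the arc come from low elements beyond the edge. -/
theorem f7b_up {Y : Cl} {σ : ℤ} {e : ℕ} (hE : Y.Edge σ e) {u : ℕ} {A : Finset ℕ}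
    (hA : A ⊆ Y.C) (hu : ∀ g ∈ A, (u : ℤ) ≤ -Y.vv σ g) :
    ∑ b ∈ Y.Z.filter (fun b => Y.zb σ e b < u), (ct A b : ℝ) ≤
      ∑ g ∈ A, (((Y.f7bA σ e).card : ℝ) + ∑ a ∈ Y.f7bA σ e, (a.count g : ℝ)) := by
  rw [f7b_sum_ct]
  refine sum_le_sum fun g hg => ?_
  have hZ : Y.Z.filter (fun b => Y.zb σ e b < u) ⊆ Y.D :=
    fun b hb => (mem_filter.1 (mem_filter.1 hb).1).1
  refine count_le Y g hZ ?_
  intro a ha
  obtain ⟨hb1, hb2⟩ := mem_filter.1 ha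
  have hD := (mem_filter.1 hb1).1
  have h3 := Y.z_cons (σ := σ) (e := e) hD
  have h4 := hE.zb_nonneg hb1
  have h5 := abs_le.1 (f7b_vv_le hE (hA hg))
  have h6 := hu g hg
  exact mem_filter.2 ⟨Y.f7b_cons_low hD, by omega, by omega⟩

theorem f7b_tot {Y : Cl} (hS : Y.Sm) {σ : ℤ} {e : ℕ} (hE : Y.Edge σ e) :
    ∑ g ∈ Y.C, (((Y.f7bA σ e).card : ℝ) + ∑ a ∈ Y.f7bA σ e, (a.count g : ℝ)) ≤
      3 * Y.Ue e + 1600 * Y.Es := by
  rw [sum_add_distrib, sum_const, nsmul_eq_mul]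
  have h1 := f7b_mult (Y := Y) (Subset.refl _) (P := Y.f7bA σ e) (filter_subset _ _)
  have h2 := f7b_short hS hE (-(Y.w : ℤ)) (u := Y.w) (by omega)
  have h3 : Y.low.filter (fun a => -(Y.w : ℤ) ≤ Y.za σ e a ∧ Y.za σ e a < -(Y.w : ℤ) + Y.w) =
      Y.f7bA σ e := by
    unfold f7bA
    congr 1
    ext a
    rw [neg_add_cancel]
  rw [h3] at h2
  have h4 := Y.forced hS hE
  have h5 : ∑ _h ∈ Y.C.filter (fun h => 0 ≤ Y.vv σ h), ((Y.f7bA σ e).card : ℝ) ≤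
      ∑ h ∈ Y.C, ((Y.low.filter
      (fun a => -(Y.w : ℤ) ≤ Y.za σ e a ∧ Y.za σ e a < Y.vv σ h)).card : ℝ) := by
    refine le_trans (sum_le_sum fun h hh => ?_)
      (sum_le_sum_of_subset_of_nonneg (filter_subset _ _) (fun _ _ _ => Nat.cast_nonneg _))
    have h0 := (mem_filter.1 hh).2
    have : Y.f7bA σ e ⊆ Y.low.filter
        (fun a => -(Y.w : ℤ) ≤ Y.za σ e a ∧ Y.za σ e a < Y.vv σ h) := by
      intro a ha
      obtain ⟨ha1, ha2, ha3⟩ := mem_filter.1 ha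
      exact mem_filter.2 ⟨ha1, ha2, by omega⟩
    exact_mod_cast card_le_card this
  rw [sum_const, nsmul_eq_mul] at h5
  have h6 : (Y.C.card : ℝ) ≤ 3 * ((Y.C.filter (fun h => 0 ≤ Y.vv σ h)).card : ℝ) := by
    exact_mod_cast hE.sides.2
  have h7 := mul_le_mul_of_nonneg_right h6 (Nat.cast_nonneg (α := ℝ) (Y.f7bA σ e).card)
  linarith

/-- Few letters are far from the centre. -/
theorem f7b_markov {Y : Cl} {σ : ℤ} {e : ℕ} (hE : Y.Edge σ e) {x : ℝ} (hx : 1 ≤ x)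
    (hsx : Y.s ≤ 4 * x) :
    750 * ((Y.C \ Y.C.filter (fun h => |Y.vv σ h| ≤ (min Y.w ⌈3000 * x⌉₊ : ℕ))).card : ℝ) ≤
      Y.kc := by
  set H := Y.C \ Y.C.filter (fun h => |Y.vv σ h| ≤ (min Y.w ⌈3000 * x⌉₊ : ℕ)) with hH
  obtain ⟨_, hkc, _⟩ := Y.pos
  have h1 : ∀ h ∈ H, 3000 * x ≤ |(h : ℝ) - Y.gm| := by
    intro h hh
    obtain ⟨h2, h3⟩ := mem_sdiff.1 hh
    have h4 : ¬ |Y.vv σ h| ≤ (min Y.w ⌈3000 * x⌉₊ : ℕ) := fun h5 => h3 (mem_filter.2 ⟨h2, h5⟩)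
    have h5 := f7b_vv_le hE h2
    have h6 : ((⌈3000 * x⌉₊ : ℕ) : ℤ) ≤ |Y.vv σ h| := by
      push_cast at h4
      rcases le_total Y.w ⌈3000 * x⌉₊ with h7 | h7
      · rw [min_eq_left (by exact_mod_cast h7)] at h4; omega
      · rw [min_eq_right (by exact_mod_cast h7)] at h4; omega
    rw [← hE.vv_abs h]
    have h7 : ((⌈3000 * x⌉₊ : ℕ) : ℝ) ≤ |((Y.vv σ h : ℤ) : ℝ)| := by exact_mod_cast h6
    exact le_trans (Nat.le_ceil _) h7
  have h2 : ∑ _h ∈ H, 3000 * x ≤ ∑ h ∈ Y.C, |(h : ℝ) - Y.gm| :=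
    le_trans (sum_le_sum h1)
      (sum_le_sum_of_subset_of_nonneg sdiff_subset (fun _ _ _ => abs_nonneg _))
  rw [sum_const, nsmul_eq_mul, ← Y.eqs.2.2.2.2.1] at h2
  have h3 : Y.s * Y.kc ≤ 4 * x * Y.kc := mul_le_mul_of_nonneg_right hsx hkc.le
  have h4 : (750 * (H.card : ℝ)) * (4 * x) ≤ Y.kc * (4 * x) := by linarith
  exact le_of_mul_le_mul_right h4 (by linarith)

theorem f7b_arith {q h x l K₁ K₂ eB lam Es Ue SN SA T1 T2 u Gc s x' : ℝ}
    (hq : 0 ≤ q) (hqh : q ≤ h) (hh : h ≤ 2 * q) (hx : 1 ≤ x) (hl : 0 ≤ l) (hK₁ : 0 ≤ K₁)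
    (hK₂ : 0 ≤ K₂) (heB : 0 ≤ eB) (hlam : 0 ≤ lam) (hEs : 0 ≤ Es) (hUe : 0 ≤ Ue)
    (hu : u ≤ 2 * x) (hx' : x' ≤ 7000000 * x) (hE : lam * (Gc + l * s) ≤ Es)
    (hSN : 804 / 1000 * (x * l) - 2 * K₁ * eB * (x * l) - (K₁ + 400) * Es - Ue / 375 ≤ SN)
    (hmain : h * SN - SA ≤ T1 + T2 + u * (2 * (1 / 1000) * (1 + 4 * h * l) + 1) +
      K₂ * (h * lam * (Gc + l * (x' + s)) + x' / (1 / 1000))) :
    788 / 1000 * (q * x * l) ≤ SA + T1 + T2 + q * (2 * ((K₁ + 400 + K₂) * Es + Ue / 375)) +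
      (3 + 7000000000 * K₂) * x + q * x * (2 * l * (2 * K₁ * eB + 7000000 * K₂ * lam)) := by
  have hh0 : 0 ≤ h := le_trans hq hqh
  have hxl : 0 ≤ x * l := by positivity
  have h1 := mul_le_mul_of_nonneg_left hSN hh0
  have h2 : u * (2 * (1 / 1000) * (1 + 4 * h * l) + 1) ≤
      2 * x * (2 * (1 / 1000) * (1 + 4 * h * l) + 1) :=
    mul_le_mul_of_nonneg_right hu (by positivity)
  have h3 : h * lam * (Gc + l * (x' + s)) + x' / (1 / 1000) ≤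
      h * Es + h * (lam * l * (7000000 * x)) + 7000000000 * x := by
    have a1 := mul_le_mul_of_nonneg_left hE hh0
    have a2 : h * (lam * l * x') ≤ h * (lam * l * (7000000 * x)) :=
      mul_le_mul_of_nonneg_left (mul_le_mul_of_nonneg_left hx' (by positivity)) hh0
    have a3 : h * lam * (Gc + l * (x' + s)) = h * (lam * (Gc + l * s)) + h * (lam * l * x') := by
      ring
    have a4 : x' / (1 / 1000) = 1000 * x' := by ring
    linarith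
  have h4 := mul_le_mul_of_nonneg_left h3 hK₂
  have h5 : q * (x * l) ≤ h * (x * l) := mul_le_mul_of_nonneg_right hqh hxl
  have h6 : h * ((K₁ + 400 + K₂) * Es + Ue / 375) ≤
      2 * q * ((K₁ + 400 + K₂) * Es + Ue / 375) :=
    mul_le_mul_of_nonneg_right hh (by positivity)
  have h7 : h * (x * l * (2 * K₁ * eB + 7000000 * K₂ * lam)) ≤
      2 * q * (x * l * (2 * K₁ * eB + 7000000 * K₂ * lam)) :=
    mul_le_mul_of_nonneg_right hh (by positivity)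
  nlinarith

/-- The estimate for one class. -/
theorem f7b_class : ∃ K : ℝ, 0 < K ∧ ∀ Y : Cl, Y.Sm → ∀ (σ : ℤ) (e : ℕ), Y.Edge σ e →
    ∀ x : ℝ, 1 ≤ x → Y.s ≤ 4 * x → x ≤ Y.w → ∀ A : Finset ℕ, A ⊆ Y.C →
    (∀ g ∈ A, x ≤ -((Y.vv σ g : ℤ) : ℝ) ∧ -((Y.vv σ g : ℤ) : ℝ) < 2 * x) →
    788 / 1000 * ((A.card : ℝ) / Y.kc * x * Y.l) ≤
      ∑ g ∈ A, (((Y.f7bA σ e).card : ℝ) + ∑ a ∈ Y.f7bA σ e, (a.count g : ℝ)) +
      ∑ g ∈ A, Y.f7bU e g + 64000 * Y.Dw * ∑ g ∈ A, (Y.GG g : ℝ) +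
      (A.card : ℝ) / Y.kc * (K * Y.Es + 2 * Y.Ue e / 375) + K * x +
      (A.card : ℝ) / Y.kc * x * (K * Y.l * (Y.eB + Y.lam)) := by
  obtain ⟨K₁, hK₁, hLC⟩ := LC'
  obtain ⟨K₂, hK₂, hcut⟩ := cut_stein
  refine ⟨1000 + 4 * K₁ + 7000000000 * K₂, by positivity, ?_⟩
  intro Y hS σ e hE x hx hsx hxw A hA hAx
  obtain ⟨hm, hkc, hgm, hl, hlam, hDw, hDw1, heB, heB1, hs, hsw, hGc⟩ := Y.pos
  have hUe := Y.f7b_Ue_nonneg e
  have hw1 := Y.hw1
  have hw := Y.hw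
  have hgm' := Y.hgm
  obtain ⟨hE1, hE2, hE3, hE4, hE5, hE6, hE7, hE8, hE9⟩ := Y.E_ge
  have hEs : 0 ≤ Y.Es := le_trans (by nlinarith) hE6
  set z : ℕ := min Y.w ⌈3000 * x⌉₊ with hz
  set u : ℕ := ⌈x⌉₊ with hu
  have hzw : z ≤ Y.w := min_le_left _ _
  have hz1 : 1 ≤ z := le_min hw1 (Nat.one_le_ceil_iff.2 (by linarith))
  have hzx : (z : ℝ) ≤ 3001 * x := by
    have h1 : (z : ℝ) ≤ (⌈3000 * x⌉₊ : ℕ) := by exact_mod_cast min_le_right _ _
    have h2 := Nat.ceil_lt_add_one (a := 3000 * x) (by linarith)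
    linarith
  have huw : u ≤ Y.w := Nat.ceil_le.2 hxw
  have hux : x ≤ u := Nat.le_ceil _
  have hux2 : (u : ℝ) ≤ 2 * x := by
    have := Nat.ceil_lt_add_one (a := x) (by linarith)
    linarith
  set N : Finset ℕ := Y.C.filter (fun h => |Y.vv σ h| ≤ (z : ℕ)) with hN
  have hNC : N ⊆ Y.C := filter_subset _ _
  have hAN : A ⊆ N := by
    intro g hg
    refine mem_filter.2 ⟨hA hg, ?_⟩
    obtain ⟨h1, h2⟩ := hAx g hg
    have h3 := f7b_vv_le hE (hA hg)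
    have h4 : |Y.vv σ g| ≤ ((⌈3000 * x⌉₊ : ℕ) : ℤ) := by
      have h5 : |((Y.vv σ g : ℤ) : ℝ)| ≤ ((⌈3000 * x⌉₊ : ℕ) : ℝ) := by
        refine le_trans ?_ (Nat.le_ceil _)
        rw [abs_le]; constructor <;> linarith
      exact_mod_cast h5
    rw [hz]; push_cast
    exact le_min h3 (by exact_mod_cast h4)
  have hmk := f7b_markov hE hx hsx
  rw [← hz, ← hN] at hmk
  have hNc : (N.card : ℝ) + ((Y.C \ N).card : ℝ) = Y.kc := by
    have := card_sdiff_add_card_eq_card hNC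
    unfold kc
    exact_mod_cast (by omega : N.card + (Y.C \ N).card = Y.C.card)
  have hN0 : (0 : ℝ) ≤ ((Y.C \ N).card : ℝ) := Nat.cast_nonneg _
  have hNpos : (0 : ℝ) < N.card := by linarith
  have hA0 : (0 : ℝ) ≤ A.card := Nat.cast_nonneg _
  have hqh : (A.card : ℝ) / Y.kc ≤ (A.card : ℝ) / N.card :=
    div_le_div_of_nonneg_left hA0 hNpos (by linarith)
  have hh2 : (A.card : ℝ) / N.card ≤ 2 * ((A.card : ℝ) / Y.kc) := by
    have : 2 * ((A.card : ℝ) / Y.kc) = (A.card : ℝ) / (Y.kc / 2) := by field_simp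
    rw [this]
    exact div_le_div_of_nonneg_left hA0 (by linarith) (by linarith)
  set B : Finset (Multiset ℕ) := Y.Z.filter (fun b => Y.zb σ e b < u) with hB
  have hBD : B ⊆ Y.D := fun b hb => (mem_filter.1 (mem_filter.1 hb).1).1
  obtain ⟨p, hp⟩ := hE.arc_Z (u := u) (by omega)
  rw [← hB] at hp
  have hBc : (B.card : ℝ) ≤ 2 * x := by
    have h1 : B.card ≤ u := by
      rw [hp]
      refine le_trans (card_le_card ?_) (Y.card_arc_le p u)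
      intro b hb
      obtain ⟨h2, h3⟩ := mem_filter.1 hb
      exact mem_filter.2 ⟨(mem_filter.1 h2).1, h3⟩
    have : (B.card : ℝ) ≤ u := by exact_mod_cast h1
    linarith
  have hlc := hLC Y hS p u (by omega)
  rw [← hp] at hlc
  have hout := f7b_out hS hE hx hsx hux2 huw (H := Y.C \ N) sdiff_subset hmk
  rw [← hB] at hout
  have hsplit : ∑ b ∈ B, (ct Y.C b : ℝ) =
      ∑ b ∈ B, (ct N b : ℝ) + ∑ b ∈ B, (ct (Y.C \ N) b : ℝ) := by
    rw [f7b_sum_ct, f7b_sum_ct, f7b_sum_ct, add_comm, sum_sdiff hNC]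
  have hSN : 804 / 1000 * (x * Y.l) - 2 * K₁ * Y.eB * (x * Y.l) - (K₁ + 400) * Y.Es -
      Y.Ue e / 375 ≤ ∑ b ∈ B, (ct N b : ℝ) := by
    have a1 : x * Y.l ≤ u * Y.l := mul_le_mul_of_nonneg_right hux (by linarith)
    have a2 : (u : ℝ) * Y.l ≤ 2 * x * Y.l := mul_le_mul_of_nonneg_right hux2 (by linarith)
    have a3 : K₁ * Y.eB * (u * Y.l) ≤ K₁ * Y.eB * (2 * x * Y.l) :=
      mul_le_mul_of_nonneg_left a2 (by positivity)
    linarith
  have hup := f7b_up hE (u := u) hA (by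
    intro g hg
    have h1 := (hAx g hg).1
    have h2 : (0 : ℤ) ≤ -Y.vv σ g := by
      have : (0 : ℝ) ≤ -((Y.vv σ g : ℤ) : ℝ) := by linarith
      exact_mod_cast this
    have h3 : u ≤ (-Y.vv σ g).toNat := by
      apply Nat.ceil_le.2
      have : (((-Y.vv σ g).toNat : ℕ) : ℤ) = -Y.vv σ g := Int.toNat_of_nonneg h2
      have h4 : (((-Y.vv σ g).toNat : ℕ) : ℝ) = -((Y.vv σ g : ℤ) : ℝ) := by exact_mod_cast this
      rw [h4]; exact h1
    omega)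
  rw [← hB] at hup
  have hzr : (1 : ℝ) ≤ z := by exact_mod_cast hz1
  have hzwr : (z : ℝ) ≤ Y.w := by exact_mod_cast hzw
  have huwr : (u : ℝ) ≤ Y.w := by exact_mod_cast huw
  have hwr : 1000 * (Y.w : ℝ) ≤ Y.m := by exact_mod_cast hw
  have hg0 : ((Y.gm - z : ℕ) : ℝ) = (Y.gm : ℝ) - z := by
    rw [Nat.cast_sub (by omega)]
  have hc := hcut Y (fun t => |(t : ℝ) - (Y.gm + e)|)
    (fun t t' => by
      have := abs_abs_sub_abs_le_abs_sub ((t : ℝ) - (Y.gm + e)) ((t' : ℝ) - (Y.gm + e))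
      rwa [sub_sub_sub_cancel_right] at this)
    (fun g r hr => by
      have := Y.card_abs_le ((Y.gm : ℝ) + e - g) hr
      convert this using 5 with b
      push_cast
      congr 1
      ring)
    (Y.gm - z) (u + z) (2 * z) (1 / 1000) (Y.m / 16) (by positivity) (by linarith) (by norm_num)
    (by norm_num) (by positivity) A N hAN hNC
    (fun h hh => by
      obtain ⟨h1, h2⟩ := mem_filter.1 hh
      have h3 : |((Y.vv σ h : ℤ) : ℝ)| ≤ (z : ℝ) := by exact_mod_cast h2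
      rw [hE.vv_abs h, abs_le] at h3
      constructor
      · have : ((Y.gm - z : ℕ) : ℝ) ≤ h := by rw [hg0]; linarith
        exact_mod_cast this
      · rw [hg0]; linarith)
    B hBD
    (fun b hb => by
      obtain ⟨h1, h2⟩ := mem_filter.1 hb
      have h3 := hE.zb_nonneg h1
      have h4 : |(Y.η b : ℤ) - e| ≤ u := by
        unfold zb at h2 h3
        rcases hE with ⟨rfl, _⟩ | ⟨rfl, _⟩ <;> rw [abs_le] <;> constructor <;> omega
      have h5 : |(Y.η b : ℝ) - e| ≤ u := by exact_mod_cast h4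
      rw [abs_le] at h5
      push_cast
      rw [hg0, abs_le]
      constructor <;> linarith)
  have hmax : (A.card : ℝ) / N.card * ∑ b ∈ B, (ct N b : ℝ) - ∑ b ∈ B, (ct A b : ℝ) ≤
      ∑ b ∈ B, max ((A.card : ℝ) / N.card * ct N b - ct A b) 0 := by
    rw [mul_sum, ← sum_sub_distrib]
    exact sum_le_sum fun b _ => le_max_left _ _
  have hT1 : ∑ g ∈ A, ∑ a ∈ Y.low.filter (fun a => |((Y.η a : ℕ) : ℝ) - (Y.gm + e)| ≤
      (u + z) + Y.m / 16) ∩ Y.Un g, ((a.count g : ℝ) + 1) ≤ ∑ g ∈ A, Y.f7bU e g := by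
    refine sum_le_sum fun g _ => ?_
    refine sum_le_sum_of_subset_of_nonneg ?_ (fun _ _ _ => by positivity)
    refine inter_subset_inter_right ?_
    intro a ha
    obtain ⟨h1, h2⟩ := mem_filter.1 ha
    refine mem_filter.2 ⟨h1, ?_⟩
    have h3 : 8 * |(Y.η a : ℝ) - Y.gm - e| ≤ Y.m := by
      rw [sub_sub]; linarith
    exact_mod_cast h3
  have hGS : (Y.GS A : ℝ) = ∑ g ∈ A, (Y.GG g : ℝ) := by
    unfold Ap.GS; push_cast; rfl
  have hT2 : 2 * (2 * (z : ℝ)) / (1 / 1000 * (Y.m / 16)) * Y.GS A ≤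
      64000 * Y.Dw * ∑ g ∈ A, (Y.GG g : ℝ) := by
    rw [hGS]
    refine mul_le_mul_of_nonneg_right ?_ (sum_nonneg fun _ _ => Nat.cast_nonneg _)
    rw [div_le_iff₀ (by positivity)]
    have := Y.eqs.2.2.1
    nlinarith
  have hEl : Y.lam * (Y.Gc + Y.l * Y.s) ≤ Y.Es := by
    refine le_trans (mul_le_mul_of_nonneg_left ?_ hlam.le) hE6
    unfold E; linarith
  have hfin := f7b_arith (q := (A.card : ℝ) / Y.kc) (h := (A.card : ℝ) / N.card) (x := x)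
    (l := Y.l) (K₁ := K₁) (K₂ := K₂) (eB := Y.eB) (lam := Y.lam) (Es := Y.Es) (Ue := Y.Ue e)
    (SN := ∑ b ∈ B, (ct N b : ℝ)) (SA := ∑ b ∈ B, (ct A b : ℝ)) (T1 := ∑ g ∈ A, Y.f7bU e g)
    (T2 := 64000 * Y.Dw * ∑ g ∈ A, (Y.GG g : ℝ)) (u := B.card) (Gc := Y.Gc) (s := Y.s)
    (x' := u + z + 2 * z / (1 / 1000)) (by positivity) hqh hh2 hx (by linarith) hK₁.le hK₂.le
    heB hlam.le hEs hUe hBc (by
      have : 2 * (z : ℝ) / (1 / 1000) = 2000 * z := by ring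
      rw [this]; linarith) hEl hSN (by linarith)
  have hq0 : 0 ≤ (A.card : ℝ) / Y.kc := by positivity
  have b1 : (A.card : ℝ) / Y.kc * (2 * ((K₁ + 400 + K₂) * Y.Es + Y.Ue e / 375)) ≤
      (A.card : ℝ) / Y.kc * ((1000 + 4 * K₁ + 7000000000 * K₂) * Y.Es + 2 * Y.Ue e / 375) := by
    refine mul_le_mul_of_nonneg_left ?_ hq0
    have : 2 * (K₁ + 400 + K₂) * Y.Es ≤ (1000 + 4 * K₁ + 7000000000 * K₂) * Y.Es :=
      mul_le_mul_of_nonneg_right (by linarith) hEs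
    linarith
  have b2 : (3 + 7000000000 * K₂) * x ≤ (1000 + 4 * K₁ + 7000000000 * K₂) * x :=
    mul_le_mul_of_nonneg_right (by linarith) (by linarith)
  have b3 : (A.card : ℝ) / Y.kc * x * (2 * Y.l * (2 * K₁ * Y.eB + 7000000 * K₂ * Y.lam)) ≤
      (A.card : ℝ) / Y.kc * x *
        ((1000 + 4 * K₁ + 7000000000 * K₂) * Y.l * (Y.eB + Y.lam)) := by
    refine mul_le_mul_of_nonneg_left ?_ (by positivity)
    have c1 : 4 * K₁ * Y.eB ≤ (1000 + 4 * K₁ + 7000000000 * K₂) * Y.eB :=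
      mul_le_mul_of_nonneg_right (by linarith) heB
    have c2 : 14000000 * K₂ * Y.lam ≤ (1000 + 4 * K₁ + 7000000000 * K₂) * Y.lam :=
      mul_le_mul_of_nonneg_right (by linarith) hlam.le
    have c3 := mul_le_mul_of_nonneg_left (add_le_add c1 c2) (by linarith : 0 ≤ Y.l)
    linarith
  linarith

theorem F7b : ∃ κ K : ℝ, 0 < κ ∧ 0 < K ∧ ∀ Y : Cl, Y.Sm → ∀ (σ : ℤ) (e : ℕ), Y.Edge σ e →
    κ * ((Y.sp (-σ) - Y.s / 4) * Y.l) ≤ Y.Ue e + K * Y.Es := by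
  obtain ⟨K, hK, hcl⟩ := f7b_class
  refine ⟨1 / 20, 10000 + K, by norm_num, by positivity, ?_⟩
  intro Y hS σ e hE
  obtain ⟨hm, hkc, hgm, hl, hlam, hDw, hDw1, heB, heB1, hs, hsw, hGc⟩ := Y.pos
  have hUe := Y.f7b_Ue_nonneg e
  obtain ⟨hE1, hE2, hE3, hE4, hE5, hE6, hE7, hE8, hE9⟩ := Y.E_ge
  have hEs : 0 ≤ Y.Es := le_trans (by nlinarith) hE6
  set c : ℝ := Y.s / 4 + 1 with hc
  have hc1 : 1 ≤ c := by linarith
  set I : Finset ℕ := (range (Y.w + 1)).filter (fun i => 2 ^ i * c ≤ (Y.w : ℝ)) with hI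
  set A : ℕ → Finset ℕ := fun i => Y.C.filter
    (fun g => 2 ^ i * c ≤ -((Y.vv σ g : ℤ) : ℝ) ∧ -((Y.vv σ g : ℤ) : ℝ) < 2 * (2 ^ i * c)) with hA
  have hAC : ∀ i, A i ⊆ Y.C := fun i => filter_subset _ _
  have hd : ∀ i j, i ≠ j → Disjoint (A i) (A j) := by
    have key : ∀ i j, i < j → Disjoint (A i) (A j) := by
      intro i j hij
      rw [disjoint_left]
      intro g hi hj
      have h1 := (mem_filter.1 hi).2.2
      have h2 := (mem_filter.1 hj).2.1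
      have h3 : (2 : ℝ) ^ (i + 1) ≤ 2 ^ j := pow_le_pow_right₀ (by norm_num) hij
      have h4 := mul_le_mul_of_nonneg_right h3 (by linarith : 0 ≤ c)
      rw [pow_succ] at h4
      linarith
    intro i j hij
    rcases lt_or_gt_of_ne hij with h | h
    · exact key i j h
    · exact (key j i h).symm
  have hx1 : ∀ i : ℕ, c ≤ 2 ^ i * c := fun i =>
    le_mul_of_one_le_left (by linarith) (one_le_pow₀ (by norm_num))
  have h1 := sum_le_sum (s := I) (fun i hi => hcl Y hS σ e hE (2 ^ i * c) (le_trans hc1 (hx1 i))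
    (by linarith [hx1 i]) (mem_filter.1 hi).2 (A i) (hAC i) (fun g hg => (mem_filter.1 hg).2))
  simp only [sum_add_distrib (s := I)] at h1
  rw [← mul_sum, ← sum_mul, ← mul_sum, ← sum_mul, ← mul_sum,
    ← sum_mul (a := K * Y.l * (Y.eB + Y.lam))] at h1
  set W : ℝ := ∑ i ∈ I, ((A i).card : ℝ) / Y.kc * (2 ^ i * c) with hW
  have s1 := le_trans (f7b_disj (I := I) A hAC hd
    (fun g => ((Y.f7bA σ e).card : ℝ) + ∑ a ∈ Y.f7bA σ e, (a.count g : ℝ))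
    (fun g _ => by positivity)) (f7b_tot hS hE)
  have s2 : ∑ i ∈ I, ∑ g ∈ A i, Y.f7bU e g ≤ Y.Ue e :=
    f7b_disj (I := I) A hAC hd (fun g => Y.f7bU e g)
      (fun g _ => sum_nonneg fun _ _ => by positivity)
  have s3 : ∑ i ∈ I, ∑ g ∈ A i, (Y.GG g : ℝ) ≤ Y.Gc := by
    refine le_trans (f7b_disj (I := I) A hAC hd (fun g => (Y.GG g : ℝ))
      (fun g _ => Nat.cast_nonneg _)) (le_of_eq ?_)
    unfold Gc Ap.GS; push_cast; rfl
  have s4 : ∑ i ∈ I, ((A i).card : ℝ) / Y.kc ≤ 1 := by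
    have := f7b_disj (I := I) A hAC hd (fun _ => (1 : ℝ)) (fun _ _ => zero_le_one)
    simp only [sum_const, nsmul_eq_mul, mul_one] at this
    rw [← sum_div, div_le_one hkc]
    exact this
  have s5 : ∑ i ∈ I, (2 : ℝ) ^ i * c ≤ 2 * Y.w :=
    (f7b_geo c Y.w (by linarith) (Nat.cast_nonneg _) _).2
  have s6 : W ≤ Y.s := by
    have a1 := f7b_disj (I := I) A hAC hd (fun g => |(g : ℝ) - Y.gm|) (fun _ _ => abs_nonneg _)
    rw [← Y.eqs.2.2.2.2.1] at a1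
    have a2 : W = (∑ i ∈ I, ((A i).card : ℝ) * (2 ^ i * c)) / Y.kc := by
      rw [hW, sum_div]
      exact sum_congr rfl fun i _ => by ring
    rw [a2, div_le_iff₀ hkc]
    refine le_trans (sum_le_sum fun i _ => ?_) a1
    rw [← nsmul_eq_mul, ← sum_const]
    refine sum_le_sum fun g hg => ?_
    rw [← hE.vv_abs g]
    exact le_trans (mem_filter.1 hg).2.1 (neg_le_abs _)
  have hW0 : 0 ≤ W := sum_nonneg fun i _ => by positivity
  have s7 : Y.sp (-σ) ≤ c + 2 * W := by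
    have a2 : W = (∑ i ∈ I, ((A i).card : ℝ) * (2 ^ i * c)) / Y.kc := by
      rw [hW, sum_div]
      exact sum_congr rfl fun i _ => by ring
    have a3 : ∑ i ∈ I, ((A i).card : ℝ) * (2 ^ i * c) =
        ∑ g ∈ Y.C, ∑ i ∈ I, if g ∈ A i then (2 : ℝ) ^ i * c else 0 := by
      rw [sum_comm]
      refine sum_congr rfl fun i _ => ?_
      rw [← sum_filter, filter_mem_eq_inter, inter_eq_right.2 (hAC i), sum_const, nsmul_eq_mul]
    have a4 : ∀ g ∈ Y.C, max ((Y.vv (-σ) g : ℤ) : ℝ) 0 ≤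
        c + 2 * ∑ i ∈ I, if g ∈ A i then (2 : ℝ) ^ i * c else 0 := by
      intro g hg
      have b0 : 0 ≤ ∑ i ∈ I, if g ∈ A i then (2 : ℝ) ^ i * c else 0 :=
        sum_nonneg fun i _ => by split_ifs <;> positivity
      have b1 : ((Y.vv (-σ) g : ℤ) : ℝ) = -((Y.vv σ g : ℤ) : ℝ) := by
        unfold vv; push_cast; ring
      rw [b1]
      refine max_le ?_ (by linarith)
      by_cases hv : -((Y.vv σ g : ℤ) : ℝ) ≤ c
      · linarith
      · push Not at hv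
        obtain ⟨i, hi1, hi2⟩ := exists_nat_pow_near (x := -((Y.vv σ g : ℤ) : ℝ) / c)
          (y := (2 : ℝ)) (by rw [le_div_iff₀ (by linarith)]; linarith) (by norm_num)
        rw [le_div_iff₀ (by linarith)] at hi1
        rw [div_lt_iff₀ (by linarith), pow_succ] at hi2
        have b2 : -((Y.vv σ g : ℤ) : ℝ) ≤ Y.w := by
          refine le_trans (neg_le_abs _) ?_
          rw [hE.vv_abs g]; exact (Y.mem_C hg).2.2.2
        have b3 : g ∈ A i := mem_filter.2 ⟨hg, hi1, by linarith⟩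
        have b4 : i ∈ I := by
          refine mem_filter.2 ⟨mem_range.2 ?_, by linarith⟩
          have d1 : (2 : ℝ) ^ i ≤ 2 ^ i * c := le_mul_of_one_le_right (by positivity) hc1
          have d2 : (2 : ℝ) ^ i ≤ Y.w := by linarith
          have d3 : 2 ^ i ≤ Y.w := by exact_mod_cast d2
          have d4 : i < 2 ^ i := Nat.lt_two_pow_self
          omega
        have b5 := single_le_sum (s := I) (f := fun i => if g ∈ A i then (2 : ℝ) ^ i * c else 0)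
          (fun i _ => by split_ifs <;> positivity) b4
        simp only [if_pos b3] at b5
        linarith
    have a5 := sum_le_sum a4
    rw [sum_add_distrib, ← mul_sum, ← a3, sum_const, nsmul_eq_mul] at a5
    unfold sp
    rw [div_le_iff₀ hkc, a2, add_mul, mul_assoc, div_mul_cancel₀ _ hkc.ne']
    unfold kc
    linarith
  have t1 : 64000 * Y.Dw * ∑ i ∈ I, ∑ g ∈ A i, (Y.GG g : ℝ) ≤ 64000 * Y.Es := by
    have := mul_le_mul_of_nonneg_left (le_trans s3 hE2) hDw.le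
    linarith
  have t2 : (∑ i ∈ I, ((A i).card : ℝ) / Y.kc) * (K * Y.Es + 2 * Y.Ue e / 375) ≤
      K * Y.Es + 2 * Y.Ue e / 375 := mul_le_of_le_one_left (by positivity) s4
  have t3 : K * ∑ i ∈ I, (2 : ℝ) ^ i * c ≤ K * (2 * Y.Es) :=
    mul_le_mul_of_nonneg_left (by linarith) hK.le
  have t4 : W * (K * Y.l * (Y.eB + Y.lam)) ≤ K * (2 * Y.Es) := by
    have a1 : W * (K * Y.l * (Y.eB + Y.lam)) ≤ Y.s * (K * Y.l * (Y.eB + Y.lam)) :=
      mul_le_mul_of_nonneg_right s6 (by positivity)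
    have a2 : (Y.eB + Y.lam) * (Y.s * Y.l) ≤ (Y.eB + Y.lam) * Y.E :=
      mul_le_mul_of_nonneg_left hE3 (by positivity)
    have a3 : K * ((Y.eB + Y.lam) * (Y.s * Y.l)) ≤ K * (2 * Y.Es) :=
      mul_le_mul_of_nonneg_left (by linarith) hK.le
    linarith
  have t5 : (Y.sp (-σ) - Y.s / 4) * Y.l ≤ (1 + 2 * W) * Y.l :=
    mul_le_mul_of_nonneg_right (by linarith) (by linarith)
  have t6 : 0 ≤ K * Y.Es := by positivity
  linarith

end Cl

end Pool.Agent.Lib.MP_299528_co.Bd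
end
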