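import Pool.Agent.Lib.MP_299528_co.W.F7b
import Pool.Agent.Lib.MP_299528_co.W.A0
import Pool.Agent.Lib.MP_299528_co.W.Deep
import Pool.Agent.Lib.MP_299528_co.W.HW
import Pool.Agent.Lib.MP_299528_co.W.CS
import Pool.Agent.Lib.MP_299528_co.W.BM

-- part Pool.Agent.Lib.MP_299528_co.W.F4
section

/-! The deficit of the upper part of the cluster. -/

set_option autoImplicit false

namespace Pool.Agent.Lib.MP_299528_co.Bd

open Finset

theorem f4_cd1 (m : ℕ) (hm : 0 < m) (t : ℕ) :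
    cd m (t + 1) ≤ cd m t + 1 ∧ cd m t ≤ cd m (t + 1) + 1 := by
  unfold cd
  have h1 := Nat.mod_lt t hm
  by_cases h : t % m + 1 = m
  · have h2 : (t + 1) % m = 0 := by rw [← Nat.mod_add_mod, h, Nat.mod_self]
    rw [h2]
    omega
  · have h2 : (t + 1) % m = t % m + 1 := by
      rw [← Nat.mod_add_mod, Nat.mod_eq_of_lt (by omega)]
    rw [h2]
    omega

theorem f4_cdk (m : ℕ) (hm : 0 < m) (t k : ℕ) :
    cd m (t + k) ≤ cd m t + k ∧ cd m t ≤ cd m (t + k) + k := by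
  induction k with
  | zero => simp
  | succ k ih =>
    have h := f4_cd1 m hm (t + k)
    rw [← Nat.add_assoc]
    omega

theorem cd_lip (m : ℕ) (hm : 0 < m) (t t' : ℕ) :
    |(cd m t : ℝ) - cd m t'| ≤ |(t : ℝ) - t'| := by
  have key : ∀ a k : ℕ, |(cd m a : ℝ) - cd m (a + k)| ≤ |(a : ℝ) - (a + k : ℕ)| := by
    intro a k
    obtain ⟨h1, h2⟩ := f4_cdk m hm a k
    have h3 : (cd m (a + k) : ℝ) ≤ cd m a + k := by exact_mod_cast h1
    have h4 : (cd m a : ℝ) ≤ cd m (a + k) + k := by exact_mod_cast h2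
    have h5 : |(a : ℝ) - (a + k : ℕ)| = k := by
      rw [Nat.cast_add, sub_add_cancel_left, abs_neg, Nat.abs_cast]
    rw [h5, abs_le]
    constructor <;> linarith
  rcases le_total t t' with h | h
  · obtain ⟨k, rfl⟩ := Nat.exists_eq_add_of_le h
    exact key t k
  · obtain ⟨k, rfl⟩ := Nat.exists_eq_add_of_le h
    rw [abs_sub_comm, abs_sub_comm ((t' + k : ℕ) : ℝ)]
    exact key t' k

theorem f4_ct_sdiff {A B : Finset ℕ} (h : A ⊆ B) (b : Multiset ℕ) :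
    (ct (B \ A) b : ℝ) = ct B b - ct A b := by
  have h1 : ct (B \ A) b + ct A b = ct B b := Finset.sum_sdiff h
  have h2 : ((ct (B \ A) b + ct A b : ℕ) : ℝ) = ct B b := by rw [h1]
  rw [Nat.cast_add] at h2
  linarith

theorem f4_card_sdiff {A B : Finset ℕ} (h : A ⊆ B) :
    ((B \ A).card : ℝ) = B.card - A.card := by
  have h1 : (B \ A).card + A.card = B.card := Finset.card_sdiff_add_card_eq_card h
  have h2 : (((B \ A).card + A.card : ℕ) : ℝ) = B.card := by rw [h1]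
  rw [Nat.cast_add] at h2
  linarith

theorem f4_alg {a p q c c' : ℝ} (ha : 0 ≤ a) (hp : a ≤ p) (hq : p ≤ q) :
    a / p * c - a / q * c' ≤ max ((q - p) / q * c' - (c' - c)) 0 := by
  rcases (ha.trans hp).eq_or_lt with h | h
  · have h0 : a = 0 := le_antisymm (h ▸ hp) ha
    rw [h0, zero_div, zero_div, zero_mul, zero_mul, sub_zero]
    exact le_max_right _ _
  · have hq0 : 0 < q := h.trans_le hq
    have e : a / p * c - a / q * c' = a / p * ((q - p) / q * c' - (c' - c)) := by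
      field_simp
      ring
    have h1 : 0 ≤ a / p := div_nonneg ha h.le
    have h2 : a / p ≤ 1 := (div_le_one h).2 hp
    rw [e]
    exact (mul_le_mul_of_nonneg_left (le_max_left _ 0) h1).trans
      (mul_le_of_le_one_left (le_max_right _ _) h2)

/-- The excess of a lower set is bounded by the deficits of the classes above it. -/
theorem hazard (N : ℕ → Finset ℕ) (hN : ∀ j, N j ⊆ N (j + 1)) (b : Multiset ℕ) (i J : ℕ)
    (hiJ : i ≤ J) :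
    (ct (N i) b : ℝ) - ((N i).card : ℝ) / (N J).card * ct (N J) b ≤
      ∑ j ∈ Ico i J, max ((((N (j + 1) \ N j).card : ℝ) / (N (j + 1)).card) * ct (N (j + 1)) b -
        ct (N (j + 1) \ N j) b) 0 := by
  induction J, hiJ using Nat.le_induction with
  | base =>
    rw [Finset.Ico_self, Finset.sum_empty]
    rcases (N i).eq_empty_or_nonempty with h | h
    · simp [h, ct]
    · have h1 : ((N i).card : ℝ) ≠ 0 := Nat.cast_ne_zero.2 h.card_pos.ne'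
      rw [div_self h1, one_mul, sub_self]
  | succ J hiJ ih =>
    have hsub : N i ⊆ N J := monotone_nat_of_le_succ (f := N) hN hiJ
    have h1 : ((N i).card : ℝ) ≤ (N J).card := Nat.cast_le.2 (card_le_card hsub)
    have h2 : ((N J).card : ℝ) ≤ (N (J + 1)).card := Nat.cast_le.2 (card_le_card (hN J))
    have h3 := f4_alg (c := (ct (N J) b : ℝ)) (c' := (ct (N (J + 1)) b : ℝ))
      (Nat.cast_nonneg _) h1 h2
    rw [Finset.sum_Ico_succ_top hiJ, f4_ct_sdiff (hN J), f4_card_sdiff (hN J)]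
    linarith

theorem f4_tel (N : ℕ → Finset ℕ) (hN : ∀ j, N j ⊆ N (j + 1)) (f : ℕ → ℝ) (J : ℕ)
    (hf : ∀ h ∈ N J, 0 ≤ f h) :
    ∑ j ∈ range J, ∑ h ∈ N (j + 1) \ N j, f h ≤ ∑ h ∈ N J, f h := by
  induction J with
  | zero => simpa using Finset.sum_nonneg hf
  | succ J ih =>
    have h1 := ih fun h hh => hf h (hN J hh)
    have h2 := Finset.sum_sdiff (f := f) (hN J)
    rw [Finset.sum_range_succ]
    linarith

/-- The breakpoints. -/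
noncomputable def f4X (ε s₀ : ℝ) (j : ℕ) : ℝ := (ε * s₀ + 1) * (1 + ε) ^ j

/-- The letters below a breakpoint. -/
noncomputable def f4N (H : Finset ℕ) (g₀ : ℕ) (x : ℝ) : Finset ℕ :=
  H.filter (fun h => (h : ℝ) - g₀ < x)

theorem f4X_succ (ε s₀ : ℝ) (j : ℕ) : f4X ε s₀ (j + 1) = (1 + ε) * f4X ε s₀ j := by
  unfold f4X
  ring

theorem f4X_ge {ε s₀ : ℝ} (hε : 0 < ε) (hs : 0 ≤ s₀) (j : ℕ) :
    ε * s₀ + 1 ≤ f4X ε s₀ j ∧ 1 ≤ f4X ε s₀ j ∧ (1 + ε) ^ j ≤ f4X ε s₀ j := by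
  have h1 : (1 : ℝ) ≤ (1 + ε) ^ j := one_le_pow₀ (by linarith)
  have h2 : 0 ≤ ε * s₀ := mul_nonneg hε.le hs
  have h3 : ε * s₀ + 1 ≤ f4X ε s₀ j := le_mul_of_one_le_right (by linarith) h1
  exact ⟨h3, by linarith, le_mul_of_one_le_left (by linarith) (by linarith)⟩

theorem f4X_mono {ε s₀ : ℝ} (hε : 0 < ε) (hs : 0 ≤ s₀) : Monotone (f4X ε s₀) := by
  refine monotone_nat_of_le_succ fun j => ?_
  rw [f4X_succ]
  exact le_mul_of_one_le_left (by linarith [(f4X_ge hε hs j).2.1]) (by linarith)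

theorem f4N_mono (H : Finset ℕ) (g₀ : ℕ) {x x' : ℝ} (h : x ≤ x') : f4N H g₀ x ⊆ f4N H g₀ x' :=
  fun _ hh => mem_filter.2 ⟨(mem_filter.1 hh).1, (mem_filter.1 hh).2.trans_le h⟩

theorem f4_geo {ε s₀ : ℝ} (hε : 0 < ε) (hε1 : ε ≤ 1 / 2) (hs : 0 ≤ s₀) (S : Finset ℕ) {x : ℝ}
    (hx : 0 ≤ x) (hS : ∀ j ∈ S, f4X ε s₀ j ≤ x) : ∑ j ∈ S, f4X ε s₀ j ≤ 3 / 2 * x / ε := by
  rw [le_div_iff₀ hε]
  rcases S.eq_empty_or_nonempty with h | h
  · rw [h, sum_empty]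
    linarith
  · have h1 : S ⊆ range (S.max' h + 1) := fun j hj =>
      mem_range.2 (Nat.lt_succ_of_le (S.le_max' j hj))
    have h2 : ∑ j ∈ S, f4X ε s₀ j ≤ ∑ j ∈ range (S.max' h + 1), f4X ε s₀ j :=
      sum_le_sum_of_subset_of_nonneg h1 fun j _ _ => by linarith [(f4X_ge hε hs j).2.1]
    have h3 : (∑ j ∈ range (S.max' h + 1), f4X ε s₀ j) * ε =
        f4X ε s₀ (S.max' h + 1) - f4X ε s₀ 0 := by
      rw [← Finset.sum_range_sub, sum_mul]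
      refine sum_congr rfl fun j _ => ?_
      rw [f4X_succ]
      ring
    have h4 := hS _ (S.max'_mem h)
    have h5 := (f4X_ge hε hs 0).2.1
    have h6 := (f4X_ge hε hs (S.max' h)).2.1
    have h7 := mul_le_mul_of_nonneg_right h2 hε.le
    have h8 : ε * f4X ε s₀ (S.max' h) ≤ 1 / 2 * x := mul_le_mul hε1 h4 (by linarith) (by norm_num)
    rw [f4X_succ] at h3
    linarith

/-- The share of a class in the letters below it. -/
noncomputable def f4h (H : Finset ℕ) (g₀ : ℕ) (ε s₀ : ℝ) (j : ℕ) : ℝ :=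
  ((f4N H g₀ (f4X ε s₀ (j + 1)) \ f4N H g₀ (f4X ε s₀ j)).card : ℝ) /
    (f4N H g₀ (f4X ε s₀ (j + 1))).card

theorem f4h_le {H : Finset ℕ} {g₀ : ℕ} {ε s₀ : ℝ} (hε : 0 < ε) (hs : 0 ≤ s₀) (hH : H.Nonempty)
    (hg : ∀ h ∈ H, g₀ ≤ h) (hz : ∑ h ∈ H, ((h : ℝ) - g₀) ≤ s₀ * H.card) (j : ℕ) :
    f4h H g₀ ε s₀ j ≤ (if f4X ε s₀ (j + 1) ≤ 2 * s₀ then 1 else 0) +
      2 / H.card * ∑ _h ∈ f4N H g₀ (f4X ε s₀ (j + 1)) \ f4N H g₀ (f4X ε s₀ j), (1 : ℝ) := by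
  have hk : (0 : ℝ) < H.card := Nat.cast_pos.2 hH.card_pos
  rw [sum_const, nsmul_one]
  unfold f4h
  set N := f4N H g₀ (f4X ε s₀ (j + 1)) with hN
  set A := N \ f4N H g₀ (f4X ε s₀ j) with hA
  have hA0 : (0 : ℝ) ≤ A.card := Nat.cast_nonneg _
  split_ifs with h
  · have h1 : (A.card : ℝ) / N.card ≤ 1 :=
      div_le_one_of_le₀ (Nat.cast_le.2 (card_le_card sdiff_subset)) (Nat.cast_nonneg _)
    have h2 : 0 ≤ 2 / (H.card : ℝ) * A.card := by positivity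
    linarith
  · have hNH : N ⊆ H := filter_subset _ _
    have h1 : ((H \ N).card : ℝ) * f4X ε s₀ (j + 1) ≤ ∑ h ∈ H, ((h : ℝ) - g₀) := by
      refine le_trans ?_ (sum_le_sum_of_subset_of_nonneg (sdiff_subset (t := N)) fun i hi _ =>
        sub_nonneg.2 (Nat.cast_le.2 (hg i hi)))
      rw [← nsmul_eq_mul]
      refine card_nsmul_le_sum _ _ _ fun i hi => ?_
      obtain ⟨a1, a2⟩ := mem_sdiff.1 hi
      exact not_lt.1 fun k => a2 (mem_filter.2 ⟨a1, k⟩)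
    rw [f4_card_sdiff hNH] at h1
    have h2 := (f4X_ge hε hs (j + 1)).2.1
    have h3 : (H.card : ℝ) / 2 ≤ N.card := by
      by_contra k
      have k1 : (H.card : ℝ) / 2 < H.card - N.card := by linarith [not_le.1 k]
      have k2 := mul_lt_mul_of_pos_right k1 (show 0 < f4X ε s₀ (j + 1) by linarith)
      have k3 := mul_le_mul_of_nonneg_left (not_le.1 h).le hk.le
      linarith
    have h4 : (A.card : ℝ) / N.card ≤ A.card / (H.card / 2) :=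
      div_le_div_of_nonneg_left hA0 (by linarith) h3
    have h5 : (A.card : ℝ) / (H.card / 2) = 2 / H.card * A.card := by field_simp
    linarith

theorem f4h_sum {H : Finset ℕ} {g₀ : ℕ} {ε s₀ : ℝ} (hε : 0 < ε) (hε1 : ε ≤ 1 / 2) (hs : 0 ≤ s₀)
    (hH : H.Nonempty) (hg : ∀ h ∈ H, g₀ ≤ h) (hz : ∑ h ∈ H, ((h : ℝ) - g₀) ≤ s₀ * H.card)
    (J : ℕ) : ∑ j ∈ range J, f4h H g₀ ε s₀ j ≤ 4 / ε ^ 2 ∧
      ∑ j ∈ range J, f4h H g₀ ε s₀ j * f4X ε s₀ j ≤ 4 * s₀ / ε := by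
  have hk : (0 : ℝ) < H.card := Nat.cast_pos.2 hH.card_pos
  have hk2 : (0 : ℝ) ≤ 2 / H.card := by positivity
  have hN : ∀ j, f4N H g₀ (f4X ε s₀ j) ⊆ f4N H g₀ (f4X ε s₀ (j + 1)) := fun j =>
    f4N_mono H g₀ (f4X_mono hε hs (Nat.le_succ j))
  have hsub : f4N H g₀ (f4X ε s₀ J) ⊆ H := filter_subset _ _
  have hz0 : ∀ h ∈ H, (0 : ℝ) ≤ (h : ℝ) - g₀ := fun h hh => sub_nonneg.2 (Nat.cast_le.2 (hg h hh))
  set S := (range J).filter (fun j => f4X ε s₀ (j + 1) ≤ 2 * s₀) with hS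
  have g1 : ∑ j ∈ S, f4X ε s₀ j ≤ 3 / 2 * (2 * s₀) / ε :=
    f4_geo hε hε1 hs S (by linarith) fun j hj =>
      (f4X_mono hε hs (Nat.le_succ j)).trans (mem_filter.1 hj).2
  constructor
  · have t1 := f4_tel (fun j => f4N H g₀ (f4X ε s₀ j)) hN (fun _ => 1) J fun _ _ => zero_le_one
    have t2 : ∑ _h ∈ f4N H g₀ (f4X ε s₀ J), (1 : ℝ) ≤ H.card := by
      rw [sum_const, nsmul_one]
      exact Nat.cast_le.2 (card_le_card hsub)
    have t3 := mul_le_mul_of_nonneg_left (t1.trans t2) hk2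
    have t4 : 2 / (H.card : ℝ) * H.card = 2 := by field_simp
    have t5 : (S.card : ℝ) ≤ 3 / ε ^ 2 := by
      rcases hs.eq_or_lt with h | h
      · have : S = ∅ := by
          refine filter_eq_empty_iff.2 fun j _ k => ?_
          have := (f4X_ge hε hs (j + 1)).2.1
          linarith
        rw [this, card_empty, Nat.cast_zero]
        positivity
      · have u1 : (S.card : ℝ) * (ε * s₀) ≤ ∑ j ∈ S, f4X ε s₀ j := by
          rw [← nsmul_eq_mul]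
          exact card_nsmul_le_sum _ _ _ fun j _ => by linarith [(f4X_ge hε hs j).1]
        have u2 := u1.trans g1
        rw [le_div_iff₀ hε] at u2
        rw [le_div_iff₀ (by positivity)]
        refine le_of_mul_le_mul_right ?_ h
        linarith
    have t6 : (2 : ℝ) ≤ 1 / ε ^ 2 := by
      rw [le_div_iff₀ (by positivity)]
      nlinarith
    have t7 : (4 : ℝ) / ε ^ 2 = 3 / ε ^ 2 + 1 / ε ^ 2 := by ring
    refine (sum_le_sum fun j _ => f4h_le hε hs hH hg hz j).trans ?_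
    rw [sum_add_distrib, ← mul_sum, sum_boole]
    linarith
  · have t1 := f4_tel (fun j => f4N H g₀ (f4X ε s₀ j)) hN (fun h => (h : ℝ) - g₀) J
      fun h hh => hz0 h (hsub hh)
    have t2 : ∑ h ∈ f4N H g₀ (f4X ε s₀ J), ((h : ℝ) - g₀) ≤ s₀ * H.card :=
      (sum_le_sum_of_subset_of_nonneg hsub fun h hh _ => hz0 h hh).trans hz
    have t3 := mul_le_mul_of_nonneg_left (t1.trans t2) hk2
    have t4 : 2 / (H.card : ℝ) * (s₀ * H.card) = 2 * s₀ := by field_simp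
    have t5 : ∀ j, f4h H g₀ ε s₀ j * f4X ε s₀ j ≤
        (if f4X ε s₀ (j + 1) ≤ 2 * s₀ then f4X ε s₀ j else 0) + 2 / H.card *
          ∑ h ∈ f4N H g₀ (f4X ε s₀ (j + 1)) \ f4N H g₀ (f4X ε s₀ j), ((h : ℝ) - g₀) := by
      intro j
      refine (mul_le_mul_of_nonneg_right (f4h_le hε hs hH hg hz j)
        (by linarith [(f4X_ge hε hs j).2.1])).trans ?_
      rw [add_mul, ite_mul, one_mul, zero_mul, mul_assoc, sum_mul]
      refine add_le_add le_rfl (mul_le_mul_of_nonneg_left (sum_le_sum fun h hh => ?_) hk2)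
      obtain ⟨a1, a2⟩ := mem_sdiff.1 hh
      rw [one_mul]
      exact not_lt.1 fun k => a2 (mem_filter.2 ⟨(mem_filter.1 a1).1, k⟩)
    have t6 : 2 * s₀ ≤ s₀ / ε := by
      rw [le_div_iff₀ hε]
      nlinarith
    have t7 : 4 * s₀ / ε = 3 / 2 * (2 * s₀) / ε + s₀ / ε := by ring
    refine (sum_le_sum fun j _ => t5 j).trans ?_
    rw [sum_add_distrib, ← mul_sum, ← sum_filter]
    linarith

theorem f4_div {m x z : ℕ} (hm : 0 < m) (hz : z ≤ m) :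
    (x + z) / m + (if z < m - x % m then 1 else 0) = x / m + 1 := by
  have h1 := Nat.mod_lt x hm
  have h2 := Nat.div_add_mod x m
  have h3 : x + z = (x % m + z) + m * (x / m) := by omega
  rw [h3, Nat.add_mul_div_left _ _ hm]
  split_ifs with h
  · rw [Nat.div_eq_of_lt (by omega)]
    omega
  · have h4 : (x % m + z) / m = 1 := Nat.div_eq_of_lt_le (by omega) (by omega)
    omega

namespace Cl

/-- The distance to the next carry. -/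
def f4y (Y : Cl) (g₀ : ℕ) (b : Multiset ℕ) : ℕ := Y.m - (Y.η b + g₀) % Y.m

theorem f4y_pos (Y : Cl) (g₀ : ℕ) (b : Multiset ℕ) : 1 ≤ Y.f4y g₀ b := by
  have := Nat.mod_lt (Y.η b + g₀) Y.hm
  unfold f4y
  omega

theorem f4y_card (Y : Cl) (g₀ : ℕ) {α β : ℝ} (hβ : 0 ≤ β) (h : α ≤ β) :
    ((Y.D.filter (fun b => α < (Y.f4y g₀ b : ℝ) ∧ (Y.f4y g₀ b : ℝ) ≤ β)).card : ℝ) ≤
      β - α + 1 := by
  have h1 : (Y.D.filter (fun b => α < (Y.f4y g₀ b : ℝ) ∧ (Y.f4y g₀ b : ℝ) ≤ β)).card ≤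
      (Ioc ⌊α⌋₊ ⌊β⌋₊).card := by
    refine card_le_card_of_injOn (Y.f4y g₀) (fun b hb => ?_) fun a ha b hb e => ?_
    · obtain ⟨-, b1, b2⟩ := mem_filter.1 (mem_coe.1 hb)
      refine mem_coe.2 (mem_Ioc.2 ⟨?_, Nat.le_floor b2⟩)
      exact (Nat.floor_lt' (by have := Y.f4y_pos g₀ b; omega)).2 b1
    · refine Y.res_inj (mem_filter.1 (mem_coe.1 ha)).1 (mem_filter.1 (mem_coe.1 hb)).1 ?_
      have a1 := Nat.mod_lt (Y.η a + g₀) Y.hm
      have a2 := Nat.mod_lt (Y.η b + g₀) Y.hm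
      have a3 : (Y.η a + g₀) % Y.m = (Y.η b + g₀) % Y.m := by
        unfold f4y at e
        omega
      exact Nat.ModEq.add_right_cancel' g₀ a3
  rw [Nat.card_Ioc] at h1
  have h2 : ((⌊β⌋₊ - ⌊α⌋₊ : ℕ) : ℝ) ≤ β - α + 1 := by
    rw [Nat.cast_sub (Nat.floor_le_floor h)]
    linarith [Nat.floor_le hβ, Nat.sub_one_lt_floor α]
  exact (Nat.cast_le.2 h1).trans h2

theorem f4_Df (Y : Cl) {H : Finset ℕ} {g₀ : ℕ} (hH : H.Nonempty)
    (hg : ∀ h ∈ H, g₀ ≤ h ∧ h ≤ g₀ + Y.m) (b : Multiset ℕ) :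
    Y.Df H b = ct (f4N H g₀ (Y.f4y g₀ b)) b -
      ((f4N H g₀ (Y.f4y g₀ b)).card : ℝ) / H.card * ct H b := by
  have hk : (H.card : ℝ) ≠ 0 := Nat.cast_ne_zero.2 hH.card_pos.ne'
  set q : ℝ := (((Y.res b + g₀) / Y.m : ℕ) : ℝ) + 1 with hq
  have key : ∀ h ∈ H, (((Y.res b + h) / Y.m : ℕ) : ℝ) =
      q - if (h : ℝ) - g₀ < Y.f4y g₀ b then 1 else 0 := by
    intro h hh
    obtain ⟨z, rfl⟩ := Nat.exists_eq_add_of_le (hg h hh).1
    have h1 := f4_div (x := Y.res b + g₀) (z := z) Y.hm (by have := (hg _ hh).2; omega)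
    have h2 : (Y.res b + g₀) % Y.m = (Y.η b + g₀) % Y.m := Nat.mod_add_mod _ _ _
    have h3 : ((g₀ + z : ℕ) : ℝ) - g₀ < Y.f4y g₀ b ↔ z < Y.m - (Y.η b + g₀) % Y.m := by
      rw [Nat.cast_add, add_sub_cancel_left, Nat.cast_lt]
      rfl
    rw [h2, Nat.add_assoc] at h1
    have h4 := congrArg (Nat.cast : ℕ → ℝ) h1
    rw [Nat.cast_add, Nat.cast_add, Nat.cast_one, Nat.cast_ite, Nat.cast_one, Nat.cast_zero] at h4
    simp only [h3]
    linarith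
  have e1 : ∑ h ∈ H, (((Y.res b + h) / Y.m : ℕ) : ℝ) =
      H.card * q - (f4N H g₀ (Y.f4y g₀ b)).card := by
    rw [sum_congr rfl key, sum_sub_distrib, sum_const, nsmul_eq_mul, sum_boole]
    rfl
  have e2 : ∑ h ∈ H, (b.count h : ℝ) * (((Y.res b + h) / Y.m : ℕ) : ℝ) =
      ct H b * q - ct (f4N H g₀ (Y.f4y g₀ b)) b := by
    unfold ct f4N
    rw [Nat.cast_sum, Nat.cast_sum, sum_filter, sum_mul, ← sum_sub_distrib]
    refine sum_congr rfl fun h hh => ?_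
    rw [key h hh]
    split_ifs <;> ring
  unfold Df
  rw [e1, e2]
  field_simp
  ring

/-- The deficit of one class. -/
noncomputable def f4T (H : Finset ℕ) (g₀ : ℕ) (ε s₀ : ℝ) (j : ℕ) (b : Multiset ℕ) : ℝ :=
  max (f4h H g₀ ε s₀ j * ct (f4N H g₀ (f4X ε s₀ (j + 1))) b -
    ct (f4N H g₀ (f4X ε s₀ (j + 1)) \ f4N H g₀ (f4X ε s₀ j)) b) 0

theorem f4_point (Y : Cl) {H : Finset ℕ} {g₀ : ℕ} {ε s₀ : ℝ} (hε : 0 < ε) (hs : 0 ≤ s₀)
    (hH : H.Nonempty) (hC : H ⊆ Y.C) (hg : ∀ h ∈ H, g₀ ≤ h ∧ h ≤ g₀ + Y.m) {J : ℕ}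
    (hJ : ∀ h ∈ H, (h : ℝ) - g₀ < f4X ε s₀ J) {b : Multiset ℕ} (hb : b ∈ Y.D) :
    Y.Df H b ≤ ∑ j ∈ range J, (if (Y.f4y g₀ b : ℝ) ≤ f4X ε s₀ j then f4T H g₀ ε s₀ j b else 0) +
      2 * Y.l / H.card * ∑ h ∈ H,
        if (1 - ε) * ((h : ℝ) - g₀) - (ε * s₀ + 1) < Y.f4y g₀ b ∧
          (Y.f4y g₀ b : ℝ) ≤ (h : ℝ) - g₀ then 1 else 0 := by
  have hk : (0 : ℝ) < H.card := Nat.cast_pos.2 hH.card_pos
  have hl : 0 ≤ Y.l := by linarith [Y.pos.2.2.2.1]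
  have hT : ∀ j, (0 : ℝ) ≤ if (Y.f4y g₀ b : ℝ) ≤ f4X ε s₀ j then f4T H g₀ ε s₀ j b else 0 :=
    fun j => ite_nonneg (le_max_right _ _) le_rfl
  have hNJ : f4N H g₀ (f4X ε s₀ J) = H := filter_true_of_mem hJ
  rw [Y.f4_Df hH hg, sum_boole]
  set y : ℝ := (Y.f4y g₀ b : ℝ) with hy
  have hy0 : 0 ≤ y := Nat.cast_nonneg _
  by_cases hyJ : y ≤ f4X ε s₀ J
  · have ex : ∃ i, y ≤ f4X ε s₀ i := ⟨J, hyJ⟩
    have i1 : y ≤ f4X ε s₀ (Nat.find ex) := Nat.find_spec ex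
    have i2 : Nat.find ex ≤ J := Nat.find_min' ex hyJ
    have i3 : f4X ε s₀ (Nat.find ex) ≤ (1 + ε) * y + (ε * s₀ + 1) := by
      rcases Nat.eq_zero_or_eq_succ_pred (Nat.find ex) with h | h
      · rw [h, f4X, pow_zero, mul_one]
        exact le_add_of_nonneg_left (mul_nonneg (by linarith) hy0)
      · have a1 := not_le.1 (Nat.find_min ex (m := (Nat.find ex).pred)
          (lt_of_lt_of_eq (Nat.lt_succ_self _) h.symm))
        have a2 := mul_le_mul_of_nonneg_left a1.le (show 0 ≤ 1 + ε by linarith)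
        have a3 := mul_nonneg hε.le hs
        rw [h, Nat.succ_eq_add_one, f4X_succ]
        linarith
    generalize Nat.find ex = i at i1 i2 i3
    have hz := hazard (fun j => f4N H g₀ (f4X ε s₀ j))
      (fun j => f4N_mono H g₀ (f4X_mono hε hs (Nat.le_succ j))) b i J i2
    have h1 : ∑ j ∈ Ico i J, f4T H g₀ ε s₀ j b ≤
        ∑ j ∈ range J, (if y ≤ f4X ε s₀ j then f4T H g₀ ε s₀ j b else 0) := by
      refine le_trans (le_of_eq (sum_congr rfl fun j hj => ?_))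
        (sum_le_sum_of_subset_of_nonneg (s := Ico i J)
          (fun j hj => mem_range.2 (mem_Ico.1 hj).2) fun j _ _ => hT j)
      rw [if_pos (i1.trans (f4X_mono hε hs (mem_Ico.1 hj).1))]
    have h2 : (ct (f4N H g₀ (f4X ε s₀ i)) b : ℝ) -
        ((f4N H g₀ (f4X ε s₀ i)).card : ℝ) / H.card * ct H b ≤
        ∑ j ∈ Ico i J, f4T H g₀ ε s₀ j b := by
      have := hz
      simp only [hNJ] at this
      exact this
    have hsub : f4N H g₀ y ⊆ f4N H g₀ (f4X ε s₀ i) := f4N_mono H g₀ i1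
    have h3 := f4_ct_sdiff hsub b
    have h4 := f4_card_sdiff hsub
    have h5 : ((f4N H g₀ (f4X ε s₀ i) \ f4N H g₀ y).card : ℝ) ≤
        (H.filter (fun h : ℕ => (1 - ε) * ((h : ℝ) - g₀) - (ε * s₀ + 1) < y ∧
          y ≤ (h : ℝ) - g₀)).card := by
      refine Nat.cast_le.2 (card_le_card fun h hh => ?_)
      obtain ⟨a1, a2⟩ := mem_sdiff.1 hh
      obtain ⟨a3, a4⟩ := mem_filter.1 a1
      have a5 : y ≤ (h : ℝ) - g₀ := not_lt.1 fun k => a2 (mem_filter.2 ⟨a3, k⟩)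
      have a6 := mul_le_mul_of_nonneg_left a5 hε.le
      exact mem_filter.2 ⟨a3, by linarith, a5⟩
    have h6 := mul_le_mul (Y.ct_le hC hb) h5 (Nat.cast_nonneg _) (by linarith)
    have h7 := div_le_div_of_nonneg_right h6 hk.le
    have h8 : (0 : ℝ) ≤ ct (f4N H g₀ (f4X ε s₀ i) \ f4N H g₀ y) b := Nat.cast_nonneg _
    rw [h4, mul_sub, sub_div, mul_div_assoc, mul_div_assoc, mul_div_right_comm] at h7
    linarith
  · have h1 : f4N H g₀ y = H := filter_true_of_mem fun h hh => (hJ h hh).trans (not_le.1 hyJ)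
    rw [h1, div_self hk.ne', one_mul, sub_self]
    exact add_nonneg (sum_nonneg fun j _ => hT j) (by positivity)

theorem f4_bd (Y : Cl) {H : Finset ℕ} {g₀ : ℕ} {ε s₀ : ℝ} (hε : 0 < ε) (hs : 0 ≤ s₀)
    (hH : H.Nonempty) (hg : ∀ h ∈ H, g₀ ≤ h) (hz : ∑ h ∈ H, ((h : ℝ) - g₀) ≤ s₀ * H.card) :
    ∑ b ∈ Y.D, 2 * Y.l / H.card * ∑ h ∈ H,
        (if (1 - ε) * ((h : ℝ) - g₀) - (ε * s₀ + 1) < Y.f4y g₀ b ∧
          (Y.f4y g₀ b : ℝ) ≤ (h : ℝ) - g₀ then (1 : ℝ) else 0) ≤ 4 * (ε * s₀ * Y.l) + 4 * Y.l := by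
  have hk : (0 : ℝ) < H.card := Nat.cast_pos.2 hH.card_pos
  have hl : 0 ≤ Y.l := by linarith [Y.pos.2.2.2.1]
  have h0 := mul_nonneg hε.le hs
  have h1 : ∑ h ∈ H, ∑ b ∈ Y.D, (if (1 - ε) * ((h : ℝ) - g₀) - (ε * s₀ + 1) < Y.f4y g₀ b ∧
      (Y.f4y g₀ b : ℝ) ≤ (h : ℝ) - g₀ then (1 : ℝ) else 0) ≤
      ∑ h ∈ H, (ε * ((h : ℝ) - g₀) + (ε * s₀ + 2)) := by
    refine sum_le_sum fun h hh => ?_
    have a1 : (0 : ℝ) ≤ (h : ℝ) - g₀ := sub_nonneg.2 (Nat.cast_le.2 (hg h hh))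
    have a2 := mul_nonneg hε.le a1
    rw [sum_boole]
    refine (Y.f4y_card g₀ a1 (by linarith)).trans (le_of_eq (by ring))
  rw [sum_add_distrib, ← mul_sum, sum_const, nsmul_eq_mul] at h1
  have h2 := mul_le_mul_of_nonneg_left hz hε.le
  rw [← mul_sum, sum_comm]
  refine (mul_le_mul_of_nonneg_left (h1.trans (add_le_add h2 le_rfl)) (by positivity)).trans
    (le_of_eq ?_)
  field_simp
  ring

/-- The distance function of the cut. -/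
noncomputable def f4d (m t : ℕ) : ℝ := max (cd m t : ℝ) (2 * m - t)

theorem f4d_lip {m : ℕ} (hm : 0 < m) (t t' : ℕ) : |f4d m t - f4d m t'| ≤ |(t : ℝ) - t'| := by
  refine (abs_max_sub_max_le_max _ _ _ _).trans (max_le (cd_lip m hm t t') (le_of_eq ?_))
  rw [abs_sub_comm]
  congr 1
  ring

theorem f4d_le (Y : Cl) {g₀ : ℕ} (hg : Y.m < g₀) (b : Multiset ℕ) :
    f4d Y.m (Y.η b + g₀) ≤ Y.f4y g₀ b := by
  refine max_le (Nat.cast_le.2 (min_le_right _ _)) ?_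
  have h1 := Nat.mod_lt (Y.η b + g₀) Y.hm
  have h2 := Nat.div_add_mod (Y.η b + g₀) Y.m
  have h3 : 1 ≤ (Y.η b + g₀) / Y.m := (Nat.le_div_iff_mul_le Y.hm).2 (by omega)
  have h4 := Nat.mul_le_mul_left Y.m h3
  have h5 : 2 * Y.m ≤ Y.η b + g₀ + Y.f4y g₀ b := by
    unfold f4y
    omega
  have h6 : ((2 * Y.m : ℕ) : ℝ) ≤ (Y.η b + g₀ + Y.f4y g₀ b : ℕ) := Nat.cast_le.2 h5
  rw [Nat.cast_mul, Nat.cast_add (Y.η b + g₀), Nat.cast_ofNat] at h6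
  linarith

/-- The charge of a letter. -/
noncomputable def f4u (Y : Cl) (g : ℕ) : ℝ :=
  ∑ a ∈ Y.low.filter (fun a => 13 * Y.m < 8 * Y.η a) ∩ Y.Un g, ((a.count g : ℝ) + 1)

theorem f4u_nonneg (Y : Cl) (g : ℕ) : 0 ≤ Y.f4u g := sum_nonneg fun _ _ => by positivity

theorem f4_class : ∃ K : ℝ, 0 < K ∧ ∀ (Y : Cl) (H : Finset ℕ) (g₀ : ℕ) (ε s₀ : ℝ), 0 < ε →
    ε ≤ 1 / 2 → 0 ≤ s₀ → H ⊆ Y.C → Y.m < g₀ → (∀ h ∈ H, g₀ ≤ h ∧ h ≤ g₀ + 2 * Y.w) → ∀ j : ℕ,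
    ∑ b ∈ Y.D, (if (Y.f4y g₀ b : ℝ) ≤ f4X ε s₀ j then f4T H g₀ ε s₀ j b else 0) ≤
      ∑ g ∈ f4N H g₀ (f4X ε s₀ (j + 1)) \ f4N H g₀ (f4X ε s₀ j),
        (Y.f4u g + 24 * Y.Dw / ε ^ 2 * Y.GG g) +
      (3 + 2 * K / ε ^ 4) * (if f4X ε s₀ j ≤ 2 * Y.w then f4X ε s₀ j else 0) +
      (16 * ε ^ 2 * Y.l + 2 * K * (Y.lam * Y.l) / ε ^ 2) * (f4h H g₀ ε s₀ j * f4X ε s₀ j) +
      K * (Y.lam * Y.E) * f4h H g₀ ε s₀ j := by
  obtain ⟨K, hK, hcut⟩ := cut_stein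
  refine ⟨K, hK, fun Y H g₀ ε s₀ hε hε1 hs hC hm hg j => ?_⟩
  obtain ⟨p1, p2, p3, p4, p5, p6, p7, p8, p9, p10, p11, p12⟩ := Y.pos
  have hl : 0 ≤ Y.l := by linarith
  have hE : 0 ≤ Y.E := p1.le.trans Y.E_ge.1
  have hX := (f4X_ge hε hs j).2.1
  have hX0 : 0 ≤ f4X ε s₀ j := by linarith
  have hh0 : 0 ≤ f4h H g₀ ε s₀ j := div_nonneg (Nat.cast_nonneg _) (Nat.cast_nonneg _)
  rcases (f4N H g₀ (f4X ε s₀ (j + 1)) \ f4N H g₀ (f4X ε s₀ j)).eq_empty_or_nonempty with hA | hA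
  · have h1 : f4h H g₀ ε s₀ j = 0 := by rw [f4h, hA, card_empty, Nat.cast_zero, zero_div]
    have h2 : ∀ b, f4T H g₀ ε s₀ j b = 0 := fun b => by
      rw [f4T, h1, hA]
      simp [ct]
    simp only [h1, h2, hA, ite_self, sum_const_zero, sum_empty, zero_mul, mul_zero, add_zero,
      zero_add]
    exact mul_nonneg (by positivity) (ite_nonneg hX0 le_rfl)
  obtain ⟨g, hgA⟩ := hA
  have hXw : f4X ε s₀ j ≤ 2 * Y.w := by
    obtain ⟨a1, a2⟩ := mem_sdiff.1 hgA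
    have a3 := (mem_filter.1 a1).1
    have a4 : f4X ε s₀ j ≤ (g : ℝ) - g₀ := not_lt.1 fun k => a2 (mem_filter.2 ⟨a3, k⟩)
    have a5 : (g : ℝ) ≤ g₀ + 2 * Y.w := by exact_mod_cast (hg g a3).2
    linarith
  have hε2 : 0 < ε ^ 2 := by positivity
  have hε3 : ε ^ 2 ≤ 1 / 4 := by nlinarith
  have hNH : f4N H g₀ (f4X ε s₀ (j + 1)) ⊆ H := filter_subset _ _
  have key := hcut Y (f4d Y.m) (f4d_lip Y.hm)
    (fun g r hr => le_trans (Nat.cast_le.2 (card_le_card fun b hb =>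
      mem_filter.2 ⟨(mem_filter.1 hb).1, (le_max_left _ _).trans (mem_filter.1 hb).2⟩))
      (Y.card_cd_le g hr))
    g₀ (f4X ε s₀ j) (f4X ε s₀ (j + 1)) (ε ^ 2) (Y.m / 4) hX0 (f4X_ge hε hs (j + 1)).2.1 hε2
    (by linarith) (by linarith)
    (f4N H g₀ (f4X ε s₀ (j + 1)) \ f4N H g₀ (f4X ε s₀ j)) (f4N H g₀ (f4X ε s₀ (j + 1)))
    sdiff_subset (hNH.trans hC)
    (fun h hh => ⟨(hg h (hNH hh)).1, by linarith [(mem_filter.1 hh).2]⟩)
    (Y.D.filter (fun b => (Y.f4y g₀ b : ℝ) ≤ f4X ε s₀ j)) (filter_subset _ _)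
    (fun b hb => (Y.f4d_le hm b).trans (mem_filter.1 hb).2)
  rw [← sum_filter, if_pos hXw]
  refine le_trans key ?_
  have eh : ((f4N H g₀ (f4X ε s₀ (j + 1)) \ f4N H g₀ (f4X ε s₀ j)).card : ℝ) /
    (f4N H g₀ (f4X ε s₀ (j + 1))).card = f4h H g₀ ε s₀ j := rfl
  rw [eh, sum_add_distrib, ← mul_sum, f4X_succ]
  have hwm : 1000 * (Y.w : ℝ) ≤ Y.m := by exact_mod_cast Y.hw
  have hB : ((Y.D.filter (fun b => (Y.f4y g₀ b : ℝ) ≤ f4X ε s₀ j)).card : ℝ) ≤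
      2 * f4X ε s₀ j := by
    refine le_trans (Nat.cast_le.2 (card_le_card fun b hb => ?_))
      ((Y.f4y_card g₀ hX0 hX0).trans (by linarith))
    exact mem_filter.2 ⟨(mem_filter.1 hb).1, Nat.cast_pos.2 (Y.f4y_pos g₀ b), (mem_filter.1 hb).2⟩
  generalize ((Y.D.filter (fun b => (Y.f4y g₀ b : ℝ) ≤ f4X ε s₀ j)).card : ℝ) = nB at hB ⊢
  generalize f4h H g₀ ε s₀ j = hj at hh0 ⊢
  generalize f4X ε s₀ j = X at hX hX0 hXw hB ⊢
  generalize f4N H g₀ ((1 + ε) * X) \ f4N H g₀ X = A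
  have t1 : ∑ g ∈ A, ∑ a ∈ Y.low.filter (fun a => f4d Y.m (Y.η a) ≤ X + Y.m / 4) ∩ Y.Un g,
      ((a.count g : ℝ) + 1) ≤ ∑ g ∈ A, Y.f4u g := by
    refine sum_le_sum fun g _ => sum_le_sum_of_subset_of_nonneg
      (inter_subset_inter_right fun a ha => ?_) fun _ _ _ => by positivity
    obtain ⟨a1, a2⟩ := mem_filter.1 ha
    have a3 : 2 * (Y.m : ℝ) - Y.η a ≤ X + Y.m / 4 := (le_max_right _ _).trans a2
    have a4 : 13 * (Y.m : ℝ) < 8 * Y.η a := by linarith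
    exact mem_filter.2 ⟨a1, by exact_mod_cast a4⟩
  have hX2 : (1 + ε) * X ≤ 3 / 2 * X := mul_le_mul_of_nonneg_right (by linarith) hX0
  have t2 : 2 * ((1 + ε) * X) / (ε ^ 2 * (Y.m / 4)) * Y.GS A ≤
      24 * Y.Dw / ε ^ 2 * ∑ g ∈ A, (Y.GG g : ℝ) := by
    rw [Ap.GS, Nat.cast_sum]
    refine mul_le_mul_of_nonneg_right ?_ (sum_nonneg fun _ _ => Nat.cast_nonneg _)
    have e : 24 * Y.Dw / ε ^ 2 = 6 * Y.w / (ε ^ 2 * (Y.m / 4)) := by
      unfold Dw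
      field_simp
      ring
    rw [e]
    exact div_le_div_of_nonneg_right (by linarith) (by positivity)
  have t3 : nB * (2 * ε ^ 2 * (1 + 4 * hj * Y.l) + 1) ≤ 3 * X + 16 * ε ^ 2 * Y.l * (hj * X) := by
    have a1 := mul_le_mul_of_nonneg_right hB
      (show 0 ≤ 2 * ε ^ 2 * (1 + 4 * hj * Y.l) + 1 by positivity)
    have a2 := mul_le_mul_of_nonneg_right hε3 hX0
    linarith
  have t4 : X + (1 + ε) * X / ε ^ 2 ≤ 2 * X / ε ^ 2 := by
    have a2 := mul_le_mul_of_nonneg_right hε3 hX0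
    rw [le_div_iff₀ hε2, add_mul, div_mul_cancel₀ _ hε2.ne']
    linarith
  have t5 : (X + (1 + ε) * X / ε ^ 2) / ε ^ 2 ≤ 2 / ε ^ 4 * X :=
    (div_le_div_of_nonneg_right t4 hε2.le).trans (le_of_eq (by field_simp))
  have t6 : Y.Gc + Y.l * (X + (1 + ε) * X / ε ^ 2 + Y.s) ≤ Y.E + Y.l * (2 * X / ε ^ 2) := by
    have a1 := mul_le_mul_of_nonneg_left t4 hl
    unfold E
    linarith
  have t7 := mul_le_mul_of_nonneg_left
    (add_le_add (mul_le_mul_of_nonneg_left t6 (mul_nonneg hh0 p5.le)) t5) hK.le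
  have t8 : K * (hj * Y.lam * (Y.E + Y.l * (2 * X / ε ^ 2)) + 2 / ε ^ 4 * X) =
      2 * K / ε ^ 4 * X + 2 * K * (Y.lam * Y.l) / ε ^ 2 * (hj * X) + K * (Y.lam * Y.E) * hj := by
    ring
  exact (add_le_add (add_le_add (add_le_add t1 t2) t3) (t7.trans t8.le)).trans
    (le_of_eq (by ring))

theorem f4_main : ∃ K : ℝ, 0 < K ∧ ∀ Y : Cl, Y.Sm → ∀ ε : ℝ, 0 < ε → ε ≤ 1 / 2 →
    ∀ (H : Finset ℕ) (g₀ : ℕ) (s₀ : ℝ), H.Nonempty → H ⊆ Y.C → Y.m < g₀ →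
    (∀ h ∈ H, g₀ ≤ h ∧ h ≤ g₀ + 2 * Y.w) → 0 ≤ s₀ → s₀ ≤ 2 * Y.w →
    ∑ h ∈ H, ((h : ℝ) - g₀) ≤ s₀ * H.card →
    ∑ b ∈ Y.D, Y.Df H b ≤
      Y.Chs + K * (ε * s₀ * Y.l + (Y.lam / ε ^ 2 + Y.Dw / ε ^ 5) * Y.E) := by
  obtain ⟨K, hK, hcl⟩ := f4_class
  refine ⟨100 + 100 * K, by linarith, fun Y hS ε hε hε1 H g₀ s₀ hH hC hm hg hs hsw hz => ?_⟩
  obtain ⟨p1, p2, p3, p4, p5, p6, p7, p8, p9, p10, p11, p12⟩ := Y.pos
  obtain ⟨q1, q2, q3, q4, q5, -⟩ := Y.E_ge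
  have hl : 0 ≤ Y.l := by linarith
  have hE : 0 ≤ Y.E := p1.le.trans q1
  have hw0 : (0 : ℝ) ≤ Y.w := Nat.cast_nonneg _
  obtain ⟨J, hJ⟩ := pow_unbounded_of_one_lt (2 * (Y.w : ℝ)) (show 1 < 1 + ε by linarith)
  have hJ' : ∀ h ∈ H, (h : ℝ) - g₀ < f4X ε s₀ J := fun h hh => by
    have a5 : (h : ℝ) ≤ g₀ + 2 * Y.w := by exact_mod_cast (hg h hh).2
    linarith [(f4X_ge hε hs J).2.2]
  have hg1 : ∀ h ∈ H, g₀ ≤ h := fun h hh => (hg h hh).1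
  have hg2 : ∀ h ∈ H, g₀ ≤ h ∧ h ≤ g₀ + Y.m := fun h hh =>
    ⟨(hg h hh).1, by have := (hg h hh).2; have := Y.hw; omega⟩
  have s1 := sum_le_sum fun b (hb : b ∈ Y.D) => Y.f4_point hε hs hH hC hg2 hJ' hb
  rw [sum_add_distrib, sum_comm] at s1
  have s2 := Y.f4_bd hε hs hH hg1 hz
  have s3 := sum_le_sum fun j (_ : j ∈ range J) => hcl Y H g₀ ε s₀ hε hε1 hs hC hm hg j
  rw [sum_add_distrib, sum_add_distrib, sum_add_distrib, ← mul_sum, ← mul_sum, ← mul_sum,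
    ← sum_filter] at s3
  obtain ⟨s4, s5⟩ := f4h_sum hε hε1 hs hH hg1 hz J
  have s6 := f4_geo hε hε1 hs ((range J).filter (fun j => f4X ε s₀ j ≤ 2 * Y.w))
    (x := 2 * Y.w) (by linarith) fun j hj => (mem_filter.1 hj).2
  have hu : ∀ g, 0 ≤ Y.f4u g + 24 * Y.Dw / ε ^ 2 * Y.GG g := fun g =>
    add_nonneg (Y.f4u_nonneg g) (by positivity)
  have s7 := (f4_tel (fun j => f4N H g₀ (f4X ε s₀ j))
    (fun j => f4N_mono H g₀ (f4X_mono hε hs (Nat.le_succ j)))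
    (fun g => Y.f4u g + 24 * Y.Dw / ε ^ 2 * Y.GG g) J fun g _ => hu g).trans
    (sum_le_sum_of_subset_of_nonneg ((filter_subset _ _).trans hC) fun g _ _ => hu g)
  have s8 : ∑ g ∈ Y.C, (Y.f4u g + 24 * Y.Dw / ε ^ 2 * Y.GG g) =
      Y.Chs + 24 * Y.Dw / ε ^ 2 * Y.Gc := by
    rw [sum_add_distrib, ← mul_sum, Gc, Ap.GS, Nat.cast_sum]
    rfl
  rw [s8] at s7
  have c2 := mul_le_mul_of_nonneg_left s6 (show 0 ≤ 3 + 2 * K / ε ^ 4 by positivity)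
  have c3 := mul_le_mul_of_nonneg_left s5
    (show 0 ≤ 16 * ε ^ 2 * Y.l + 2 * K * (Y.lam * Y.l) / ε ^ 2 by positivity)
  have c4 := mul_le_mul_of_nonneg_left s4 (show 0 ≤ K * (Y.lam * Y.E) by positivity)
  have hDE : 0 ≤ Y.Dw * Y.E := by positivity
  have hp : ∀ {x : ℝ} (i : ℕ), i ≤ 5 → x ≤ Y.Dw * Y.E → x / ε ^ i ≤ Y.Dw / ε ^ 5 * Y.E := by
    intro x i hi hx
    rw [div_mul_eq_mul_div]
    exact (div_le_div_of_nonneg_right hx (by positivity)).trans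
      (div_le_div_of_nonneg_left hDE (by positivity)
        (pow_le_pow_of_le_one hε.le (by linarith) hi))
  have d1 := hp 2 (by norm_num) (mul_le_mul_of_nonneg_left q2 p6.le)
  have d2 := hp 1 (by norm_num) q5
  have d3 := mul_le_mul_of_nonneg_left (hp 5 le_rfl q5) hK.le
  have d4 : Y.lam * Y.l * s₀ / 10 ≤ Y.Dw * Y.E := by
    have a1 := mul_le_mul_of_nonneg_left hsw (mul_nonneg p5.le hl)
    have a2 := mul_le_mul_of_nonneg_left ((Y.T0 hS).trans (by linarith : _ ≤ 5 * Y.E)) p6.le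
    have a3 : Y.Dw * (Y.lam * Y.l * Y.m) = Y.lam * Y.l * Y.w := by
      rw [← Y.eqs.2.2.1]
      ring
    linarith
  have d5 := mul_le_mul_of_nonneg_left (hp 3 (by norm_num) d4) hK.le
  have d6 : Y.l ≤ Y.lam / ε ^ 2 * Y.E := by
    rw [div_mul_eq_mul_div]
    exact q4.trans (le_div_self (by positivity) (by positivity) (pow_le_one₀ hε.le (by linarith)))
  have e1 : 24 * Y.Dw / ε ^ 2 * Y.Gc = 24 * (Y.Dw * Y.Gc / ε ^ 2) := by ring
  have e2 : (3 + 2 * K / ε ^ 4) * (3 / 2 * (2 * Y.w) / ε) =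
      9 * (Y.w / ε ^ 1) + 6 * (K * (Y.w / ε ^ 5)) := by
    field_simp
    ring
  have e3 : (16 * ε ^ 2 * Y.l + 2 * K * (Y.lam * Y.l) / ε ^ 2) * (4 * s₀ / ε) =
      64 * (ε * s₀ * Y.l) + 80 * (K * (Y.lam * Y.l * s₀ / 10 / ε ^ 3)) := by
    field_simp
    ring
  have e4 : K * (Y.lam * Y.E) * (4 / ε ^ 2) = 4 * (K * (Y.lam / ε ^ 2 * Y.E)) := by ring
  rw [add_mul (Y.lam / ε ^ 2)]
  have hP : 0 ≤ ε * s₀ * Y.l := by positivity
  have hQ : 0 ≤ Y.lam / ε ^ 2 * Y.E := by positivity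
  have hR : 0 ≤ Y.Dw / ε ^ 5 * Y.E := by positivity
  have k1 := mul_nonneg hK.le hP
  have k2 := mul_nonneg hK.le hQ
  have k3 := mul_nonneg hK.le hR
  generalize ε * s₀ * Y.l = P at *
  generalize Y.lam / ε ^ 2 * Y.E = Q at *
  generalize Y.Dw / ε ^ 5 * Y.E = R at *
  have e5 : (100 + 100 * K) * (P + (Q + R)) =
      100 * P + 100 * Q + 100 * R + 100 * (K * P) + 100 * (K * Q) + 100 * (K * R) := by ring
  linarith

theorem F4 : ∃ K : ℝ, 0 < K ∧ ∀ Y : Cl, Y.Sm → ∀ ε : ℝ, 0 < ε → ε ≤ 1 / 2 → ∀ g₀ ∈ Y.C,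
    ∀ s₀ : ℝ, ∑ h ∈ Y.C.filter (fun h => g₀ ≤ h), ((h : ℝ) - g₀) ≤
      s₀ * (Y.C.filter (fun h => g₀ ≤ h)).card →
    ∑ b ∈ Y.D, Y.Df (Y.C.filter (fun h => g₀ ≤ h)) b ≤
      Y.Chs + K * (ε * s₀ * Y.l + (Y.lam / ε ^ 2 + Y.Dw / ε ^ 5) * Y.E) := by
  obtain ⟨K, hK, hm⟩ := f4_main
  refine ⟨K, hK, fun Y hS ε hε hε1 g₀ hg₀ s₀ hz => ?_⟩
  set H := Y.C.filter (fun h => g₀ ≤ h) with hH
  have hne : H.Nonempty := ⟨g₀, mem_filter.2 ⟨hg₀, le_rfl⟩⟩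
  have hk : (0 : ℝ) < H.card := Nat.cast_pos.2 hne.card_pos
  have hg : ∀ h ∈ H, g₀ ≤ h ∧ h ≤ g₀ + 2 * Y.w := fun h hh => by
    have a1 := (Y.mem_C (mem_filter.1 hh).1).2.2.1
    have a2 := (Y.mem_C hg₀).2.1
    exact ⟨(mem_filter.1 hh).2, by omega⟩
  have hs : 0 ≤ s₀ := by
    have a1 : 0 ≤ ∑ h ∈ H, ((h : ℝ) - g₀) :=
      sum_nonneg fun h hh => sub_nonneg.2 (Nat.cast_le.2 (hg h hh).1)
    exact nonneg_of_mul_nonneg_left (a1.trans hz) hk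
  have hw0 : (0 : ℝ) ≤ 2 * Y.w := by positivity
  have hz2 : ∑ h ∈ H, ((h : ℝ) - g₀) ≤ 2 * Y.w * H.card := by
    rw [mul_comm, ← nsmul_eq_mul]
    refine sum_le_card_nsmul _ _ _ fun h hh => ?_
    have a5 : (h : ℝ) ≤ g₀ + 2 * Y.w := by exact_mod_cast (hg h hh).2
    linarith
  have hz3 : ∑ h ∈ H, ((h : ℝ) - g₀) ≤ min s₀ (2 * Y.w) * H.card := by
    rw [min_mul_of_nonneg _ _ hk.le]
    exact le_min hz hz2
  refine (hm Y hS ε hε hε1 H g₀ _ hne (filter_subset _ _) (Y.mem_C hg₀).1 hg (le_min hs hw0)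
    (min_le_right _ _) hz3).trans ?_
  have hl : 0 ≤ Y.l := by linarith [Y.pos.2.2.2.1]
  exact add_le_add le_rfl (mul_le_mul_of_nonneg_left (add_le_add (mul_le_mul_of_nonneg_right
    (mul_le_mul_of_nonneg_left (min_le_left _ _) hε.le) hl) le_rfl) hK.le)

end Cl

end Pool.Agent.Lib.MP_299528_co.Bd
end

-- part Pool.Agent.Lib.MP_299528_co.W.ClFin
section

/-! Clusters with small ratio of length to size do not exist. -/

set_option autoImplicit false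

namespace Pool.Agent.Lib.MP_299528_co.Bd

open Finset

namespace Cl

theorem clf_small {A c u : ℝ} (hA : 0 ≤ A) (hc : 0 < c) (hu : 0 < u) :
    ∃ q, 0 < q ∧ q ≤ u ∧ A * q ≤ c := by
  refine ⟨min u (c / (A + 1)), lt_min hu (by positivity), min_le_left _ _, ?_⟩
  have h1 : min u (c / (A + 1)) ≤ c / (A + 1) := min_le_right _ _
  have h2 : A * (c / (A + 1)) ≤ c := by
    rw [← mul_div_assoc, div_le_iff₀ (by linarith)]
    nlinarith
  exact (mul_le_mul_of_nonneg_left h1 hA).trans h2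

theorem clf_Es (Y : Cl) : 0 < Y.E ∧ 0 ≤ Y.Es := by
  obtain ⟨h1, -, -, -, h2, -⟩ := Y.pos
  obtain ⟨h3, -, -, -, -, h4, -⟩ := Y.E_ge
  have h5 : 0 < Y.E := by linarith
  exact ⟨h5, le_trans (mul_pos h2 h5).le h4⟩

theorem F7 : ∃ κ K : ℝ, 0 < κ ∧ 0 < K ∧ ∀ Y : Cl, Y.Sm →
    κ * (Y.s * Y.l) ≤ Y.Ufree + K * Y.Es := by
  obtain ⟨κa, Ka, ha, hKa, hA⟩ := F7a
  obtain ⟨κb, Kb, hb, hKb, hB⟩ := F7b
  refine ⟨min (κa / 2) (κb / 4), Ka + Kb, lt_min (by linarith) (by linarith), by linarith,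
    fun Y hS => ?_⟩
  obtain ⟨σ, e, hE, hU⟩ := Y.exists_edge
  have hs := hE.s_eq
  obtain ⟨-, -, -, hl, -, -, -, -, -, hs0, -⟩ := Y.pos
  have hEs := (clf_Es Y).2
  have hsl : 0 ≤ Y.s * Y.l := mul_nonneg hs0 (by linarith)
  have e1 := mul_nonneg hKa.le hEs
  have e2 := mul_nonneg hKb.le hEs
  by_cases h : Y.s / 2 ≤ Y.sp σ
  · have h1 := hA Y hS σ e hE
    have h2 := mul_le_mul_of_nonneg_right (min_le_left (κa / 2) (κb / 4)) hsl
    have h3 := mul_le_mul_of_nonneg_left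
      (mul_le_mul_of_nonneg_right h (show 0 ≤ Y.l by linarith)) ha.le
    linarith
  · have h1 := hB Y hS σ e hE
    have h2 := mul_le_mul_of_nonneg_right (min_le_right (κa / 2) (κb / 4)) hsl
    have h3 := mul_le_mul_of_nonneg_left (mul_le_mul_of_nonneg_right
      (show Y.s / 4 ≤ Y.sp (-σ) - Y.s / 4 by linarith) (show 0 ≤ Y.l by linarith)) hb.le
    linarith

theorem clf_gain : ∃ c K : ℝ, 0 < c ∧ 0 < K ∧ ∀ Y : Cl, Y.Sm → ∀ q ε : ℝ, 0 < q → q ≤ 1 / 4 →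
    0 < ε → ε ≤ 1 / 2 → c * (Y.s * Y.l + Y.Gc) ≤ Y.Gc - ∑ b ∈ Y.D, Y.Df Y.C b +
      K * (Y.Es + (q + ε / q + Y.lam / ε ^ 2 + Y.Dw / ε ^ 5) * Y.E) := by
  obtain ⟨κ, K7, hκ, hK7, h7⟩ := F7
  obtain ⟨K4, hK4, h4⟩ := F4
  obtain ⟨K5, hK5, h5⟩ := F5
  obtain ⟨KA, hKA, hA⟩ := A6
  obtain ⟨θ, hθ⟩ : ∃ θ : ℝ, θ = κ / (2 * (K5 + κ)) := ⟨_, rfl⟩
  have hθ0 : 0 < θ := by rw [hθ]; positivity
  have hθ1 : θ * (K5 + κ) = κ / 2 := by rw [hθ]; field_simp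
  have hθ2 : θ ≤ 1 := by rw [hθ, div_le_one (by positivity)]; linarith
  refine ⟨min (κ / 2) (3 * θ / 4), K7 + 2 * K4 + K5 + KA, lt_min (by linarith) (by linarith),
    by linarith, fun Y hS q ε hq hq' hε hε' => ?_⟩
  obtain ⟨g₀, hg₀, hs₀, hX⟩ := hA Y hS q hq hq'
  have a4 := h4 Y hS ε hε hε' g₀ hg₀ _ hs₀
  have a5 := h5 Y hS
  have a7 := h7 Y hS
  have ac := Y.charge_le
  obtain ⟨hE, hEs⟩ := clf_Es Y
  obtain ⟨-, -, -, hl, hlam, hDw, -, -, -, hs0, -, hG⟩ := Y.pos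
  have hsl : 0 ≤ Y.s * Y.l := mul_nonneg hs0 (by linarith)
  have hslE : Y.s * Y.l ≤ Y.E := Y.E_ge.2.2.1
  obtain ⟨X, hXd⟩ : ∃ X, X = ∑ b ∈ Y.D, Y.Df Y.C b := ⟨_, rfl⟩
  rw [← hXd] at hX a5 ⊢
  obtain ⟨R, hR⟩ : ∃ R, R = Y.Es + (q + ε / q + Y.lam / ε ^ 2 + Y.Dw / ε ^ 5) * Y.E := ⟨_, rfl⟩
  rw [← hR]
  have p1 : 0 ≤ q * Y.E := by positivity
  have p2 : 0 ≤ ε / q * Y.E := by positivity
  have p3 : 0 ≤ (Y.lam / ε ^ 2 + Y.Dw / ε ^ 5) * Y.E := by positivity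
  have hR' : R = Y.Es + q * Y.E + ε / q * Y.E + (Y.lam / ε ^ 2 + Y.Dw / ε ^ 5) * Y.E := by
    rw [hR]; ring
  have b1 : ε * (2 * Y.s / q) * Y.l ≤ 2 * (ε / q * Y.E) := by
    have e : ε * (2 * Y.s / q) * Y.l = 2 * (ε / q * (Y.s * Y.l)) := by ring
    have := mul_le_mul_of_nonneg_left hslE (show 0 ≤ ε / q by positivity)
    linarith
  have b2 := mul_le_mul_of_nonneg_left (show ε * (2 * Y.s / q) * Y.l +
    (Y.lam / ε ^ 2 + Y.Dw / ε ^ 5) * Y.E ≤ 2 * R by linarith) hK4.le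
  have b3 := mul_le_mul_of_nonneg_left (show q * Y.E + Y.Es ≤ R by linarith) hKA.le
  have b4 := mul_le_mul_of_nonneg_left (show Y.Es ≤ R by linarith) hK7.le
  have b5 := mul_le_mul_of_nonneg_left (show Y.Es ≤ R by linarith) hK5.le
  have hR0 : 0 ≤ R := by linarith
  have q4 := mul_nonneg hK4.le hR0
  have q5 := mul_nonneg hK5.le hR0
  have q7 := mul_nonneg hK7.le hR0
  have qA := mul_nonneg hKA.le hR0
  have c1 : κ * (Y.s * Y.l) ≤ Y.Gc - X + (K7 + 2 * K4 + K5 + KA) * R := by linarith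
  have c2 : 3 / 4 * Y.Gc - K5 * (Y.s * Y.l) ≤ Y.Gc - X + (K7 + 2 * K4 + K5 + KA) * R := by
    linarith
  have d1 := mul_le_mul_of_nonneg_left c1 (show 0 ≤ 1 - θ by linarith)
  have d2 := mul_le_mul_of_nonneg_left c2 hθ0.le
  have d3 := mul_le_mul_of_nonneg_right (min_le_left (κ / 2) (3 * θ / 4)) hsl
  have d4 := mul_le_mul_of_nonneg_right (min_le_right (κ / 2) (3 * θ / 4)) hG
  have d5 : θ * (K5 + κ) * (Y.s * Y.l) = κ / 2 * (Y.s * Y.l) := by rw [hθ1]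
  linarith

theorem small : ∃ ζ K : ℝ, 0 < ζ ∧ 0 < K ∧ ∀ Y : Cl, Y.Sm → Y.lam ≤ ζ → Y.Dw ≤ ζ →
    K * Y.eB ≤ Y.Dw ^ 2 → False := by
  obtain ⟨c₁, K, hc₁, hK, hg⟩ := clf_gain
  obtain ⟨K6, hK6, h6⟩ := F6
  obtain ⟨KF, hKF, hF⟩ := FT
  obtain ⟨c, hc⟩ : ∃ c : ℝ, c = min c₁ (1 / 4) := ⟨_, rfl⟩
  have hc0 : 0 < c := by rw [hc]; exact lt_min hc₁ (by norm_num)
  have hc1 : c ≤ c₁ := by rw [hc]; exact min_le_left _ _
  have hc2 : c ≤ 1 / 4 := by rw [hc]; exact min_le_right _ _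
  obtain ⟨q, hq, hq', hq1⟩ := clf_small (c := c / 8) (u := 1 / 4) hK.le (by linarith) (by norm_num)
  obtain ⟨ε, hε, hε', hε1⟩ := clf_small (A := K / q + K6) (c := c / 8) (u := 1 / 2)
    (by positivity) (by linarith) (by norm_num)
  obtain ⟨ζ, hζ, -, hζ1⟩ := clf_small (A := K * (3 + 1 / ε ^ 2 + 1 / ε ^ 5) + K6 / ε + KF)
    (c := c / 8) (u := 1) (by positivity) (by linarith) (by norm_num)
  refine ⟨ζ, KF + 1, hζ, by linarith, fun Y hS hlam hDw heB => ?_⟩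
  obtain ⟨hE, hEs⟩ := clf_Es Y
  obtain ⟨hm, hkc, -, hl, hlam0, hDw0, hDw1, heB0, -, hs0, -, hG⟩ := Y.pos
  have hsl : 0 ≤ Y.s * Y.l := mul_nonneg hs0 (by linarith)
  have e0 := mul_nonneg hKF.le heB0
  have heB1 : Y.eB ≤ ζ := by nlinarith
  have a1 := hg Y hS q ε hq hq' hε hε'
  have a2 := h6 Y hS ε hε (by linarith)
  have a3 := F0 Y hS
  have a4 := core Y
  have a5 : -(KF * Y.eB * Y.E) ≤ ∑ g ∈ Y.G \ Y.C, Y.Tg g := by
    have h1 := card_nsmul_le_sum (Y.G \ Y.C) (fun g => Y.kc * Y.Tg g) _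
      (hF Y hS (by linarith))
    rw [nsmul_eq_mul, ← Y.eqs.2.2.2.1, ← mul_sum] at h1
    refine le_of_mul_le_mul_left ?_ hkc
    linarith
  have a6 := sum_sdiff (f := Y.Tg) Y.C_sub
  have hEd : Y.E = Y.s * Y.l + Y.Gc + Y.m := rfl
  have hEs' : Y.Es = (Y.lam + Y.Dw + Y.eB) * Y.E := rfl
  have b1 := mul_le_mul_of_nonneg_right hc1 (show 0 ≤ Y.s * Y.l + Y.Gc by linarith)
  have b2 := mul_le_mul_of_nonneg_right hc2 hm.le
  have b3 : c * Y.E ≤ (K * (Y.lam + Y.Dw + Y.eB + (q + ε / q + Y.lam / ε ^ 2 + Y.Dw / ε ^ 5)) +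
      K6 * (ε + Y.Dw / ε) + KF * Y.eB) * Y.E := by
    have e : c * Y.E = c * (Y.s * Y.l + Y.Gc) + c * Y.m := by rw [hEd]; ring
    rw [hEs'] at a1
    linarith
  have b4 := le_of_mul_le_mul_right b3 hE
  have f1 : Y.lam / ε ^ 2 ≤ ζ / ε ^ 2 := div_le_div_of_nonneg_right hlam (by positivity)
  have f2 : Y.Dw / ε ^ 5 ≤ ζ / ε ^ 5 := div_le_div_of_nonneg_right hDw (by positivity)
  have f3 : Y.Dw / ε ≤ ζ / ε := div_le_div_of_nonneg_right hDw hε.le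
  have f4 := mul_le_mul_of_nonneg_left (show Y.lam + Y.Dw + Y.eB +
    (q + ε / q + Y.lam / ε ^ 2 + Y.Dw / ε ^ 5) ≤
      3 * ζ + (q + ε / q + ζ / ε ^ 2 + ζ / ε ^ 5) by linarith) hK.le
  have f5 := mul_le_mul_of_nonneg_left (show ε + Y.Dw / ε ≤ ε + ζ / ε by linarith) hK6.le
  have f6 := mul_le_mul_of_nonneg_left heB1 hKF.le
  have e1 : K * (3 * ζ + (q + ε / q + ζ / ε ^ 2 + ζ / ε ^ 5)) + K6 * (ε + ζ / ε) + KF * ζ =
      K * q + (K / q + K6) * ε + (K * (3 + 1 / ε ^ 2 + 1 / ε ^ 5) + K6 / ε + KF) * ζ := by ring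
  linarith

end Cl

end Pool.Agent.Lib.MP_299528_co.Bd
end

-- part Pool.Agent.Lib.MP_299528_co.W.ApMain
section

/-! A violation forces bounded depth and spread letters. -/

set_option autoImplicit false

namespace Pool.Agent.Lib.MP_299528_co.Bd

open Finset

theorem apm_median {Q : Finset ℕ} (hQ : Q.Nonempty) : ∃ g ∈ Q,
    Q.card ≤ 2 * (Q.filter (fun h => h ≤ g)).card ∧
      Q.card ≤ 2 * (Q.filter (fun h => g ≤ h)).card := by
  set R := Q.filter (fun g => Q.card ≤ 2 * (Q.filter (fun h => h ≤ g)).card) with hR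
  have hne : R.Nonempty := ⟨Q.max' hQ, mem_filter.mpr ⟨Q.max'_mem hQ, by
    rw [filter_true_of_mem (fun h hh => Q.le_max' h hh)]
    omega⟩⟩
  have hg := mem_filter.mp (R.min'_mem hne)
  refine ⟨R.min' hne, hg.1, hg.2, ?_⟩
  have h1 := card_filter_add_card_filter_not (s := Q) (fun h => R.min' hne ≤ h)
  set L := Q.filter (fun h => ¬ R.min' hne ≤ h) with hL
  rcases L.eq_empty_or_nonempty with h2 | h2
  · rw [h2, card_empty] at h1
    omega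
  · have h3 := mem_filter.mp (L.max'_mem h2)
    have h4 : ¬ Q.card ≤ 2 * (Q.filter (fun h => h ≤ L.max' h2)).card := fun h =>
      h3.2 (R.min'_le _ (mem_filter.mpr ⟨h3.1, h⟩))
    have h5 : L.card ≤ (Q.filter (fun h => h ≤ L.max' h2)).card :=
      card_le_card fun h hh => mem_filter.mpr ⟨(mem_filter.mp hh).1, L.le_max' h hh⟩
    omega

theorem apm_big (x : ℝ) (k : ℕ) : ∃ N : ℕ, k ≤ N ∧ x ≤ N := by
  obtain ⟨N, hN⟩ := exists_nat_ge x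
  exact ⟨N + k, Nat.le_add_left _ _, hN.trans (by exact_mod_cast Nat.le_add_right _ _)⟩

theorem no_cluster (Θ₀ : ℕ) : ∃ PD Pe k₁ : ℕ, 1 ≤ PD ∧ 1 ≤ Pe ∧ ∀ (Y : Ap) (t w : ℕ), Y.Viol →
    Y.k ≤ Y.m → k₁ ≤ Y.k → Y.T ≤ Θ₀ * ((Y.k + 1) * Y.m) → PD * w ≤ Y.m → Y.m ≤ 2 * PD * w →
    Pe * (Y.G.filter (fun g => g < t ∨ t + w < g)).card ≤ Y.k → 100 * (t + w) ≤ Y.T →
    False := by
  obtain ⟨ζ, K, hζ, hK, hsmall⟩ := Cl.small
  have hζ₁ : 0 < min ζ (1 / 1000) := lt_min hζ (by norm_num)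
  obtain ⟨ζ', hζ', k₂, hlarge⟩ := Cl.large Θ₀ (min ζ (1 / 1000)) hζ₁
  obtain ⟨PD, hPD1, hPD2⟩ := apm_big (1 / ζ + 1 / ζ') 1000
  obtain ⟨Pe, hPe1, hPe2⟩ := apm_big (4 * K * (PD : ℝ) ^ 2 + 1 / ζ') 1000
  refine ⟨PD, Pe + 1, k₂ + 1, by omega, by omega, fun Y t w hV hkm hk hT hw1 hw2 hout hl => ?_⟩
  set O := Y.G.filter (fun g => g < t ∨ t + w < g) with hO
  set Q := Y.G.filter (fun g => ¬ (g < t ∨ t + w < g)) with hQ
  have hOQ : O.card + Q.card = Y.k := card_filter_add_card_filter_not _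
  have hO1 : Pe * O.card ≤ Q.card := by
    rw [add_mul, one_mul] at hout
    omega
  have hO2 : 1000 * O.card ≤ Q.card := (Nat.mul_le_mul_right _ hPe1).trans hO1
  have hQne : Q.Nonempty := card_pos.mp (by omega)
  obtain ⟨gm, hgm, hlo, hhi⟩ := apm_median hQne
  have hgm' := mem_filter.mp hgm
  have hsub : Q ⊆ win Y.G gm w := fun h hh => by
    have := mem_filter.mp hh
    exact mem_filter.mpr ⟨this.1, by omega⟩
  have hQC := card_le_card hsub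
  have hCk : (win Y.G gm w).card ≤ Y.k := card_filter_le _ _
  have hfar : (Y.G \ win Y.G gm w).card ≤ O.card := card_le_card fun g hg => by
    have := mem_sdiff.mp hg
    by_contra h
    exact this.2 (hsub (mem_filter.mpr ⟨this.1, fun h' => h (mem_filter.mpr ⟨this.1, h'⟩)⟩))
  have hm := Y.hm
  have hw0 : 1 ≤ w := by
    by_contra h
    have : w = 0 := by omega
    rw [this] at hw2
    omega
  have h1 := card_le_card (filter_subset_filter (fun h => h ≤ gm) hsub)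
  have h2 := card_le_card (filter_subset_filter (fun h => gm ≤ h) hsub)
  let X : Cl := { Y with
    gm := gm
    w := w
    hgm := Y.hG gm hgm'.1
    hw1 := hw0
    hw := (Nat.mul_le_mul_right _ hPD1).trans hw1
    hk := hkm
    hV := hV
    hC := by have := card_pos.mpr hQne; omega
    hlo := by omega
    hhi := by omega
    hfar := by omega
    hl := le_trans (Nat.mul_le_mul_left _ (by omega)) hl }
  obtain ⟨p1, p2, p3, -, -, p6, -, p8, -⟩ := X.pos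
  obtain ⟨q1, q2, q3, q4, -⟩ := X.eqs
  have hPD0 : (0 : ℝ) < PD := by exact_mod_cast (by omega : 0 < PD)
  have hPe0 : (0 : ℝ) < Pe := by exact_mod_cast (by omega : 0 < Pe)
  have hD1 : (PD : ℝ) * X.Dw ≤ 1 := by
    have : (PD : ℝ) * X.w ≤ X.m := by exact_mod_cast hw1
    rw [← q3] at this
    exact le_of_mul_le_mul_right (by linarith) p1
  have hD2 : 1 ≤ 2 * (PD : ℝ) * X.Dw := by
    have : (X.m : ℝ) ≤ 2 * PD * X.w := by exact_mod_cast hw2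
    rw [← q3] at this
    exact le_of_mul_le_mul_right (by linarith) p1
  have he : (Pe : ℝ) * X.eB ≤ 1 := by
    have h3 : Pe * (X.G \ X.C).card ≤ X.C.card :=
      ((Nat.mul_le_mul_left _ hfar).trans hO1).trans hQC
    have : (Pe : ℝ) * ((X.G \ X.C).card : ℝ) ≤ X.kc := by
      unfold Cl.kc
      exact_mod_cast h3
    rw [← q4] at this
    exact le_of_mul_le_mul_right (by linarith) p2
  have small_of : ∀ {a x z : ℝ}, 0 < z → 0 ≤ x → 1 / z ≤ a → a * x ≤ 1 → x ≤ z := by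
    intro a x z hz hx h3 h4
    have h5 : 1 / z * x ≤ 1 := (mul_le_mul_of_nonneg_right h3 hx).trans h4
    rwa [one_div_mul_eq_div, div_le_one hz] at h5
  have i1 : 0 < 1 / ζ := by positivity
  have i2 : 0 < 1 / ζ' := by positivity
  have i3 : 0 < 4 * K * (PD : ℝ) ^ 2 := by positivity
  by_cases hlam : X.lam ≤ min ζ (1 / 1000)
  · have hS : X.Sm := by
      have h3 : X.lam ≤ 1 / 1000 := hlam.trans (min_le_right _ _)
      have h4 : 1000 * (X.T : ℝ) ≤ X.gm * X.kc := by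
        rw [← q1, ← q2]
        have := mul_le_mul_of_nonneg_right h3 (mul_pos p2 (p1.trans p3)).le
        linarith
      unfold Cl.kc at h4
      unfold Cl.Sm
      exact_mod_cast h4
    refine hsmall X hS (hlam.trans (min_le_left _ _)) (small_of hζ p6.le (by linarith) hD1) ?_
    have h3 : 4 * K * (PD : ℝ) ^ 2 * X.eB ≤ 1 :=
      (mul_le_mul_of_nonneg_right (by linarith) p8).trans he
    have h4 : 1 ≤ (2 * (PD : ℝ) * X.Dw) ^ 2 := one_le_pow₀ hD2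
    have h5 : 4 * (PD : ℝ) ^ 2 * (K * X.eB) ≤ 4 * (PD : ℝ) ^ 2 * X.Dw ^ 2 := by linarith
    exact le_of_mul_le_mul_left h5 (by positivity)
  · exact hlarge X hT (not_le.mp hlam).le (small_of hζ' p6.le (by linarith) hD1)
      (small_of hζ' p8 (by linarith) he) (show k₂ ≤ Y.k by omega)

theorem apm_quant (G : Finset ℕ) (N x : ℕ) (h : G.card < N * (G.filter (fun g => g < x)).card) :
    ∃ t, t < x ∧ N * (G.filter (fun g => g < t)).card ≤ G.card ∧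
      G.card < N * (G.filter (fun g => g ≤ t)).card := by
  induction x with
  | zero => simp at h
  | succ x ih =>
    by_cases hx : G.card < N * (G.filter (fun g => g < x)).card
    · obtain ⟨t, h1, h2⟩ := ih hx
      exact ⟨t, by omega, h2⟩
    · refine ⟨x, by omega, not_lt.mp hx, ?_⟩
      simpa only [Nat.lt_succ_iff] using h

theorem ap_main : ∃ Θ₀ Γ₁ P q₀ k₀ : ℕ, 1 ≤ P ∧ ∀ Y : Ap, Y.Viol → Y.k ≤ Y.m →
    q₀ * Y.m ≤ Y.c → k₀ ≤ Y.k →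
    Y.c ≤ Θ₀ * ((Y.k + 1) * Y.m) ∧ ∃ t, t ≤ Γ₁ * Y.m ∧
      Y.k ≤ P * (Y.G.filter (fun g => g ≤ t)).card ∧
      Y.k ≤ P * (Y.G.filter (fun g => P * t + Y.m ≤ P * g)).card := by
  obtain ⟨r₀, Θ₀, kd, hr₀, hΘ₀, hdeep⟩ := deep
  obtain ⟨PD, Pe, k₁, hPD, hPe, hncl⟩ := no_cluster Θ₀
  obtain ⟨P₁, Γa, la, Λ, hcs⟩ := heavy_cluster Pe (2 * PD) hPe (by omega)
  obtain ⟨P₂, Γb, kb, hr1⟩ := heavy_short (la + 2 * r₀ + 200)
  obtain ⟨P, hP⟩ : ∃ P, P = P₁ + P₂ + Pe + 50 := ⟨_, rfl⟩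
  obtain ⟨Γ, hΓ⟩ : ∃ Γ, Γ = Γa + Γb + 400 * P * Θ₀ + 2 * Λ * Θ₀ + 2 := ⟨_, rfl⟩
  have hPΘ : 400 * P * 1 ≤ 400 * P * Θ₀ := Nat.mul_le_mul_left _ hΘ₀
  refine ⟨Θ₀, Γ, 4 * P + 2 * PD, r₀ * Γ + 100 * (Γ + 1), kd + k₁ + kb + PD + 400 * P * r₀ + 10,
    by omega, fun Y hV hkm hc hk => ?_⟩
  have hm := Y.hm
  have hcT : Y.c ≤ Y.T := by unfold Ap.T; omega
  rw [add_mul] at hc
  have hT10 : 10 * Y.m ≤ Y.T :=
    (Nat.mul_le_mul_right _ (by omega : 10 ≤ 100 * (Γ + 1))).trans (by omega)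
  have short : ∀ glo, Γ * Y.m ≤ glo → Y.Win P glo → Y.T ≤ (la + 2 * r₀ + 200) * glo → False :=
    fun glo h1 h2 h3 => hr1 Y glo hV (h2.mono (by omega))
      ((Nat.mul_le_mul_right _ (by omega)).trans h1) h3 (by omega) hkm
  by_cases hd : Θ₀ * ((Y.k + 1) * Y.m) ≤ Y.T
  · exfalso
    have h1 := hdeep Y hV hd (by omega)
    have hrm : 0 < r₀ * Y.m := Nat.mul_pos hr₀ hm
    set Γ' := Y.T / (r₀ * Y.m) with hΓ'
    have h2 : Γ ≤ Γ' := (Nat.le_div_iff_mul_le hrm).mpr (by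
      have : Γ * (r₀ * Y.m) = r₀ * Γ * Y.m := by ring
      omega)
    have h3 : Γ' * (r₀ * Y.m) ≤ Y.T := Nat.div_mul_le_self _ _
    have h4 : Y.T ≤ 2 * r₀ * (Γ' * Y.m) := by
      have h5 : Y.T < r₀ * Y.m * (Γ' + 1) := Nat.lt_mul_div_succ _ hrm
      have h6 : r₀ * Y.m * (Γ' + 1) ≤ r₀ * Y.m * (2 * Γ') := Nat.mul_le_mul_left _ (by omega)
      have : r₀ * Y.m * (2 * Γ') = 2 * r₀ * (Γ' * Y.m) := by ring
      omega
    have h5 : (Y.G.filter (fun g => g < Γ' * Y.m)).card ≤ r₀ := by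
      refine le_trans (card_le_card fun g hg => ?_) h1.le
      have := mem_filter.mp hg
      refine mem_filter.mpr ⟨this.1, le_trans (Nat.mul_le_mul_right _ this.2.le) ?_⟩
      have : Γ' * Y.m * r₀ = Γ' * (r₀ * Y.m) := by ring
      omega
    obtain ⟨glo, g1, g2⟩ := Y.heavy_window hV (P := P) (Γ := Γ') (by omega) (by omega) (by omega)
      hT10 (by
        have h6 := Nat.mul_le_mul_left (4 * P) h5
        have : 400 * P * r₀ = 100 * (4 * P * r₀) := by ring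
        omega)
      (by
        have h6 := Nat.mul_le_mul_left (200 * P) h4
        have h7 : Γ' * Y.m * (400 * P * r₀) ≤ Γ' * Y.m * Y.k := Nat.mul_le_mul_left _ (by omega)
        have : 200 * P * (2 * r₀ * (Γ' * Y.m)) = Γ' * Y.m * (400 * P * r₀) := by ring
        omega)
    refine short glo ((Nat.mul_le_mul_right _ h2).trans g1) g2 (h4.trans ?_)
    exact Nat.mul_le_mul (by omega) g1
  have hd' : Y.T ≤ Θ₀ * ((Y.k + 1) * Y.m) := (not_le.mp hd).le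
  refine ⟨hcT.trans hd', ?_⟩
  have hT2 : Y.T ≤ 2 * Θ₀ * (Y.m * Y.k) := by
    have h1 : Θ₀ * ((Y.k + 1) * Y.m) ≤ Θ₀ * ((2 * Y.k) * Y.m) :=
      Nat.mul_le_mul_left _ (Nat.mul_le_mul_right _ (by omega))
    have : Θ₀ * ((2 * Y.k) * Y.m) = 2 * Θ₀ * (Y.m * Y.k) := by ring
    omega
  set w := Y.m / PD with hw
  have hw1 : PD * w ≤ Y.m := Nat.mul_div_le _ _
  have hw0 : 1 ≤ w := (Nat.le_div_iff_mul_le (by omega)).mpr (by omega)
  have hw2 : Y.m ≤ 2 * PD * w := by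
    have h1 : Y.m < PD * (w + 1) := Nat.lt_mul_div_succ _ (by omega)
    have h2 : PD * (w + 1) ≤ PD * (2 * w) := Nat.mul_le_mul_left _ (by omega)
    have : PD * (2 * w) = 2 * PD * w := by ring
    omega
  have hw3 : w ≤ Y.m := Nat.div_le_self _ _
  by_cases hl : 4 * P * (Y.G.filter (fun g => g < Γ * Y.m)).card ≤ Y.k
  · exfalso
    obtain ⟨glo, g1, g2⟩ := Y.heavy_window hV (P := P) (Γ := Γ) (by omega) (by omega) (by omega)
      hT10 hl (by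
        have h6 := Nat.mul_le_mul_left (200 * P) hT2
        have h7 : 400 * P * Θ₀ * (Y.m * Y.k) ≤ Γ * (Y.m * Y.k) :=
          Nat.mul_le_mul_right _ (by omega)
        have e1 : 200 * P * (2 * Θ₀ * (Y.m * Y.k)) = 400 * P * Θ₀ * (Y.m * Y.k) := by ring
        have e2 : Γ * (Y.m * Y.k) = Γ * Y.m * Y.k := by ring
        omega)
    by_cases hs : Y.T ≤ (la + 2 * r₀ + 200) * glo
    · exact short glo g1 g2 hs
    have hs' : la * glo + 2 * r₀ * glo + 200 * glo ≤ Y.T := by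
      rw [add_mul, add_mul] at hs
      omega
    obtain ⟨t, t1, t2⟩ := hcs Y glo w hV (g2.mono (by omega)) (by omega)
      ((Nat.mul_le_mul_right _ (by omega)).trans g1) (by omega) (by
        have h6 := Nat.mul_le_mul_left Λ hT2
        have h7 : 2 * Λ * Θ₀ * (Y.m * Y.k) ≤ Γ * (Y.m * Y.k) := Nat.mul_le_mul_right _ (by omega)
        have h8 : Γ * Y.m * Y.k ≤ glo * Y.k := Nat.mul_le_mul_right _ g1
        have e1 : Λ * (2 * Θ₀ * (Y.m * Y.k)) = 2 * Λ * Θ₀ * (Y.m * Y.k) := by ring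
        have e2 : Γ * (Y.m * Y.k) = Γ * Y.m * Y.k := by ring
        omega) hw2 hw3
    have h2 : 2 * Y.m ≤ glo := (Nat.mul_le_mul_right _ (by omega)).trans g1
    exact hncl Y t w hV hkm (by omega) hd' hw1 hw2 t2 (by omega)
  obtain ⟨t, t1, t2, t3⟩ := apm_quant Y.G (4 * P) (Γ * Y.m) (not_le.mp hl)
  refine ⟨t, t1.le, t3.le.trans (Nat.mul_le_mul_right _ (by omega)), ?_⟩
  by_contra hcon
  set U := Y.G.filter (fun g => t + w < g) with hU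
  have h1 : U.card ≤ (Y.G.filter (fun g => (4 * P + 2 * PD) * t + Y.m ≤
      (4 * P + 2 * PD) * g)).card := card_le_card fun g hg => by
    have := mem_filter.mp hg
    refine mem_filter.mpr ⟨this.1, ?_⟩
    have h2 : (4 * P + 2 * PD) * (t + w) ≤ (4 * P + 2 * PD) * g :=
      Nat.mul_le_mul_left _ this.2.le
    have h3 : 2 * PD * w ≤ (4 * P + 2 * PD) * w := Nat.mul_le_mul_right _ (by omega)
    rw [mul_add] at h2
    omega
  have h2 : 2 * Pe * U.card ≤ Y.k :=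
    (Nat.mul_le_mul (by omega) h1).trans (not_le.mp hcon).le
  have h3 : 2 * Pe * (Y.G.filter (fun g => g < t)).card ≤ Y.k :=
    (Nat.mul_le_mul_right _ (by omega)).trans t2
  have h4 : (Y.G.filter (fun g => g < t ∨ t + w < g)).card ≤
      (Y.G.filter (fun g => g < t)).card + U.card := by
    rw [filter_or]
    exact card_union_le _ _
  have h5 := Nat.mul_le_mul_left Pe h4
  rw [mul_add] at h5
  rw [mul_assoc] at h2 h3
  refine hncl Y t w hV hkm (by omega) hd' hw1 hw2 (by omega) ?_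
  have : 100 * (Γ + 1) * Y.m = 100 * (Γ * Y.m) + 100 * Y.m := by ring
  omega

end Pool.Agent.Lib.MP_299528_co.Bd
end

-- part Pool.Agent.Lib.MP_299528_co.W.Fin
section

/-! The theorem. -/

set_option autoImplicit false

namespace Pool.Agent.Lib.MP_299528_co.Bd

open Finset

theorem fin_depth (q : ℕ) : ∃ c₀ : ℕ, ∀ (S : Set (Fin 1 → ℕ)) (m : ℕ),
    (0 : Fin 1 → ℕ) ∈ S → (∀ x ∈ S, ∀ y ∈ S, x + y ∈ S) → Sᶜ.Finite →
    IsLeast {t : ℕ | 0 < t ∧ (Pi.single 0 t : Fin 1 → ℕ) ∈ S} m → cS S < q * m →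
    c₀ ≤ cS S → cS S ≤ eS S * nS S := by
  obtain ⟨c₀, h⟩ := wilf_length q
  refine ⟨c₀, fun S m h0 hadd hfin hm hd hc => h S m h0 hadd hfin hm (fun w hw => ?_) hc⟩
  have hge : ∀ i, m ≤ w i 0 := fun i => hm.2 ⟨by
    by_contra hh
    exact (hw i).2 (ext_one (by simpa using hh)), by
    rw [single_eq_pt, pt_eq]
    exact (hw i).1⟩
  have hs : (q + 1) * m ≤ ∑ i, w i 0 := by
    have := card_nsmul_le_sum (univ : Finset (Fin (q + 1))) (fun i => w i 0) m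
      (fun i _ => hge i)
    simpa using this
  rw [add_mul, one_mul] at hs
  refine ⟨pt (∑ i, w i 0 - m), mem_of_cS_le hfin (by rw [pt_zero]; omega), ext_one ?_⟩
  simp only [Finset.sum_apply, Pi.add_apply, pt_zero, Pi.single_eq_same]
  omega

open SemiAux in
theorem wilf_cofinite : ∃ c₀ : ℕ, ∀ S : Set (Fin 1 → ℕ),
    (0 : Fin 1 → ℕ) ∈ S → (∀ x ∈ S, ∀ y ∈ S, x + y ∈ S) → Sᶜ.Finite → c₀ ≤ cS S →
    cS S ≤ eS S * nS S := by
  classical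
  obtain ⟨Θ₀, Γ₁, P, q₀, k₀, hP, hmain⟩ := ap_main
  obtain ⟨q₁, hsp⟩ := spread Θ₀ Γ₁ P hP
  obtain ⟨c₁, hc₁⟩ := fin_depth (q₀ + q₁)
  refine ⟨c₁ + (4 * (k₀ + 1)) ^ (2 * (k₀ + 1) ^ 3), fun S h0 hadd hfin hc => ?_⟩
  have hex : ∃ t : ℕ, 0 < t ∧ (Pi.single 0 t : Fin 1 → ℕ) ∈ S :=
    ⟨cS S + 1, Nat.succ_pos _, mem_of_cS_le hfin (by simp)⟩
  have hm : IsLeast {t : ℕ | 0 < t ∧ (Pi.single 0 t : Fin 1 → ℕ) ∈ S} (Nat.find hex) :=
    ⟨Nat.find_spec hex, fun _ h => Nat.find_min' hex h⟩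
  set m := Nat.find hex
  by_cases hd : cS S < (q₀ + q₁) * m
  · exact hc₁ S m h0 hadd hfin hm hd (le_trans (Nat.le_add_right _ _) hc)
  by_cases hk : eS S ≤ k₀ + 1
  · refine wilf_large h0 hadd hfin (le_trans ?_ (le_trans (Nat.le_add_left _ _) hc))
    calc (4 * eS S) ^ (2 * eS S ^ 3) ≤ (4 * (k₀ + 1)) ^ (2 * eS S ^ 3) :=
          Nat.pow_le_pow_left (by omega) _
      _ ≤ _ := Nat.pow_le_pow_right (by omega)
          (Nat.mul_le_mul_left _ (Nat.pow_le_pow_left hk _))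
  obtain ⟨-, -, -, -, -, hem, -⟩ := exists_ap h0 hadd hfin hm
  obtain ⟨Y, e1, e2, e3, e4, e5, e6⟩ := exists_sys2 h0 hadd hfin hm
  have hS : ∀ u : Multiset ℕ, (∀ g ∈ u, g ∈ Y.G) → u.sum ∈ Y.S := fun u hu => by
    rw [e5]
    exact pt_sum h0 hadd u fun g hg => (e6 g (hu g hg)).1
  by_contra hcon
  rw [add_mul] at hd
  have hn : (ap Y hS).n ≤ nS S := by
    rw [ap_n, ← e4]
    exact Y.NN_le
  have hV : (ap Y hS).Viol := by
    show (Y.G.card + 1) * (ap Y hS).n < Y.c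
    rw [e3, e2]
    exact lt_of_le_of_lt (Nat.mul_le_mul_left _ hn) (not_le.mp hcon)
  obtain ⟨h1, t, h2, h3, h4⟩ := hmain (ap Y hS) hV (show Y.G.card ≤ Y.m by omega)
    (show q₀ * Y.m ≤ Y.c by rw [e1, e2]; omega) (show k₀ ≤ Y.G.card by omega)
  have := hsp Y t (by rw [e1, e2]; omega) h1 h2 h3 h4
  rw [e3, e4, e2] at this
  exact hcon this

end Pool.Agent.Lib.MP_299528_co.Bd
end
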