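import Pool.Agent.Lib.MP_299528_co.W.ClA

-- part Pool.Agent.Lib.MP_299528_co.W.ClB
section

/-! Clusters: the number of cluster letters on an arc. -/

set_option autoImplicit false

namespace Pool.Agent.Lib.MP_299528_co.Bd

open Finset

namespace Cl

theorem clb_mem (Y : Cl) {p u : ℕ} {b : Multiset ℕ} (hb : b ∈ Y.arc Y.Z p u) :
    b ∈ Y.D ∧ Y.η b < Y.m ∧ (Y.η b + p) % Y.m < u := by
  rw [arc, mem_filter, Ap.Z, mem_filter] at hb
  exact ⟨hb.1.1, hb.1.2, hb.2⟩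

theorem clb_inj (Y : Cl) {g : ℕ} (hg : Y.m < g) {a b : Multiset ℕ} (ha : a ∈ Y.D)
    (ha' : Y.η a < Y.m) (hb : b ∈ Y.D) (hb' : Y.η b < Y.m) (h : bot g a = bot g b) : a = b := by
  refine eq_of_bot h ?_
  have h1 := (Y.bot_mem g ha).2
  have h2 := (Y.bot_mem g hb).2
  have h0 : 0 < g := by omega
  rw [h, h2, uu, uu] at h1
  have h3 := congrArg (· / g) h1
  simp only [Nat.add_mul_div_right _ _ h0] at h3
  rw [Nat.div_eq_of_lt (hb'.trans hg), Nat.div_eq_of_lt (ha'.trans hg)] at h3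
  omega

theorem clb_nat (Y : Cl) {g : ℕ} (hg : Y.m < g) (p u : ℕ) :
    ∑ b ∈ Y.arc Y.Z p u, uu g b ≤ 3 * Y.gm * (Y.arc Y.low (p + (Y.m - 1) * g) u).card +
      ∑ a ∈ Y.D.filter (fun a => Y.gm + Y.m + Y.w ≤ Y.η a), Y.η a := by
  have h1 : ∀ b ∈ Y.arc Y.Z p u, uu g b ≤ (if g ∈ b then 3 * Y.gm else 0) +
      if Y.gm + Y.m + Y.w ≤ Y.η (bot g b) then Y.η (bot g b) else 0 := fun b hb => by
    have e := (Y.bot_mem g (Y.clb_mem hb).1).2
    have h1 := Y.hgm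
    have h2 := Y.hw
    by_cases h : g ∈ b
    · rw [if_pos h]
      split_ifs <;> omega
    · rw [uu, Multiset.count_eq_zero_of_notMem h, zero_mul]
      exact Nat.zero_le _
  refine (sum_le_sum h1).trans ?_
  rw [sum_add_distrib, ← sum_filter, ← sum_filter, sum_const, smul_eq_mul, mul_comm]
  refine add_le_add (Nat.mul_le_mul_left _ (card_le_card_of_injOn (fun b => b.erase g)
    (fun b hb => ?_) fun a ha b hb h => ?_)) ?_
  · rw [mem_coe, mem_filter] at hb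
    obtain ⟨h2, -, h3⟩ := Y.clb_mem hb.1
    obtain ⟨-, h4, h5⟩ := Y.of_erase h2 hb.2
    rw [mem_coe, arc, mem_filter, h5]
    refine ⟨h4, ?_⟩
    obtain ⟨n, hn⟩ := Nat.exists_eq_succ_of_ne_zero Y.hm.ne'
    have e : Y.η b + g + (p + (Y.m - 1) * g) = Y.η b + p + Y.m * g := by
      rw [hn, Nat.succ_sub_one, Nat.succ_mul]
      ring
    rwa [e, Nat.add_mul_mod_self_left]
  · rw [mem_coe, mem_filter] at ha hb
    rw [← Multiset.cons_erase ha.2, ← Multiset.cons_erase hb.2]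
    exact congrArg _ h
  · rw [← sum_image (g := bot g) (f := Y.η) fun a ha b hb h => by
      rw [mem_coe, mem_filter] at ha hb
      exact Y.clb_inj hg (Y.clb_mem ha.1).1 (Y.clb_mem ha.1).2.1 (Y.clb_mem hb.1).1
        (Y.clb_mem hb.1).2.1 h]
    refine sum_le_sum_of_subset fun a ha => ?_
    obtain ⟨b, hb, rfl⟩ := mem_image.1 ha
    rw [mem_filter] at hb ⊢
    exact ⟨(Y.bot_mem g (Y.clb_mem hb.1).1).1, hb.2⟩

theorem clb_one (Y : Cl) (hS : Y.Sm) {g : ℕ} (hg : Y.m < g) (p u : ℕ) :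
    Y.kc * ∑ b ∈ Y.arc Y.Z p u, (uu g b : ℝ) ≤ 400 * Y.gm * (Y.l * u + Y.E) := by
  have h1 : ∑ b ∈ Y.arc Y.Z p u, (uu g b : ℝ) ≤
      3 * Y.gm * (Y.arc Y.low (p + (Y.m - 1) * g) u).card +
      ∑ a ∈ Y.D.filter (fun a => Y.gm + Y.m + Y.w ≤ Y.η a), (Y.η a : ℝ) := by
    exact_mod_cast Y.clb_nat hg p u
  have h2 := Y.CD (subset_refl Y.low) (p + (Y.m - 1) * g) u
  have h3 := Y.deeper hS
  have h4 := Y.UP_low
  obtain ⟨p1, p2, p3, p4, -⟩ := Y.pos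
  obtain ⟨e1, e2, e3, -⟩ := Y.E_ge
  have h5 : 0 ≤ Y.l * u := by positivity
  have h6 : Y.kc * (Y.arc Y.low (p + (Y.m - 1) * g) u).card ≤ 18 * (Y.l * u + Y.E) := by
    linarith
  have h7 := mul_le_mul_of_nonneg_left h6 (p1.trans p3).le
  have h8 := mul_le_mul_of_nonneg_left h1 p2.le
  have h9 := mul_nonneg (p1.trans p3).le h5
  have h10 := mul_nonneg (p1.trans p3).le (p1.le.trans e1)
  linarith

theorem clb_card (Y : Cl) (p : ℕ) {u : ℕ} (hu : u ≤ Y.m) :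
    (u : ℝ) ≤ (Y.arc Y.Z p u).card + (Y.arc Y.low p u).card := by
  have h := Y.card_arc_eq p hu
  have h2 : Y.D.filter (fun b => (Y.η b + p) % Y.m < u) ⊆ Y.arc Y.Z p u ∪ Y.arc Y.low p u := by
    intro b hb
    rw [mem_filter] at hb
    rw [mem_union, arc, arc, mem_filter, mem_filter, Ap.Z, mem_filter, Y.mem_low]
    rcases lt_or_ge (Y.η b) Y.m with h | h
    · exact Or.inl ⟨⟨hb.1, h⟩, hb.2⟩
    · exact Or.inr ⟨⟨hb.1, h⟩, hb.2⟩
  have h3 := (card_le_card h2).trans (card_union_le _ _)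
  rw [h] at h3
  exact_mod_cast h3

theorem clb_sum (Y : Cl) (p u : ℕ) :
    (Y.arc Y.Z p u).card * (Y.l * Y.gm - Y.m) ≤
      ∑ b ∈ Y.arc Y.Z p u, (wt (Y.G \ Y.C) b : ℝ) + (∑ b ∈ Y.arc Y.Z p u, (ct Y.C b : ℝ)) * Y.gm +
      ∑ b ∈ Y.arc Y.Z p u, ∑ h ∈ Y.C, (b.count h : ℝ) * ((h : ℝ) - Y.gm) := by
  rw [sum_mul, ← sum_add_distrib, ← sum_add_distrib, ← nsmul_eq_mul, ← sum_const]
  refine sum_le_sum fun b hb => ?_
  obtain ⟨h1, h2, -⟩ := Y.clb_mem hb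
  have h3 := Y.wt_eq h1
  have h4 : (Y.η b : ℝ) < Y.m := by exact_mod_cast h2
  have h5 := Y.eqs.1
  linarith

theorem FW : ∃ K : ℝ, 0 < K ∧ ∀ Y : Cl, Y.Sm → ∀ p u : ℕ,
    ∑ b ∈ Y.arc Y.Z p u, (wt (Y.G \ Y.C) b : ℝ) ≤ K * Y.eB * Y.gm * (Y.l * u + Y.E) := by
  refine ⟨400, by norm_num, fun Y hS p u => ?_⟩
  have p2 := Y.pos.2.1
  refine le_of_mul_le_mul_left ?_ p2
  have e : ∑ b ∈ Y.arc Y.Z p u, (wt (Y.G \ Y.C) b : ℝ) =
      ∑ g ∈ Y.G \ Y.C, ∑ b ∈ Y.arc Y.Z p u, (uu g b : ℝ) := by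
    rw [sum_comm]
    refine sum_congr rfl fun b _ => ?_
    rw [wt, Nat.cast_sum]
    rfl
  rw [e, mul_sum]
  refine (sum_le_sum fun g hg => Y.clb_one hS (Y.hG g (mem_sdiff.1 hg).1) p u).trans ?_
  rw [sum_const, nsmul_eq_mul, ← Y.eqs.2.2.2.1]
  exact le_of_eq (by ring)

theorem LC : ∃ K : ℝ, 0 < K ∧ ∀ Y : Cl, Y.Sm → ∀ p u : ℕ, u ≤ Y.m →
    u * Y.l - K * Y.eB * (u * Y.l) - K * Y.E ≤ ∑ b ∈ Y.arc Y.Z p u, (ct Y.C b : ℝ) := by
  obtain ⟨K, hK, H⟩ := FW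
  refine ⟨K + 16, by positivity, fun Y hS p u hu => ?_⟩
  obtain ⟨p1, p2, p3, p4, -, -, -, p5, p6, p7, -, p8⟩ := Y.pos
  obtain ⟨e1, e2, e3, -⟩ := Y.E_ge
  have g0 : (0 : ℝ) < Y.gm := p1.trans p3
  have h1 := H Y hS p u
  have h2 := Y.clb_sum p u
  have h3 : ∑ b ∈ Y.arc Y.Z p u, ∑ h ∈ Y.C, (b.count h : ℝ) * ((h : ℝ) - Y.gm) ≤
      4 * (Y.s * Y.l) * Y.m := by
    refine le_trans ?_ Y.dev_le
    rw [sum_comm]
    refine sum_le_sum fun h _ => ?_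
    rw [Ap.AA, Nat.cast_sum, mul_sum]
    refine le_trans (sum_le_sum fun b _ => ?_) (sum_le_sum_of_subset_of_nonneg
      (fun b hb => (Y.clb_mem hb).1) fun b _ _ => by positivity)
    rw [mul_comm]
    exact mul_le_mul_of_nonneg_right (le_abs_self _) (Nat.cast_nonneg _)
  have h4 := Y.clb_card p hu
  have h5 : ((Y.arc Y.low p u).card : ℝ) ≤ Y.low.card := by
    exact_mod_cast card_filter_le _ _
  have h6 := Y.l_low hS
  have hu' : (u : ℝ) ≤ Y.m := by exact_mod_cast hu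
  have h7 : 0 ≤ Y.l * Y.gm - Y.m := by nlinarith
  have h8 : ((u : ℝ) - Y.low.card) * (Y.l * Y.gm - Y.m) ≤
      (Y.arc Y.Z p u).card * (Y.l * Y.gm - Y.m) := mul_le_mul_of_nonneg_right (by linarith) h7
  have h9 : (u : ℝ) * Y.m ≤ Y.E * Y.gm :=
    mul_le_mul (hu'.trans e1) p3.le p1.le (p1.le.trans e1)
  have h10 := mul_le_mul_of_nonneg_right (h6.trans (by linarith : 11 * Y.Gc ≤ 11 * Y.E)) g0.le
  have h11 : (0 : ℝ) ≤ Y.low.card * Y.m := by positivity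
  have h12 : Y.s * Y.l * Y.m ≤ Y.E * Y.gm := mul_le_mul e3 p3.le p1.le (p1.le.trans e1)
  have h13 : K * Y.eB * (Y.E * Y.gm) ≤ K * (Y.E * Y.gm) :=
    mul_le_mul_of_nonneg_right (mul_le_of_le_one_right hK.le (by linarith))
      (mul_nonneg (p1.le.trans e1) g0.le)
  have h14 : 0 ≤ Y.eB * (u * Y.l) * Y.gm := by
    have : 0 ≤ Y.l := by linarith
    positivity
  refine le_of_mul_le_mul_right ?_ g0
  linarith

theorem LC' : ∃ K : ℝ, 0 < K ∧ ∀ Y : Cl, Y.Sm → ∀ p u : ℕ, u ≤ 10 * Y.w →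
    9 / 10 * (u * Y.l) - K * Y.eB * (u * Y.l) - K * Y.Es ≤
      ∑ b ∈ Y.arc Y.Z p u, (ct Y.C b : ℝ) := by
  obtain ⟨K, hK, H⟩ := FW
  refine ⟨K + 200, by positivity, fun Y hS p u hu => ?_⟩
  obtain ⟨p1, p2, p3, p4, -, -, -, p5, p6, p7, -, p8⟩ := Y.pos
  obtain ⟨e1, e2, e3, -, -, -, -, e4, -⟩ := Y.E_ge
  have g0 : (0 : ℝ) < Y.gm := p1.trans p3
  have w0 : (0 : ℝ) ≤ Y.w := Nat.cast_nonneg _
  have l0 : 0 ≤ Y.l := by linarith
  have E0 : 0 ≤ Y.E := p1.le.trans e1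
  have hw : (1000 : ℝ) * Y.w ≤ Y.m := by exact_mod_cast Y.hw
  have h1 := H Y hS p u
  have h2 := Y.clb_sum p u
  have h3 : ∑ b ∈ Y.arc Y.Z p u, ∑ h ∈ Y.C, (b.count h : ℝ) * ((h : ℝ) - Y.gm) ≤
      (∑ b ∈ Y.arc Y.Z p u, (ct Y.C b : ℝ)) * Y.w := by
    rw [sum_mul]
    refine sum_le_sum fun b _ => ?_
    rw [ct, Nat.cast_sum, sum_mul]
    exact sum_le_sum fun h hh => mul_le_mul_of_nonneg_left
      ((le_abs_self _).trans (Y.mem_C hh).2.2.2) (Nat.cast_nonneg _)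
  have h4 := Y.clb_card p (u := u) (by have := Y.hw; omega)
  have h5 := Y.MU hS p hu
  have h6 : 9 / 10 * Y.l * (Y.gm + Y.w) ≤ Y.l * Y.gm - Y.m := by
    have a1 := mul_le_mul_of_nonneg_left (hw.trans p3.le) l0
    have a2 := mul_le_mul_of_nonneg_right p4 g0.le
    linarith
  have h7 := mul_le_mul_of_nonneg_left h6 (Nat.cast_nonneg (α := ℝ) (Y.arc Y.Z p u).card)
  have h8 : 0 ≤ K * Y.eB * (Y.l * u + Y.E) := by positivity
  have h9 := mul_nonneg h8 w0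
  have h10 : 9 / 10 * Y.l * (Y.arc Y.Z p u).card - K * Y.eB * (Y.l * u + Y.E) ≤
      ∑ b ∈ Y.arc Y.Z p u, (ct Y.C b : ℝ) := by
    refine le_of_mul_le_mul_right ?_ (by linarith : (0 : ℝ) < Y.gm + Y.w)
    linarith
  have h11 := mul_le_mul_of_nonneg_left h4 l0
  have h12 := mul_le_mul_of_nonneg_left e4 hK.le
  have h13 : 0 ≤ Y.eB * (u * Y.l) := by positivity
  have h14 : 0 ≤ Y.l * (Y.arc Y.low p u).card := by positivity
  linarith

end Cl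

end Pool.Agent.Lib.MP_299528_co.Bd
end

-- part Pool.Agent.Lib.MP_299528_co.W.ClC
section

/-! Clusters: equidistribution of the low elements. -/

set_option autoImplicit false

namespace Pool.Agent.Lib.MP_299528_co.Bd

open Finset

theorem clc_mod {m : ℕ} (x : ℕ) {z : ℕ} (hz : z ≤ m) (hm : 0 < m) :
    (x + z) % m = x % m + z ∨ (x + z) % m + m = x % m + z := by
  have h1 := div_step x hz hm
  have h2 := Nat.div_add_mod (x + z) m
  have h3 := Nat.div_add_mod x m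
  split_ifs at h1 <;> rw [h1] at h2
  · right
    rw [mul_add] at h2
    omega
  · left
    rw [add_zero] at h2
    omega

theorem clc_shift {m : ℕ} (hm : 0 < m) {x y u : ℕ} (j : ℕ) (h1 : y + j * m ≤ x)
    (h2 : x < y + j * m + u) : (x + (m - 1) * y) % m < u := by
  obtain ⟨r, rfl⟩ := Nat.exists_eq_add_of_le h1
  obtain ⟨m, rfl⟩ : ∃ n, m = n + 1 := ⟨m - 1, by omega⟩
  rw [Nat.add_sub_cancel, show y + j * (m + 1) + r + m * y = r + (m + 1) * (y + j) by ring,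
    Nat.add_mul_mod_self_left]
  exact (Nat.mod_le _ _).trans_lt (by omega)

theorem clc_dist (h g : ℕ) : ((h - g + (g - h) : ℕ) : ℝ) = |(h : ℝ) - g| := by
  rcases le_total h g with k | k
  · rw [Nat.sub_eq_zero_of_le k, zero_add, Nat.cast_sub k,
      abs_of_nonpos (sub_nonpos.2 (Nat.cast_le.2 k)), neg_sub]
  · rw [Nat.sub_eq_zero_of_le k, add_zero, Nat.cast_sub k,
      abs_of_nonneg (sub_nonneg.2 (Nat.cast_le.2 k))]

theorem clc_abel (c f : ℕ → ℝ) {y₁ y₂ : ℕ} (h : y₁ ≤ y₂) {ε M : ℝ} (hM : 0 ≤ M)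
    (hS : ∀ y, y₁ ≤ y → y ≤ y₂ → |∑ x ∈ Ico y₁ y, c x| ≤ ε)
    (h1 : ∀ x y, y₁ ≤ x → x ≤ y → y < y₂ → f x ≤ f y) (h2 : ∀ x, y₁ ≤ x → x < y₂ → |f x| ≤ M) :
    |∑ x ∈ Ico y₁ y₂, c x * f x| ≤ 3 * M * ε := by
  have h0 : 0 ≤ ε := (abs_nonneg _).trans (hS y₁ le_rfl h)
  have key : ∀ y, y₁ ≤ y → y < y₂ → |∑ x ∈ Ico y₁ y, c x * f x - f y * ∑ x ∈ Ico y₁ y, c x| ≤
      (f y - f y₁) * ε := fun y hy => by
    induction y, hy using Nat.le_induction with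
    | base => simp
    | succ y hy ih =>
      intro k
      have a1 := ih (by omega)
      have a2 := hS (y + 1) (by omega) k.le
      have a3 := sub_nonneg.2 (h1 y (y + 1) hy y.le_succ k)
      have a4 := mul_le_mul_of_nonneg_left a2 a3
      rw [← abs_of_nonneg a3, ← abs_mul, abs_of_nonneg a3] at a4
      rw [sum_Ico_succ_top hy] at a4
      rw [sum_Ico_succ_top hy, sum_Ico_succ_top hy]
      rw [abs_le] at a1 a4 ⊢
      constructor <;> linarith [a1.1, a1.2, a4.1, a4.2]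
  rcases h.eq_or_lt with rfl | k
  · rw [Ico_self, sum_empty, abs_zero]
    positivity
  obtain ⟨y, rfl⟩ : ∃ y, y₂ = y + 1 := ⟨y₂ - 1, by omega⟩
  have hy : y₁ ≤ y := by omega
  have a1 := key y hy y.lt_succ_self
  have a2 := mul_le_mul (h2 y hy y.lt_succ_self) (hS (y + 1) h le_rfl) (abs_nonneg _) hM
  have a3 := mul_le_mul_of_nonneg_right (abs_le.1 (h2 y hy y.lt_succ_self)).2 h0
  have a4 := mul_le_mul_of_nonneg_right (abs_le.1 (h2 y₁ le_rfl k)).1 h0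
  rw [← abs_mul, sum_Ico_succ_top hy] at a2
  rw [sum_Ico_succ_top hy]
  rw [abs_le] at a1 a2 ⊢
  constructor <;> linarith [a1.1, a1.2, a2.1, a2.2]

namespace Cl

theorem clc_low (Y : Cl) : Y.low ⊆ Y.D := filter_subset _ _

theorem clc_cross (Y : Cl) (p : ℕ → ℕ) :
    ∑ h ∈ Y.C, ((Y.arc Y.low (p h) (h - Y.gm + (Y.gm - h))).card : ℝ) ≤ 22 * Y.E := by
  obtain ⟨-, k0, -⟩ := Y.pos
  obtain ⟨-, -, -, -, e5, -⟩ := Y.eqs
  obtain ⟨-, b2, b3, -⟩ := Y.E_ge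
  refine le_of_mul_le_mul_left ?_ k0
  have h1 := sum_le_sum fun h (_ : h ∈ Y.C) =>
    Y.CD (P := Y.low) Subset.rfl (p h) (h - Y.gm + (Y.gm - h))
  simp only [clc_dist, sum_add_distrib, ← mul_sum, sum_const, nsmul_eq_mul] at h1
  rw [← e5, ← kc] at h1
  have h2 := mul_le_mul_of_nonneg_left (Y.UP_low.trans b2) k0.le
  have h3 := mul_le_mul_of_nonneg_left b3 k0.le
  linarith

theorem clc_ct (Y : Cl) {B : Finset (Multiset ℕ)} (hB : B ⊆ Y.D) :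
    ∑ b ∈ B, (ct Y.C b : ℝ) ≤ Y.l * B.card + 4 * Y.E := by
  obtain ⟨m0, -, k1, k2, -, -, -, -, -, k3, -⟩ := Y.pos
  obtain ⟨e1, -⟩ := Y.eqs
  obtain ⟨-, -, b3, -⟩ := Y.E_ge
  refine le_of_mul_le_mul_right ?_ (m0.trans k1)
  have h1 : ∀ b ∈ B, (ct Y.C b : ℝ) * Y.gm ≤
      Y.T + ∑ h ∈ Y.C, |(h : ℝ) - Y.gm| * (b.count h : ℝ) := fun b hb => by
    have a1 := Y.wt_eq (hB hb)
    have a2 : ∑ h ∈ Y.C, -((b.count h : ℝ) * ((h : ℝ) - Y.gm)) ≤
        ∑ h ∈ Y.C, |(h : ℝ) - Y.gm| * (b.count h : ℝ) := sum_le_sum fun h _ => by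
      rw [← mul_neg, mul_comm]
      exact mul_le_mul_of_nonneg_right (neg_le_abs _) (Nat.cast_nonneg _)
    rw [sum_neg_distrib] at a2
    have a3 : (0 : ℝ) ≤ Y.η b := Nat.cast_nonneg _
    have a4 : (0 : ℝ) ≤ wt (Y.G \ Y.C) b := Nat.cast_nonneg _
    linarith
  have h2 := sum_le_sum h1
  rw [← sum_mul, sum_add_distrib, sum_const, nsmul_eq_mul, sum_comm, ← e1] at h2
  have h3 : ∑ h ∈ Y.C, ∑ b ∈ B, |(h : ℝ) - Y.gm| * (b.count h : ℝ) ≤
      ∑ h ∈ Y.C, |(h : ℝ) - Y.gm| * Y.AA h := sum_le_sum fun h _ => by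
    rw [← mul_sum, Ap.AA, Nat.cast_sum]
    exact mul_le_mul_of_nonneg_left (sum_le_sum_of_subset_of_nonneg hB fun _ _ _ =>
      Nat.cast_nonneg _) (abs_nonneg _)
  have h4 := Y.dev_le
  have h5 := mul_le_mul b3 k1.le m0.le ((mul_nonneg k3 (by linarith)).trans b3)
  linarith

theorem UD : ∃ K : ℝ, 0 < K ∧ ∀ Y : Cl, Y.Sm → ∀ p u : ℕ,
    Y.kc * (Y.arc Y.low p u).card ≤ Y.l * u + K * Y.E := by
  refine ⟨27, by norm_num, fun Y _ p u => ?_⟩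
  obtain ⟨-, -, -, k2, -⟩ := Y.pos
  obtain ⟨-, b2, -⟩ := Y.E_ge
  have hP : Y.arc Y.low p u ⊆ Y.low := filter_subset _ _
  have h1 := Y.card_pairs Y.C (hP.trans Y.clc_low) fun _ => 1
  have h2 : ∑ h ∈ Y.C, ∑ a ∈ Y.arc Y.low p u ∩ Y.Un h, (1 : ℝ) ≤ Y.UP (Y.arc Y.low p u) :=
    sum_le_sum fun h _ => sum_le_sum fun a _ => le_add_of_nonneg_left (Nat.cast_nonneg _)
  have h3 := (Y.UP_mono hP).2.trans (Y.UP_low.trans b2)
  have h4 := Y.clc_cross fun h => if h ≤ Y.gm then p + (Y.gm - h) + (Y.m - u) else p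
  have hQ : Y.arc Y.D (Y.gm + p) u ⊆ Y.D := filter_subset _ _
  have h5 := Y.clc_ct hQ
  have h6 : Y.l * (Y.arc Y.D (Y.gm + p) u).card ≤ Y.l * u :=
    mul_le_mul_of_nonneg_left (Nat.cast_le.2 (Y.card_arc_le _ _)) (by linarith)
  have h7 : ∑ h ∈ Y.C, ∑ a ∈ Y.arc Y.low p u ∩ Y.Us h, (1 : ℝ) ≤
      ∑ h ∈ Y.C, (∑ b ∈ Y.arc Y.D (Y.gm + p) u, (b.count h : ℝ) + ((Y.arc Y.low
        (if h ≤ Y.gm then p + (Y.gm - h) + (Y.m - u) else p) (h - Y.gm + (Y.gm - h))).card : ℝ)) := by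
    refine sum_le_sum fun h hh => ?_
    obtain ⟨-, c1, c2, -⟩ := Y.mem_C hh
    have c3 := Y.hw
    rw [sum_const, nsmul_one]
    have a1 : (((Y.Us h).filter fun a => h ::ₘ a ∈ Y.arc Y.D (Y.gm + p) u).card : ℝ) ≤
        ∑ b ∈ Y.arc Y.D (Y.gm + p) u, (b.count h : ℝ) := by
      rw [card_filter, Nat.cast_sum, ← Y.sum_pair h fun b =>
        ((if b ∈ Y.arc Y.D (Y.gm + p) u then 1 else 0 : ℕ) : ℝ), sum_filter]
      refine (sum_le_sum fun b _ => ?_).trans_eq ((sum_ite_mem Y.D (Y.arc Y.D (Y.gm + p) u)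
        fun b => (b.count h : ℝ)).trans (by rw [inter_eq_right.2 hQ]))
      split_ifs with d1 d2 d3
      · exact Nat.cast_le.2 (Multiset.one_le_count_iff_mem.2 d1)
      · exact Nat.cast_zero.le
      · exact Nat.cast_nonneg _
      · exact le_rfl
    refine le_trans ?_ (add_le_add a1 le_rfl)
    rw [← Nat.cast_add, Nat.cast_le]
    refine (card_le_card fun a ha => ?_).trans (card_union_le _ _)
    obtain ⟨a2, a3⟩ := mem_inter.1 ha
    obtain ⟨a4, a5⟩ := mem_filter.1 a2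
    have a6 := (mem_filter.1 a3).2
    have a7 := (Y.of_cons a6).2.2
    refine mem_union.2 (or_iff_not_imp_left.2 fun d => mem_filter.2 ⟨a4, ?_⟩)
    have a8 : u ≤ (Y.η (h ::ₘ a) + (Y.gm + p)) % Y.m :=
      not_lt.1 fun k => d (mem_filter.2 ⟨a3, mem_filter.2 ⟨a6, k⟩⟩)
    split_ifs with d1
    · rw [show Y.η (h ::ₘ a) + (Y.gm + p) = Y.η a + p + (Y.gm - h) by omega] at a8
      have a9 := clc_mod (Y.η a + p) (z := Y.gm - h) (by omega) Y.hm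
      have a10 := clc_mod (Y.η a + p + (Y.gm - h)) (Nat.sub_le Y.m u) Y.hm
      have a11 := Nat.mod_lt (Y.η a + p + (Y.gm - h) + (Y.m - u)) Y.hm
      have a12 := Nat.mod_lt (Y.η a + p + (Y.gm - h)) Y.hm
      rw [← add_assoc, ← add_assoc]
      omega
    · have a9 := clc_mod (Y.η (h ::ₘ a) + (Y.gm + p)) (z := h - Y.gm) (by omega) Y.hm
      have a10 := Nat.mod_lt (Y.η (h ::ₘ a) + (Y.gm + p)) Y.hm
      rw [show Y.η (h ::ₘ a) + (Y.gm + p) + (h - Y.gm) = Y.η a + p by omega] at a9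
      omega
  rw [sum_add_distrib, sum_comm] at h7
  simp only [ct, Nat.cast_sum] at h5
  rw [sum_const, nsmul_one, ← kc] at h1
  linarith

theorem TL : ∃ K : ℝ, 0 < K ∧ ∀ Y : Cl, Y.Sm →
    Y.l * Y.m - K * Y.Err ≤ Y.kc * (Y.itv Y.gm (Y.gm + Y.m)).card := by
  obtain ⟨K, K0, hK⟩ := LC
  refine ⟨K + 44, by linarith, fun Y hS => ?_⟩
  obtain ⟨m0, -, -, k2, -, -, -, k3, -⟩ := Y.pos
  obtain ⟨-, b2, -⟩ := Y.E_ge
  have h1 := hK Y hS 0 Y.m le_rfl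
  have h2 := Y.clc_cross fun h => (Y.m - 1) * min h Y.gm
  have h3 := Y.l_low hS
  have h4 : ∑ a ∈ Y.low, (ct Y.C a : ℝ) ≤ Y.low.card * (2 * Y.l) := by
    rw [← nsmul_eq_mul]
    exact sum_le_card_nsmul _ _ _ fun a ha => Y.ct_le Subset.rfl (Y.clc_low ha)
  have h5 : ∑ h ∈ Y.C, ∑ b ∈ Y.arc Y.Z 0 Y.m, (b.count h : ℝ) ≤ ∑ h ∈ Y.C,
      (((Y.itv Y.gm (Y.gm + Y.m)).card : ℝ) + (Y.arc Y.low ((Y.m - 1) * min h Y.gm)
        (h - Y.gm + (Y.gm - h))).card + ∑ a ∈ Y.low, (a.count h : ℝ)) := by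
    refine sum_le_sum fun h _ => (Y.count_le h ((filter_subset _ _).trans (filter_subset _ _))
      (P := Y.low.filter fun a => h ≤ Y.η a ∧ Y.η a < h + Y.m) fun a ha => ?_).trans
        (add_le_add ?_ (sum_le_sum_of_subset_of_nonneg (filter_subset _ _) fun _ _ _ =>
          Nat.cast_nonneg _))
    · obtain ⟨a1, a2⟩ := mem_filter.1 (mem_filter.1 ha).1
      obtain ⟨a3, -, a4⟩ := Y.of_cons a1
      exact mem_filter.2 ⟨Y.Us_sub (mem_filter.2 ⟨a3, a1⟩), by omega, by omega⟩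
    · rw [← Nat.cast_add, Nat.cast_le]
      refine (card_le_card fun a ha => ?_).trans (card_union_le _ _)
      obtain ⟨a1, a2, a3⟩ := mem_filter.1 ha
      refine mem_union.2 (or_iff_not_imp_left.2 fun d => mem_filter.2 ⟨a1, ?_⟩)
      have a4 : ¬ (Y.gm ≤ Y.η a ∧ Y.η a < Y.gm + Y.m) :=
        fun k => d (mem_filter.2 ⟨Y.clc_low a1, k⟩)
      by_cases d1 : Y.η a < Y.gm
      · exact clc_shift Y.hm 0 (by omega) (by omega)
      · exact clc_shift Y.hm 1 (by omega) (by omega)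
  rw [sum_add_distrib, sum_add_distrib, sum_const, nsmul_eq_mul, ← kc, sum_comm,
    sum_comm (s := Y.C) (t := Y.low)] at h5
  simp only [ct, Nat.cast_sum] at h1 h4
  have h6 : 0 ≤ Y.eB * Y.l * Y.m := by
    have : 0 ≤ Y.l := by linarith
    positivity
  rw [Err]
  linarith

theorem odd_le : ∃ K : ℝ, 0 < K ∧ ∀ Y : Cl, Y.Sm →
    Y.kc * Y.odd.card ≤ K * Y.Err ∧
      Y.kc * ∑ a ∈ Y.odd, (Y.η a : ℝ) ≤ K * Y.gm * Y.Err := by
  obtain ⟨K, K0, hK⟩ := UD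
  obtain ⟨L, L0, hL⟩ := TL
  refine ⟨3 * (K + L) + 300, by linarith, fun Y hS => ?_⟩
  obtain ⟨m0, k0, k1, -⟩ := Y.pos
  obtain ⟨b1, -, -, -, -, -, -, -, b9⟩ := Y.E_ge
  have h1 := hK Y hS 0 Y.m
  have h2 := hL Y hS
  have h3 : (Y.itv Y.gm (Y.gm + Y.m)).card + Y.odd.card ≤ (Y.arc Y.low 0 Y.m).card := by
    rw [← card_union_of_disjoint (disjoint_left.2 fun a a1 a2 => by
      have := (mem_filter.1 a1).2
      have := (mem_filter.1 a2).2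
      omega)]
    refine card_le_card fun a ha => mem_filter.2 ⟨?_, Nat.mod_lt _ Y.hm⟩
    rcases mem_union.1 ha with a1 | a1
    · exact Y.mem_low.2 ⟨(mem_filter.1 a1).1, Y.hgm.le.trans (mem_filter.1 a1).2.1⟩
    · exact (mem_filter.1 a1).1
  have h4 := mul_le_mul_of_nonneg_left (Nat.cast_le (α := ℝ).2 h3) k0.le
  have h5 := mul_le_mul_of_nonneg_left b9 K0.le
  have e0 : 0 ≤ Y.Err := by linarith
  have h6 : Y.kc * Y.odd.card ≤ (K + L) * Y.Err := by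
    rw [Nat.cast_add] at h4
    linarith
  have h7 := mul_nonneg (add_pos K0 L0).le e0
  refine ⟨by linarith, ?_⟩
  have h8 : ∑ a ∈ Y.odd, (Y.η a : ℝ) ≤ Y.odd.card * (3 * Y.gm) +
      ∑ a ∈ Y.D.filter (fun a => Y.gm + Y.m + Y.w ≤ Y.η a), (Y.η a : ℝ) := by
    rw [← sum_filter_add_sum_filter_not Y.odd fun a => Y.η a < Y.gm + Y.m + Y.w]
    refine add_le_add ((sum_le_card_nsmul _ _ (3 * Y.gm : ℝ) fun a ha => ?_).trans ?_)
      (sum_le_sum_of_subset_of_nonneg (fun a ha => ?_) fun _ _ _ => Nat.cast_nonneg _)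
    · have a1 := (mem_filter.1 ha).2
      have a2 := Y.hgm
      have a3 := Y.hw
      exact_mod_cast (by omega : Y.η a ≤ 3 * Y.gm)
    · rw [nsmul_eq_mul]
      exact mul_le_mul_of_nonneg_right (Nat.cast_le.2 (card_filter_le _ _)) (by positivity)
    · exact mem_filter.2 ⟨Y.clc_low (mem_filter.1 (mem_filter.1 ha).1).1,
        not_lt.1 (mem_filter.1 ha).2⟩
  have h9 := mul_le_mul_of_nonneg_left h8 k0.le
  have h10 := Y.deeper hS
  have h11 := mul_le_mul_of_nonneg_left h6 (m0.trans k1).le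
  have h12 := mul_le_mul_of_nonneg_left b9 (m0.trans k1).le
  linarith

theorem HL : ∃ K : ℝ, 0 < K ∧ ∀ Y : Cl, Y.Sm → ∀ y₁ y₂ : ℕ, Y.gm ≤ y₁ → y₁ ≤ y₂ →
    y₂ ≤ Y.gm + Y.m →
    |Y.kc * (Y.itv y₁ y₂).card - Y.l * ((y₂ : ℝ) - y₁)| ≤ K * Y.Err := by
  obtain ⟨K, K0, hK⟩ := UD
  obtain ⟨L, L0, hL⟩ := TL
  refine ⟨2 * K + L, by linarith, fun Y hS y₁ y₂ c1 c2 c3 => ?_⟩
  obtain ⟨m0, k0, -⟩ := Y.pos
  obtain ⟨b1, -, -, -, -, -, -, -, b9⟩ := Y.E_ge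
  have e0 : 0 ≤ Y.Err := by linarith
  have h1 : ∀ x y, Y.gm ≤ x → x ≤ y →
      Y.kc * (Y.itv x y).card ≤ Y.l * ((y : ℝ) - x) + K * Y.Err := fun x y d1 d2 => by
    have a1 := hK Y hS ((Y.m - 1) * x) (y - x)
    have a2 : (Y.itv x y).card ≤ (Y.arc Y.low ((Y.m - 1) * x) (y - x)).card :=
      card_le_card fun a ha => by
        obtain ⟨a3, a4, a5⟩ := mem_filter.1 ha
        exact mem_filter.2 ⟨Y.mem_low.2 ⟨a3, Y.hgm.le.trans (d1.trans a4)⟩,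
          clc_shift Y.hm 0 (by omega) (by omega)⟩
    have a3 := mul_le_mul_of_nonneg_left (Nat.cast_le (α := ℝ).2 a2) k0.le
    have a4 := mul_le_mul_of_nonneg_left b9 K0.le
    rw [Nat.cast_sub d2] at a1
    linarith
  have h2 : (Y.itv Y.gm (Y.gm + Y.m)).card ≤
      (Y.itv Y.gm y₁).card + (Y.itv y₁ y₂).card + (Y.itv y₂ (Y.gm + Y.m)).card := by
    refine (card_le_card fun a ha => ?_).trans
      ((card_union_le _ _).trans (Nat.add_le_add_right (card_union_le _ _) _))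
    simp only [itv, mem_union, mem_filter] at ha ⊢
    simp only [ha.1, true_and]
    omega
  have h3 := mul_le_mul_of_nonneg_left (Nat.cast_le (α := ℝ).2 h2) k0.le
  have h4 := h1 _ _ le_rfl c1
  have h5 := h1 _ _ c1 c2
  have h6 := h1 _ _ (c1.trans c2) c3
  have h7 := hL Y hS
  have h8 := mul_nonneg K0.le e0
  have h9 := mul_nonneg L0.le e0
  push_cast at h3 h6
  rw [abs_le]
  constructor <;> linarith

theorem abel : ∃ K : ℝ, 0 < K ∧ ∀ Y : Cl, Y.Sm → ∀ y₁ y₂ : ℕ, Y.gm ≤ y₁ → y₁ ≤ y₂ →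
    y₂ ≤ Y.gm + Y.m → ∀ (f : ℕ → ℝ) (M : ℝ), 0 ≤ M →
    (∀ x y, y₁ ≤ x → x ≤ y → y < y₂ → f x ≤ f y) → (∀ x, y₁ ≤ x → x < y₂ → |f x| ≤ M) →
    |Y.kc * ∑ a ∈ Y.itv y₁ y₂, f (Y.η a) - Y.l * ∑ x ∈ Ico y₁ y₂, f x| ≤ K * M * Y.Err := by
  obtain ⟨K, K0, hK⟩ := HL
  refine ⟨3 * K, by linarith, fun Y hS y₁ y₂ c1 c2 c3 f M hM h1 h2 => ?_⟩
  have key : ∀ (y : ℕ) (g : ℕ → ℝ), Y.kc * ∑ a ∈ Y.itv y₁ y, g (Y.η a) - Y.l * ∑ x ∈ Ico y₁ y, g x =
      ∑ x ∈ Ico y₁ y, (Y.kc * (∑ a ∈ Y.D, if Y.η a = x then 1 else 0) - Y.l) * g x :=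
    fun y g => by
      simp only [sub_mul, sum_sub_distrib, mul_assoc, ← mul_sum, sum_mul, ite_mul, one_mul,
        zero_mul]
      rw [sum_comm, itv, sum_filter]
      simp only [sum_ite_eq, mem_Ico]
  rw [key]
  refine (clc_abel _ f c2 hM (ε := K * Y.Err) (fun y d1 d2 => ?_) h1 h2).trans_eq (by ring)
  have a1 := key y fun _ => 1
  simp only [mul_one, sum_const, nsmul_one, Nat.card_Ico, Nat.cast_sub d1] at a1
  rw [← a1]
  exact hK Y hS y₁ y c1 d1 (d2.trans c3)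

end Cl

end Pool.Agent.Lib.MP_299528_co.Bd
end

-- part Pool.Agent.Lib.MP_299528_co.W.FTa
section

/-! Far letters: reduction to the typical level. -/

set_option autoImplicit false

namespace Pool.Agent.Lib.MP_299528_co.Bd

open Finset

theorem fta_sum_div {m : ℕ} (hm : 0 < m) (h : ℕ) : ∑ r ∈ range m, (r + h) / m = h := by
  induction h with
  | zero => exact sum_eq_zero fun r hr => Nat.div_eq_of_lt (by simpa using hr)
  | succ h ih =>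
    have h1 := sum_range_succ (fun r => (r + h) / m) m
    have h2 := sum_range_succ' (fun r => (r + h) / m) m
    simp only [zero_add, Nat.add_div_left h hm, ih] at h1 h2
    simp only [← add_assoc, add_right_comm _ h 1]
    omega

theorem fta_bot_cons (g : ℕ) (a : Multiset ℕ) : bot g (g ::ₘ a) = bot g a :=
  Multiset.filter_cons_of_neg _ (by simp)

namespace Cl

theorem HH_bounds (Y : Cl) {r : ℕ} (hr : r < Y.m) :
    1 ≤ Y.HH r ∧ Y.gb / Y.m - 1 ≤ Y.HH r ∧ Y.HH r ≤ Y.gb / Y.m + 1 := by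
  obtain ⟨hm, hk, -⟩ := Y.pos
  have e : ∀ x : ℝ, Y.gb / Y.m + x = (∑ h ∈ Y.C, ((h : ℝ) / Y.m + x)) / Y.kc := fun x => by
    rw [sum_add_distrib, ← sum_div, sum_const, nsmul_eq_mul, gb]
    change _ = (_ + Y.kc * x) / Y.kc
    field_simp
  refine ⟨?_, ?_, ?_⟩
  · rw [HH, one_le_div hk, kc, card_eq_sum_ones, Nat.cast_sum]
    exact sum_le_sum fun h hh => Nat.cast_le.mpr
      ((Nat.le_div_iff_mul_le Y.hm).mpr (by have := (Y.mem_C hh).1; omega))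
  · rw [sub_eq_add_neg, e]
    refine div_le_div_of_nonneg_right (sum_le_sum fun h _ => ?_) hk.le
    have h1 : ((r + h : ℕ) : ℝ) ≤ (((r + h) / Y.m * Y.m + Y.m : ℕ) : ℝ) :=
      Nat.cast_le.mpr (Nat.lt_div_mul_add Y.hm).le
    push_cast at h1
    rw [← sub_eq_add_neg, sub_le_iff_le_add, div_le_iff₀ hm]
    have : (0 : ℝ) ≤ r := Nat.cast_nonneg r
    linarith
  · rw [e]
    refine div_le_div_of_nonneg_right (sum_le_sum fun h _ => Nat.cast_div_le.trans ?_) hk.le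
    have : (r : ℝ) ≤ Y.m := Nat.cast_le.mpr hr.le
    rw [div_add_one hm.ne']
    push_cast
    gcongr ?_ / _
    linarith

theorem HH_mono (Y : Cl) : Monotone Y.HH := fun _ _ h =>
  div_le_div_of_nonneg_right (sum_le_sum fun _ _ => Nat.cast_le.mpr
    (Nat.div_le_div_right (Nat.add_le_add_right h _))) Y.pos.2.1.le

theorem sum_HH (Y : Cl) : ∑ r ∈ range Y.m, Y.HH r = Y.gb := by
  simp only [HH, gb]
  rw [← sum_div, sum_comm]
  simp only [← Nat.cast_sum, fta_sum_div Y.hm]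

theorem fta_nonneg (Y : Cl) (r : ℕ) : 0 ≤ Y.HH r :=
  div_nonneg (sum_nonneg fun _ _ => Nat.cast_nonneg _) Y.pos.2.1.le

/-- The line meets an odd element. -/
def FtaP (Y : Cl) (g : ℕ) (a : Multiset ℕ) : Prop := ∃ a' ∈ Y.odd, bot g a' = bot g a

instance (Y : Cl) (g : ℕ) : DecidablePred (Y.FtaP g) := fun _ => by unfold FtaP; infer_instance

theorem fta_cnt (Y : Cl) {g : ℕ} {a : Multiset ℕ} (ha : a ∈ Y.low) (hP : ¬ Y.FtaP g a) :
    Y.gm ≤ Y.η a ∧ Y.η a < Y.gm + Y.m ∧ g ∉ a := by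
  have h1 : ¬ (Y.η a < Y.gm ∨ Y.gm + Y.m ≤ Y.η a) := fun h => hP ⟨a, mem_filter.mpr ⟨ha, h⟩, rfl⟩
  refine ⟨by omega, by omega, fun hg => ?_⟩
  have hD := (Y.mem_low.mp ha).1
  obtain ⟨-, h2, h3⟩ := Y.of_erase hD hg
  have := Y.hG g (Y.memG a hD g hg)
  refine hP ⟨a.erase g, mem_filter.mpr ⟨h2, .inr (by omega)⟩, ?_⟩
  rw [← fta_bot_cons, Multiset.cons_erase hg]

theorem fta_card (Y : Cl) {g : ℕ} (hg : g ∈ Y.G) (y : ℕ) :
    ((Y.itv y (y + Y.m)).filter (Y.FtaP g)).card ≤ Y.odd.card := by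
  refine le_trans (card_le_card_of_injOn (bot g) (t := Y.odd.image (bot g)) (fun a ha => ?_)
    fun a ha b hb e => eq_of_bot e ?_) card_image_le
  · simpa [FtaP] using (mem_filter.mp ha).2
  · obtain ⟨a1, a2, a3⟩ := mem_filter.mp (mem_filter.mp ha).1
    obtain ⟨b1, b2, b3⟩ := mem_filter.mp (mem_filter.mp hb).1
    have h1 := (Y.bot_mem g a1).2
    have h2 := (Y.bot_mem g b1).2
    have h3 := Y.hG g hg
    rw [e, h2, uu, uu] at h1
    rcases lt_trichotomy (a.count g) (b.count g) with h | h | h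
    · have := Nat.mul_le_mul_right g (Nat.succ_le_of_lt h)
      rw [Nat.succ_mul] at this
      omega
    · exact h
    · have := Nat.mul_le_mul_right g (Nat.succ_le_of_lt h)
      rw [Nat.succ_mul] at this
      omega

theorem fta_od (Y : Cl) {g : ℕ} (hg : g ∈ Y.G) :
    ∑ a ∈ Y.D.filter (Y.FtaP g), (Y.gm + Y.η a) ≤ ∑ a ∈ Y.odd, Y.η a + 6 * Y.gm * Y.odd.card := by
  have hs : Y.D.filter (Y.FtaP g) ⊆ Y.odd ∪ ((Y.itv 0 (0 + Y.m)).filter (Y.FtaP g) ∪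
      (Y.itv Y.gm (Y.gm + Y.m)).filter (Y.FtaP g)) := fun a ha => by
    obtain ⟨h1, h2⟩ := mem_filter.mp ha
    simp only [mem_union, mem_filter, odd, itv, Ap.mem_low, h1, h2, true_and, and_true]
    omega
  have u : ∀ s t : Finset (Multiset ℕ), ∑ a ∈ s ∪ t, (Y.gm + Y.η a) ≤
      ∑ a ∈ s, (Y.gm + Y.η a) + ∑ a ∈ t, (Y.gm + Y.η a) := fun s t => by
    rw [← sum_union_inter]
    exact Nat.le_add_right _ _
  have v : ∀ y, ∑ a ∈ (Y.itv y (y + Y.m)).filter (Y.FtaP g), (Y.gm + Y.η a) ≤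
      (2 * Y.gm + y) * Y.odd.card := fun y => by
    refine (sum_le_card_nsmul _ _ (2 * Y.gm + y) fun a ha => ?_).trans ?_
    · have := (mem_filter.mp (mem_filter.mp ha).1).2
      have := Y.hgm
      omega
    · rw [smul_eq_mul, mul_comm]
      exact Nat.mul_le_mul_left _ (Y.fta_card hg y)
  refine (sum_le_sum_of_subset hs).trans ((u _ _).trans ?_)
  have := (u _ _).trans (add_le_add (v 0) (v Y.gm))
  rw [sum_add_distrib, sum_const, smul_eq_mul]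
  linarith

theorem fta_rf (Y : Cl) (g : ℕ) (f : Multiset ℕ → ℝ) :
    ∑ a ∈ Y.D.filter (Y.FtaP g), f (Y.rf g a) = ∑ a ∈ Y.D.filter (Y.FtaP g), f a := by
  rw [sum_filter, sum_filter, ← Y.sum_rf g fun a => if Y.FtaP g a then f a else 0]
  simp only [FtaP, (Y.bot_rf g _).1]

theorem fta_on (Y : Cl) (g : ℕ) :
    -∑ a ∈ Y.D.filter (Y.FtaP g), (1 + (Y.η a : ℝ) / Y.gb) ≤ ∑ a ∈ Y.D.filter (Y.FtaP g),
      ((Y.δ a : ℝ) - (g : ℝ) / Y.gb * (a.count g * Y.HH (Y.res a))) := by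
  obtain ⟨hm, -⟩ := Y.pos
  have hb : 0 < Y.gb := hm.trans Y.gb_near.2.1
  rw [sum_sub_distrib, ← Y.fta_rf g fun a => Y.δ a, ← sum_sub_distrib,
    ← Y.fta_rf g fun a => 1 + (Y.η a : ℝ) / Y.gb, ← sum_neg_distrib]
  refine sum_le_sum fun a ha => ?_
  have h1 : (uu g a : ℝ) ≤ Y.η (Y.rf g a) := by
    rw [Y.η_rf g (mem_filter.mp ha).1]
    exact Nat.cast_le.mpr (Nat.le_add_left _ _)
  have h2 : (Y.η (Y.rf g a) : ℝ) ≤ Y.m * (Y.δ (Y.rf g a) + 1) := by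
    exact_mod_cast (Y.η_lt _).1.le
  have h3 := (Y.HH_bounds (Nat.mod_lt (Y.η a) Y.hm)).2.2
  have h4 : (g : ℝ) / Y.gb * (a.count g * Y.HH (Y.res a)) ≤ uu g a / Y.m + uu g a / Y.gb := by
    refine (mul_le_mul_of_nonneg_left (mul_le_mul_of_nonneg_left h3 (Nat.cast_nonneg _))
      (by positivity)).trans_eq ?_
    rw [uu]
    push_cast
    field_simp
  have h5 : (uu g a : ℝ) / Y.m ≤ Y.δ (Y.rf g a) + 1 := by
    rw [div_le_iff₀ hm]
    linarith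
  have h6 := div_le_div_of_nonneg_right h1 hb.le
  linarith

theorem fta_off (Y : Cl) (g : ℕ) (τ : ℕ → ℝ)
    (h : ∀ x, Y.gm ≤ x → x < Y.gm + Y.m → τ x ≤ ((x / Y.m : ℕ) : ℝ) ∧
      (g ≤ x → x < g + Y.m → τ x ≤ ((x / Y.m : ℕ) : ℝ) - (g : ℝ) / Y.gb * Y.HH (x - g))) :
    ∑ a ∈ (Y.itv Y.gm (Y.gm + Y.m)).filter (fun a => ¬ Y.FtaP g a), τ (Y.η a) ≤
      ∑ a ∈ Y.D.filter (fun a => ¬ Y.FtaP g a),
        ((Y.δ a : ℝ) - (g : ℝ) / Y.gb * (a.count g * Y.HH (Y.res a))) := by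
  have hb : 0 < Y.gb := Y.pos.1.trans Y.gb_near.2.1
  have h1 : ∑ a ∈ (Y.itv Y.gm (Y.gm + Y.m)).filter (fun a => ¬ Y.FtaP g a), (Y.δ a : ℝ) ≤
      ∑ a ∈ Y.D.filter (fun a => ¬ Y.FtaP g a), (Y.δ a : ℝ) :=
    sum_le_sum_of_subset_of_nonneg (filter_subset_filter _ (filter_subset _ _))
      fun _ _ _ => Nat.cast_nonneg _
  have h2 : ∑ a ∈ Y.D.filter (fun a => ¬ Y.FtaP g a), a.count g * Y.HH (Y.res a) ≤
      ∑ a ∈ (Y.itv Y.gm (Y.gm + Y.m)).filter (fun a => ¬ Y.FtaP g a),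
        if g ≤ Y.η a ∧ Y.η a < g + Y.m then Y.HH (Y.η a - g) else 0 := by
    have h3 := Y.sum_count g fun b => if ¬ Y.FtaP g b then Y.HH (Y.res b) else 0
    simp only [smul_ite, smul_zero, ← sum_filter, nsmul_eq_mul] at h3
    have h4 : ∀ a ∈ (Y.Us g).filter (fun a => ¬ Y.FtaP g (g ::ₘ a)),
        a ∈ (Y.itv Y.gm (Y.gm + Y.m)).filter (fun a => ¬ Y.FtaP g a) ∧ g ∉ a ∧
          Y.η a = Y.η (g ::ₘ a) + g ∧ Y.η (g ::ₘ a) < Y.m := fun a ha => by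
      obtain ⟨a1, a2⟩ := mem_filter.mp ha
      obtain ⟨a3, a4⟩ := mem_filter.mp a1
      have a5 : ¬ Y.FtaP g a := by simpa only [FtaP, fta_bot_cons] using a2
      obtain ⟨a6, a7, a8⟩ := Y.fta_cnt (Y.Us_sub a1) a5
      exact ⟨mem_filter.mpr ⟨mem_filter.mpr ⟨a3, a6, a7⟩, a5⟩, a8, (Y.of_cons a4).2.2,
        not_le.mp fun k => (Y.fta_cnt (Y.mem_low.mpr ⟨a4, k⟩) a2).2.2 (Multiset.mem_cons_self _ _)⟩
    rw [h3]
    refine le_trans (sum_le_sum fun a ha => ?_) (sum_le_sum_of_subset_of_nonneg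
      (fun a ha => (h4 a ha).1) fun a _ _ => ?_)
    · obtain ⟨-, a2, a3, a4⟩ := h4 a ha
      rw [if_pos (by omega), Multiset.count_eq_zero_of_notMem a2, Ap.res, Nat.mod_eq_of_lt a4, a3,
        Nat.add_sub_cancel]
      simp
    · split_ifs
      exacts [Y.fta_nonneg _, le_rfl]
  rw [sum_sub_distrib, ← mul_sum]
  refine le_trans ?_ (sub_le_sub h1 (mul_le_mul_of_nonneg_left h2 (by positivity)))
  rw [mul_sum, ← sum_sub_distrib]
  refine sum_le_sum fun a ha => ?_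
  obtain ⟨-, a2, a3⟩ := mem_filter.mp (mem_filter.mp ha).1
  obtain ⟨b1, b2⟩ := h _ a2 a3
  split_ifs with hc
  · exact b2 hc.1 hc.2
  · rw [mul_zero, sub_zero]
    exact b1

theorem FT_lines : ∃ K : ℝ, 0 < K ∧ ∀ Y : Cl, Y.Sm → ∀ g ∈ Y.G, ∀ (τ : ℕ → ℝ) (M : ℝ), 0 ≤ M →
    (∀ x, Y.gm ≤ x → x < Y.gm + Y.m → τ x ≤ M ∧ τ x ≤ ((x / Y.m : ℕ) : ℝ) ∧
      (g ≤ x → x < g + Y.m → τ x ≤ ((x / Y.m : ℕ) : ℝ) - (g : ℝ) / Y.gb * Y.HH (x - g))) →
    Y.kc * ∑ a ∈ Y.itv Y.gm (Y.gm + Y.m), τ (Y.η a) - K * (M + 1) * Y.Err ≤ Y.kc * Y.Tg g := by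
  obtain ⟨K, hK, H⟩ := odd_le
  refine ⟨14 * K, by positivity, fun Y hS g hg τ M hM h => ?_⟩
  obtain ⟨o1, o2⟩ := H Y hS
  obtain ⟨hm, hk, hgm, -, -, -, -, -, -, -, hs, -⟩ := Y.pos
  obtain ⟨b1, b2, -⟩ := Y.gb_near
  have hw : (1000 : ℝ) * Y.w ≤ Y.m := by exact_mod_cast Y.hw
  have hb : 0 < Y.gb := hm.trans b2
  have hg0 : (0 : ℝ) < Y.gm := hm.trans hgm
  have b3 : (Y.gm : ℝ) ≤ 2 * Y.gb := by linarith [(abs_le.mp b1).1]
  have b4 : Y.gb ≤ 2 * Y.gm := by linarith [(abs_le.mp b1).2]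
  have h1 : Y.Tg g = ∑ a ∈ Y.D, ((Y.δ a : ℝ) - (g : ℝ) / Y.gb * (a.count g * Y.HH (Y.res a))) := by
    rw [Tg, sum_sub_distrib, ← mul_sum, Ap.n, Nat.cast_sum]
  have h2 := Y.fta_on g
  have h3 := Y.fta_off g τ fun x a b => (h x a b).2
  have h4 : ∑ a ∈ (Y.itv Y.gm (Y.gm + Y.m)).filter (Y.FtaP g), τ (Y.η a) ≤ M * Y.odd.card := by
    refine (sum_le_card_nsmul _ _ M fun a ha => ?_).trans ?_
    · obtain ⟨-, a2, a3⟩ := mem_filter.mp (mem_filter.mp ha).1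
      exact (h _ a2 a3).1
    · rw [nsmul_eq_mul, mul_comm]
      exact mul_le_mul_of_nonneg_left (Nat.cast_le.mpr (Y.fta_card hg _)) hM
  have h5 : ∑ a ∈ Y.D.filter (Y.FtaP g), (1 + (Y.η a : ℝ) / Y.gb) ≤
      2 / Y.gm * (∑ a ∈ Y.odd, (Y.η a : ℝ) + 6 * Y.gm * Y.odd.card) := by
    have h6 : ∑ a ∈ Y.D.filter (Y.FtaP g), ((Y.gm : ℝ) + Y.η a) ≤
        ∑ a ∈ Y.odd, (Y.η a : ℝ) + 6 * Y.gm * Y.odd.card := by exact_mod_cast Y.fta_od hg
    refine le_trans ?_ (mul_le_mul_of_nonneg_left h6 (by positivity))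
    rw [mul_sum]
    refine sum_le_sum fun a _ => ?_
    have h7 : (Y.η a : ℝ) / Y.gb ≤ 2 / Y.gm * Y.η a := by
      rw [div_eq_inv_mul]
      gcongr
      rw [inv_eq_one_div, div_le_div_iff₀ hb hg0]
      linarith
    rw [mul_add, div_mul_cancel₀ _ hg0.ne']
    linarith
  have h8 : Y.kc * (2 / Y.gm * (∑ a ∈ Y.odd, (Y.η a : ℝ) + 6 * Y.gm * Y.odd.card)) ≤
      14 * K * Y.Err := by
    have : Y.kc * (2 / Y.gm * (∑ a ∈ Y.odd, (Y.η a : ℝ) + 6 * Y.gm * Y.odd.card)) =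
        2 / Y.gm * (Y.kc * ∑ a ∈ Y.odd, (Y.η a : ℝ)) + 12 * (Y.kc * Y.odd.card) := by
      field_simp
      ring
    have h9 := mul_le_mul_of_nonneg_left o2 (show (0 : ℝ) ≤ 2 / Y.gm by positivity)
    rw [show 2 / (Y.gm : ℝ) * (K * Y.gm * Y.Err) = 2 * (K * Y.Err) by field_simp] at h9
    linarith
  rw [h1, ← sum_filter_add_sum_filter_not Y.D (Y.FtaP g),
    ← sum_filter_add_sum_filter_not (Y.itv _ _) (Y.FtaP g)]
  have h10 := mul_le_mul_of_nonneg_left (add_le_add (add_le_add h2 h3) (add_le_add h4 h5)) hk.le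
  have h11 := mul_le_mul_of_nonneg_left o1 hM
  have h12 : 0 ≤ M * (K * Y.Err) := mul_nonneg hM (le_trans (by positivity) o1)
  linarith

end Cl

end Pool.Agent.Lib.MP_299528_co.Bd
end

-- part Pool.Agent.Lib.MP_299528_co.W.Stein
section

/-! The exchange inequality. -/

set_option autoImplicit false

namespace Pool.Agent.Lib.MP_299528_co.Bd

open Finset

theorem stn_FF_nonneg (D₀ L x : ℝ) : 0 ≤ FF D₀ L x := le_max_left _ _

theorem stn_FF_le_one (D₀ L x : ℝ) : FF D₀ L x ≤ 1 := max_le zero_le_one (min_le_left _ _)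

theorem stn_FF_zero {D₀ L x : ℝ} (hL : 0 < L) (h : -x - D₀ ≤ 0) : FF D₀ L x = 0 := by
  unfold FF
  apply max_eq_left
  exact (min_le_right _ _).trans (div_nonpos_of_nonpos_of_nonneg h hL.le)

theorem stn_FF_one {D₀ L x : ℝ} (hL : 0 < L) (h : L ≤ -x - D₀) : FF D₀ L x = 1 := by
  unfold FF
  have h1 : 1 ≤ (-x - D₀) / L := (one_le_div hL).2 h
  rw [min_eq_left h1, max_eq_right zero_le_one]

theorem stn_clamp_lip {u v : ℝ} (h : u ≤ v) :
    0 ≤ max 0 (min 1 v) - max 0 (min 1 u) ∧ max 0 (min 1 v) - max 0 (min 1 u) ≤ v - u := by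
  rcases le_total 1 v with h1 | h1 <;> rcases le_total 1 u with h2 | h2 <;>
    rcases le_total 0 v with h3 | h3 <;> rcases le_total 0 u with h4 | h4 <;>
    simp only [min_eq_left, min_eq_right, max_eq_left, max_eq_right, h1, h2, h3, h4,
      zero_le_one] <;> constructor <;> linarith

theorem stn_FF_lip {D₀ L x y : ℝ} (hL : 0 < L) (h : x ≤ y) :
    0 ≤ FF D₀ L x - FF D₀ L y ∧ FF D₀ L x - FF D₀ L y ≤ (y - x) / L := by
  have h1 : (-y - D₀) / L ≤ (-x - D₀) / L := div_le_div_of_nonneg_right (by linarith) hL.le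
  have h2 := stn_clamp_lip h1
  have h3 : (-x - D₀) / L - (-y - D₀) / L = (y - x) / L := by ring
  rw [h3] at h2
  exact h2

theorem stn_FF_step {D₀ L : ℝ} (hL : 0 < L) (x c : ℝ) :
    0 ≤ c * (FF D₀ L (x - c) - FF D₀ L x) ∧ c * (FF D₀ L (x - c) - FF D₀ L x) ≤ c ^ 2 / L := by
  rcases le_total 0 c with hc | hc
  · obtain ⟨h1, h2⟩ := stn_FF_lip (D₀ := D₀) hL (show x - c ≤ x by linarith)
    refine ⟨mul_nonneg hc h1, ?_⟩
    calc c * (FF D₀ L (x - c) - FF D₀ L x) ≤ c * ((x - (x - c)) / L) :=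
          mul_le_mul_of_nonneg_left h2 hc
      _ = c ^ 2 / L := by ring
  · obtain ⟨h1, h2⟩ := stn_FF_lip (D₀ := D₀) hL (show x ≤ x - c by linarith)
    have e1 : c * (FF D₀ L (x - c) - FF D₀ L x) = (-c) * (FF D₀ L x - FF D₀ L (x - c)) := by ring
    rw [e1]
    refine ⟨mul_nonneg (by linarith) h1, ?_⟩
    calc (-c) * (FF D₀ L x - FF D₀ L (x - c)) ≤ (-c) * ((x - c - x) / L) :=
          mul_le_mul_of_nonneg_left h2 (by linarith)
      _ = c ^ 2 / L := by ring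

theorem stn_stein_pt {D₀ L θ x c p p' : ℝ} (hL : 0 < L) (hc : |c| ≤ 1) (hp : 0 ≤ p)
    (hpp : |p - p'| ≤ θ * p') :
    p' * FF D₀ L x * (-c - θ * |c|) - (1 + θ) / L * (if x < 1 - D₀ then p' * c ^ 2 else 0) ≤
      -(c * (p * FF D₀ L (x - c))) := by
  have hc' := abs_le.1 hc
  split_ifs with hx
  · obtain ⟨h1, h2⟩ := stn_FF_step (D₀ := D₀) hL x c
    have hF := stn_FF_nonneg D₀ L x
    have h3 : p ≤ (1 + θ) * p' := by have := (abs_le.1 hpp).2; linarith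
    have h4 : c * (p - p') ≤ |c| * (θ * p') := by
      calc c * (p - p') ≤ |c * (p - p')| := le_abs_self _
        _ = |c| * |p - p'| := abs_mul _ _
        _ ≤ |c| * (θ * p') := mul_le_mul_of_nonneg_left hpp (abs_nonneg _)
    have h5 : FF D₀ L x * (c * (p - p')) ≤ FF D₀ L x * (|c| * (θ * p')) :=
      mul_le_mul_of_nonneg_left h4 hF
    have h6 : p * (c * (FF D₀ L (x - c) - FF D₀ L x)) ≤ ((1 + θ) * p') * (c ^ 2 / L) :=
      mul_le_mul h3 h2 h1 (hp.trans h3)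
    have e1 : (1 + θ) / L * (p' * c ^ 2) = ((1 + θ) * p') * (c ^ 2 / L) := by ring
    rw [e1]
    nlinarith [h5, h6]
  · have hx' := not_lt.1 hx
    rw [stn_FF_zero hL (by linarith), stn_FF_zero hL (by linarith)]
    simp

theorem stn_XX_cons {N : Finset ℕ} (χ : ℕ → ℝ) {h : ℕ} (hh : h ∈ N) (a : Multiset ℕ) :
    XX N χ (h ::ₘ a) = XX N χ a + χ h := by
  unfold XX
  have e1 : ∀ g ∈ N, (((h ::ₘ a).count g : ℕ) : ℝ) * χ g =
      (a.count g : ℝ) * χ g + if g = h then χ g else 0 := by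
    intro g _
    rw [Multiset.count_cons]
    split_ifs <;> push_cast <;> ring
  rw [sum_congr rfl e1, sum_add_distrib, sum_ite_eq' N h, if_pos hh]

theorem stn_XX_mono {N : Finset ℕ} {χ χ' : ℕ → ℝ} (h : ∀ g ∈ N, χ g ≤ χ' g) (a : Multiset ℕ) :
    XX N χ a ≤ XX N χ' a :=
  sum_le_sum fun g hg => mul_le_mul_of_nonneg_left (h g hg) (Nat.cast_nonneg _)

theorem stn_XX_nonneg {N : Finset ℕ} {χ : ℕ → ℝ} (h : ∀ g ∈ N, 0 ≤ χ g) (a : Multiset ℕ) :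
    0 ≤ XX N χ a :=
  sum_nonneg fun g hg => mul_nonneg (Nat.cast_nonneg _) (h g hg)

theorem stn_XX_ind {A N : Finset ℕ} (hA : A ⊆ N) (p : ℝ) (a : Multiset ℕ) :
    XX N (fun h => (if h ∈ A then 1 else 0) + p) a = ct A a + p * ct N a := by
  unfold XX ct
  push_cast
  simp only [mul_add, sum_add_distrib, mul_ite, mul_one, mul_zero]
  rw [← sum_filter, filter_mem_eq_inter, inter_eq_right.2 hA, mul_sum]
  congr 1
  exact sum_congr rfl fun g _ => mul_comm _ _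

theorem stn_sq_le_abs_of {c : ℝ} (hc : |c| ≤ 1) : c ^ 2 ≤ |c| := by
  have h0 := abs_nonneg c
  rw [← sq_abs]
  nlinarith

namespace Ap

variable (Y : Ap)

theorem stn_Pu_subD (N : Finset ℕ) : Y.Pu N ⊆ Y.D := filter_subset _ _

theorem stn_sum_Us_eq {N : Finset ℕ} {h : ℕ} (hh : h ∈ N) (f : Multiset ℕ → ℝ) :
    ∑ a ∈ Y.Us h, f a = ∑ a ∈ Y.Pu N, f a - ∑ a ∈ Y.Pu N ∩ Y.Un h, f a := by
  have e1 : Y.Us h = (Y.Pu N).filter (fun a => h ::ₘ a ∈ Y.D) := by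
    ext a
    simp only [Us, Pu, mem_filter]
    constructor
    · rintro ⟨h1, h2⟩
      exact ⟨⟨h1, h, hh, h2⟩, h2⟩
    · rintro ⟨⟨h1, -⟩, h2⟩
      exact ⟨h1, h2⟩
  have e2 : Y.Pu N ∩ Y.Un h = (Y.Pu N).filter (fun a => ¬ (h ::ₘ a ∈ Y.D)) := by
    ext a
    simp only [Un, Pu, mem_filter, mem_inter]
    constructor
    · rintro ⟨h1, -, h2⟩
      exact ⟨h1, h2⟩
    · rintro ⟨h1, h2⟩
      exact ⟨h1, h1.1, h2⟩
  rw [e1, e2, ← sum_filter_add_sum_filter_not (Y.Pu N) (fun a => h ::ₘ a ∈ Y.D) f]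
  ring

theorem stn_l_nonneg {N : Finset ℕ} {l : ℝ} (hl : ∀ b ∈ Y.D, (ct N b : ℝ) ≤ l) : 0 ≤ l := by
  obtain ⟨b, hb⟩ : Y.D.Nonempty := card_pos.1 (by rw [Y.cardD]; exact Y.hm)
  exact (Nat.cast_nonneg _).trans (hl b hb)

/-- The general exchange inequality. -/
theorem stein (N : Finset ℕ) (χ : ℕ → ℝ) (hχ : ∀ h ∈ N, |χ h| ≤ 1) (h0 : ∑ h ∈ N, χ h = 0)
    (ψ ψ' : Multiset ℕ → ℝ) {θ D₀ L : ℝ} (hθ : 0 ≤ θ) (hL : 0 < L)
    (hψ0 : ∀ a ∈ Y.D, 0 ≤ ψ a) (hψ0' : ∀ b ∈ Y.D, 0 ≤ ψ' b)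
    (hψ : ∀ h ∈ N, ∀ a, h ::ₘ a ∈ Y.D → |ψ a - ψ' (h ::ₘ a)| ≤ θ * ψ' (h ::ₘ a)) :
    ∑ b ∈ Y.D, ψ' b * FF D₀ L (XX N χ b) * (-XX N χ b - θ * XX N (fun h => |χ h|) b) ≤
      ∑ a ∈ Y.Pu N, ψ a * max (-XX N χ a) 0 +
      ∑ h ∈ N, ∑ a ∈ Y.Pu N ∩ Y.Un h, ((a.count h : ℝ) + 1) * ψ a * max (χ h) 0 +
      (1 + θ) / L * ∑ b ∈ Y.D.filter (fun b => XX N χ b < 1 - D₀),
        ψ' b * XX N (fun h => χ h ^ 2) b := by
  have hup : -∑ h ∈ N, ∑ a ∈ Y.Us h,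
        ((a.count h : ℝ) + 1) * (χ h * (ψ a * FF D₀ L (XX N χ a))) ≤
      ∑ a ∈ Y.Pu N, ψ a * max (-XX N χ a) 0 +
      ∑ h ∈ N, ∑ a ∈ Y.Pu N ∩ Y.Un h, ((a.count h : ℝ) + 1) * ψ a * max (χ h) 0 := by
    rw [sum_congr rfl fun h hh => Y.stn_sum_Us_eq hh _, sum_sub_distrib, sum_comm (s := N)]
    have e1 : ∀ a ∈ Y.Pu N, ∑ h ∈ N, ((a.count h : ℝ) + 1) * (χ h * (ψ a * FF D₀ L (XX N χ a))) =
        (ψ a * FF D₀ L (XX N χ a)) * XX N χ a := by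
      intro a _
      have e2 : XX N χ a = ∑ h ∈ N, ((a.count h : ℝ) + 1) * χ h := by
        simp only [add_mul, one_mul, sum_add_distrib, h0, add_zero, XX]
      generalize ψ a * FF D₀ L (XX N χ a) = t
      rw [e2, mul_sum]
      exact sum_congr rfl fun h _ => by ring
    rw [sum_congr rfl e1, neg_sub, sub_eq_neg_add, ← sum_neg_distrib]
    apply add_le_add
    · apply sum_le_sum
      intro a ha
      have h1 := hψ0 a (Y.stn_Pu_subD N ha)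
      have h2 := stn_FF_nonneg D₀ L (XX N χ a)
      have h3 := stn_FF_le_one D₀ L (XX N χ a)
      have h4 : FF D₀ L (XX N χ a) * (-XX N χ a) ≤ max (-XX N χ a) 0 := by
        calc FF D₀ L (XX N χ a) * (-XX N χ a) ≤ FF D₀ L (XX N χ a) * max (-XX N χ a) 0 :=
              mul_le_mul_of_nonneg_left (le_max_left _ _) h2
          _ ≤ 1 * max (-XX N χ a) 0 := mul_le_mul_of_nonneg_right h3 (le_max_right _ _)
          _ = _ := one_mul _
      calc -(ψ a * FF D₀ L (XX N χ a) * XX N χ a)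
          = ψ a * (FF D₀ L (XX N χ a) * (-XX N χ a)) := by ring
        _ ≤ _ := mul_le_mul_of_nonneg_left h4 h1
    · apply sum_le_sum
      intro h _
      apply sum_le_sum
      intro a ha
      have h1 := hψ0 a (Y.stn_Pu_subD N (mem_inter.1 ha).1)
      have h2 := stn_FF_nonneg D₀ L (XX N χ a)
      have h3 := stn_FF_le_one D₀ L (XX N χ a)
      have h4 : FF D₀ L (XX N χ a) * χ h ≤ max (χ h) 0 := by
        calc FF D₀ L (XX N χ a) * χ h ≤ FF D₀ L (XX N χ a) * max (χ h) 0 :=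
              mul_le_mul_of_nonneg_left (le_max_left _ _) h2
          _ ≤ 1 * max (χ h) 0 := mul_le_mul_of_nonneg_right h3 (le_max_right _ _)
          _ = _ := one_mul _
      have h5 : 0 ≤ ((a.count h : ℝ) + 1) * ψ a := mul_nonneg (by positivity) h1
      calc ((a.count h : ℝ) + 1) * (χ h * (ψ a * FF D₀ L (XX N χ a)))
          = ((a.count h : ℝ) + 1) * ψ a * (FF D₀ L (XX N χ a) * χ h) := by ring
        _ ≤ _ := mul_le_mul_of_nonneg_left h4 h5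
  have hlo : ∀ h ∈ N, ∑ b ∈ Y.D, (b.count h : ℝ) *
        (ψ' b * FF D₀ L (XX N χ b) * (-χ h - θ * |χ h|) -
          (1 + θ) / L * (if XX N χ b < 1 - D₀ then ψ' b * χ h ^ 2 else 0)) ≤
      -∑ a ∈ Y.Us h, ((a.count h : ℝ) + 1) * (χ h * (ψ a * FF D₀ L (XX N χ a))) := by
    intro h hh
    have e1 := Y.sum_count h (fun b => ψ' b * FF D₀ L (XX N χ b) * (-χ h - θ * |χ h|) -
          (1 + θ) / L * (if XX N χ b < 1 - D₀ then ψ' b * χ h ^ 2 else 0))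
    simp only [nsmul_eq_mul] at e1
    rw [e1, ← sum_neg_distrib]
    apply sum_le_sum
    intro a ha
    obtain ⟨ha1, ha2⟩ := mem_filter.1 ha
    have h1 := stn_stein_pt (D₀ := D₀) (x := XX N χ (h ::ₘ a)) hL (hχ h hh) (hψ0 a ha1) (hψ h hh a ha2)
    have e2 : XX N χ (h ::ₘ a) - χ h = XX N χ a := by rw [stn_XX_cons χ hh]; ring
    rw [e2] at h1
    have h2 := mul_le_mul_of_nonneg_left h1 (show (0 : ℝ) ≤ (a.count h : ℝ) + 1 by positivity)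
    push_cast
    linarith
  have hs := sum_le_sum hlo
  rw [sum_neg_distrib, sum_comm] at hs
  have e3 : ∀ b ∈ Y.D, ∑ h ∈ N, (b.count h : ℝ) *
        (ψ' b * FF D₀ L (XX N χ b) * (-χ h - θ * |χ h|) -
          (1 + θ) / L * (if XX N χ b < 1 - D₀ then ψ' b * χ h ^ 2 else 0)) =
      ψ' b * FF D₀ L (XX N χ b) * (-XX N χ b - θ * XX N (fun h => |χ h|) b) -
        (1 + θ) / L * (if XX N χ b < 1 - D₀ then ψ' b * XX N (fun h => χ h ^ 2) b else 0) := by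
    intro b _
    generalize ψ' b * FF D₀ L (XX N χ b) = t
    split_ifs with hx
    · simp only [XX, mul_sum, ← sum_neg_distrib, ← sum_sub_distrib]
      exact sum_congr rfl fun h _ => by ring
    · simp only [XX, mul_sum, ← sum_neg_distrib, ← sum_sub_distrib, mul_zero, sub_zero]
      exact sum_congr rfl fun h _ => by ring
  rw [sum_congr rfl e3, sum_sub_distrib, ← mul_sum, ← sum_filter] at hs
  linarith

/-- The exchange inequality for the number of letters in a subset. -/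
theorem stein_set {A N : Finset ℕ} (hA : A ⊆ N) {l θ e : ℝ} (hl : ∀ b ∈ Y.D, (ct N b : ℝ) ≤ l)
    (hθ : 0 ≤ θ) (hθ1 : θ ≤ 1) (he : 0 < e) (ψ ψ' : Multiset ℕ → ℝ)
    (hψ0 : ∀ a ∈ Y.D, 0 ≤ ψ a) (hψ0' : ∀ b ∈ Y.D, 0 ≤ ψ' b)
    (hψ : ∀ h ∈ N, ∀ a, h ::ₘ a ∈ Y.D → |ψ a - ψ' (h ::ₘ a)| ≤ θ * ψ' (h ::ₘ a))
    {B : Finset (Multiset ℕ)} (hB : B ⊆ Y.D) (hB1 : ∀ b ∈ B, ψ' b = 1) :
    ∑ b ∈ B, max ((A.card : ℝ) / N.card * ct N b - ct A b) 0 ≤
      ∑ g ∈ A, ∑ a ∈ Y.Pu N ∩ Y.Un g, ((a.count g : ℝ) + 1) * ψ a +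
      (A.card : ℝ) / N.card * l * ∑ a ∈ Y.Pu N, ψ a +
      B.card * ((θ + e) * (1 + 2 * ((A.card : ℝ) / N.card) * l) + 1) +
      2 / e * ∑ b ∈ Y.D, ψ' b := by
  have hl0 : 0 ≤ l := Y.stn_l_nonneg hl
  obtain ⟨p, hp⟩ : ∃ p : ℝ, p = (A.card : ℝ) / N.card := ⟨_, rfl⟩
  rw [← hp]
  have hp0 : 0 ≤ p := by rw [hp]; positivity
  have hp1 : p ≤ 1 := by
    rw [hp]
    exact div_le_one_of_le₀ (by exact_mod_cast card_le_card hA) (Nat.cast_nonneg _)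
  have hpN : p * N.card = A.card := by
    rcases Nat.eq_zero_or_pos N.card with hN | hN
    · have hA0 : A.card = 0 := Nat.eq_zero_of_le_zero (hN ▸ card_le_card hA)
      rw [hN, hA0]; simp
    · rw [hp]
      have : (N.card : ℝ) ≠ 0 := by exact_mod_cast hN.ne'
      field_simp
  obtain ⟨χ, hχd⟩ : ∃ χ : ℕ → ℝ, χ = fun h => (if h ∈ A then 1 else 0) + -p := ⟨_, rfl⟩
  have hχ : ∀ h ∈ N, |χ h| ≤ 1 := by
    intro h _
    rw [hχd, abs_le]
    dsimp only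
    split_ifs <;> constructor <;> linarith
  have h0 : ∑ h ∈ N, χ h = 0 := by
    rw [hχd, sum_add_distrib, ← sum_filter, filter_mem_eq_inter, inter_eq_right.2 hA]
    simp only [sum_const, nsmul_eq_mul]
    linarith
  have hX : ∀ b, XX N χ b = ct A b - p * ct N b := by
    intro b
    rw [hχd, stn_XX_ind hA]
    ring
  have hQ1 : ∀ b ∈ Y.D, XX N χ b < 1 → XX N (fun h => |χ h|) b ≤ 1 + 2 * p * l := by
    intro b hb hx
    have h1 : XX N (fun h => |χ h|) b ≤ XX N (fun h => (if h ∈ A then 1 else 0) + p) b := by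
      apply stn_XX_mono
      intro g _
      rw [hχd, abs_le]
      dsimp only
      split_ifs <;> constructor <;> linarith
    rw [stn_XX_ind hA] at h1
    rw [hX] at hx
    have h2 := mul_le_mul_of_nonneg_left (hl b hb) hp0
    linarith
  obtain ⟨B0, hB0⟩ : ∃ B0 : ℝ, B0 = 1 + 2 * p * l := ⟨_, rfl⟩
  rw [← hB0] at hQ1 ⊢
  have hB0p : 0 < B0 := by rw [hB0]; positivity
  have hD : 0 ≤ θ * B0 := by positivity
  have hL : 0 < e * B0 + 1 := by positivity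
  have hS := Y.stein N χ hχ h0 ψ ψ' (D₀ := θ * B0) hθ hL hψ0 hψ0' hψ
  have hΦ0 : ∀ b ∈ Y.D, 0 ≤ FF (θ * B0) (e * B0 + 1) (XX N χ b) *
      (-XX N χ b - θ * XX N (fun h => |χ h|) b) := by
    intro b hb
    rcases le_or_gt (-XX N χ b - θ * B0) 0 with h1 | h1
    · rw [stn_FF_zero hL h1, zero_mul]
    · have h2 := mul_le_mul_of_nonneg_left (hQ1 b hb (by linarith)) hθ
      exact mul_nonneg (stn_FF_nonneg _ _ _) (by linarith)
  have hΦ1 : ∀ b ∈ B, max (p * ct N b - ct A b) 0 ≤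
      ψ' b * FF (θ * B0) (e * B0 + 1) (XX N χ b) *
        (-XX N χ b - θ * XX N (fun h => |χ h|) b) + ((θ + e) * B0 + 1) := by
    intro b hb
    have h3 := hΦ0 b (hB hb)
    have e1 : p * ct N b - ct A b = -XX N χ b := by rw [hX]; ring
    rw [hB1 b hb, one_mul, e1]
    apply max_le
    · rcases le_total (e * B0 + 1) (-XX N χ b - θ * B0) with h1 | h1
      · have h2 := mul_le_mul_of_nonneg_left (hQ1 b (hB hb) (by linarith)) hθ
        rw [stn_FF_one hL h1]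
        linarith
      · linarith
    · linarith
  have s0 : ∑ b ∈ B, max (p * ct N b - ct A b) 0 ≤
      ∑ b ∈ Y.D, ψ' b * FF (θ * B0) (e * B0 + 1) (XX N χ b) *
        (-XX N χ b - θ * XX N (fun h => |χ h|) b) + B.card * ((θ + e) * B0 + 1) := by
    refine (sum_le_sum hΦ1).trans ?_
    rw [sum_add_distrib, sum_const, nsmul_eq_mul]
    refine add_le_add ?_ le_rfl
    apply sum_le_sum_of_subset_of_nonneg hB
    intro b hb _
    rw [mul_assoc]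
    exact mul_nonneg (hψ0' b hb) (hΦ0 b hb)
  have s1 : ∑ a ∈ Y.Pu N, ψ a * max (-XX N χ a) 0 ≤ p * l * ∑ a ∈ Y.Pu N, ψ a := by
    rw [mul_sum]
    apply sum_le_sum
    intro a ha
    have ha' := Y.stn_Pu_subD N ha
    rw [mul_comm (p * l)]
    apply mul_le_mul_of_nonneg_left _ (hψ0 a ha')
    apply max_le _ (by positivity)
    rw [hX]
    have h2 := mul_le_mul_of_nonneg_left (hl a ha') hp0
    have h3 : (0 : ℝ) ≤ ct A a := Nat.cast_nonneg _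
    linarith
  have s2 : ∑ h ∈ N, ∑ a ∈ Y.Pu N ∩ Y.Un h, ((a.count h : ℝ) + 1) * ψ a * max (χ h) 0 ≤
      ∑ g ∈ A, ∑ a ∈ Y.Pu N ∩ Y.Un g, ((a.count g : ℝ) + 1) * ψ a := by
    rw [← sum_subset hA]
    · apply sum_le_sum
      intro h hh
      apply sum_le_sum
      intro a ha
      have h1 := hψ0 a (Y.stn_Pu_subD N (mem_inter.1 ha).1)
      have h5 : 0 ≤ ((a.count h : ℝ) + 1) * ψ a := mul_nonneg (by positivity) h1
      exact mul_le_of_le_one_right h5 (max_le (abs_le.1 (hχ h (hA hh))).2 zero_le_one)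
    · intro h _ hh
      have h1 : max (χ h) 0 = 0 := by
        apply max_eq_right
        rw [hχd]
        dsimp only
        rw [if_neg hh]
        linarith
      rw [h1]
      simp
  have s3 : (1 + θ) / (e * B0 + 1) * ∑ b ∈ Y.D.filter (fun b => XX N χ b < 1 - θ * B0),
        ψ' b * XX N (fun h => χ h ^ 2) b ≤ 2 / e * ∑ b ∈ Y.D, ψ' b := by
    have h1 : ∑ b ∈ Y.D.filter (fun b => XX N χ b < 1 - θ * B0),
        ψ' b * XX N (fun h => χ h ^ 2) b ≤ B0 * ∑ b ∈ Y.D, ψ' b := by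
      rw [mul_sum]
      refine le_trans (sum_le_sum ?_) (sum_le_sum_of_subset_of_nonneg (filter_subset _ _)
        fun b hb _ => mul_nonneg hB0p.le (hψ0' b hb))
      intro b hb
      obtain ⟨hb1, hb2⟩ := mem_filter.1 hb
      rw [mul_comm B0]
      apply mul_le_mul_of_nonneg_left _ (hψ0' b hb1)
      exact (stn_XX_mono (fun g hg => stn_sq_le_abs_of (hχ g hg)) b).trans (hQ1 b hb1 (by linarith))
    have h2 : 0 ≤ ∑ b ∈ Y.D, ψ' b := sum_nonneg hψ0'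
    have h3 : (1 + θ) / (e * B0 + 1) * B0 ≤ 2 / e := by
      rw [div_mul_eq_mul_div, div_le_div_iff₀ hL he]
      have h4 : 0 ≤ (1 - θ) * (e * B0) := mul_nonneg (by linarith) (by positivity)
      nlinarith
    calc _ ≤ (1 + θ) / (e * B0 + 1) * (B0 * ∑ b ∈ Y.D, ψ' b) :=
          mul_le_mul_of_nonneg_left h1 (by positivity)
      _ = (1 + θ) / (e * B0 + 1) * B0 * ∑ b ∈ Y.D, ψ' b := by ring
      _ ≤ _ := mul_le_mul_of_nonneg_right h3 h2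
  linarith

/-- The exchange inequality for the weight. -/
theorem stein_V {N : Finset ℕ} {l W L g₀ : ℝ} (hg : ∑ h ∈ N, ((h : ℝ) - g₀) = 0)
    (hl : ∀ b ∈ Y.D, (ct N b : ℝ) ≤ l) (hW0 : 0 < W) (hW : ∀ h ∈ N, |(h : ℝ) - g₀| ≤ W)
    (hL : 0 < L) :
    ∑ b ∈ Y.D, max ((wt N b : ℝ) - ct N b * g₀) 0 ≤
      W * (Y.m * L + l * Y.low.card + Y.GS N) +
      1 / L * ∑ h ∈ N, |(h : ℝ) - g₀| * Y.AA h := by
  have hl0 : 0 ≤ l := Y.stn_l_nonneg hl
  obtain ⟨χ, hχd⟩ : ∃ χ : ℕ → ℝ, χ = fun h : ℕ => -((h : ℝ) - g₀) / W := ⟨_, rfl⟩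
  have hχW : ∀ h : ℕ, W * |χ h| = |(h : ℝ) - g₀| := by
    intro h
    rw [hχd]
    dsimp only
    rw [abs_div, abs_neg, abs_of_pos hW0]
    field_simp
  have hχ : ∀ h ∈ N, |χ h| ≤ 1 := by
    intro h hh
    have h1 := hW h hh
    rw [← hχW] at h1
    exact le_of_mul_le_mul_left (by linarith) hW0
  have h0 : ∑ h ∈ N, χ h = 0 := by
    rw [hχd, ← sum_div, sum_neg_distrib, hg]
    simp
  have hX : ∀ b, (wt N b : ℝ) - ct N b * g₀ = W * -XX N χ b := by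
    intro b
    rw [hχd]
    unfold XX wt ct
    push_cast
    rw [← sum_neg_distrib, mul_sum, sum_mul, ← sum_sub_distrib]
    refine sum_congr rfl fun h _ => ?_
    field_simp
  have hS := Y.stein N χ hχ h0 (fun _ => 1) (fun _ => 1) (θ := 0) (D₀ := 0) le_rfl hL
    (fun _ _ => zero_le_one) (fun _ _ => zero_le_one) (fun _ _ _ _ => by simp)
  simp only [one_mul, mul_one, zero_mul, sub_zero, add_zero] at hS
  have hΦ1 : ∀ b ∈ Y.D, max (-XX N χ b) 0 ≤ FF 0 L (XX N χ b) * (-XX N χ b) + L := by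
    intro b _
    have h3 : 0 ≤ FF 0 L (XX N χ b) * (-XX N χ b) := by
      rcases le_total (-XX N χ b - 0) 0 with h1 | h1
      · rw [stn_FF_zero hL h1, zero_mul]
      · exact mul_nonneg (stn_FF_nonneg _ _ _) (by linarith)
    apply max_le
    · rcases le_total L (-XX N χ b - 0) with h1 | h1
      · rw [stn_FF_one hL h1]
        linarith
      · linarith
    · linarith
  have s0 : ∑ b ∈ Y.D, max (-XX N χ b) 0 ≤
      ∑ b ∈ Y.D, FF 0 L (XX N χ b) * (-XX N χ b) + Y.m * L := by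
    refine (sum_le_sum hΦ1).trans ?_
    rw [sum_add_distrib, sum_const, nsmul_eq_mul, Y.cardD]
  have s1 : ∑ a ∈ Y.Pu N, max (-XX N χ a) 0 ≤ l * Y.low.card := by
    have h1 : ∀ a ∈ Y.Pu N, max (-XX N χ a) 0 ≤ l := by
      intro a ha
      apply max_le _ hl0
      refine le_trans ?_ (hl a (Y.stn_Pu_subD N ha))
      unfold XX ct
      push_cast
      rw [← sum_neg_distrib]
      apply sum_le_sum
      intro h hh
      have h2 := (abs_le.1 (hχ h hh)).1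
      have h3 : (0 : ℝ) ≤ a.count h := Nat.cast_nonneg _
      nlinarith
    refine (sum_le_sum h1).trans ?_
    rw [sum_const, nsmul_eq_mul, mul_comm]
    exact mul_le_mul_of_nonneg_left (by exact_mod_cast card_le_card (Y.Pu_sub N)) hl0
  have s2 : ∑ h ∈ N, ∑ a ∈ Y.Pu N ∩ Y.Un h, ((a.count h : ℝ) + 1) * max (χ h) 0 ≤ Y.GS N := by
    unfold GS
    push_cast
    apply sum_le_sum
    intro h hh
    have h1 := Y.un_le_GG h (P := Y.Pu N) 1 fun a ha => (Y.η_low (Y.Pu_sub N ha)).1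
    rw [one_mul] at h1
    have h2 : ∑ a ∈ Y.Pu N ∩ Y.Un h, ((a.count h : ℝ) + 1) ≤ Y.GG h := by exact_mod_cast h1
    refine le_trans (sum_le_sum fun a _ => ?_) h2
    exact mul_le_of_le_one_right (by positivity) (max_le (abs_le.1 (hχ h hh)).2 zero_le_one)
  have s3 : W * ∑ b ∈ Y.D.filter (fun b => XX N χ b < 1), XX N (fun h => χ h ^ 2) b ≤
      ∑ h ∈ N, |(h : ℝ) - g₀| * Y.AA h := by
    have h1 : ∑ b ∈ Y.D.filter (fun b => XX N χ b < 1), XX N (fun h => χ h ^ 2) b ≤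
        ∑ b ∈ Y.D, XX N (fun h => |χ h|) b :=
      le_trans (sum_le_sum fun b _ => stn_XX_mono (fun g hg => stn_sq_le_abs_of (hχ g hg)) b)
        (sum_le_sum_of_subset_of_nonneg (filter_subset _ _)
          fun b _ _ => stn_XX_nonneg (fun g _ => abs_nonneg _) b)
    refine (mul_le_mul_of_nonneg_left h1 hW0.le).trans (le_of_eq ?_)
    unfold XX AA
    rw [sum_comm, mul_sum]
    refine sum_congr rfl fun h _ => ?_
    push_cast
    rw [← hχW, ← sum_mul]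
    ring
  have e1 : ∑ b ∈ Y.D, max ((wt N b : ℝ) - ct N b * g₀) 0 = W * ∑ b ∈ Y.D, max (-XX N χ b) 0 := by
    rw [mul_sum]
    refine sum_congr rfl fun b _ => ?_
    rw [hX, mul_max_of_nonneg _ _ hW0.le, mul_zero]
  rw [e1]
  have s4 := mul_le_mul_of_nonneg_left s3 (show 0 ≤ 1 / L by positivity)
  have s5 : ∑ b ∈ Y.D, max (-XX N χ b) 0 ≤ (Y.m * L + l * Y.low.card + Y.GS N) +
      1 / L * ∑ b ∈ Y.D.filter (fun b => XX N χ b < 1), XX N (fun h => χ h ^ 2) b := by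
    linarith
  have s6 := mul_le_mul_of_nonneg_left s5 hW0.le
  nlinarith [s4, s6]

end Ap

end Pool.Agent.Lib.MP_299528_co.Bd
end
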